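import Pool.Agent.Lib.MP_7c5fb9_nt.LO.Alg
import Pool.Agent.Lib.MP_7c5fb9_nt.LO.SqTwo

set_option autoImplicit false

/-!
# Level two (MP_7c5fb9_nt, project LT): from residue classes to local algebras, two not inert
-/

namespace Pool.Agent.Lib.MP_7c5fb9_nt

namespace LT

open LO

/-- A discriminant `5` modulo `8` gives the unramified extension of `ℚ_2`. -/
theorem mod_eight_ne [Fact (Nat.Prime 2)] {D : ℕ} {d : ℤ}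
    (h : IsSquare (((D : ℤ) * d : ℤ) : ℚ_[2])) (h5 : ¬ IsSquare (((5 * d : ℤ) : ℤ) : ℚ_[2])) :
    D % 8 ≠ 5 := by
  intro hD
  have hD0 : (D : ℚ_[2]) ≠ 0 := by
    have : D ≠ 0 := by omega
    exact_mod_cast this
  obtain ⟨x, hx⟩ := h
  obtain ⟨y, hy⟩ := SqTwoAux.sq_one (5 * (D : ℤ)) (by omega)
  apply h5
  refine ⟨x * y / D, ?_⟩
  have e : x * y / (D : ℚ_[2]) * (x * y / D) = (x * x) * (y * y) / (D * D) := by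
    field_simp
  rw [e, ← hx, ← hy]
  push_cast
  field_simp

/-- (Alg) from residue classes to local algebras, two not inert. -/
theorem stAlgTwo (hCount : StCountB) (hOdd : StSqOdd) (hTwo : StSqTwo) (B : ℕ → Prop)
    (H : ∀ (M ρ : ℕ), RealTwo M ρ → ¬ (M = 8 ∧ ρ = 5) →
      ∀ P : Finset ℕ, (∀ p ∈ P, p.Prime ∧ 5 ≤ p) →
      ∀ r : ℕ, (∀ p ∈ P, ¬ p ^ 2 ∣ r) →
        (∃ c : ℝ, 0 < c ∧ ∃ X₀ : ℕ, ∀ X : ℕ, X₀ ≤ X →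
          c * X ≤ ({D : ℕ | D ≤ X ∧ FD D ∧ D % 3 = 2 ∧ D % M = ρ ∧
            D % (∏ p ∈ P, p ^ 2) = r % (∏ p ∈ P, p ^ 2) ∧ B D}.ncard : ℝ)) ∧
        ∀ ε : ℝ, 0 < ε → ∃ X₀ : ℕ, ∀ X : ℕ, X₀ ≤ X →
          (1 / 2 - ε) * ({D : ℕ | D ≤ X ∧ FD D ∧ D % 3 = 2 ∧ D % M = ρ ∧
            D % (∏ p ∈ P, p ^ 2) = r % (∏ p ∈ P, p ^ 2)}.ncard : ℝ) ≤
          ({D : ℕ | D ≤ X ∧ FD D ∧ D % 3 = 2 ∧ D % M = ρ ∧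
            D % (∏ p ∈ P, p ^ 2) = r % (∏ p ∈ P, p ^ 2) ∧ B D}.ncard : ℝ)) :
    ∀ (P : Finset ℕ) (d : ℕ → ℤ), 2 ∈ P → (∀ p ∈ P, p.Prime ∧ p ≠ 3 ∧ d p ≠ 0) →
      (∀ [Fact (Nat.Prime 2)], ¬ IsSquare (((5 * d 2 : ℤ) : ℤ) : ℚ_[2])) →
      (∃ c : ℝ, 0 < c ∧ ∃ X₀ : ℕ, ∀ X : ℕ, X₀ ≤ X →
        c * X ≤ ({D : ℕ | D ≤ X ∧ FD D ∧ D % 3 = 2 ∧ LocAt P d D ∧ B D}.ncard : ℝ)) ∧
      ∀ ε : ℝ, 0 < ε → ∃ X₀ : ℕ, ∀ X : ℕ, X₀ ≤ X →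
        (1 / 2 - ε) * ({D : ℕ | D ≤ X ∧ FD D ∧ D % 3 = 2 ∧ LocAt P d D}.ncard : ℝ) ≤
          ({D : ℕ | D ≤ X ∧ FD D ∧ D % 3 = 2 ∧ LocAt P d D ∧ B D}.ncard : ℝ) := by
  intro P d h2 hP h5
  have h := stAlg hOdd hTwo (fun D => B D ∨ D % 8 = 5) ?_ P d hP
  · have e : ∀ X : ℕ, {D : ℕ | D ≤ X ∧ FD D ∧ D % 3 = 2 ∧ LocAt P d D ∧ (B D ∨ D % 8 = 5)} =
        {D : ℕ | D ≤ X ∧ FD D ∧ D % 3 = 2 ∧ LocAt P d D ∧ B D} := by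
      intro X
      ext D
      constructor
      · rintro ⟨a1, a2, a3, a4, a5⟩
        refine ⟨a1, a2, a3, a4, ?_⟩
        rcases a5 with a5 | a5
        · exact a5
        · have : Fact (Nat.Prime 2) := ⟨Nat.prime_two⟩
          exact absurd a5 (mod_eight_ne (a4 2 h2) h5)
      · rintro ⟨a1, a2, a3, a4, a5⟩
        exact ⟨a1, a2, a3, a4, Or.inl a5⟩
    simp only [e] at h
    exact h
  · intro M ρ hM Q hQ r hr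
    by_cases h8 : M = 8 ∧ ρ = 5
    · obtain ⟨rfl, rfl⟩ := h8
      obtain ⟨h1, -⟩ := hCount 8 5 hM Q hQ r hr
      have e : ∀ X : ℕ, {D : ℕ | D ≤ X ∧ FD D ∧ D % 3 = 2 ∧ D % 8 = 5 ∧
          D % (∏ p ∈ Q, p ^ 2) = r % (∏ p ∈ Q, p ^ 2) ∧ (B D ∨ D % 8 = 5)} =
          {D : ℕ | D ≤ X ∧ FD D ∧ D % 3 = 2 ∧ D % 8 = 5 ∧
          D % (∏ p ∈ Q, p ^ 2) = r % (∏ p ∈ Q, p ^ 2)} := by
        intro X
        ext D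
        constructor
        · rintro ⟨a1, a2, a3, a4, a5, -⟩
          exact ⟨a1, a2, a3, a4, a5⟩
        · rintro ⟨a1, a2, a3, a4, a5⟩
          exact ⟨a1, a2, a3, a4, a5, Or.inr a4⟩
      simp only [e]
      refine ⟨h1, fun ε hε => ⟨0, fun X _ => ?_⟩⟩
      have hn : (0 : ℝ) ≤ ({D : ℕ | D ≤ X ∧ FD D ∧ D % 3 = 2 ∧ D % 8 = 5 ∧
          D % (∏ p ∈ Q, p ^ 2) = r % (∏ p ∈ Q, p ^ 2)}.ncard : ℝ) := Nat.cast_nonneg _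
      nlinarith
    · obtain ⟨⟨c, hc, X₁, hX₁⟩, h2'⟩ := H M ρ hM h8 Q hQ r hr
      have hle : ∀ X : ℕ, ({D : ℕ | D ≤ X ∧ FD D ∧ D % 3 = 2 ∧ D % M = ρ ∧
          D % (∏ p ∈ Q, p ^ 2) = r % (∏ p ∈ Q, p ^ 2) ∧ B D}.ncard : ℝ) ≤
          ({D : ℕ | D ≤ X ∧ FD D ∧ D % 3 = 2 ∧ D % M = ρ ∧
          D % (∏ p ∈ Q, p ^ 2) = r % (∏ p ∈ Q, p ^ 2) ∧ (B D ∨ D % 8 = 5)}.ncard : ℝ) := by
        intro X
        have hfin : {D : ℕ | D ≤ X ∧ FD D ∧ D % 3 = 2 ∧ D % M = ρ ∧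
            D % (∏ p ∈ Q, p ^ 2) = r % (∏ p ∈ Q, p ^ 2) ∧ (B D ∨ D % 8 = 5)}.Finite :=
          (Set.finite_Iic X).subset fun D hD => hD.1
        refine Nat.cast_le.2 (Set.ncard_le_ncard ?_ hfin)
        rintro D ⟨a1, a2, a3, a4, a5, a6⟩
        exact ⟨a1, a2, a3, a4, a5, Or.inl a6⟩
      refine ⟨⟨c, hc, X₁, fun X hX => (hX₁ X hX).trans (hle X)⟩, fun ε hε => ?_⟩
      obtain ⟨X₂, hX₂⟩ := h2' ε hε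
      exact ⟨X₂, fun X hX => (hX₂ X hX).trans (hle X)⟩

end LT

end Pool.Agent.Lib.MP_7c5fb9_nt
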