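import Pool.Agent.Lib.MP_7c5fb9_nt.LT.Stmts
import Pool.Agent.Lib.MP_7c5fb9_nt.LO.Basic

set_option autoImplicit false

/-!
# Level two (MP_7c5fb9_nt, project LT): the cocycle
-/

namespace Pool.Agent.Lib.MP_7c5fb9_nt

namespace LT

open LO UpperHalfPlane Filter Topology
open scoped MatrixGroups Polynomial

namespace Coc2

/-! ### Fractional linear transformations -/

/-- The denominator. -/
noncomputable def dn (M : Mat) (z : ℂ) : ℂ := (M 1 0 : ℂ) * z + M 1 1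

/-- The numerator. -/
noncomputable def nm (M : Mat) (z : ℂ) : ℂ := (M 0 0 : ℂ) * z + M 0 1

theorem mb_eq (M : Mat) (z : ℂ) : mb M z = nm M z / dn M z := rfl

theorem det_eq (M : Mat) : M.det = M 0 0 * M 1 1 - M 0 1 * M 1 0 := Matrix.det_fin_two M

theorem det_eqC (M : Mat) : (M.det : ℂ) = M 0 0 * M 1 1 - M 0 1 * M 1 0 := by
  rw [det_eq]
  push_cast
  ring

theorem dn_ne {M : Mat} (hM : 0 < M.det) {z : ℂ} (hz : 0 < z.im) : dn M z ≠ 0 := by
  intro h
  have h1 : (dn M z).im = (M 1 0 : ℝ) * z.im := by simp [dn]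
  have h2 : (dn M z).re = (M 1 0 : ℝ) * z.re + M 1 1 := by simp [dn]
  rw [h] at h1 h2
  simp only [Complex.zero_im, Complex.zero_re] at h1 h2
  have h3 : (M 1 0 : ℝ) = 0 := by
    rcases mul_eq_zero.mp h1.symm with h | h
    · exact h
    · exact absurd h hz.ne'
  rw [h3] at h2
  have h4 : (M 1 1 : ℝ) = 0 := by linarith
  have h5 : M 1 0 = 0 := by exact_mod_cast h3
  have h6 : M 1 1 = 0 := by exact_mod_cast h4
  rw [det_eq, h5, h6] at hM
  simp at hM

theorem im_mb {M : Mat} (hM : 0 < M.det) {z : ℂ} (hz : 0 < z.im) : 0 < (mb M z).im := by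
  have h := dn_ne hM hz
  have h0 : 0 < Complex.normSq (dn M z) := Complex.normSq_pos.2 h
  have h1 : (mb M z).im = M.det * z.im / Complex.normSq (dn M z) := by
    rw [mb_eq, Complex.div_im, det_eq]
    have e1 : (nm M z).im = M 0 0 * z.im := by simp [nm]
    have e2 : (nm M z).re = M 0 0 * z.re + M 0 1 := by simp [nm]
    have e3 : (dn M z).im = M 1 0 * z.im := by simp [dn]
    have e4 : (dn M z).re = M 1 0 * z.re + M 1 1 := by simp [dn]
    rw [e1, e2, e3, e4, ← sub_div]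
    push_cast
    congr 1
    ring
  rw [h1]
  have h2 : (0 : ℝ) < M.det := by exact_mod_cast hM
  positivity

theorem dn_mul {M N : Mat} (hN : 0 < N.det) {z : ℂ} (hz : 0 < z.im) :
    dn (M * N) z = dn M (mb N z) * dn N z := by
  have h := dn_ne hN hz
  rw [mb_eq]
  have h1 : dn (M * N) z = (M 1 0 : ℂ) * nm N z + M 1 1 * dn N z := by
    simp only [dn, nm, Matrix.mul_apply, Fin.sum_univ_two]
    push_cast
    ring
  rw [h1]
  show _ = ((M 1 0 : ℂ) * (nm N z / dn N z) + M 1 1) * dn N z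
  field_simp

theorem nm_mul {M N : Mat} (hN : 0 < N.det) {z : ℂ} (hz : 0 < z.im) :
    nm (M * N) z = nm M (mb N z) * dn N z := by
  have h := dn_ne hN hz
  rw [mb_eq]
  have h1 : nm (M * N) z = (M 0 0 : ℂ) * nm N z + M 0 1 * dn N z := by
    simp only [dn, nm, Matrix.mul_apply, Fin.sum_univ_two]
    push_cast
    ring
  rw [h1]
  show _ = ((M 0 0 : ℂ) * (nm N z / dn N z) + M 0 1) * dn N z
  field_simp

theorem mb_mul {M N : Mat} (hN : 0 < N.det) {z : ℂ} (hz : 0 < z.im) :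
    mb (M * N) z = mb M (mb N z) := by
  rw [mb_eq (M * N), mb_eq M, nm_mul hN hz, dn_mul hN hz]
  exact mul_div_mul_right _ _ (dn_ne hN hz)

theorem mb_smul {c : ℤ} (hc : c ≠ 0) (M : Mat) (z : ℂ) : mb (c • M) z = mb M z := by
  have hc' : (c : ℂ) ≠ 0 := by exact_mod_cast hc
  have h1 : nm (c • M) z = c * nm M z := by
    simp only [nm, Matrix.smul_apply, smul_eq_mul]
    push_cast
    ring
  have h2 : dn (c • M) z = c * dn M z := by
    simp only [dn, Matrix.smul_apply, smul_eq_mul]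
    push_cast
    ring
  rw [mb_eq, mb_eq, h1, h2, mul_div_mul_left _ _ hc']

theorem dn_smul (c : ℤ) (M : Mat) (z : ℂ) : dn (c • M) z = c * dn M z := by
  simp only [dn, Matrix.smul_apply, smul_eq_mul]
  push_cast
  ring

theorem det_smul (c : ℤ) (M : Mat) : (c • M).det = c ^ 2 * M.det := by
  rw [Matrix.det_smul]
  simp

theorem deriv_mb {M : Mat} (hM : 0 < M.det) {z : ℂ} (hz : 0 < z.im) :
    HasDerivAt (mb M) ((M.det : ℂ) / dn M z ^ 2) z := by
  have h := dn_ne hM hz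
  have h1 : HasDerivAt (nm M) (M 0 0 : ℂ) z := by
    have h := ((hasDerivAt_id z).const_mul (M 0 0 : ℂ)).add_const (M 0 1 : ℂ)
    rw [mul_one] at h
    exact h
  have h2 : HasDerivAt (dn M) (M 1 0 : ℂ) z := by
    have h := ((hasDerivAt_id z).const_mul (M 1 0 : ℂ)).add_const (M 1 1 : ℂ)
    rw [mul_one] at h
    exact h
  have h3 := h1.div h2 h
  have h4 : (M 0 0 : ℂ) * dn M z - nm M z * (M 1 0 : ℂ) = M.det := by
    rw [det_eqC]
    simp only [nm, dn]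
    ring
  rw [h4] at h3
  exact h3

/-! ### Forms -/

theorem qv_act {M : Mat} (Q : Frm) (hM : 0 < M.det) {z : ℂ} (hz : 0 < z.im) :
    qv Q (mb M z) = qv (act Q M) z / dn M z ^ 2 := by
  have h := dn_ne hM hz
  have h1 : qv (act Q M) z =
      Q 0 * nm M z ^ 2 + Q 1 * (nm M z * dn M z) + Q 2 * dn M z ^ 2 := by
    simp only [qv, act, nm, dn]
    simp
    ring
  rw [h1, mb_eq]
  simp only [qv]
  field_simp

theorem pw_eval (k : ℕ) (Q : Frm) (z : ℂ) : (pw k Q).eval z = qv Q z ^ (k - 1) := by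
  simp [pw, qv]

theorem pw_deg {k : ℕ} (hk : 1 ≤ k) (Q : Frm) : (pw k Q).natDegree < 2 * k := by
  have h1 : (Polynomial.C (Q 0 : ℂ) * Polynomial.X ^ 2 + Polynomial.C (Q 1 : ℂ) * Polynomial.X +
    Polynomial.C (Q 2 : ℂ)).natDegree ≤ 2 := Polynomial.natDegree_quadratic_le
  have h2 : (pw k Q).natDegree ≤ (k - 1) * 2 :=
    Polynomial.natDegree_pow_le_of_le (k - 1) h1
  omega

theorem eval_iter (c : ℂ) (P : ℂ[X]) (j : ℕ) (z : ℂ) :
    (Polynomial.derivative^[j] (Polynomial.C c * P)).eval z =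
      c * (Polynomial.derivative^[j] P).eval z := by
  rw [Polynomial.iterate_derivative_C_mul, Polynomial.eval_mul, Polynomial.eval_C]

theorem Gp_C_mul (k : ℕ) (a : ℕ → ℂ) (c : ℂ) (P : ℂ[X]) (z : ℂ) :
    Gp k a (Polynomial.C c * P) z = c * Gp k a P z := by
  unfold Gp
  rw [Finset.mul_sum]
  refine Finset.sum_congr rfl fun j _ => ?_
  rw [eval_iter]
  ring

theorem pw_smul (k : ℕ) (c : ℤ) (Q : Frm) :
    pw k (fun i => c * Q i) = Polynomial.C ((c : ℂ) ^ (k - 1)) * pw k Q := by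
  unfold pw
  rw [map_pow, ← mul_pow]
  congr 1
  push_cast
  rw [map_mul, map_mul, map_mul]
  ring

/-! ### The matrices -/

/-- The matrices under which the form is invariant. -/
def Inv (k : ℕ) (F : ℂ → ℂ) (M : Mat) : Prop :=
  0 < M.det ∧ ∀ z : ℂ, 0 < z.im →
    F (mb M z) = ((M.det : ℂ) ^ k)⁻¹ * dn M z ^ (2 * k) * F z

variable {k : ℕ} {F : ℂ → ℂ} {a : ℕ → ℂ}

theorem Inv.mul {M N : Mat} (hM : Inv k F M) (hN : Inv k F N) : Inv k F (M * N) := by
  refine ⟨by rw [Matrix.det_mul]; exact mul_pos hM.1 hN.1, fun z hz => ?_⟩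
  rw [mb_mul hN.1 hz, hM.2 _ (im_mb hN.1 hz), hN.2 z hz, dn_mul hN.1 hz, Matrix.det_mul]
  push_cast
  rw [mul_pow, mul_pow, mul_inv]
  ring

theorem Inv.smul {M : Mat} (hM : Inv k F M) {c : ℤ} (hc : c ≠ 0) : Inv k F (c • M) := by
  have hc' : (c : ℂ) ≠ 0 := by exact_mod_cast hc
  refine ⟨by rw [det_smul]; have := hM.1; positivity, fun z hz => ?_⟩
  rw [mb_smul hc, hM.2 z hz, dn_smul, det_smul]
  push_cast
  rw [mul_pow, mul_pow, ← pow_mul, mul_inv]
  have : (c : ℂ) ^ (2 * k) ≠ 0 := pow_ne_zero _ hc'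
  field_simp

theorem inv_gamma (h : Ana k a F) {M : Mat} (hM : M.det = 1) (h2 : (2 : ℤ) ∣ M 1 0) :
    Inv k F M := by
  refine ⟨by rw [hM]; exact one_pos, fun z hz => ?_⟩
  rw [h.gam M z ⟨hM, h2⟩ hz, hM]
  simp [dn]

theorem det_mW : mW.det = 2 := by simp [mW, Matrix.det_fin_two]

theorem inv_W (h : Ana k a F) : Inv k F mW := by
  refine ⟨by rw [det_mW]; exact two_pos, fun z hz => ?_⟩
  have e0 : mb mW z = -1 / (2 * z) := by simp [mb, mW]
  rw [e0, h.fricke z hz, det_mW]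
  have e : dn mW z = 2 * z := by simp [dn, mW]
  rw [e, mul_pow, pow_mul, ← pow_mul]
  push_cast
  have : (2 : ℂ) ^ k ≠ 0 := pow_ne_zero _ two_ne_zero
  field_simp
  ring

/-! ### The cocycle -/

/-- The normalised cocycle for matrices of positive determinant. -/
noncomputable def PhiN (k : ℕ) (a : ℕ → ℂ) (M : Mat) (Q : Frm) : ℂ :=
  Gp k a (pw k Q) (mb M Complex.I) -
    ((M.det : ℂ) ^ (k - 1))⁻¹ * Gp k a (pw k (act Q M)) Complex.I


/-- The difference of primitives is constant. -/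
theorem diff (hP : StPrim2) (hk : 1 ≤ k) (h : Ana k a F) {M : Mat} (Q : Frm) (hM : Inv k F M) {z : ℂ} (hz : 0 < z.im) :
    HasDerivAt (fun z => Gp k a (pw k Q) (mb M z) -
      ((M.det : ℂ) ^ (k - 1))⁻¹ * Gp k a (pw k (act Q M)) z) 0 z := by
  have h1 := (hP k a F _ h (pw_deg hk Q)).1 (mb M z) (im_mb hM.1 hz)
  have h2 := (hP k a F _ h (pw_deg hk (act Q M))).1 z hz
  have h3 := (h1.comp z (deriv_mb hM.1 hz)).sub (h2.const_mul ((M.det : ℂ) ^ (k - 1))⁻¹)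
  refine h3.congr_deriv ?_
  have hd := dn_ne hM.1 hz
  have hD : (M.det : ℂ) ≠ 0 := by exact_mod_cast hM.1.ne'
  rw [hM.2 z hz, pw_eval, pw_eval, qv_act Q hM.1 hz, div_pow, ← pow_mul]
  have e : dn M z ^ (2 * k) = dn M z ^ (2 * (k - 1)) * dn M z ^ 2 := by
    rw [← pow_add]
    congr 1
    omega
  have e' : (M.det : ℂ) ^ k = (M.det : ℂ) ^ (k - 1) * M.det := by
    rw [← pow_succ]
    congr 1
    omega
  rw [e, e']
  have h' : dn M z ^ (2 * (k - 1)) ≠ 0 := pow_ne_zero _ hd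
  have h'' : dn M z ^ 2 ≠ 0 := pow_ne_zero _ hd
  have h4 : (M.det : ℂ) ^ (k - 1) ≠ 0 := pow_ne_zero _ hD
  field_simp
  ring

theorem const (hP : StPrim2) (hk : 1 ≤ k) (h : Ana k a F) {M : Mat} (Q : Frm) (hM : Inv k F M) {z : ℂ} (hz : 0 < z.im) :
    Gp k a (pw k Q) (mb M z) -
      ((M.det : ℂ) ^ (k - 1))⁻¹ * Gp k a (pw k (act Q M)) z = PhiN k a M Q := by
  have ho : IsOpen {z : ℂ | 0 < z.im} := isOpen_lt continuous_const Complex.continuous_im
  have hc : IsPreconnected {z : ℂ | 0 < z.im} :=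
    (convex_halfSpace_im_gt 0).isPreconnected
  have h1 : DifferentiableOn ℂ (fun z => Gp k a (pw k Q) (mb M z) -
      ((M.det : ℂ) ^ (k - 1))⁻¹ * Gp k a (pw k (act Q M)) z)
      {z : ℂ | 0 < z.im} := fun z hz =>
    (diff hP hk h Q hM hz).differentiableAt.differentiableWithinAt
  have h2 : Set.EqOn (deriv (fun z => Gp k a (pw k Q) (mb M z) -
      ((M.det : ℂ) ^ (k - 1))⁻¹ * Gp k a (pw k (act Q M)) z)) 0
      {z : ℂ | 0 < z.im} := fun z hz => (diff hP hk h Q hM hz).deriv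
  exact ho.is_const_of_deriv_eq_zero hc h1 h2 hz (by simp : (0 : ℝ) < Complex.I.im)

/-- The cocycle law. -/
theorem Phi_mul (hP : StPrim2) (hk : 1 ≤ k) (h : Ana k a F) {M N : Mat} (hM : Inv k F M) (hN : Inv k F N) (Q : Frm) :
    PhiN k a (M * N) Q = PhiN k a M Q + ((M.det : ℂ) ^ (k - 1))⁻¹ * PhiN k a N (act Q M) := by
  have hI : 0 < Complex.I.im := by simp
  have hNI := im_mb hN.1 hI
  have h1 := const hP hk h Q hM hNI
  have h2 : PhiN k a (M * N) Q = Gp k a (pw k Q) (mb (M * N) Complex.I) -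
      (((M * N).det : ℂ) ^ (k - 1))⁻¹ * Gp k a (pw k (act Q (M * N))) Complex.I := rfl
  have h3 : PhiN k a N (act Q M) = Gp k a (pw k (act Q M)) (mb N Complex.I) -
      ((N.det : ℂ) ^ (k - 1))⁻¹ * Gp k a (pw k (act (act Q M) N)) Complex.I := rfl
  rw [h2, h3, ← h1, mb_mul hN.1 hI, act_act, Matrix.det_mul]
  push_cast
  rw [mul_pow, mul_inv]
  ring

theorem Phi_smul_left (k : ℕ) (a : ℕ → ℂ) {c : ℤ} (hc : c ≠ 0) (M : Mat) (Q : Frm) :
    PhiN k a (c • M) Q = PhiN k a M Q := by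
  have hc' : (c : ℂ) ≠ 0 := by exact_mod_cast hc
  unfold PhiN
  rw [mb_smul hc, act_smul, det_smul]
  have e : (fun i => c ^ 2 * act Q M i) = fun i => (c ^ 2) * act Q M i := rfl
  rw [pw_smul k (c ^ 2) (act Q M), Gp_C_mul]
  push_cast
  rw [mul_pow, mul_inv]
  have : ((c : ℂ) ^ 2) ^ (k - 1) ≠ 0 := pow_ne_zero _ (pow_ne_zero _ hc')
  field_simp

theorem Phi_neg (k : ℕ) (a : ℕ → ℂ) (M : Mat) (Q : Frm) : PhiN k a (-M) Q = PhiN k a M Q := by
  have h := Phi_smul_left k a (by norm_num : (-1 : ℤ) ≠ 0) M Q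
  rwa [neg_one_smul] at h

theorem Phi_smul (k : ℕ) (a : ℕ → ℂ) (M : Mat) (c : ℤ) (Q : Frm) :
    PhiN k a M (fun i => c * Q i) = (c : ℂ) ^ (k - 1) * PhiN k a M Q := by
  unfold PhiN
  rw [LO.smul_act, pw_smul, pw_smul, Gp_C_mul, Gp_C_mul]
  ring

/-- Translations. -/
def Tn (n : ℤ) : Mat := !![1, n; 0, 1]

theorem det_Tn (n : ℤ) : (Tn n).det = 1 := by simp [Tn, Matrix.det_fin_two]

theorem inv_Tn (h : Ana k a F) (n : ℤ) : Inv k F (Tn n) :=
  inv_gamma h (det_Tn n) (by simp [Tn])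

theorem Phi_Tn (hP : StPrim2) (hk : 1 ≤ k) (h : Ana k a F) (n : ℤ) (Q : Frm) : PhiN k a (Tn n) Q = 0 := by
  by_contra hne
  have hpos : 0 < ‖PhiN k a (Tn n) Q‖ := norm_pos_iff.mpr hne
  obtain ⟨Y1, hY1, h1⟩ := (hP k a F _ h (pw_deg hk Q)).2.2 |(n : ℝ)|
    (‖PhiN k a (Tn n) Q‖ / 3) (by positivity)
  obtain ⟨Y2, hY2, h2⟩ := (hP k a F _ h (pw_deg hk (act Q (Tn n)))).2.2 |(n : ℝ)|
    (‖PhiN k a (Tn n) Q‖ / 3) (by positivity)
  have hz : 0 < ((max Y1 Y2 : ℝ) * Complex.I : ℂ).im := by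
    simp [hY1]
  have h3 := const hP hk h Q (inv_Tn h n) hz
  have e1 : mb (Tn n) ((max Y1 Y2 : ℝ) * Complex.I) = (max Y1 Y2 : ℝ) * Complex.I + n := by
    simp [mb, Tn]
  have h4 := h1 (mb (Tn n) ((max Y1 Y2 : ℝ) * Complex.I)) (by rw [e1]; simp) (by rw [e1]; simp)
  have h5 := h2 ((max Y1 Y2 : ℝ) * Complex.I) (by simp) (by simp)
  rw [det_Tn, Int.cast_one, one_pow, inv_one, one_mul] at h3
  have h6 : ‖PhiN k a (Tn n) Q‖ ≤ ‖PhiN k a (Tn n) Q‖ / 3 + ‖PhiN k a (Tn n) Q‖ / 3 := by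
    conv_lhs => rw [← h3]
    exact (norm_sub_le _ _).trans (add_le_add h4 h5)
  linarith

theorem Phi_one (hP : StPrim2) (hk : 1 ≤ k) (h : Ana k a F) (Q : Frm) : PhiN k a 1 Q = 0 := by
  have e : (1 : Mat) = Tn 0 := by
    ext i j
    fin_cases i <;> fin_cases j <;> simp [Tn]
  rw [e, Phi_Tn hP hk h]

theorem V_eq (k : ℕ) (a : ℕ → ℂ) (Q : Frm) : V k a Q = PhiN k a mW Q := by
  have e0 : mb mW Complex.I = -1 / (2 * Complex.I) := by simp [mb, mW]
  unfold V PhiN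
  rw [e0, det_mW]
  push_cast
  rfl

theorem Phi_eq {k : ℕ} {a : ℕ → ℂ} {M : Mat} (hM : M.det = 1) (Q : Frm) :
    Phi k a M Q = PhiN k a M Q := by
  unfold Phi PhiN
  rw [hM]
  simp

theorem W_W : mW * mW = (-2 : ℤ) • (1 : Mat) := by
  ext i j
  fin_cases i <;> fin_cases j <;> simp [mW, Matrix.mul_apply, Fin.sum_univ_two]

theorem mT_eq : mT = Tn 1 := rfl

theorem W_T_W : mW * Tn (-1) * mW = (-2 : ℤ) • mL := by
  ext i j
  fin_cases i <;> fin_cases j <;>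
    simp [Tn, mL, mW, Matrix.mul_apply, Fin.sum_univ_two, Matrix.smul_apply]

theorem W_T : mW * Tn (-1) = mL * mW := by
  ext i j
  fin_cases i <;> fin_cases j <;>
    simp [Tn, mL, mW, Matrix.mul_apply, Fin.sum_univ_two]

theorem det_mL : mL.det = 1 := by simp [mL, Matrix.det_fin_two]

theorem PhiN_act_W (hP : StPrim2) (hk : 1 ≤ k) (h : Ana k a F) (Q : Frm) :
    PhiN k a mW (act Q mW) = -2 ^ (k - 1) * PhiN k a mW Q := by
  have h1 := Phi_mul hP hk h (inv_W h) (inv_W h) Q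
  rw [W_W, Phi_smul_left k a (by norm_num), Phi_one hP hk h, det_mW] at h1
  have h2 : (2 : ℂ) ^ (k - 1) ≠ 0 := pow_ne_zero _ two_ne_zero
  push_cast at h1
  field_simp at h1
  linear_combination -h1

end Coc2

open Coc2 in
/-- (Coc) the cocycle. -/
theorem stCoc2 (hP : StPrim2) : StCoc2 := by
  intro k a F hk h
  have hneg : ∀ (M : Mat) (Q : Frm), Phi k a (-M) Q = Phi k a M Q := by
    intro M Q
    unfold Phi
    have e : mb (-M) Complex.I = mb M Complex.I := by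
      have h1 := mb_smul (by norm_num : (-1 : ℤ) ≠ 0) M Complex.I
      rwa [neg_one_smul] at h1
    rw [e, act_neg]
  refine ⟨?_, ?_, ?_, hneg, ?_, ?_, ?_⟩
  · intro M Q z hM hz
    have h1 := const hP hk h Q (inv_gamma h hM.1 hM.2) hz
    rw [← Phi_eq hM.1, hM.1] at h1
    simpa using h1
  · intro M N Q hM hN
    have h1 := Phi_mul hP hk h (inv_gamma h hM.1 hM.2) (inv_gamma h hN.1 hN.2) Q
    have hd : (M * N).det = 1 := by rw [Matrix.det_mul, hM.1, hN.1, mul_one]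
    rw [← Phi_eq hM.1, ← Phi_eq hN.1, ← Phi_eq hd, hM.1] at h1
    simpa using h1
  · intro Q
    rw [Phi_eq LO.det_mT, mT_eq, Phi_Tn hP hk h]
  · intro Q z hz
    have h1 := const hP hk h Q (inv_W h) hz
    have e0 : mb mW z = -1 / (2 * z) := by simp [mb, mW]
    rw [← V_eq, det_mW, e0] at h1
    push_cast at h1
    exact h1
  · intro Q
    have h1 := Phi_mul hP hk h ((inv_W h).mul (inv_Tn h (-1))) (inv_W h) Q
    rw [W_T_W, Phi_smul_left k a (by norm_num), Phi_mul hP hk h (inv_W h) (inv_Tn h (-1)),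
      Phi_Tn hP hk h, W_T, ← act_act, PhiN_act_W hP hk h, Matrix.det_mul, det_mL, det_mW,
      ← Phi_eq det_mL, ← V_eq, ← V_eq] at h1
    rw [h1]
    have h2 : (2 : ℂ) ^ (k - 1) ≠ 0 := pow_ne_zero _ two_ne_zero
    push_cast
    field_simp
    ring
  · intro Q
    rw [V_eq, V_eq, PhiN_act_W hP hk h]

end LT

end Pool.Agent.Lib.MP_7c5fb9_nt
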