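import Pool.Agent.Lib.MP_7c5fb9_nt.LT.Stmts
import Pool.Agent.Lib.MP_7c08ba_nt.RZ.Coef

set_option autoImplicit false

/-!
# Level two (MP_7c5fb9_nt, project LT): newforms of level two
-/

namespace Pool.Agent.Lib.MP_7c5fb9_nt

namespace LT

open LO Pool.Agent.Lib.MP_7c08ba_nt.RZ UpperHalfPlane Set
open scoped MatrixGroups Real

namespace CoefAux2

variable {w : ℕ} (f : Cusp2 w)

theorem one_mem : (1 : ℝ) ∈ (((CongruenceSubgroup.Gamma0 2 : Subgroup SL(2, ℤ)) :
    Subgroup (GL (Fin 2) ℝ))).strictPeriods := by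
  simp

theorem hasSum (z : ℂ) (hz : 0 < z.im) :
    HasSum (fun n : ℕ => cf f n * ee (n * z)) (f (ofComplex z)) := by
  have h := ModularForm.hasSum_qExpansion f one_pos one_mem (ofComplex z)
  convert h using 2 with n
  rw [cf]
  congr 1
  rw [ofComplex_apply_of_im_pos hz, Function.Periodic.qParam, ← Complex.exp_nat_mul, ee]
  congr 1
  simp only [Complex.ofReal_one, div_one]
  change _ = _ * (2 * π * Complex.I * z)
  ring

theorem zero : cf f 0 = 0 :=
  CuspFormClass.qExpansion_coeff_zero f one_pos one_mem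

theorem bound : ∃ C : ℝ, ∀ n : ℕ, ‖cf f n‖ ≤ C * (n : ℝ) ^ ((w : ℝ) / 2) := by
  obtain ⟨C, hC⟩ := CuspFormClass.exists_bound f
  have hC' : ∀ z : ℂ, 0 < z.im → ‖f (ofComplex z)‖ * z.im ^ ((w : ℝ) / 2) ≤ C := by
    intro z hz
    have h := hC (ofComplex z)
    have h1 : (ofComplex z).im = z.im := by
      rw [ofComplex_apply_of_im_pos hz]; rfl
    rw [h1, Int.cast_natCast, le_div_iff₀ (Real.rpow_pos_of_pos hz _)] at h
    exact h
  have hC0 : 0 ≤ C :=
    le_trans (mul_nonneg (norm_nonneg _) (Real.rpow_nonneg (by simp) _)) (hC' Complex.I (by simp))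
  refine ⟨Real.exp (2 * π) * C, fun n => ?_⟩
  rcases Nat.eq_zero_or_pos n with rfl | hn
  · rw [zero, norm_zero]
    positivity
  have hn' : (0 : ℝ) < n := by exact_mod_cast hn
  have ht : (0 : ℝ) < 1 / n := by positivity
  have h := ModularFormClass.qExpansion_coeff_eq_intervalIntegral f one_pos
    one_mem n ht
  change cf f n = _ at h
  rw [h]
  have hb : ∀ u ∈ Set.uIoc (0 : ℝ) 1,
      ‖1 / Function.Periodic.qParam 1 (u + (1 / n : ℝ) * Complex.I) ^ n *
        f ⟨u + (1 / n : ℝ) * Complex.I, by simpa using ht⟩‖ ≤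
        Real.exp (2 * π) * C * (n : ℝ) ^ ((w : ℝ) / 2) := by
    intro u _
    rw [norm_mul, norm_div, norm_one, norm_pow, Function.Periodic.norm_qParam]
    have h1 : Real.exp (-2 * π * ((u : ℂ) + (1 / n : ℝ) * Complex.I).im / 1) ^ n =
        Real.exp (-(2 * π)) := by
      rw [← Real.exp_nat_mul]
      congr 1
      simp
      field_simp
    rw [h1, one_div, ← Real.exp_neg, neg_neg, mul_assoc]
    refine mul_le_mul_of_nonneg_left ?_ (Real.exp_pos _).le
    have h2 := hC ⟨u + (1 / n : ℝ) * Complex.I, by simpa using ht⟩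
    refine h2.trans (le_of_eq ?_)
    have h3 : (⟨u + (1 / n : ℝ) * Complex.I, by simpa using ht⟩ : ℍ).im = 1 / (n : ℝ) := by
      change ((u : ℂ) + (1 / n : ℝ) * Complex.I).im = _
      simp
    rw [h3, Int.cast_natCast, Real.div_rpow zero_le_one hn'.le, Real.one_rpow]
    field_simp
  have h4 := intervalIntegral.norm_integral_le_of_norm_le_const hb
  simpa using h4

theorem inv {M : Mat} (hM : M.det = 1) (h2 : (2 : ℤ) ∣ M 1 0) {z : ℂ} (hz : 0 < z.im) :
    f (ofComplex (mb M z)) = ((M 1 0 : ℂ) * z + M 1 1) ^ w * f (ofComplex z) := by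
  let g : SL(2, ℤ) := ⟨M, hM⟩
  have hg : ∀ i j, g i j = M i j := fun _ _ => rfl
  have hmem : (g : GL (Fin 2) ℝ) ∈ ((CongruenceSubgroup.Gamma0 2 : Subgroup SL(2, ℤ)) :
      Subgroup (GL (Fin 2) ℝ)) := by
    refine ⟨g, ?_, rfl⟩
    rw [SetLike.mem_coe, CongruenceSubgroup.Gamma0_mem, hg]
    exact (ZMod.intCast_zmod_eq_zero_iff_dvd _ 2).2 h2
  have hmb : ((g • (⟨z, hz⟩ : ℍ) : ℍ) : ℂ) = mb M z := by
    rw [coe_specialLinearGroup_apply]
    simp [mb, hg]
  have h := SlashInvariantForm.slash_action_eqn'' f (γ := (g : GL (Fin 2) ℝ)) hmem ⟨z, hz⟩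
  rw [← hmb, ofComplex_apply, ofComplex_apply_of_im_pos hz]
  have h2 : denom (g : GL (Fin 2) ℝ) (⟨z, hz⟩ : ℍ) = (M 1 0 : ℂ) * z + M 1 1 := by
    rw [ModularGroup.denom_apply g ⟨z, hz⟩, hg, hg]
  rw [h2, zpow_natCast] at h
  exact h

end CoefAux2

open CoefAux2 in
/-- (Coef) the analytic data of a newform. -/
theorem stCoef2 : StCoef2 := by
  intro k f hk hf
  exact
  { zero := zero f
    one := hf.one
    bound := by
      obtain ⟨C, hC⟩ := bound f
      refine ⟨C, fun n => (hC n).trans (le_of_eq ?_)⟩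
      have h : ((2 * k : ℕ) : ℝ) / 2 = (k : ℝ) := by
        push_cast
        ring
      rw [h, Real.rpow_natCast]
    summ := fun z hz => (hasSum f z hz).summable.norm
    sum := fun z hz => (hasSum f z hz).tsum_eq.symm
    hecke := hf.hecke
    two := hf.two
    gam := fun M z hM hz => inv f hM.1 hM.2 hz
    fricke := hf.fricke }

end LT

end Pool.Agent.Lib.MP_7c5fb9_nt
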