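import Pool.Agent.Lib.MP_7c5fb9_nt.LT.Stmts
import Pool.Agent.Lib.MP_7c5fb9_nt.LO.Basic

set_option autoImplicit false

/-!
# Level two (MP_7c5fb9_nt, project LT): the criterion
-/

namespace Pool.Agent.Lib.MP_7c5fb9_nt

namespace LT

open LO Pool.Agent.Lib.MP_7c08ba_nt.RZ UpperHalfPlane
open scoped MatrixGroups nonZeroDivisors

/-- The automorph is in the group of level two. -/
theorem inG_aut {D : ℕ} {t u : ℤ} {Q : LO.Frm} (h2 : (2 : ℤ) ∣ Q 0)
    (hdet : (aut Q t u).det = 1) : InG (aut Q t u) := by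
  refine ⟨hdet, ?_⟩
  change (2 : ℤ) ∣ Q 0 * u
  exact dvd_mul_of_dvd_left h2 _

/-- The discriminant of a fundamental discriminant is not a square. -/
theorem fd_not_isSquare {d : ℤ} (hD : FD d) : ¬ IsSquare d := by
  rintro ⟨a, ha⟩
  rcases hD with ⟨-, hsq, h1⟩ | ⟨h4, hm, hsq⟩
  · have hu : IsUnit a.natAbs := by
      apply hsq
      rw [ha, Int.natAbs_mul]
    rw [Nat.isUnit_iff] at hu
    apply h1
    rcases Int.natAbs_eq a with h | h <;> rw [hu] at h <;> rw [ha, h] <;> norm_num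
  · have h2 : (2 : ℤ) ∣ a := by
      have : (2 : ℤ) ∣ a * a := by
        rw [← ha]
        omega
      rcases Int.prime_two.dvd_or_dvd this with h | h <;> exact h
    obtain ⟨b, rfl⟩ := h2
    have hb : d / 4 = b * b := by
      rw [ha]
      have : 2 * b * (2 * b) = 4 * (b * b) := by ring
      rw [this]
      exact Int.mul_ediv_cancel_left _ (by norm_num)
    have hu : IsUnit b.natAbs := by
      apply hsq
      rw [hb, Int.natAbs_mul]
    rw [Nat.isUnit_iff] at hu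
    rw [hb] at hm
    rcases Int.natAbs_eq b with h | h <;> rw [hu] at h <;> rw [h] at hm <;> norm_num at hm

/-- (Crit) the criterion for the non-vanishing of toric periods. -/
theorem stCrit2 (hCoef : StCoef2) (hRed : StRed2) (hPsiC : StPsiC2) (hCocyc : StCocyc)
    (hPell : StPell) (hForm : StForm2) (hDiscr : StDiscrB) : StCrit2 := by
  intro k f hk hk3 hf K _ _ hK hpos hd3 hd8 hh hlam
  have hk1 : 1 ≤ k := by omega
  have hA := hCoef k f hk1 hf
  obtain ⟨D, hD⟩ : ∃ D : ℕ, NumberField.discr K = D :=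
    ⟨(NumberField.discr K).toNat, by omega⟩
  obtain ⟨hex, hF2⟩ := hForm K hK hpos
  have hns : ¬ IsSquare D := by
    rintro ⟨r, hr⟩
    apply fd_not_isSquare (hDiscr.1 K hK).1
    rw [hD, hr]
    exact ⟨(r : ℤ), by push_cast; ring⟩
  obtain ⟨t₀, u₀, hF₀⟩ := hPell D hns
  refine ⟨D, hD, ⟨t₀, u₀, hF₀⟩, hex hd8, fun n hn => ?_⟩
  obtain ⟨hq, hdisc⟩ := hF2 n hn
  refine ⟨hq, ?_⟩
  intro t u q' hF hq' h0
  obtain ⟨N, θ, hN⟩ := hRed k (cf f) (fun z => f (ofComplex z)) hk hk3 hA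
  have hdc : ∀ c, disc (q' c) = D := fun c => by rw [(hdisc c _ (hq' c)).1, hD]
  have h2c : ∀ c, (2 : ℤ) ∣ q' c 0 := fun c => (hdisc c _ (hq' c)).2
  have hD3 : (D : ℤ) % 3 = 2 := by rw [← hD]; exact hd3
  have hD3' : D % 3 = 2 := by omega
  have hDpos : 0 < D := by omega
  have hdet : ∀ c, (aut (q' c) t u).det = 1 := fun c => det_aut (hdc c) hF.eq
  have hInG : ∀ c, InG (aut (q' c) t u) := fun c => ⟨hdet c, by
    change (2 : ℤ) ∣ q' c 0 * u
    exact dvd_mul_of_dvd_left (h2c c) _⟩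
  have hNc : ∀ c, ∃ h : Psi k (cf f) (aut (q' c) t u) (q' c) ∈ N,
      θ ⟨Psi k (cf f) (aut (q' c) t u) (q' c), h⟩ = psi (aut (q' c) t u) (q' c) := fun c =>
    hN _ _ (hInG c) (by rw [hdc c]; exact hD3)
  choose hmem hθ using hNc
  have hsum : ∑ c, (⟨Psi k (cf f) (aut (q' c) t u) (q' c), hmem c⟩ : N) = 0 := by
    apply Subtype.ext
    rw [AddSubmonoidClass.coe_finsetSum]
    simp only [ZeroMemClass.coe_zero]
    rw [← h0, torPer]
    refine Finset.sum_congr rfl fun c _ => ?_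
    exact (hPsiC k (cf f) (fun z => f (ofComplex z)) hk1 hA).2.2.2.2.2.2.2.2.2 D t u (q' c)
      (hdc c) hDpos (hq' c).1 (h2c c) hF.eq hF.pt hF.pu
  have h1 := congrArg θ hsum
  rw [map_sum, map_zero] at h1
  have h2 : ∀ c, θ ⟨Psi k (cf f) (aut (q' c) t u) (q' c), hmem c⟩ = -lam D t u := fun c => by
    rw [hθ c, hCocyc.2.2.2.2 D t u (q' c) (hdc c) hD3' hF.eq]
  simp only [h2, Finset.sum_const, Finset.card_univ, nsmul_eq_mul] at h1
  rcases mul_eq_zero.1 h1 with h3 | h3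
  · apply hh
    rw [Nat.card_eq_fintype_card]
    exact (ZMod.natCast_eq_zero_iff _ _).1 h3
  · exact hlam D t u hD hF (neg_eq_zero.1 h3)

end LT

end Pool.Agent.Lib.MP_7c5fb9_nt
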