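import Pool.Agent.Lib.MP_7c5fb9_nt.LT.Stmts
import Pool.Agent.Lib.MP_7c5fb9_nt.LO.Fin

set_option autoImplicit false

/-! Level two: finiteness and `3`-adic continuity of the odd part of `V`. -/

namespace Pool.Agent.Lib.MP_7c5fb9_nt

namespace LT

open LO.FinX

namespace FinX2

theorem vo_eq (hPer : StPer2) {k : ℕ} {a : ℕ → ℂ} {F : ℂ → ℂ} (hk : 1 ≤ k) (hA : Ana k a F)
    (Q : Frm) :
    Vo k a Q = ∑ m ∈ Finset.range (2 * k - 1), zc k Q m • rp k a m := by
  have h := hPer k a F hk hA
  unfold Vo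
  rw [h Q, h (LO.mir Q), ← Finset.sum_sub_distrib]
  refine Finset.sum_congr rfl fun m _ => ?_
  rw [coeff_pw, coeff_pw, zc, zsmul_eq_mul]
  push_cast
  ring

end FinX2

open FinX2

theorem stFin2 (hPer : StPer2) : StFin2 := by
  intro k a F hk hA
  classical
  set T : Finset ℂ := (Finset.range (2 * k - 1)).image (rp k a) with hT
  set M : Submodule ℤ ℂ := Submodule.span ℤ (T : Set ℂ) with hM
  have hfg : M.FG := ⟨T, rfl⟩
  have hrp : ∀ m ∈ Finset.range (2 * k - 1), rp k a m ∈ M := by
    intro m hm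
    apply Submodule.subset_span
    rw [hT]
    exact Finset.mem_coe.2 (Finset.mem_image_of_mem _ hm)
  have hmemM : ∀ Q, Vo k a Q ∈ M := by
    intro Q
    rw [vo_eq hPer hk hA]
    exact Submodule.sum_mem _ fun m hm => Submodule.smul_mem _ _ (hrp m hm)
  have hle : AddSubgroup.toIntSubmodule (NN2 k a) ≤ M := by
    intro z hz
    have hz' : z ∈ NN2 k a := hz
    have : NN2 k a ≤ M.toAddSubgroup := by
      unfold NN2
      rw [AddSubgroup.closure_le]
      rintro _ ⟨x, _, rfl⟩
      exact hmemM x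
    exact this hz'
  constructor
  · have : IsNoetherian ℤ M := isNoetherian_of_fg_of_noetherian M hfg
    have h1 : (AddSubgroup.toIntSubmodule (NN2 k a)).FG := by
      have h2 : ((AddSubgroup.toIntSubmodule (NN2 k a)).comap M.subtype).FG :=
        IsNoetherian.noetherian _
      have h3 := h2.map M.subtype
      rwa [Submodule.map_comap_subtype, inf_eq_right.2 hle] at h3
    have h4 := (Submodule.fg_iff_addSubgroup_fg _).1 h1
    exact h4
  · obtain ⟨n, hn⟩ := TOR.FinAux.artin M (AddSubgroup.toIntSubmodule (NN2 k a)) hfg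
    refine ⟨n + 1, by omega, ?_⟩
    intro x y hx hy hxy
    choose c hc using zc_congr k (n + 1) hxy
    set u : ℂ := ∑ m ∈ Finset.range (2 * k - 1), c m • rp k a m with hu
    have huM : u ∈ M :=
      Submodule.sum_mem _ fun m hm => Submodule.smul_mem _ _ (hrp m hm)
    have hdiff : Vo k a x - Vo k a y = ((3 : ℤ) ^ (n + 1)) • u := by
      rw [vo_eq hPer hk hA, vo_eq hPer hk hA, ← Finset.sum_sub_distrib, hu,
        Finset.smul_sum]
      apply Finset.sum_congr rfl
      intro m _
      rw [← sub_smul, hc m, mul_smul]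
    have hmemN : Vo k a x - Vo k a y ∈ NN2 k a :=
      (NN2 k a).sub_mem (AddSubgroup.subset_closure ⟨x, hx, rfl⟩)
        (AddSubgroup.subset_closure ⟨y, hy, rfl⟩)
    obtain ⟨z, hz, e⟩ := hn u huM (by rw [← hdiff]; exact hmemN)
    exact ⟨z, hz, by rw [hdiff, e]⟩

end LT

end Pool.Agent.Lib.MP_7c5fb9_nt
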