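import Pool.Agent.Lib.MP_7c5fb9_nt.LT.FormDef
import Pool.Agent.Lib.MP_7c5fb9_nt.LO.Form
import Pool.Agent.Lib.MP_7c5fb9_nt.LO.SplitB

/-!
# LEVEL TWO: forms attached to the ideal classes of a real quadratic field and an ideal of norm two
-/

set_option autoImplicit false

open NumberField nonZeroDivisors

namespace Pool.Agent.Lib.MP_7c5fb9_nt

namespace LT

open LO LO.FormAux

/-- (FormN) the forms attached to ideal classes. -/
def StFormN : Prop :=
  ∀ (K : Type) [Field K] [NumberField K], Module.finrank ℚ K = 2 → 0 < NumberField.discr K →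
    ∀ n : Ideal (NumberField.RingOfIntegers K), Ideal.absNorm n = 2 →
    (∃ q : ClassGroup (NumberField.RingOfIntegers K) → LO.Frm, ∀ c, FormOf n c (q c)) ∧
    ∀ (c : ClassGroup (NumberField.RingOfIntegers K)) (Q : LO.Frm), FormOf n c Q →
      disc Q = NumberField.discr K ∧ (2 : ℤ) ∣ Q 0

/-- (IdTwo) ideals of norm two. -/
def StIdTwo : Prop :=
  ∀ (K : Type) [Field K] [NumberField K], Module.finrank ℚ K = 2 →
    NumberField.discr K % 8 ≠ 5 →
    ∃ n : Ideal (NumberField.RingOfIntegers K), Ideal.absNorm n = 2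

section

variable {K : Type} [Field K] [NumberField K]

/-- Index two. -/
theorem add_mem_iff {n I : Ideal (𝓞 K)} (hn : Ideal.absNorm n = 2) (hI : I ≠ ⊥) {a b : 𝓞 K}
    (ha : a ∈ I) (hb : b ∈ I) : a + b ∈ n * I ↔ (a ∈ n * I ↔ b ∈ n * I) := by
  have hle : n * I ≤ I := Ideal.mul_le_right
  have hI0 : Ideal.absNorm I ≠ 0 := fun h => hI (Ideal.absNorm_eq_zero_iff.1 h)
  have h1 : (n * I).toAddSubgroup.relIndex I.toAddSubgroup * I.toAddSubgroup.index =
      (n * I).toAddSubgroup.index := AddSubgroup.relIndex_mul_index hle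
  have h2 : I.toAddSubgroup.index = Ideal.absNorm I := by
    rw [Ideal.absNorm_apply]
    rfl
  have h3 : (n * I).toAddSubgroup.index = Ideal.absNorm (n * I) := by
    rw [Ideal.absNorm_apply]
    rfl
  rw [h2, h3, map_mul, hn] at h1
  have h4 : (n * I).toAddSubgroup.relIndex I.toAddSubgroup = 2 :=
    Nat.eq_of_mul_eq_mul_right (Nat.pos_of_ne_zero hI0) h1
  have h5 : ((n * I).toAddSubgroup.addSubgroupOf I.toAddSubgroup).index = 2 := h4
  have h6 := AddSubgroup.add_mem_iff_of_index_two h5 (a := ⟨a, ha⟩) (b := ⟨b, hb⟩)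
  simpa [AddSubgroup.mem_addSubgroupOf] using h6

/-- `n I` is a proper subset of `I`. -/
theorem exists_notMem {n I : Ideal (𝓞 K)} (hn : Ideal.absNorm n = 2) (hI : I ≠ ⊥) :
    ∃ a ∈ I, a ∉ n * I := by
  by_contra h
  push Not at h
  have hI0 : Ideal.absNorm I ≠ 0 := fun h => hI (Ideal.absNorm_eq_zero_iff.1 h)
  have h1 : n * I = I := le_antisymm Ideal.mul_le_right h
  have h2 := congrArg Ideal.absNorm h1
  rw [map_mul, hn] at h2
  omega

/-- An adapted basis. -/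
theorem exists_adapted (hK : Module.finrank ℚ K = 2) {n I : Ideal (𝓞 K)}
    (hn : Ideal.absNorm n = 2) (hI : I ≠ ⊥) :
    ∃ x y : 𝓞 K, Gen I x y ∧ x ∈ n * I ∧ y ∉ n * I ∧ x ≠ 0 := by
  obtain ⟨b⟩ := exists_basis hK
  let c : Module.Basis (Fin 2) ℤ I := Ideal.selfBasis b I hI
  have hc := basis_gen c
  have h0 : (c 0 : 𝓞 K) ≠ 0 := fun h => c.ne_zero 0 (Subtype.ext h)
  have h1 : (c 1 : 𝓞 K) ≠ 0 := fun h => c.ne_zero 1 (Subtype.ext h)
  have hm0 : (c 0 : 𝓞 K) ∈ I := (c 0).2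
  have hm1 : (c 1 : 𝓞 K) ∈ I := (c 1).2
  obtain ⟨a, haI, ha⟩ := exists_notMem hn hI
  have hnot : ¬ ((c 0 : 𝓞 K) ∈ n * I ∧ (c 1 : 𝓞 K) ∈ n * I) := by
    rintro ⟨h2, h3⟩
    obtain ⟨m, l, rfl⟩ := (hc a).1 haI
    exact ha ((n * I).add_mem ((n * I).mul_mem_left _ h2) ((n * I).mul_mem_left _ h3))
  by_cases h2 : (c 0 : 𝓞 K) ∈ n * I
  · exact ⟨c 0, c 1, hc, h2, fun h3 => hnot ⟨h2, h3⟩, h0⟩
  · by_cases h3 : (c 1 : 𝓞 K) ∈ n * I
    · refine ⟨c 1, c 0, fun z => ?_, h3, h2, h1⟩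
      rw [hc z]
      constructor
      · rintro ⟨m, l, h⟩
        exact ⟨l, m, by rw [h]; ring⟩
      · rintro ⟨m, l, h⟩
        exact ⟨l, m, by rw [h]; ring⟩
    · refine ⟨c 0 + c 1, c 1, fun z => ?_, (add_mem_iff hn hI hm0 hm1).2 ?_, h3, ?_⟩
      · rw [hc z]
        constructor
        · rintro ⟨m, l, h⟩
          exact ⟨m, l - m, by rw [h]; push_cast; ring⟩
        · rintro ⟨m, l, h⟩
          exact ⟨m, l + m, by rw [h]; push_cast; ring⟩
      · exact ⟨fun h => absurd h h2, fun h => absurd h h3⟩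
      · intro h
        apply h3
        have h4 : (c 0 : 𝓞 K) + c 1 ∈ n * I := by rw [h]; exact (n * I).zero_mem
        have h5 : (c 0 : 𝓞 K) = -c 1 := by linear_combination h
        exfalso
        have h6 := c.linearIndependent
        rw [Fintype.linearIndependent_iff] at h6
        have h7 := h6 ![1, 1] (by
          rw [Fin.sum_univ_two]
          apply Subtype.ext
          simpa using h) 0
        simp at h7

/-- The multiples of `y` in `n I`. -/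
theorem mem_iff_even {n I : Ideal (𝓞 K)} (hn : Ideal.absNorm n = 2) {x y : 𝓞 K}
    (h : Gen I x y) (hx : x ∈ n * I) (hy : y ∉ n * I) (z : 𝓞 K) :
    z ∈ n * I ↔ ∃ m l : ℤ, z = (m : 𝓞 K) * x + (l : 𝓞 K) * (2 * y) := by
  have h2 : (2 : 𝓞 K) ∈ n := by
    have := Ideal.absNorm_mem n
    rw [hn] at this
    simpa using this
  have hyI : y ∈ I := (h y).2 ⟨0, 1, by simp⟩
  have h2y : 2 * y ∈ n * I := Ideal.mul_mem_mul h2 hyI
  constructor
  · intro hz
    obtain ⟨m, l, rfl⟩ := (h z).1 (Ideal.mul_le_right hz)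
    rcases Int.even_or_odd l with ⟨l', rfl⟩ | ⟨l', rfl⟩
    · exact ⟨m, l', by push_cast; ring⟩
    · exfalso
      apply hy
      have h3 : y = ((m : 𝓞 K) * x + ((2 * l' + 1 : ℤ) : 𝓞 K) * y) - (m : 𝓞 K) * x -
          (l' : 𝓞 K) * (2 * y) := by
        push_cast
        ring
      rw [h3]
      exact (n * I).sub_mem ((n * I).sub_mem hz ((n * I).mul_mem_left _ hx))
        ((n * I).mul_mem_left _ h2y)
  · rintro ⟨m, l, rfl⟩
    exact (n * I).add_mem ((n * I).mul_mem_left _ hx) ((n * I).mul_mem_left _ h2y)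

theorem exists_formOf (hK : Module.finrank ℚ K = 2) (hd : 0 < discr K) {n : Ideal (𝓞 K)}
    (hn : Ideal.absNorm n = 2) (c : ClassGroup (𝓞 K)) : ∃ Q : LO.Frm, FormOf n c Q := by
  obtain ⟨I, hI⟩ := ClassGroup.mk0_surjective c
  have hI0 : (I : Ideal (𝓞 K)) ≠ ⊥ := nonZeroDivisors.coe_ne_zero I
  obtain ⟨x, y, h, hx, hy, hx0⟩ := exists_adapted hK hn hI0
  have hxI : x ∈ (I : Ideal (𝓞 K)) := Ideal.mul_le_right hx
  have hyI : y ∈ (I : Ideal (𝓞 K)) := (h y).2 ⟨0, 1, by simp⟩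
  obtain ⟨A, hA⟩ := Ideal.absNorm_dvd_norm_of_mem hxI
  obtain ⟨C, hC⟩ := Ideal.absNorm_dvd_norm_of_mem hyI
  obtain ⟨S, hS⟩ := Ideal.absNorm_dvd_norm_of_mem ((I : Ideal (𝓞 K)).add_mem hxI hyI)
  have hQ : NF (I : Ideal (𝓞 K)) x y ![A, S - A - C, C] := by
    intro m l
    rw [norm_comb hK, hA, hC, hS]
    change _ = (Ideal.absNorm (I : Ideal (𝓞 K)) : ℤ) *
      (A * m ^ 2 + (S - A - C) * (m * l) + C * l ^ 2)
    ring
  have hQ0 : A ≠ 0 := by
    rintro rfl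
    rw [mul_zero, Algebra.norm_eq_zero_iff] at hA
    exact hx0 hA
  rcases lt_or_gt_of_ne hQ0 with h0 | h0
  swap
  · exact ⟨![A, S - A - C, C], h0, I, x, y, hI, h, mem_iff_even hn h hx hy, hQ⟩
  obtain ⟨β, hβ⟩ := exists_neg hK hd
  have hβ0 : β ≠ 0 := by
    rintro rfl
    rw [Algebra.norm_zero] at hβ
    exact lt_irrefl _ hβ
  have hJ0 : Ideal.span {β} * (I : Ideal (𝓞 K)) ≠ ⊥ := by
    rw [Ne, Ideal.mul_eq_bot, not_or, Ideal.span_singleton_eq_bot]
    exact ⟨hβ0, hI0⟩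
  have hJ : Ideal.span {β} * (I : Ideal (𝓞 K)) ∈ (Ideal (𝓞 K))⁰ :=
    mem_nonZeroDivisors_of_ne_zero hJ0
  refine ⟨fun i => -![A, S - A - C, C] i, by simpa using h0, ⟨_, hJ⟩, β * x, β * y,
    ?_, ?_, ?_, ?_⟩
  · rw [← hI, ClassGroup.mk0_eq_mk0_iff]
    refine ⟨1, β, one_ne_zero, hβ0, ?_⟩
    rw [Ideal.span_singleton_one, Ideal.top_mul]
  · intro z
    change z ∈ Ideal.span {β} * (I : Ideal (𝓞 K)) ↔ _
    rw [Ideal.mem_span_singleton_mul]
    constructor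
    · rintro ⟨w, hw, rfl⟩
      obtain ⟨m, l, rfl⟩ := (h w).1 hw
      exact ⟨m, l, by ring⟩
    · rintro ⟨m, l, rfl⟩
      exact ⟨_, (h _).2 ⟨m, l, rfl⟩, by ring⟩
  · intro z
    change z ∈ n * (Ideal.span {β} * (I : Ideal (𝓞 K))) ↔ _
    rw [show n * (Ideal.span {β} * (I : Ideal (𝓞 K))) = Ideal.span {β} * (n * I) by ring,
      Ideal.mem_span_singleton_mul]
    constructor
    · rintro ⟨w, hw, rfl⟩
      obtain ⟨m, l, rfl⟩ := (mem_iff_even hn h hx hy w).1 hw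
      exact ⟨m, l, by ring⟩
    · rintro ⟨m, l, rfl⟩
      exact ⟨_, (mem_iff_even hn h hx hy _).2 ⟨m, l, rfl⟩, by ring⟩
  · intro m l
    have h1 : (m : 𝓞 K) * (β * x) + (l : 𝓞 K) * (β * y) =
        β * ((m : 𝓞 K) * x + (l : 𝓞 K) * y) := by ring
    have h2 : (Ideal.absNorm (Ideal.span {β} * (I : Ideal (𝓞 K))) : ℤ) =
        -Algebra.norm ℤ β * Ideal.absNorm (I : Ideal (𝓞 K)) := by
      rw [map_mul, Ideal.absNorm_span_singleton, Nat.cast_mul, Int.natCast_natAbs,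
        abs_of_neg hβ]
    change _ = (Ideal.absNorm (Ideal.span {β} * (I : Ideal (𝓞 K))) : ℤ) * _
    rw [h1, map_mul, hQ m l, h2]
    ring

/-- The first coefficient of an attached form is even. -/
theorem two_dvd {n : Ideal (𝓞 K)} (hn : Ideal.absNorm n = 2) {c : ClassGroup (𝓞 K)} {Q : LO.Frm}
    (hQ : FormOf n c Q) : (2 : ℤ) ∣ Q 0 := by
  obtain ⟨-, I, x, y, -, -, h2, h3⟩ := hQ
  have hI0 : Ideal.absNorm (I : Ideal (𝓞 K)) ≠ 0 := Ideal.absNorm_ne_zero_of_nonZeroDivisors I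
  have hx : x ∈ n * (I : Ideal (𝓞 K)) := (h2 x).2 ⟨1, 0, by simp⟩
  have h4 := Ideal.absNorm_dvd_norm_of_mem hx
  have h5 := h3 1 0
  simp only [Int.cast_one, mul_zero, Int.cast_zero, zero_mul, add_zero, one_pow, mul_one,
    ne_eq, OfNat.ofNat_ne_zero, not_false_eq_true, zero_pow, one_mul] at h5
  rw [h5, map_mul, hn, Nat.cast_mul, mul_comm] at h4
  have hI0' : ((Ideal.absNorm (I : Ideal (𝓞 K)) : ℕ) : ℤ) ≠ 0 := by exact_mod_cast hI0
  exact (mul_dvd_mul_iff_left hI0').1 h4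

end

/-- (FormN) the forms attached to ideal classes. -/
theorem stFormN : StFormN := by
  intro K _ _ hK hd n hn
  refine ⟨⟨fun c => (exists_formOf hK hd hn c).choose,
    fun c => (exists_formOf hK hd hn c).choose_spec⟩, fun c Q hQ => ⟨?_, two_dvd hn hQ⟩⟩
  obtain ⟨-, I, x, y, -, h, -, hQ⟩ := hQ
  exact disc_eq hK (nonZeroDivisors.coe_ne_zero I) h hQ

theorem kr_two {d : ℤ} (hF : FD d) (h8 : d % 8 ≠ 5) : kr d 2 = 0 ∨ kr d 2 = 1 := by
  by_cases h : d % 2 = 0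
  · left
    rw [kr, if_pos h, if_pos (by norm_num)]
  · right
    have h4 : d % 4 = 1 := by
      rcases hF with ⟨h4, -⟩ | ⟨h4, -⟩
      · exact h4
      · omega
    have h81 : d % 8 = 1 := by omega
    have hodd : Odd d.natAbs := by
      rw [Nat.odd_iff]
      omega
    rw [kr, if_neg h]
    have e : (((2 : ℕ) : ℤ)) = 2 := rfl
    rw [e, jacobiSym.at_two hodd, ZMod.χ₈_nat_eq_if_mod_eight]
    have h9 : d.natAbs % 8 = 1 ∨ d.natAbs % 8 = 7 := by omega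
    rw [if_neg (by omega), if_pos h9]

/-- (IdTwo) ideals of norm two. -/
theorem stIdTwo (hSplit : StSplitB) (hDiscr : StDiscrB) : StIdTwo := by
  intro K _ _ hK h8
  obtain ⟨h0, h1, -⟩ := hSplit K hK 2 Nat.prime_two
  rcases kr_two (hDiscr.1 K hK).1 h8 with h | h
  · obtain ⟨P, -, hP, -⟩ := h0 h
    exact ⟨P, hP⟩
  · obtain ⟨P, P', -, -, -, hP, -⟩ := h1 h
    exact ⟨P, hP⟩

end LT

end Pool.Agent.Lib.MP_7c5fb9_nt
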