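import Pool.Agent.Lib.MP_7c5fb9_nt.LT.Stmts
import Pool.Agent.Lib.MP_7c5fb9_nt.LT.FormN

set_option autoImplicit false

/-!
# Level two (MP_7c5fb9_nt, project LT): forms attached to ideal classes
-/

namespace Pool.Agent.Lib.MP_7c5fb9_nt

namespace LT

/-- The two definitions agree. -/
theorem formOf2_iff {K : Type} [Field K] [NumberField K]
    (n : Ideal (NumberField.RingOfIntegers K)) (c : ClassGroup (NumberField.RingOfIntegers K))
    (Q : Frm) : FormOf2 n c Q ↔ FormOf n c Q := Iff.rfl

/-- (Form) the forms attached to ideal classes and to an ideal of norm two. -/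
theorem stForm2 (hSplit : LO.StSplitB) (hDiscr : LO.StDiscrB) : StForm2 := by
  intro K _ _ hK hd
  refine ⟨fun h8 => stIdTwo hSplit hDiscr K hK h8, fun n hn => ?_⟩
  obtain ⟨h1, h2⟩ := stFormN K hK hd n hn
  exact ⟨h1, h2⟩

end LT

end Pool.Agent.Lib.MP_7c5fb9_nt
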