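import Pool.Agent.Lib.MP_7c5fb9_nt.LT.Stmts

set_option autoImplicit false

/-!
# Level two (MP_7c5fb9_nt, project LT): generators of the group of level two
-/

namespace Pool.Agent.Lib.MP_7c5fb9_nt

namespace LT

namespace GenAux

theorem inG_mul {M N : LO.Mat} (hM : InG M) (hN : InG N) : InG (M * N) := by
  refine ⟨by rw [Matrix.det_mul, hM.1, hN.1, one_mul], ?_⟩
  rw [Matrix.mul_apply, Fin.sum_univ_two]
  exact dvd_add (dvd_mul_of_dvd_left hM.2 _) (dvd_mul_of_dvd_right hN.2 _)

theorem inG_neg {M : LO.Mat} (hM : InG M) : InG (-M) := by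
  refine ⟨?_, ?_⟩
  · have h := hM.1
    rw [Matrix.det_fin_two] at h ⊢
    simp only [Matrix.neg_apply]
    linear_combination h
  · rw [Matrix.neg_apply]
    exact (dvd_neg).2 hM.2

theorem inG_tn (n : ℤ) : InG !![1, n; 0, 1] := by
  refine ⟨by rw [Matrix.det_fin_two_of]; ring, ?_⟩
  simp

theorem inG_ln (n : ℤ) : InG !![1, 0; 2 * n, 1] := by
  refine ⟨by rw [Matrix.det_fin_two_of]; ring, ?_⟩
  simp

theorem inG_one : InG 1 := by
  refine ⟨Matrix.det_one, ?_⟩
  simp

theorem tn_mul (a b : ℤ) : (!![1, a; 0, 1] : LO.Mat) * !![1, b; 0, 1] = !![1, a + b; 0, 1] := by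
  ext i j
  fin_cases i <;> fin_cases j <;> simp [Matrix.mul_apply, Fin.sum_univ_two, add_comm]

theorem ln_mul (a b : ℤ) :
    (!![1, 0; 2 * a, 1] : LO.Mat) * !![1, 0; 2 * b, 1] = !![1, 0; 2 * (a + b), 1] := by
  ext i j
  fin_cases i <;> fin_cases j <;> simp [Matrix.mul_apply, Fin.sum_univ_two, mul_add]

theorem tn_zero : (!![1, 0; 0, 1] : LO.Mat) = 1 := by
  ext i j
  fin_cases i <;> fin_cases j <;> rfl

section

variable {p : LO.Mat → Prop}

theorem tn_closed (h1 : ∀ M : LO.Mat, InG M → p M → p (M * LO.mT))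
    (h2 : ∀ M : LO.Mat, InG M → p M → p (M * LO.mT')) {M : LO.Mat} (hM : InG M) (h : p M)
    (n : ℤ) : p (M * !![1, n; 0, 1]) := by
  induction n using Int.induction_on with
  | zero => rwa [tn_zero, mul_one]
  | succ n ih =>
    have e := h1 _ (inG_mul hM (inG_tn n)) ih
    rwa [mul_assoc, LO.mT, tn_mul] at e
  | pred n ih =>
    have e := h2 _ (inG_mul hM (inG_tn _)) ih
    rwa [mul_assoc, LO.mT', tn_mul, ← sub_eq_add_neg] at e

theorem ln_closed (h1 : ∀ M : LO.Mat, InG M → p M → p (M * mL))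
    (h2 : ∀ M : LO.Mat, InG M → p M → p (M * !![1, 0; -2, 1])) {M : LO.Mat} (hM : InG M) (h : p M)
    (n : ℤ) : p (M * !![1, 0; 2 * n, 1]) := by
  have e1 : mL = !![1, 0; 2 * 1, 1] := rfl
  have e2 : (!![1, 0; -2, 1] : LO.Mat) = !![1, 0; 2 * (-1), 1] := rfl
  induction n using Int.induction_on with
  | zero => rwa [mul_zero, tn_zero, mul_one]
  | succ n ih =>
    have e := h1 _ (inG_mul hM (inG_ln n)) ih
    rwa [mul_assoc, e1, ln_mul] at e
  | pred n ih =>
    have e := h2 _ (inG_mul hM (inG_ln _)) ih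
    rwa [mul_assoc, e2, ln_mul, ← sub_eq_add_neg] at e

end

/-- Reduction of the lower row. -/
theorem red_mod (c d : ℤ) (hc : c ≠ 0) : ∃ n : ℤ, 2 * |d + n * c| ≤ |c| := by
  obtain ⟨y, hy⟩ : ∃ y : ℤ, y = |c| := ⟨_, rfl⟩
  have hs : c.sign * c = y := by rw [hy]; exact Int.sign_mul_self_eq_abs c
  have h0 : 0 < y := by rw [hy]; exact abs_pos.2 hc
  obtain ⟨q, hq⟩ : ∃ q : ℤ, q = (2 * d + y) / (2 * y) := ⟨_, rfl⟩
  have h1 := Int.emod_add_mul_ediv (2 * d + y) (2 * y)
  have h2 := Int.emod_nonneg (2 * d + y) (b := 2 * y) (by omega)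
  have h3 := Int.emod_lt_of_pos (2 * d + y) (b := 2 * y) (by omega)
  rw [← hq] at h1
  refine ⟨-q * c.sign, ?_⟩
  have h4 : d + -q * c.sign * c = d - q * y := by
    rw [mul_assoc, hs]
    ring
  rw [h4, ← hy]
  have h5 : 2 * (d - q * y) = (2 * d + y) % (2 * y) - y := by
    linear_combination -h1
  have h6 : 2 * |d - q * y| = |2 * (d - q * y)| := by
    rw [abs_mul]
    norm_num
  rw [h6, h5, abs_le]
  constructor <;> linarith

end GenAux

open GenAux in
/-- (Gen) generators of the group of level two. -/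
theorem stGen2 : StGen2 := by
  intro p h1 hneg hT hT' hL hL'
  have key : ∀ (N : ℕ) (M : LO.Mat), InG M → (M 1 0).natAbs ≤ N → p M := by
    intro N
    induction N with
    | zero =>
      intro M hM h0
      have hc : M 1 0 = 0 := by omega
      have hd := hM.1
      rw [Matrix.det_fin_two, hc, mul_zero, sub_zero] at hd
      rcases Int.mul_eq_one_iff_eq_one_or_neg_one.1 hd with ⟨ha, hd'⟩ | ⟨ha, hd'⟩
      · have e : M = 1 * !![1, M 0 1; 0, 1] := by
          rw [one_mul]
          ext i j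
          fin_cases i <;> fin_cases j <;> simp [ha, hd', hc]
        rw [e]
        exact tn_closed hT hT' inG_one h1 _
      · have e : M = -(1 * !![1, -M 0 1; 0, 1]) := by
          rw [one_mul]
          ext i j
          fin_cases i <;> fin_cases j <;> simp [ha, hd', hc]
        rw [e]
        exact hneg _ (inG_mul inG_one (inG_tn _)) (tn_closed hT hT' inG_one h1 _)
    | succ N ih =>
      intro M hM hN
      by_cases hc : M 1 0 = 0
      · exact ih M hM (by omega)
      obtain ⟨n, hn⟩ := red_mod (M 1 0) (M 1 1) hc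
      set M₁ : LO.Mat := M * !![1, n; 0, 1] with hM₁
      have hG₁ : InG M₁ := inG_mul hM (inG_tn n)
      have e10 : M₁ 1 0 = M 1 0 := by
        rw [hM₁, Matrix.mul_apply, Fin.sum_univ_two]
        simp
      have e11 : M₁ 1 1 = M 1 1 + n * M 1 0 := by
        rw [hM₁, Matrix.mul_apply, Fin.sum_univ_two]
        simp
        ring
      have hodd : ∀ X : LO.Mat, InG X → X 1 1 % 2 = 1 := by
        intro X hX
        have h2 := hX.1
        obtain ⟨e, he⟩ := hX.2
        rw [Matrix.det_fin_two, he] at h2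
        rcases Int.emod_two_eq_zero_or_one (X 1 1) with h | h
        · exfalso
          obtain ⟨s, hs⟩ : (2 : ℤ) ∣ X 1 1 := Int.dvd_of_emod_eq_zero h
          rw [hs] at h2
          have : (2 : ℤ) ∣ 1 := ⟨X 0 0 * s - X 0 1 * e, by linear_combination -h2⟩
          norm_num at this
        · exact h
      have hd₁ := hodd M₁ hG₁
      have hd0 : 2 * M₁ 1 1 ≠ 0 := by omega
      obtain ⟨l, hl⟩ := red_mod (2 * M₁ 1 1) (M₁ 1 0) hd0
      set M₂ : LO.Mat := M₁ * !![1, 0; 2 * l, 1] with hM₂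
      have hG₂ : InG M₂ := inG_mul hG₁ (inG_ln l)
      have f10 : M₂ 1 0 = M₁ 1 0 + l * (2 * M₁ 1 1) := by
        rw [hM₂, Matrix.mul_apply, Fin.sum_univ_two]
        simp
        ring
      rw [← f10] at hl
      rw [← e11] at hn
      have hev : M₂ 1 0 % 2 = 0 := Int.emod_eq_zero_of_dvd hG₂.2
      have hlt : (M₂ 1 0).natAbs ≤ N := by
        have g1 : 2 * |M₂ 1 0| ≤ 2 * |M₁ 1 1| := by
          have : |2 * M₁ 1 1| = 2 * |M₁ 1 1| := by
            rw [abs_mul]
            norm_num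
          rw [← this]
          exact hl
        rw [Int.abs_eq_natAbs, Int.abs_eq_natAbs] at g1 hn
        omega
      have hp₂ := ih M₂ hG₂ hlt
      have r1 : M₁ = M₂ * !![1, 0; 2 * (-l), 1] := by
        rw [hM₂, mul_assoc, ln_mul, add_neg_cancel, mul_zero, tn_zero, mul_one]
      have hp₁ : p M₁ := by
        rw [r1]
        exact ln_closed hL hL' hG₂ hp₂ _
      have r2 : M = M₁ * !![1, -n; 0, 1] := by
        rw [hM₁, mul_assoc, tn_mul, add_neg_cancel, tn_zero, mul_one]
      rw [r2]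
      exact tn_closed hT hT' hG₁ hp₁ _
  intro M hM
  exact key _ M hM le_rfl

end LT

end Pool.Agent.Lib.MP_7c5fb9_nt
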