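import Pool.Agent.Lib.MP_7c5fb9_nt.LT.Defs

set_option autoImplicit false

/-!
# Level two (MP_7c5fb9_nt, project LT): statements of the modules

One module = one file `LT/<Name>.lean` proving `theorem st<Name> : St<Name>` with the listed earlier
statements as hypotheses. Never change this file.
-/

namespace Pool.Agent.Lib.MP_7c5fb9_nt

namespace LT

open LO Pool.Agent.Lib.MP_7c08ba_nt.RZ UpperHalfPlane Filter Topology
open scoped MatrixGroups Polynomial nonZeroDivisors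

/-! ### Analysis -/

/-- (Coef) the analytic data of a newform. -/
def StCoef2 : Prop :=
  ∀ (k : ℕ) (f : Cusp2 (2 * k)), 1 ≤ k → IsNew k f → Ana k (cf f) (fun z => f (ofComplex z))

/-- (Prim) primitives of `F P`. -/
def StPrim2 : Prop :=
  ∀ (k : ℕ) (a : ℕ → ℂ) (F : ℂ → ℂ) (P : ℂ[X]), Ana k a F → P.natDegree < 2 * k →
    (∀ z : ℂ, 0 < z.im → HasDerivAt (Gp k a P) (F z * P.eval z) z) ∧
    (∀ z : ℂ, 0 < z.im → ∀ j : ℕ, Fj a j (z + 1) = Fj a j z) ∧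
    ∀ B ε : ℝ, 0 < ε → ∃ Y : ℝ, 0 < Y ∧ ∀ z : ℂ, |z.re| ≤ B → Y ≤ z.im → ‖Gp k a P z‖ ≤ ε

/-- (Coc) the cocycle. -/
def StCoc2 : Prop :=
  ∀ (k : ℕ) (a : ℕ → ℂ) (F : ℂ → ℂ), 1 ≤ k → Ana k a F →
    (∀ (M : Mat) (Q : Frm) (z : ℂ), InG M → 0 < z.im →
      Gp k a (pw k Q) (mb M z) - Gp k a (pw k (act Q M)) z = Phi k a M Q) ∧
    (∀ (M N : Mat) (Q : Frm), InG M → InG N →
      Phi k a (M * N) Q = Phi k a M Q + Phi k a N (act Q M)) ∧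
    (∀ Q : Frm, Phi k a mT Q = 0) ∧
    (∀ (M : Mat) (Q : Frm), Phi k a (-M) Q = Phi k a M Q) ∧
    (∀ (Q : Frm) (z : ℂ), 0 < z.im →
      Gp k a (pw k Q) (-1 / (2 * z)) - ((2 : ℂ) ^ (k - 1))⁻¹ * Gp k a (pw k (act Q mW)) z =
        V k a Q) ∧
    (∀ Q : Frm, Phi k a mL Q = V k a Q - V k a (act Q mL)) ∧
    ∀ Q : Frm, V k a (act Q mW) = -(2 : ℂ) ^ (k - 1) * V k a Q

/-- (Gen) generators of the group of level two. -/
def StGen2 : Prop :=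
  ∀ p : Mat → Prop, p 1 → (∀ M : Mat, InG M → p M → p (-M)) →
    (∀ M : Mat, InG M → p M → p (M * mT)) → (∀ M : Mat, InG M → p M → p (M * mT')) →
    (∀ M : Mat, InG M → p M → p (M * mL)) →
    (∀ M : Mat, InG M → p M → p (M * !![1, 0; -2, 1])) → ∀ M : Mat, InG M → p M

/-- (Per) periods. -/
def StPer2 : Prop :=
  ∀ (k : ℕ) (a : ℕ → ℂ) (F : ℂ → ℂ), 1 ≤ k → Ana k a F →
    ∀ Q : Frm, V k a Q = ∑ m ∈ Finset.range (2 * k - 1), (pw k Q).coeff m * rp k a m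

/-- (HecG) Hecke operators and primitives. -/
def StHecG2 : Prop :=
  ∀ (k : ℕ) (a : ℕ → ℂ) (F : ℂ → ℂ), 1 ≤ k → Ana k a F →
    (∀ (p : ℕ) (Q : Frm) (z : ℂ), p.Prime → p ≠ 2 → 0 < z.im →
      a p * Gp k a (pw k Q) z =
        Gp k a (pw k (act Q !![1, 0; 0, (p : ℤ)])) (p * z) +
          ∑ b ∈ Finset.range p, Gp k a (pw k (act Q !![(p : ℤ), -(b : ℤ); 0, 1])) ((z + b) / p)) ∧
    ∀ (Q : Frm) (z : ℂ) (σ : ℤ), 0 < z.im →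
      -(2 : ℂ) ^ (k - 1) * Gp k a (pw k Q) z =
        Gp k a (pw k (act Q !![2, 0; 0, 1])) (z / 2) +
          Gp k a (pw k (act Q !![2, -(2 * σ + 1); 0, 1])) ((z + (2 * σ + 1)) / 2)

/-- (Hec) Hecke operators. -/
def StHec2 : Prop :=
  ∀ (k : ℕ) (a : ℕ → ℂ) (F : ℂ → ℂ), 1 ≤ k → Ana k a F → ∀ Q : Frm,
    a 5 * V k a Q = TS L5p L5m (V k a) Q ∧ a 7 * V k a Q = TS L7p L7m (V k a) Q

/-- (New) the four term relation. -/
def StNew2 : Prop :=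
  ∀ (k : ℕ) (a : ℕ → ℂ) (F : ℂ → ℂ), 1 ≤ k → Ana k a F → ∀ (Q : Frm) (σ : ℤ), (σ = 1 ∨ σ = -1) →
    V k a Q - V k a (act Q mS) + V k a (act Q !![1, 0; σ, 1]) -
      V k a (act Q (!![1, σ; 0, 1] * mS)) = 0

/-- (Cyc) cycle integrals are values of the cocycle. -/
def StCyc2 : Prop :=
  ∀ (k : ℕ) (a : ℕ → ℂ) (F : ℂ → ℂ), 1 ≤ k → Ana k a F →
    ∀ (D : ℕ) (t u : ℤ) (Q : Frm), disc Q = D → 0 < D → 0 < Q 0 → (2 : ℤ) ∣ Q 0 →
      t ^ 2 - D * u ^ 2 = 4 → 0 < t → 0 < u → cyc k F Q (eps D t u) = Phi k a (aut Q t u) Q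

/-- (PsiC) the odd cocycle. -/
def StPsiC2 : Prop :=
  ∀ (k : ℕ) (a : ℕ → ℂ) (F : ℂ → ℂ), 1 ≤ k → Ana k a F →
    (∀ (M N : Mat) (Q : Frm), InG M → InG N →
      Psi k a (M * N) Q = Psi k a M Q + Psi k a N (act Q M)) ∧
    (∀ Q : Frm, Psi k a mT Q = 0) ∧
    (∀ (M : Mat) (Q : Frm), Psi k a (-M) Q = Psi k a M Q) ∧
    (∀ Q : Frm, Psi k a mL Q = Vo k a Q - Vo k a (act Q mL)) ∧
    (∀ Q : Frm, Vo k a (act Q mW) = -(2 : ℂ) ^ (k - 1) * Vo k a Q) ∧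
    (∀ Q : Frm, Vo k a Q - Vo k a (act Q mS) + Vo k a (act Q !![1, 0; 1, 1]) -
      Vo k a (act Q (mT * mS)) = 0) ∧
    (∀ Q : Frm, Vo k a (mir Q) = -Vo k a Q) ∧
    (∀ (c : ℤ) (Q : Frm), Vo k a (fun i => c * Q i) = (c : ℂ) ^ (k - 1) * Vo k a Q) ∧
    (∀ Q : Frm, a 5 * Vo k a Q = TS L5p L5m (Vo k a) Q ∧
      a 7 * Vo k a Q = TS L7p L7m (Vo k a) Q) ∧
    ∀ (D : ℕ) (t u : ℤ) (Q : Frm), disc Q = D → 0 < D → 0 < Q 0 → (2 : ℤ) ∣ Q 0 →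
      t ^ 2 - D * u ^ 2 = 4 → 0 < t → 0 < u →
        Psi k a (aut Q t u) Q = cyc k F Q (eps D t u) + cyc k F (mir Q) (eps D t u)

/-- (Lim) the cocycle at squares of linear forms. -/
def StLim2 : Prop :=
  ∀ (k : ℕ) (a : ℕ → ℂ) (F : ℂ → ℂ), 3 ≤ k → Ana k a F →
    (Summable fun n : ℕ => ‖a n * ((2 * Real.pi * Complex.I * n) ^ (2 * k - 1))⁻¹‖) ∧
    ∀ p q r s : ℤ, p * s - q * r = 1 → 0 < r → (2 : ℤ) ∣ r →
      Phi k a !![p, q; r, s] ![r ^ 2, -2 * p * r, p ^ 2] =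
        (2 * k - 2).factorial * (r : ℂ) ^ (2 * k - 2) * Fj a (2 * k - 1) (p / r)

/-- (NZ) the odd part of `V` does not vanish on the forms of discriminant `2` modulo `3`. -/
def StNZ2 : Prop :=
  ∀ (k : ℕ) (a : ℕ → ℂ) (F : ℂ → ℂ), 3 ≤ k → Ana k a F →
    ∃ Q : Frm, disc Q % 3 = 2 ∧ Vo k a Q ≠ 0

/-- The group generated by the values of the odd part of `V`. -/
noncomputable def NN2 (k : ℕ) (a : ℕ → ℂ) : AddSubgroup ℂ :=
  AddSubgroup.closure (Vo k a '' {Q | disc Q % 3 = 2})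

/-- (Fin) finiteness and `3`-adic continuity. -/
def StFin2 : Prop :=
  ∀ (k : ℕ) (a : ℕ → ℂ) (F : ℂ → ℂ), 1 ≤ k → Ana k a F →
    (NN2 k a).FG ∧ ∃ m : ℕ, 1 ≤ m ∧ ∀ Q Q' : Frm, disc Q % 3 = 2 → disc Q' % 3 = 2 →
      (∀ i, (3 ^ m : ℤ) ∣ Q i - Q' i) → ∃ z ∈ NN2 k a, Vo k a Q - Vo k a Q' = 3 * z

/-- (Red) reduction modulo `3`. -/
def StRed2 : Prop :=
  ∀ (k : ℕ) (a : ℕ → ℂ) (F : ℂ → ℂ), Even k → 3 ≤ k → Ana k a F →
    ∃ (N : AddSubgroup ℂ) (θ : N →+ ZMod 3), ∀ (M : Mat) (Q : Frm), InG M → disc Q % 3 = 2 →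
      ∃ h : Psi k a M Q ∈ N, θ ⟨Psi k a M Q, h⟩ = psi M Q

/-! ### Forms and fields -/

/-- (Form) the forms attached to ideal classes and to an ideal of norm two. -/
def StForm2 : Prop :=
  ∀ (K : Type) [Field K] [NumberField K], Module.finrank ℚ K = 2 → 0 < NumberField.discr K →
    (NumberField.discr K % 8 ≠ 5 →
      ∃ n : Ideal (NumberField.RingOfIntegers K), Ideal.absNorm n = 2) ∧
    ∀ n : Ideal (NumberField.RingOfIntegers K), Ideal.absNorm n = 2 →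
      (∃ q : ClassGroup (NumberField.RingOfIntegers K) → Frm, ∀ c, FormOf2 n c (q c)) ∧
      ∀ (c : ClassGroup (NumberField.RingOfIntegers K)) (Q : Frm), FormOf2 n c Q →
        disc Q = NumberField.discr K ∧ (2 : ℤ) ∣ Q 0

/-- (Crit) the criterion for the non-vanishing of toric periods. -/
def StCrit2 : Prop :=
  ∀ (k : ℕ) (f : Cusp2 (2 * k)), Even k → 3 ≤ k → IsNew k f →
    ∀ (K : Type) [Field K] [NumberField K], Module.finrank ℚ K = 2 → 0 < NumberField.discr K →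
      NumberField.discr K % 3 = 2 → NumberField.discr K % 8 ≠ 5 →
      ¬ 3 ∣ Nat.card (ClassGroup (NumberField.RingOfIntegers K)) →
      (∀ (D : ℕ) (t u : ℤ), NumberField.discr K = D → Fund D t u → lam D t u ≠ 0) →
      NonVan k f K

/-- The main theorem with prescribed local behaviour. -/
def StMain2 : Prop :=
  ∀ (k : ℕ) (f : Cusp2 (2 * k)), Even k → 3 ≤ k → IsNew k f →
    (∀ (K : Type) [Field K] [NumberField K] (D : ℕ), Module.finrank ℚ K = 2 →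
      NumberField.discr K = D → D % 3 = 2 → D % 8 ≠ 5 →
      (∀ (F : Type) [Field F] [NumberField F] (s : F), Module.finrank ℚ F = 2 →
        s ^ 2 = -((3 * D : ℕ) : F) →
          ¬ 3 ∣ Nat.card (ClassGroup (NumberField.RingOfIntegers F))) →
      NonVan k f K) ∧
    ∀ (M ρ : ℕ), RealTwo M ρ → ¬ (M = 8 ∧ ρ = 5) → ∀ P : Finset ℕ, (∀ p ∈ P, p.Prime ∧ 5 ≤ p) →
      ∀ r : ℕ, (∀ p ∈ P, ¬ p ^ 2 ∣ r) →
        (∃ c : ℝ, 0 < c ∧ ∃ X₀ : ℕ, ∀ X : ℕ, X₀ ≤ X →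
          c * X ≤ ({D : ℕ | D ≤ X ∧ FD D ∧ D % 3 = 2 ∧ D % M = ρ ∧
            D % (∏ p ∈ P, p ^ 2) = r % (∏ p ∈ P, p ^ 2) ∧
            ∀ (K : Type) [Field K] [NumberField K], Module.finrank ℚ K = 2 →
              NumberField.discr K = D → NonVan k f K}.ncard : ℝ)) ∧
        ∀ ε : ℝ, 0 < ε → ∃ X₀ : ℕ, ∀ X : ℕ, X₀ ≤ X →
          (1 / 2 - ε) * ({D : ℕ | D ≤ X ∧ FD D ∧ D % 3 = 2 ∧ D % M = ρ ∧
            D % (∏ p ∈ P, p ^ 2) = r % (∏ p ∈ P, p ^ 2)}.ncard : ℝ) ≤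
          ({D : ℕ | D ≤ X ∧ FD D ∧ D % 3 = 2 ∧ D % M = ρ ∧
            D % (∏ p ∈ P, p ^ 2) = r % (∏ p ∈ P, p ^ 2) ∧
            ∀ (K : Type) [Field K] [NumberField K], Module.finrank ℚ K = 2 →
              NumberField.discr K = D → NonVan k f K}.ncard : ℝ)

/-! ### The algebra modulo three -/

/-- (Vf) functions of forms as functions of matrices. -/
def StVf2 : Prop :=
  ∀ (m : ℕ) (u : Frm → ZMod 3), 1 ≤ m → PF2 m u →
    MF m (vf u) ∧ WR2 (vf u) ∧ Tor (vf u) ∧ T5 (vf u) = -vf (TS L5p L5m u) ∧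
      T7 (vf u) = vf (TS L7p L7m u) ∧ (vf u = 0 → u = 0)

/-- (VOne) functions of level three. -/
def StVOne2 : Prop :=
  ∀ (m : ℕ) (v : Mat → ZMod 3), MF m v → WR2 v → Fil 1 v →
    (∀ M N : Mat, v (M + (3 : ℤ) • N) = v M) ∧
    T5 v = 0 ∧ Lop2 v = 0 ∧ ((∀ i, ac i v = 0) → v = 0) ∧
    (ac 0 (Rt mr v) = -ac 0 v ∧ ac 1 (Rt mr v) = ac 2 v ∧ ac 2 (Rt mr v) = -ac 1 v) ∧
    (ac 0 (Rt mE v) = ac 0 v ∧ ac 1 (Rt mE v) = -ac 2 v ∧ ac 2 (Rt mE v) = -ac 1 v) ∧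
    (ac 0 (Rt mT v) = ac 2 v ∧ ac 1 (Rt mT v) = -ac 0 v ∧ ac 2 (Rt mT v) = -ac 1 v)

/-- (First) symbols of functions of degree at most one. -/
def StFirst2 : Prop :=
  ∀ (m : ℕ) (v : Mat → ZMod 3), MF m v → WR2 v → Fil 2 v →
    ∀ i j, ac i (Xd j v) = ac j (Xd i v)

/-- (Lap) `T_5` is the Laplace operator on symbols. -/
def StLap2 : Prop :=
  ∀ (m : ℕ) (v : Mat → ZMod 3), MF m v → WR2 v → Fil 3 v →
    ∀ j, ac j (T5 v) = -∑ i, ac i (Xd i (Xd j v))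

/-- (Sym) symbols are symmetric, and harmonic from degree three on. -/
def StSym2 : Prop :=
  ∀ (m d : ℕ) (v : Mat → ZMod 3), KK2 m v → Fil (d + 1) v →
    (∀ l l' : List (Fin 3), l.length = d + 1 → l.Perm l' → sym v l = sym v l') ∧
    (∀ l : List (Fin 3), l ≠ [] → l.length + 1 = d → ∑ i, sym v (i :: i :: l) = 0) ∧
    ((∀ l : List (Fin 3), l.length = d + 1 → sym v l = 0) → Fil d v)

/-- (Rot) symbols and rotations. -/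
def StRot2 : Prop :=
  ∀ (m d : ℕ) (v : Mat → ZMod 3), KK2 m v → Fil (d + 1) v →
    ∀ l : List (Fin 3), l.length = d + 1 →
      sym (Rt mr v) l = -((-1) ^ l.count 1 * sym v (l.map (Equiv.swap 1 2))) ∧
      sym (Rt mE v) l = -((-1) ^ l.count 0 * sym v (l.map (Equiv.swap 1 2))) ∧
      sym (Rt mT v) l = (-1) ^ (l.count 1 + l.count 2) * sym v (l.map ![2, 0, 1])

/-- (TorSym) symbols of functions of forms. -/
def StTorSym2 : Prop :=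
  ∀ (m d : ℕ) (v : Mat → ZMod 3), KK2 m v → Tor v → Fil (d + 1) v → ¬ Fil d v →
    d % 4 = 1 ∧ d < 3 ^ (m - 1) ∧ ∃ B : ZMod 3, B ≠ 0 ∧
      ∀ l : List (Fin 3), l.length = d + 1 → sym v l =
        if l.count 0 = 0 ∧ l.count 2 % 2 = 1 then (-1) ^ (l.count 2 / 2) * B else 0

/-- (Ex) the two functions. -/
def StEx2 : Prop :=
  PF2 2 g0 ∧ PF2 3 u4w ∧ g0 ≠ 0 ∧ TS L5p L5m g0 = 0 ∧ TS L5p L5m u4w = 0 ∧
    TS L7p L7m g0 = (2 : ZMod 3) • g0 ∧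
    TS L7p L7m u4w = (2 : ZMod 3) • u4w + g0

/-- (Low) `T_7 - 2` lowers the degree by four. -/
def StLow2 : Prop :=
  ∀ (m n : ℕ) (v : Mat → ZMod 3), KK2 m v → Fil (n + 4) v → Fil n (Lop2 v)

/-- (KL) the socle. -/
def StKL2 : Prop :=
  ∀ (m : ℕ) (G : Submodule (ZMod 3) (Frm → ZMod 3)), (∀ u ∈ G, PF2 m u) →
    (∀ u ∈ G, TS L5p L5m u ∈ G) → (∀ u ∈ G, TS L7p L7m u ∈ G) → G ≠ ⊥ → g0 ∈ G

end LT

end Pool.Agent.Lib.MP_7c5fb9_nt
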