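import Mathlib
import Pool.Agent.Lib.MP_7c5fb9_nt.LT.Stmts
import Pool.Agent.Lib.MP_7c5fb9_nt.LO.Basic

set_option autoImplicit false

/-!
# Level two (MP_7c5fb9_nt, project LT): (New2) the four term relation
-/

namespace Pool.Agent.Lib.MP_7c5fb9_nt

namespace LT

open LO Pool.Agent.Lib.MP_7c08ba_nt.RZ UpperHalfPlane Filter Topology
open scoped MatrixGroups Polynomial nonZeroDivisors

namespace New2Aux

/-- The matrix `L⁻¹`. -/
def mL' : Mat := !![1, 0; -2, 1]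

theorem pw_smul (k : ℕ) (c : ℤ) (Q : Frm) :
    pw k (fun i => c * Q i) = Polynomial.C ((c : ℂ) ^ (k - 1)) * pw k Q := by
  unfold pw
  rw [Polynomial.C_pow, ← mul_pow]
  congr 1
  push_cast
  simp only [Polynomial.C_mul]
  ring

theorem Gp_smul (k : ℕ) (a : ℕ → ℂ) (c : ℂ) (P : ℂ[X]) (z : ℂ) :
    Gp k a (Polynomial.C c * P) z = c * Gp k a P z := by
  unfold Gp
  rw [Finset.mul_sum]
  refine Finset.sum_congr rfl fun j _ => ?_
  rw [Polynomial.iterate_derivative_C_mul, Polynomial.eval_mul, Polynomial.eval_C]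
  ring

theorem Gp_pw_smul (k : ℕ) (a : ℕ → ℂ) (c : ℤ) (Q : Frm) (z : ℂ) :
    Gp k a (pw k (fun i => c * Q i)) z = (c : ℂ) ^ (k - 1) * Gp k a (pw k Q) z := by
  rw [pw_smul, Gp_smul]

/-- The properties which are used. -/
structure Dat (c : ℂ) (G : Frm → ℂ → ℂ) (Φ : Mat → Frm → ℂ) (V : Frm → ℂ) : Prop where
  c0 : c ≠ 0
  c1 : ∀ (M : Mat) (Q : Frm) (z : ℂ), InG M → 0 < z.im →
    G Q (mb M z) - G (act Q M) z = Φ M Q
  c2 : ∀ (M N : Mat) (Q : Frm), InG M → InG N →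
    Φ (M * N) Q = Φ M Q + Φ N (act Q M)
  cW : ∀ (Q : Frm) (z : ℂ), 0 < z.im → G Q (-1 / (2 * z)) - c⁻¹ * G (act Q mW) z = V Q
  cL : ∀ Q : Frm, Φ mL Q = V Q - V (act Q mL)
  cV : ∀ Q : Frm, V (act Q mW) = -c * V Q
  g4 : ∀ (Q : Frm) (z : ℂ), G (fun i => 4 * Q i) z = c ^ 2 * G Q z
  h : ∀ (Q : Frm) (z : ℂ) (σ : ℤ), 0 < z.im → -c * G Q z = G (act Q !![2, 0; 0, 1]) (z / 2) +
    G (act Q !![2, -(2 * σ + 1); 0, 1]) ((z + (2 * σ + 1)) / 2)

variable {c : ℂ} {G : Frm → ℂ → ℂ} {Φ : Mat → Frm → ℂ} {V : Frm → ℂ}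

theorem inG_one : InG 1 := ⟨by simp, by simp⟩

theorem inG_mL : InG mL := ⟨by simp [mL, Matrix.det_fin_two_of], by simp [mL]⟩

theorem inG_mL' : InG mL' := ⟨by simp [mL', Matrix.det_fin_two_of], by simp [mL']⟩

theorem Dat.one (d : Dat c G Φ V) (Q : Frm) : Φ 1 Q = 0 := by
  have h := d.c2 1 1 Q inG_one inG_one
  rw [mul_one, act_one] at h
  linear_combination -h

theorem Dat.cL' (d : Dat c G Φ V) (Q : Frm) : Φ mL' Q = V Q - V (act Q mL') := by
  have h := d.c2 mL' mL Q inG_mL' inG_mL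
  have e : mL' * mL = 1 := by decide
  rw [e, d.one, d.cL, act_act, e, act_one] at h
  linear_combination -h

theorem im_half {z : ℂ} (hz : 0 < z.im) : 0 < (z / 2).im := by
  rw [show (2 : ℂ) = ((2 : ℕ) : ℂ) by norm_num, Complex.div_natCast_im]
  positivity

/-- The common part of the two relations: `s = 1` or `s = -1`. -/
theorem Dat.four (d : Dat c G Φ V) (Q : Frm) (s : ℤ) (X : Mat) (hX : InG X)
    (hs : ∃ σ : ℤ, s = 2 * σ + 1) (hs' : ∃ σ : ℤ, -s = 2 * σ + 1)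
    (hΦ : ∀ P : Frm, Φ X P = V P - V (act P X))
    (hmb : mb X ((Complex.I + -s) / 2) = (Complex.I + s) / 2)
    (hXm : act Q (!![2, -s; 0, 1] * X) = act Q (mS * !![2, s; 0, 1])) (Y Z : Mat)
    (hY : act Q (Y * mW) = act Q !![2, -s; 0, 1])
    (hZ : act Q (Z * mW) = act Q (mS * !![2, s; 0, 1])) :
    V Q - V (act Q mS) + V (act Q Z) - V (act Q Y) = 0 := by
  have hI : (0 : ℝ) < (Complex.I).im := by simp
  have hI0 := Complex.I_ne_zero
  have hI2 := Complex.I_sq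
  have hc := d.c0
  obtain ⟨σ, hσ⟩ := hs
  obtain ⟨σ', hσ'⟩ := hs'
  have A := d.h Q Complex.I σ hI
  have B := d.h (act Q mS) Complex.I σ' hI
  have hσc : 2 * (σ : ℂ) + 1 = s := by
    rw [hσ]
    push_cast
    ring
  have hσc' : 2 * (σ' : ℂ) + 1 = -s := by
    have : ((-s : ℤ) : ℂ) = ((2 * σ' + 1 : ℤ) : ℂ) := by rw [hσ']
    push_cast at this
    rw [this]
  rw [hσc, ← hσ] at A
  rw [hσc', ← hσ', neg_neg, act_act, act_act] at B
  have w1 := d.cW (act Q !![2, 0; 0, 1]) Complex.I hI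
  have w2 := d.cW Q (Complex.I / 2) (im_half hI)
  have w3 := d.c1 X (act Q !![2, -s; 0, 1]) ((Complex.I + -s) / 2) hX (by
    apply im_half
    simp)
  rw [hΦ, hmb, act_act, hXm] at w3
  have e1 : (!![2, 0; 0, 1] * mW : Mat) = (2 : ℤ) • mS := by decide
  rw [act_act, e1, act_smul] at w1
  have e5 := d.g4 (act Q mS) Complex.I
  norm_num at w1
  rw [e5] at w1
  have e6 : (-1 : ℂ) / (2 * Complex.I) = Complex.I / 2 := by
    field_simp
    linear_combination (-1 : ℂ) * hI2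
  have e7 : (-1 : ℂ) / (2 * (Complex.I / 2)) = Complex.I := by
    field_simp
    linear_combination (-1 : ℂ) * hI2
  have e8 : (mS * !![2, 0; 0, 1] : Mat) = mW := by decide
  rw [e7] at w2
  rw [e8] at B
  have v1 : V (act Q !![2, 0; 0, 1]) = -c * V (act Q mS) := by
    have h := d.cV (act Q mS)
    rw [act_act] at h
    rw [← h]
    have e9 : (mS * mW : Mat) = -!![2, 0; 0, 1] := by decide
    rw [e9, act_neg]
  have v2 : V (act Q !![2, -s; 0, 1]) = -c * V (act Q Y) := by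
    rw [← hY, ← act_act, d.cV]
  have v3 : V (act Q (mS * !![2, s; 0, 1])) = -c * V (act Q Z) := by
    rw [← hZ, ← act_act, d.cV]
  have w1' : G (act Q !![2, 0; 0, 1]) (Complex.I / 2) - c⁻¹ * (c ^ 2 * G (act Q mS) Complex.I) =
      V (act Q !![2, 0; 0, 1]) := by
    rw [← w1]
    congr 2
    rw [← e6]
  rw [v1] at w1'
  rw [v2, v3] at w3
  have key : c * (V Q - V (act Q mS) + V (act Q Z) - V (act Q Y)) = 0 := by
    have hcc : c⁻¹ * (c ^ 2 * G (act Q mS) Complex.I) = c * G (act Q mS) Complex.I := by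
      field_simp
    have hcc2 : c * (c⁻¹ * G (act Q mW) (Complex.I / 2)) = G (act Q mW) (Complex.I / 2) := by
      field_simp
    rw [hcc] at w1'
    linear_combination (-c) * w2 - A + B - hcc2 - w1' - w3
  exact (mul_eq_zero.mp key).resolve_left hc

/-- The data of a newform. -/
theorem dat (hCoc : StCoc2) (hHecG : StHecG2) {k : ℕ} {a : ℕ → ℂ} {F : ℂ → ℂ} (hk : 1 ≤ k)
    (hA : Ana k a F) :
    Dat ((2 : ℂ) ^ (k - 1)) (fun Q z => Gp k a (pw k Q) z) (Phi k a) (LT.V k a) where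
  c0 := pow_ne_zero _ two_ne_zero
  c1 := (hCoc k a F hk hA).1
  c2 := (hCoc k a F hk hA).2.1
  cW := (hCoc k a F hk hA).2.2.2.2.1
  cL := (hCoc k a F hk hA).2.2.2.2.2.1
  cV := (hCoc k a F hk hA).2.2.2.2.2.2
  g4 := fun Q z => by
    have h := Gp_pw_smul k a 4 Q z
    rw [h]
    congr 1
    push_cast
    rw [← pow_mul, mul_comm (k - 1) 2, pow_mul]
    norm_num
  h := (hHecG k a F hk hA).2

end New2Aux

open New2Aux in
theorem stNew2 (hCoc : StCoc2) (hHecG : StHecG2) : StNew2 := by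
  intro k a F hk hA Q σ hσ
  have d := dat hCoc hHecG hk hA
  have hI0 := Complex.I_ne_zero
  have hI2 := Complex.I_sq
  have e : ∀ (M N : Mat), M = N ∨ M = -N → act Q M = act Q N := by
    rintro M N (h | h)
    · rw [h]
    · rw [h, act_neg]
  rcases hσ with rfl | rfl
  · exact d.four Q (-1) mL' inG_mL' ⟨-1, by norm_num⟩ ⟨0, by norm_num⟩ d.cL' (by
      simp only [mb, mL', Matrix.of_apply, Matrix.cons_val', Matrix.cons_val_zero,
        Matrix.cons_val_one, Matrix.cons_val_fin_one]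
      push_cast
      have e1 : (-2 : ℂ) * ((Complex.I + - -1) / 2) + 1 = -Complex.I := by ring
      rw [e1, div_eq_iff (neg_ne_zero.mpr hI0)]
      linear_combination (1 / 2 : ℂ) * hI2) (e _ _ (by decide)) (!![1, 1; 0, 1] * mS)
      !![1, 0; 1, 1] (e _ _ (by decide)) (e _ _ (by decide))
  · exact d.four Q 1 mL inG_mL ⟨0, by norm_num⟩ ⟨-1, by norm_num⟩ d.cL (by
      simp only [mb, mL, Matrix.of_apply, Matrix.cons_val', Matrix.cons_val_zero,
        Matrix.cons_val_one, Matrix.cons_val_fin_one]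
      push_cast
      have e1 : (2 : ℂ) * ((Complex.I + -1) / 2) + 1 = Complex.I := by ring
      rw [e1, div_eq_iff hI0]
      linear_combination (-1 / 2 : ℂ) * hI2) (e _ _ (by decide)) (!![1, -1; 0, 1] * mS)
      !![1, 0; -1, 1] (e _ _ (by decide)) (e _ _ (by decide))

end LT

end Pool.Agent.Lib.MP_7c5fb9_nt
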