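import Mathlib
import Pool.Agent.Lib.MP_7c5fb9_nt.LT.New2

set_option autoImplicit false

/-!
# Level two (MP_7c5fb9_nt, project LT): (Hec2) Hecke operators
-/

namespace Pool.Agent.Lib.MP_7c5fb9_nt

namespace LT

open LO Pool.Agent.Lib.MP_7c08ba_nt.RZ UpperHalfPlane Filter Topology
open scoped MatrixGroups Polynomial nonZeroDivisors

namespace Hec2Aux

open New2Aux

variable {c : ℂ} {G : Frm → ℂ → ℂ} {Φ : Mat → Frm → ℂ} {V : Frm → ℂ}

theorem inG_T (n : ℤ) : InG !![1, n; 0, 1] := ⟨by simp [Matrix.det_fin_two_of], by simp⟩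

theorem inG_L (n : ℤ) : InG !![1, 0; 2 * n, 1] := ⟨by simp [Matrix.det_fin_two_of], by simp⟩

/-- Additional properties. -/
structure DatT (Φ : Mat → Frm → ℂ) : Prop where
  c3 : ∀ Q : Frm, Φ mT Q = 0
  c4 : ∀ (M : Mat) (Q : Frm), Φ (-M) Q = Φ M Q

theorem phiT (d : Dat c G Φ V) (e : DatT Φ) (n : ℤ) : ∀ Q : Frm, Φ !![1, n; 0, 1] Q = 0 := by
  have hT : InG mT := inG_T 1
  induction n using Int.induction_on with
  | zero =>
    intro Q
    have e : (!![1, 0; 0, 1] : Mat) = 1 := by decide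
    rw [e]
    exact d.one Q
  | succ n ih =>
    intro Q
    have e1 : (!![1, (n : ℤ) + 1; 0, 1] : Mat) = !![1, (n : ℤ); 0, 1] * mT := by
      simp [mT, add_comm]
    rw [e1, d.c2 _ _ Q (inG_T _) hT, ih, e.c3, add_zero]
  | pred n ih =>
    intro Q
    have e1 : (!![1, -(n : ℤ); 0, 1] : Mat) = !![1, -(n : ℤ) - 1; 0, 1] * mT := by
      simp [mT]
    have h := ih Q
    rw [e1, d.c2 _ _ Q (inG_T _) hT, e.c3, add_zero] at h
    exact h

theorem phiL (d : Dat c G Φ V) (n : ℤ) : ∀ Q : Frm,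
    Φ !![1, 0; 2 * n, 1] Q = V Q - V (act Q !![1, 0; 2 * n, 1]) := by
  have hL : InG mL := inG_mL
  induction n using Int.induction_on with
  | zero =>
    intro Q
    have e : (!![1, 0; 2 * 0, 1] : Mat) = 1 := by decide
    rw [e, act_one, sub_self]
    exact d.one Q
  | succ n ih =>
    intro Q
    have e1 : (!![1, 0; 2 * ((n : ℤ) + 1), 1] : Mat) = !![1, 0; 2 * (n : ℤ), 1] * mL := by
      simp [mL, mul_add]
    rw [e1, d.c2 _ _ Q (inG_L _) hL, ih, d.cL, act_act]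
    ring
  | pred n ih =>
    intro Q
    have e1 : (!![1, 0; 2 * -(n : ℤ), 1] : Mat) = !![1, 0; 2 * (-(n : ℤ) - 1), 1] * mL := by
      simp [mL]
      ring
    have h := ih Q
    rw [e1, d.c2 _ _ Q (inG_L _) hL, d.cL, act_act] at h
    linear_combination h

theorem im_W {y : ℂ} (hy : 0 < y.im) : 0 < (-1 / (2 * y)).im := by
  have hy0 : y ≠ 0 := by
    rintro rfl
    simp at hy
  have h1 : -1 / (2 * y) = -(2 * y)⁻¹ := by
    rw [neg_div, one_div]
  rw [h1, Complex.neg_im, Complex.inv_im]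
  have h2 : (2 * y).im = 2 * y.im := by simp
  have h3 : 0 < Complex.normSq (2 * y) := Complex.normSq_pos.mpr (mul_ne_zero two_ne_zero hy0)
  rw [h2]
  have : 0 < 2 * y.im / Complex.normSq (2 * y) := by positivity
  linarith [neg_div (Complex.normSq (2 * y)) (2 * y.im)]

/-- The main lemma: the contribution of a residue class. -/
theorem gam (d : Dat c G Φ V) (e : DatT Φ) (l : ℕ) (hl : 0 < l) (b b' m n j : ℤ)
    (hm : l * m = 2 * b * b' + 1)
    (hδ : (!![m, b; 2 * b', (l : ℤ)] : Mat) = !![1, 0; 2 * n, 1] * !![1, j; 0, 1] ∨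
      (!![m, b; 2 * b', (l : ℤ)] : Mat) = -(!![1, 0; 2 * n, 1] * !![1, j; 0, 1])) (Q : Frm) :
    G (act Q !![(l : ℤ), -b; 0, 1]) ((Complex.I / 2 + b) / l) -
      c⁻¹ * G (act (act Q mW) !![(l : ℤ), -b'; 0, 1]) ((Complex.I + b') / l) =
    V (act Q !![(l : ℤ), -b; 0, 1]) -
      V (act Q (!![(l : ℤ), -b; 0, 1] * !![1, 0; 2 * n, 1])) +
      V (act Q !![1, 0; 2 * b', (l : ℤ)]) := by
  have hl0 : (l : ℂ) ≠ 0 := by exact_mod_cast hl.ne'
  have hlr : (0 : ℝ) < l := by exact_mod_cast hl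
  have hI0 := Complex.I_ne_zero
  have hI2 := Complex.I_sq
  have hz : 0 < ((Complex.I + b') / (l : ℂ)).im := by
    rw [Complex.div_natCast_im, Complex.add_im, Complex.I_im, Complex.intCast_im, add_zero]
    positivity
  have hz0 : (Complex.I + b') / (l : ℂ) ≠ 0 := by
    intro h
    rw [h] at hz
    simp at hz
  have hIb : (Complex.I + b' : ℂ) ≠ 0 := by
    intro h
    rw [h] at hz
    simp at hz
  have hD : InG !![m, b; 2 * b', (l : ℤ)] := by
    refine ⟨?_, by simp⟩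
    rw [Matrix.det_fin_two_of]
    linear_combination hm
  -- the cocycle
  have hΦ : Φ !![m, b; 2 * b', (l : ℤ)] (act Q !![(l : ℤ), -b; 0, 1]) =
      V (act Q !![(l : ℤ), -b; 0, 1]) -
        V (act Q (!![(l : ℤ), -b; 0, 1] * !![1, 0; 2 * n, 1])) := by
    have key : Φ (!![1, 0; 2 * n, 1] * !![1, j; 0, 1]) (act Q !![(l : ℤ), -b; 0, 1]) =
      V (act Q !![(l : ℤ), -b; 0, 1]) -
        V (act Q (!![(l : ℤ), -b; 0, 1] * !![1, 0; 2 * n, 1])) := by
      rw [d.c2 _ _ _ (inG_L n) (inG_T j), phiL d, phiT d e, add_zero, act_act]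
    rcases hδ with h | h
    · rw [h, key]
    · rw [h, e.c4, key]
  have hw := im_W hz
  have h1 := d.c1 !![m, b; 2 * b', (l : ℤ)] (act Q !![(l : ℤ), -b; 0, 1])
    (-1 / (2 * ((Complex.I + b') / (l : ℂ)))) hD hw
  have h2 := d.cW (act Q !![1, 0; 2 * b', (l : ℤ)]) ((Complex.I + b') / (l : ℂ)) hz
  have hmc : (l : ℂ) * m = 2 * b * b' + 1 := by exact_mod_cast hm
  have e1 : mb !![m, b; 2 * b', (l : ℤ)] (-1 / (2 * ((Complex.I + b') / (l : ℂ)))) =
      (Complex.I / 2 + b) / l := by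
    simp only [mb, Matrix.of_apply, Matrix.cons_val', Matrix.cons_val_zero, Matrix.cons_val_one,
      Matrix.cons_val_fin_one]
    push_cast
    have e2 : -1 / (2 * ((Complex.I + b') / (l : ℂ))) = -(l : ℂ) / (2 * (Complex.I + b')) := by
      field_simp
    rw [e2]
    have e3 : 2 * (b' : ℂ) * (-(l : ℂ) / (2 * (Complex.I + b'))) + l =
        l * Complex.I / (Complex.I + b') := by
      field_simp
      ring
    rw [e3]
    field_simp
    linear_combination (-1 : ℂ) * hI2 - hmc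
  have e4 : (!![(l : ℤ), -b; 0, 1] * !![m, b; 2 * b', (l : ℤ)] : Mat) =
      !![1, 0; 2 * b', (l : ℤ)] := by
    have e5 : (l : ℤ) * m + -(b * (2 * b')) = 1 := by linear_combination hm
    have e6 : (l : ℤ) * b + -(b * l) = 0 := by ring
    simp [e5, e6]
  have e7 : (!![1, 0; 2 * b', (l : ℤ)] * mW : Mat) = mW * !![(l : ℤ), -b'; 0, 1] := by
    simp [mW]
    ring
  rw [hΦ, e1, act_act, e4] at h1
  rw [act_act, e7, ← act_act] at h2
  linear_combination h1 + h2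

theorem eI : (-1 : ℂ) / (2 * Complex.I) = Complex.I / 2 := by
  have hI0 := Complex.I_ne_zero
  field_simp
  linear_combination (-1 : ℂ) * Complex.I_sq

theorem base (d : Dat c G Φ V) (Q : Frm) :
    V Q = G Q (Complex.I / 2) - c⁻¹ * G (act Q mW) Complex.I := by
  have h := d.cW Q Complex.I (by simp)
  rw [eI] at h
  exact h.symm

theorem inf (d : Dat c G Φ V) (l : ℕ) (hl : 0 < l) (Q : Frm) :
    V (act Q !![1, 0; 0, (l : ℤ)]) = G (act Q !![1, 0; 0, (l : ℤ)]) (l * (Complex.I / 2)) -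
      c⁻¹ * G (act (act Q mW) !![(l : ℤ), 0; 0, 1]) (Complex.I / l) := by
  have hl0 : (l : ℂ) ≠ 0 := by exact_mod_cast hl.ne'
  have hlr : (0 : ℝ) < l := by exact_mod_cast hl
  have hz : 0 < (Complex.I / (l : ℂ)).im := by
    rw [Complex.div_natCast_im, Complex.I_im]
    positivity
  have h := d.cW (act Q !![1, 0; 0, (l : ℤ)]) (Complex.I / l) hz
  have e : (-1 : ℂ) / (2 * (Complex.I / l)) = l * (Complex.I / 2) := by
    have := Complex.I_ne_zero
    field_simp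
    linear_combination (-1 : ℂ) * Complex.I_sq
  have e2 : (!![1, 0; 0, (l : ℤ)] * mW : Mat) = mW * !![(l : ℤ), 0; 0, 1] := by
    simp [mW]
    ring
  rw [e, act_act, e2, ← act_act] at h
  exact h.symm

theorem zer (d : Dat c G Φ V) (l : ℕ) (hl : 0 < l) (Q : Frm) :
    V (act Q !![(l : ℤ), 0; 0, 1]) = G (act Q !![(l : ℤ), 0; 0, 1]) (Complex.I / 2 / l) -
      c⁻¹ * G (act (act Q mW) !![1, 0; 0, (l : ℤ)]) (l * Complex.I) := by
  have hl0 : (l : ℂ) ≠ 0 := by exact_mod_cast hl.ne'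
  have hlr : (0 : ℝ) < l := by exact_mod_cast hl
  have hz : 0 < ((l : ℂ) * Complex.I).im := by simpa using hl
  have h := d.cW (act Q !![(l : ℤ), 0; 0, 1]) (l * Complex.I) hz
  have e : (-1 : ℂ) / (2 * (l * Complex.I)) = Complex.I / 2 / l := by
    have := Complex.I_ne_zero
    field_simp
    linear_combination (-1 : ℂ) * Complex.I_sq
  have e2 : (!![(l : ℤ), 0; 0, 1] * mW : Mat) = mW * !![1, 0; 0, (l : ℤ)] := by
    simp [mW]
  rw [e, act_act, e2, ← act_act] at h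
  exact h.symm

/-- Translation invariance. -/
theorem shift (d : Dat c G Φ V) (e : DatT Φ) (l : ℕ) (hl : 0 < l) (b : ℤ) (Q : Frm) {z : ℂ}
    (hz : 0 < z.im) :
    G (act Q !![(l : ℤ), -(b + l); 0, 1]) ((z + (b + l : ℤ)) / l) =
      G (act Q !![(l : ℤ), -b; 0, 1]) ((z + b) / l) := by
  have hl0 : (l : ℂ) ≠ 0 := by exact_mod_cast hl.ne'
  have hlr : (0 : ℝ) < l := by exact_mod_cast hl
  have hw : 0 < ((z + b) / (l : ℂ)).im := by
    rw [Complex.div_natCast_im, Complex.add_im, Complex.intCast_im, add_zero]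
    positivity
  have h := d.c1 mT (act Q !![(l : ℤ), -(b + l); 0, 1]) ((z + b) / l) (inG_T 1) hw
  rw [e.c3, act_act] at h
  have e1 : (!![(l : ℤ), -(b + l); 0, 1] * mT : Mat) = !![(l : ℤ), -b; 0, 1] := by
    simp [mT]
  have e2 : mb mT ((z + b) / l) = (z + (b + l : ℤ)) / l := by
    have e3 : (z + (b + l : ℤ)) / (l : ℂ) = (z + b) / l + 1 := by
      push_cast
      rw [div_add_one hl0, add_assoc]
    rw [e3]
    simp [mb, mT]
  rw [e1, e2] at h
  exact sub_eq_zero.mp h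

/-- Functions attached to the residue classes. -/
noncomputable def gg (G : Frm → ℂ → ℂ) (l : ℕ) (Q : Frm) (z : ℂ) (b : ℤ) : ℂ :=
  G (act Q !![(l : ℤ), -b; 0, 1]) ((z + b) / l)

theorem five {a : ℂ} (d : Dat c G Φ V) (e : DatT Φ)
    (h : ∀ (Q : Frm) (z : ℂ), 0 < z.im → a * G Q z = G (act Q !![1, 0; 0, ((5 : ℕ) : ℤ)])
      ((5 : ℕ) * z) + ∑ b ∈ Finset.range 5, gg G 5 Q z b) (Q : Frm) :
    a * V Q = TS L5p L5m V Q := by
  have hsum : ∀ (Q : Frm) (z : ℂ), 0 < z.im → ∑ b ∈ Finset.range 5, gg G 5 Q z b =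
      gg G 5 Q z 0 + gg G 5 Q z 1 + gg G 5 Q z 2 + gg G 5 Q z (-2) + gg G 5 Q z (-1) := by
    intro Q z hz
    have h1 := shift d e 5 (by norm_num) (-2) Q hz
    have h2 := shift d e 5 (by norm_num) (-1) Q hz
    norm_num at h1 h2
    simp only [Finset.sum_range_succ, Finset.sum_range_zero, gg]
    norm_num
    rw [h1, h2]
  have h1 := h Q (Complex.I / 2) (im_half (by simp))
  have h2 := h (act Q mW) Complex.I (by simp)
  rw [hsum _ _ (im_half (by simp))] at h1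
  rw [hsum _ _ (by simp)] at h2
  have b0 := base d Q
  have i0 := inf d 5 (by norm_num) Q
  have z0 := zer d 5 (by norm_num) Q
  have g1 := gam d e 5 (by norm_num) 1 2 1 2 1 (by norm_num) (Or.inl (by decide)) Q
  have g2 := gam d e 5 (by norm_num) 2 1 1 1 2 (by norm_num) (Or.inl (by decide)) Q
  have g3 := gam d e 5 (by norm_num) (-1) (-2) 1 (-2) (-1) (by norm_num) (Or.inl (by decide)) Q
  have g4 := gam d e 5 (by norm_num) (-2) (-1) 1 (-1) (-2) (by norm_num) (Or.inl (by decide)) Q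
  rw [show (!![((5 : ℕ) : ℤ), -1; 0, 1] * !![1, 0; 2 * 2, 1] : Mat) = !![1, -1; 4, 1] by decide]
    at g1
  rw [show (!![((5 : ℕ) : ℤ), -2; 0, 1] * !![1, 0; 2 * 1, 1] : Mat) = !![1, -2; 2, 1] by decide]
    at g2
  rw [show (!![((5 : ℕ) : ℤ), - -1; 0, 1] * !![1, 0; 2 * -2, 1] : Mat) = !![1, 1; -4, 1] by decide]
    at g3
  rw [show (!![((5 : ℕ) : ℤ), - -2; 0, 1] * !![1, 0; 2 * -1, 1] : Mat) = !![1, 2; -2, 1] by decide]
    at g4
  simp only [gg] at h1 h2
  norm_num at h1 h2 i0 z0 g1 g2 g3 g4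
  simp only [TS, TL, L5p, L5m, List.map_cons, List.map_nil, List.sum_cons, List.sum_nil]
  linear_combination a * b0 + h1 - c⁻¹ * h2 - i0 - z0 + g1 + g2 + g3 + g4

theorem seven {a : ℂ} (d : Dat c G Φ V) (e : DatT Φ)
    (h : ∀ (Q : Frm) (z : ℂ), 0 < z.im → a * G Q z = G (act Q !![1, 0; 0, ((7 : ℕ) : ℤ)])
      ((7 : ℕ) * z) + ∑ b ∈ Finset.range 7, gg G 7 Q z b) (Q : Frm) :
    a * V Q = TS L7p L7m V Q := by
  have hsum : ∀ (Q : Frm) (z : ℂ), 0 < z.im → ∑ b ∈ Finset.range 7, gg G 7 Q z b =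
      gg G 7 Q z 0 + gg G 7 Q z 1 + gg G 7 Q z 2 + gg G 7 Q z 3 + gg G 7 Q z (-3) +
        gg G 7 Q z (-2) + gg G 7 Q z (-1) := by
    intro Q z hz
    have h0 := shift d e 7 (by norm_num) (-3) Q hz
    have h1 := shift d e 7 (by norm_num) (-2) Q hz
    have h2 := shift d e 7 (by norm_num) (-1) Q hz
    norm_num at h0 h1 h2
    simp only [Finset.sum_range_succ, Finset.sum_range_zero, gg]
    norm_num
    rw [h0, h1, h2]
  have h1 := h Q (Complex.I / 2) (im_half (by simp))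
  have h2 := h (act Q mW) Complex.I (by simp)
  rw [hsum _ _ (im_half (by simp))] at h1
  rw [hsum _ _ (by simp)] at h2
  have b0 := base d Q
  have i0 := inf d 7 (by norm_num) Q
  have z0 := zer d 7 (by norm_num) Q
  have g1 := gam d e 7 (by norm_num) 1 3 1 3 1 (by norm_num) (Or.inl (by decide)) Q
  have g2 := gam d e 7 (by norm_num) 2 (-2) (-1) 2 (-2) (by norm_num) (Or.inr (by decide)) Q
  have g3 := gam d e 7 (by norm_num) 3 1 1 1 3 (by norm_num) (Or.inl (by decide)) Q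
  have g4 := gam d e 7 (by norm_num) (-1) (-3) 1 (-3) (-1) (by norm_num) (Or.inl (by decide)) Q
  have g5 := gam d e 7 (by norm_num) (-2) 2 (-1) (-2) 2 (by norm_num) (Or.inr (by decide)) Q
  have g6 := gam d e 7 (by norm_num) (-3) (-1) 1 (-1) (-3) (by norm_num) (Or.inl (by decide)) Q
  rw [show (!![((7 : ℕ) : ℤ), -1; 0, 1] * !![1, 0; 2 * 3, 1] : Mat) = !![1, -1; 6, 1] by decide]
    at g1
  rw [show (!![((7 : ℕ) : ℤ), -2; 0, 1] * !![1, 0; 2 * 2, 1] : Mat) = -!![1, 2; -4, -1] by decide,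
    act_neg] at g2
  rw [show (!![((7 : ℕ) : ℤ), -3; 0, 1] * !![1, 0; 2 * 1, 1] : Mat) = !![1, -3; 2, 1] by decide]
    at g3
  rw [show (!![((7 : ℕ) : ℤ), - -1; 0, 1] * !![1, 0; 2 * -3, 1] : Mat) = !![1, 1; -6, 1] by decide]
    at g4
  rw [show (!![((7 : ℕ) : ℤ), - -2; 0, 1] * !![1, 0; 2 * -2, 1] : Mat) = -!![1, -2; 4, -1]
    by decide, act_neg] at g5
  rw [show (!![((7 : ℕ) : ℤ), - -3; 0, 1] * !![1, 0; 2 * -1, 1] : Mat) = !![1, 3; -2, 1] by decide]
    at g6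
  simp only [gg] at h1 h2
  norm_num at h1 h2 i0 z0 g1 g2 g3 g4 g5 g6
  simp only [TS, TL, L7p, L7m, List.map_cons, List.map_nil, List.sum_cons, List.sum_nil]
  linear_combination a * b0 + h1 - c⁻¹ * h2 - i0 - z0 + g1 + g2 + g3 + g4 + g5 + g6

end Hec2Aux

open New2Aux Hec2Aux in
theorem stHec2 (hCoc : StCoc2) (hHecG : StHecG2) : StHec2 := by
  intro k a F hk hA Q
  have d := dat hCoc hHecG hk hA
  have e : DatT (Phi k a) := ⟨(hCoc k a F hk hA).2.2.1, (hCoc k a F hk hA).2.2.2.1⟩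
  refine ⟨five d e (fun Q z hz => ?_) Q, seven d e (fun Q z hz => ?_) Q⟩
  · simpa [gg] using (hHecG k a F hk hA).1 5 Q z (by norm_num) (by norm_num) hz
  · simpa [gg] using (hHecG k a F hk hA).1 7 Q z (by norm_num) (by norm_num) hz

end LT

end Pool.Agent.Lib.MP_7c5fb9_nt
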