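import Mathlib
import Pool.Agent.Lib.MP_7c5fb9_nt.LT.Stmts
import Pool.Agent.Lib.MP_7c08ba_nt.RZ.TrF

set_option autoImplicit false

/-!
# Level two (MP_7c5fb9_nt, project LT): (HecG2) Hecke operators and primitives
-/

namespace Pool.Agent.Lib.MP_7c5fb9_nt

namespace LT

open LO Pool.Agent.Lib.MP_7c08ba_nt.RZ UpperHalfPlane Filter Topology
open scoped MatrixGroups Polynomial nonZeroDivisors

namespace HecG2Aux

variable {k : ℕ} {a : ℕ → ℂ} {F : ℂ → ℂ}

theorem pw_natDegree (k : ℕ) (Q : Frm) (hk : 1 ≤ k) : (pw k Q).natDegree < 2 * k := by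
  unfold pw
  refine lt_of_le_of_lt Polynomial.natDegree_pow_le ?_
  have h : (Polynomial.C (Q 0 : ℂ) * Polynomial.X ^ 2 + Polynomial.C (Q 1 : ℂ) * Polynomial.X +
    Polynomial.C (Q 2 : ℂ)).natDegree ≤ 2 := Polynomial.natDegree_quadratic_le
  calc (k - 1) * (Polynomial.C (Q 0 : ℂ) * Polynomial.X ^ 2 +
        Polynomial.C (Q 1 : ℂ) * Polynomial.X + Polynomial.C (Q 2 : ℂ)).natDegree
      ≤ (k - 1) * 2 := Nat.mul_le_mul_left _ h
    _ < 2 * k := by omega

theorem pw_eval (k : ℕ) (Q : Frm) (z : ℂ) : (pw k Q).eval z = qv Q z ^ (k - 1) := by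
  simp [pw, qv]

theorem hasSum_F (hA : Ana k a F) {z : ℂ} (hz : 0 < z.im) :
    HasSum (fun n : ℕ => a n * Complex.exp (2 * Real.pi * Complex.I * z) ^ n) (F z) := by
  have h := (hA.summ z hz).of_norm.hasSum
  rw [← hA.sum z hz] at h
  refine h.congr_fun fun n => ?_
  rw [ee, ← Complex.exp_nat_mul]
  congr 2
  ring

/-- Averages over the shifts. -/
theorem hasSum_avg (hA : Ana k a F) {z : ℂ} (hz : 0 < z.im) {d : ℕ} (hd : 0 < d) :
    HasSum (fun m : ℕ => a (d * m) * Complex.exp (2 * Real.pi * Complex.I * z) ^ m)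
      ((d : ℂ)⁻¹ * ∑ b ∈ Finset.range d, F ((z + b) / d)) := by
  have hdc : (d : ℂ) ≠ 0 := by exact_mod_cast hd.ne'
  have him : ∀ b : ℕ, 0 < ((z + b) / d).im := by
    intro b
    rw [Complex.div_natCast_im, Complex.add_im, Complex.natCast_im, add_zero]
    positivity
  have h1 : HasSum (fun n : ℕ => ∑ b ∈ Finset.range d, a n *
      Complex.exp (2 * Real.pi * Complex.I * ((z + b) / d)) ^ n)
      (∑ b ∈ Finset.range d, F ((z + b) / d)) :=
    hasSum_sum fun b _ => hasSum_F hA (him b)
  set Q : ℂ := Complex.exp (2 * Real.pi * Complex.I * (z / d)) with hQ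
  have h2 : HasSum (fun n : ℕ => if d ∣ n then a n * Q ^ n else 0)
      ((d : ℂ)⁻¹ * ∑ b ∈ Finset.range d, F ((z + b) / d)) := by
    refine (h1.mul_left (d : ℂ)⁻¹).congr_fun fun n => ?_
    have h3 : ∀ b ∈ Finset.range d, a n *
        Complex.exp (2 * Real.pi * Complex.I * ((z + b) / d)) ^ n =
        a n * Q ^ n * (Complex.exp (2 * Real.pi * Complex.I / d) ^ n) ^ b := by
      intro b _
      have h4 : 2 * Real.pi * Complex.I * ((z + b) / d) =
          2 * Real.pi * Complex.I * (z / d) + b * (2 * Real.pi * Complex.I / d) := by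
        ring
      rw [h4, Complex.exp_add, mul_pow, Complex.exp_nat_mul, ← pow_mul, mul_comm b n, pow_mul]
      ring
    rw [Finset.sum_congr rfl h3, ← Finset.mul_sum, TrFAux.sum_root hd]
    split_ifs with h
    · field_simp
    · ring
  have inj : Function.Injective fun m : ℕ => d * m := fun x y hxy =>
    Nat.eq_of_mul_eq_mul_left hd hxy
  have h6 := (inj.hasSum_iff (f := fun n : ℕ => if d ∣ n then a n * Q ^ n else 0)
    (fun x hx => by
      rw [if_neg]
      rintro ⟨c, rfl⟩
      exact hx ⟨c, rfl⟩)).mpr h2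
  refine h6.congr_fun fun m => ?_
  simp only [Function.comp_apply, dvd_mul_right, if_true]
  congr 1
  rw [hQ, ← Complex.exp_nat_mul, ← Complex.exp_nat_mul]
  congr 1
  push_cast
  field_simp

/-- The function at multiples. -/
theorem hasSum_mul (hA : Ana k a F) {z : ℂ} (hz : 0 < z.im) {d : ℕ} (hd : 0 < d) :
    HasSum (fun m : ℕ => if d ∣ m then a (m / d) *
      Complex.exp (2 * Real.pi * Complex.I * z) ^ m else 0) (F (d * z)) := by
  have him : 0 < ((d : ℂ) * z).im := by
    have h : ((d : ℂ) * z).im = d * z.im := by simp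
    rw [h]
    positivity
  have h1 := hasSum_F hA him
  have inj : Function.Injective fun m : ℕ => d * m := fun x y hxy =>
    Nat.eq_of_mul_eq_mul_left hd hxy
  rw [← inj.hasSum_iff (fun x hx => by
    rw [if_neg]
    rintro ⟨c, rfl⟩
    exact hx ⟨c, rfl⟩)]
  refine h1.congr_fun fun m => ?_
  simp only [Function.comp_apply, dvd_mul_right, if_true]
  rw [Nat.mul_div_cancel_left _ hd]
  congr 1
  rw [← Complex.exp_nat_mul, ← Complex.exp_nat_mul]
  congr 1
  push_cast
  ring

/-- The Hecke operator at an odd prime. -/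
theorem hecke (hA : Ana k a F) {z : ℂ} (hz : 0 < z.im) {p : ℕ} (hp : p.Prime) (hp2 : p ≠ 2) :
    a p * F z = (p : ℂ)⁻¹ * ∑ b ∈ Finset.range p, F ((z + b) / p) +
      (p : ℂ) ^ (2 * k - 1) * F (p * z) := by
  have h1 := (hasSum_avg hA hz hp.pos).add ((hasSum_mul hA hz hp.pos).mul_left
    ((p : ℂ) ^ (2 * k - 1)))
  have h2 := (hasSum_F hA hz).mul_left (a p)
  refine h2.unique (h1.congr_fun fun n => ?_)
  rcases Nat.eq_zero_or_pos n with rfl | hn
  · simp [hA.zero]
  · rw [← mul_assoc, hA.hecke p n hp hp2 hn]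
    split_ifs <;> ring

/-- The Hecke operator at two. -/
theorem hecke_two (hA : Ana k a F) {z : ℂ} (hz : 0 < z.im) :
    -(2 : ℂ) ^ (k - 1) * F z = (2 : ℂ)⁻¹ * (F (z / 2) + F ((z + 1) / 2)) := by
  have h1 := hasSum_avg hA hz (d := 2) (by norm_num)
  have h2 := (hasSum_F hA hz).mul_left (-(2 : ℂ) ^ (k - 1))
  have h3 := h2.unique (h1.congr_fun fun n => by rw [← mul_assoc, hA.two n])
  rw [h3]
  simp [Finset.sum_range_succ]

theorem per (hA : Ana k a F) {z : ℂ} (hz : 0 < z.im) : F (z + 1) = F z := by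
  refine (hasSum_F hA (by simpa using hz)).unique ((hasSum_F hA hz).congr_fun fun n => ?_)
  have h1 : 2 * (Real.pi : ℂ) * Complex.I * (z + 1) =
      2 * (Real.pi : ℂ) * Complex.I * z + 2 * Real.pi * Complex.I := by
    ring
  rw [h1, Complex.exp_add, Complex.exp_two_pi_mul_I, mul_one]

theorem per_int (hA : Ana k a F) {z : ℂ} (hz : 0 < z.im) (n : ℤ) : F (z + n) = F z := by
  induction n using Int.induction_on with
  | zero => simp
  | succ n ih =>
    have h := per hA (z := z + n) (by simpa using hz)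
    push_cast at ih ⊢
    rw [← add_assoc, h, ih]
  | pred n ih =>
    have h := per hA (z := z + (-(n : ℤ) - 1 : ℤ)) (by simpa using hz)
    rw [← h, ← ih]
    congr 1
    push_cast
    ring

theorem tendsto_Gp (hPrim : StPrim2) (hA : Ana k a F) (P : ℂ[X])
    (hP : P.natDegree < 2 * k) (x c : ℝ) (hc : 0 < c) :
    Tendsto (fun y : ℝ => Gp k a P ((x : ℂ) + ((c * y : ℝ) : ℂ) * Complex.I)) atTop (𝓝 0) := by
  rw [Metric.tendsto_atTop]
  intro ε hε
  obtain ⟨Y, hY, h⟩ := (hPrim k a F P hA hP).2.2 |x| (ε / 2) (by positivity)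
  refine ⟨Y / c, fun y hy => ?_⟩
  rw [dist_zero_right]
  have h1 : Y ≤ c * y := by
    rw [ge_iff_le, div_le_iff₀' hc] at hy
    exact hy
  refine lt_of_le_of_lt (h _ ?_ ?_) (half_lt_self hε)
  · simp
  · simpa using h1

/-- The value of the transformed form, first kind of matrices. -/
theorem qv_one (Q : Frm) (p z : ℂ) (n : ℤ) (hn : (n : ℂ) = p) :
    qv (act Q !![1, 0; 0, n]) (p * z) = p ^ 2 * qv Q z := by
  simp only [qv, act, Matrix.cons_val_zero, Matrix.cons_val_one, Matrix.cons_val, Matrix.of_apply,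
    Matrix.cons_val', Matrix.cons_val_fin_one]
  push_cast
  rw [hn]
  ring

/-- The value of the transformed form, second kind of matrices. -/
theorem qv_two (Q : Frm) (p z : ℂ) (n b : ℤ) (hn : (n : ℂ) = p) (hp : p ≠ 0) :
    qv (act Q !![n, -b; 0, 1]) ((z + b) / p) = qv Q z := by
  simp only [qv, act, Matrix.cons_val_zero, Matrix.cons_val_one, Matrix.cons_val, Matrix.of_apply,
    Matrix.cons_val', Matrix.cons_val_fin_one]
  push_cast
  rw [hn]
  field_simp
  ring

/-- A function on the upper half plane with derivative zero and limit zero vanishes. -/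
theorem zero_of (D : ℂ → ℂ) (hder : ∀ z : ℂ, 0 < z.im → HasDerivAt D 0 z)
    (hlim : Tendsto (fun y : ℝ => D (y * Complex.I)) atTop (𝓝 0)) {z : ℂ} (hz : 0 < z.im) :
    D z = 0 := by
  have hopen : IsOpen {z : ℂ | 0 < z.im} := isOpen_lt continuous_const Complex.continuous_im
  have hconv : Convex ℝ {z : ℂ | 0 < z.im} := convex_halfSpace_im_gt 0
  have hconst : ∀ z₁ z₂ : ℂ, 0 < z₁.im → 0 < z₂.im → D z₁ = D z₂ := by
    intro z₁ z₂ hz₁ hz₂
    exact hopen.is_const_of_deriv_eq_zero hconv.isPreconnected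
      (fun z hz => (hder z hz).differentiableAt.differentiableWithinAt)
      (fun z hz => (hder z hz).deriv) hz₁ hz₂
  have h1 : Tendsto (fun y : ℝ => D (y * Complex.I)) atTop (𝓝 (D z)) := by
    refine tendsto_const_nhds.congr' ?_
    filter_upwards [eventually_gt_atTop 0] with y hy
    exact hconst z (y * Complex.I) hz (by simpa using hy)
  exact tendsto_nhds_unique h1 hlim

end HecG2Aux

open HecG2Aux in
theorem stHecG2 (hPrim : StPrim2) : StHecG2 := by
  intro k a F hk hA
  have hdeg : ∀ R : Frm, (pw k R).natDegree < 2 * k := fun R => pw_natDegree k R hk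
  refine ⟨fun p Q z hp hp2 hz => ?_, fun Q z σ hz => ?_⟩
  · have hp0 : (p : ℂ) ≠ 0 := by exact_mod_cast hp.ne_zero
    have hpr : (0 : ℝ) < p := by exact_mod_cast hp.pos
    set P1 : ℂ[X] := pw k (act Q !![1, 0; 0, (p : ℤ)]) with hP1
    set P2 : ℕ → ℂ[X] := fun b => pw k (act Q !![(p : ℤ), -(b : ℤ); 0, 1]) with hP2
    set D : ℂ → ℂ := fun z => a p * Gp k a (pw k Q) z - (Gp k a P1 (p * z) +
      ∑ b ∈ Finset.range p, Gp k a (P2 b) ((z + b) / p)) with hD
    have him1 : ∀ z : ℂ, 0 < z.im → 0 < ((p : ℂ) * z).im := by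
      intro z hz
      have h : ((p : ℂ) * z).im = p * z.im := by simp
      rw [h]
      positivity
    have him2 : ∀ (z : ℂ) (b : ℕ), 0 < z.im → 0 < ((z + b) / p).im := by
      intro z b hz
      rw [Complex.div_natCast_im]
      have : (z + (b : ℂ)).im = z.im := by simp
      rw [this]
      positivity
    have hder : ∀ z : ℂ, 0 < z.im → HasDerivAt D 0 z := by
      intro z hz
      have h0 := ((hPrim k a F (pw k Q) hA (hdeg Q)).1 z hz).const_mul (a p)
      have h1 : HasDerivAt (fun z : ℂ => Gp k a P1 (p * z))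
          (F (p * z) * P1.eval (p * z) * (p * 1)) z :=
        ((hPrim k a F P1 hA (hdeg _)).1 (p * z) (him1 z hz)).comp z
          ((hasDerivAt_id z).const_mul (p : ℂ))
      have h2 : ∀ b ∈ Finset.range p, HasDerivAt (fun z : ℂ => Gp k a (P2 b) ((z + b) / p))
          (F ((z + b) / p) * (P2 b).eval ((z + b) / p) * (1 / p)) z := by
        intro b _
        have ha := (hPrim k a F (P2 b) hA (hdeg _)).1 ((z + b) / p) (him2 z b hz)
        have hb : HasDerivAt (fun z : ℂ => (z + (b : ℂ)) / p) (1 / p) z :=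
          ((hasDerivAt_id z).add_const (b : ℂ)).div_const (p : ℂ)
        exact ha.comp z hb
      have h3 := h0.sub (h1.add (HasDerivAt.fun_sum h2))
      refine h3.congr_deriv ?_
      have e1 : P1.eval (p * z) = ((p : ℂ) ^ 2 * qv Q z) ^ (k - 1) := by
        rw [hP1, pw_eval, qv_one Q p z p (by simp)]
      have e2 : ∀ b : ℕ, (P2 b).eval ((z + b) / p) = qv Q z ^ (k - 1) := by
        intro b
        have h := qv_two Q p z p b (by simp) hp0
        push_cast at h
        rw [hP2, pw_eval, h]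
      rw [e1, pw_eval]
      simp only [e2]
      have hT := hecke hA hz hp hp2
      rw [← mul_assoc (a p), hT, ← Finset.sum_mul, ← Finset.sum_mul]
      have hw1 : 2 * k - 1 = 2 * (k - 1) + 1 := by omega
      rw [hw1, mul_pow, pow_succ, pow_mul]
      field_simp
      ring
    have hlim : Tendsto (fun y : ℝ => D (y * Complex.I)) atTop (𝓝 0) := by
      have h0 := tendsto_Gp hPrim hA (pw k Q) (hdeg Q) 0 1 one_pos
      have h1 := tendsto_Gp hPrim hA P1 (hdeg _) 0 p hpr
      have h2 : ∀ b ∈ Finset.range p, Tendsto (fun y : ℝ => Gp k a (P2 b)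
          ((((b / p : ℝ)) : ℂ) + (((1 / p) * y : ℝ) : ℂ) * Complex.I)) atTop (𝓝 0) :=
        fun b _ => tendsto_Gp hPrim hA (P2 b) (hdeg _) _ _ (by positivity)
      have h3 := (h0.const_mul (a p)).sub (h1.add (tendsto_finsetSum _ h2))
      rw [mul_zero, Finset.sum_const_zero, add_zero, sub_zero] at h3
      refine h3.congr fun y => ?_
      simp only [hD]
      congr 1
      · push_cast
        ring_nf
      · congr 1
        · push_cast
          ring_nf
        · refine Finset.sum_congr rfl fun b _ => ?_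
          congr 1
          push_cast
          field_simp
          ring
    exact sub_eq_zero.mp (zero_of D hder hlim hz)
  · set P0 : ℂ[X] := pw k (act Q !![2, 0; 0, 1]) with hP0
    set P1 : ℂ[X] := pw k (act Q !![2, -(2 * σ + 1); 0, 1]) with hP1
    set D : ℂ → ℂ := fun z => -(2 : ℂ) ^ (k - 1) * Gp k a (pw k Q) z - (Gp k a P0 (z / 2) +
      Gp k a P1 ((z + (2 * σ + 1)) / 2)) with hD
    have him0 : ∀ z : ℂ, 0 < z.im → 0 < (z / 2).im := by
      intro z hz
      have h : (z / 2).im = z.im / 2 := by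
        rw [show (2 : ℂ) = ((2 : ℕ) : ℂ) by norm_num, Complex.div_natCast_im]
        norm_num
      rw [h]
      positivity
    have him1 : ∀ z : ℂ, 0 < z.im → 0 < ((z + (2 * σ + 1)) / 2).im := by
      intro z hz
      apply him0
      have h : (z + (2 * (σ : ℂ) + 1)).im = z.im := by simp
      rw [h]
      exact hz
    have hder : ∀ z : ℂ, 0 < z.im → HasDerivAt D 0 z := by
      intro z hz
      have h0 := ((hPrim k a F (pw k Q) hA (hdeg Q)).1 z hz).const_mul (-(2 : ℂ) ^ (k - 1))
      have h1 : HasDerivAt (fun z : ℂ => Gp k a P0 (z / 2))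
          (F (z / 2) * P0.eval (z / 2) * (1 / 2)) z :=
        HasDerivAt.comp z ((hPrim k a F P0 hA (hdeg _)).1 (z / 2) (him0 z hz))
          (h := fun z : ℂ => z / 2) ((hasDerivAt_id z).div_const (2 : ℂ))
      have h2 : HasDerivAt (fun z : ℂ => Gp k a P1 ((z + (2 * σ + 1)) / 2))
          (F ((z + (2 * σ + 1)) / 2) * P1.eval ((z + (2 * σ + 1)) / 2) * (1 / 2)) z :=
        HasDerivAt.comp z ((hPrim k a F P1 hA (hdeg _)).1 ((z + (2 * σ + 1)) / 2) (him1 z hz))
          (h := fun z : ℂ => (z + (2 * σ + 1)) / 2)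
          (((hasDerivAt_id z).add_const (2 * (σ : ℂ) + 1)).div_const (2 : ℂ))
      have h3 := h0.sub (h1.add h2)
      refine h3.congr_deriv ?_
      have e0 : P0.eval (z / 2) = qv Q z ^ (k - 1) := by
        have h := qv_two Q 2 z 2 0 (by simp) (by norm_num)
        simp only [neg_zero, Int.cast_zero, add_zero] at h
        rw [hP0, pw_eval, h]
      have e1 : P1.eval ((z + (2 * σ + 1)) / 2) = qv Q z ^ (k - 1) := by
        have h := qv_two Q 2 z 2 (2 * σ + 1) (by simp) (by norm_num)
        push_cast at h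
        rw [hP1, pw_eval, h]
      rw [e0, e1, pw_eval]
      have hT := hecke_two hA hz
      have hσ : F ((z + (2 * σ + 1)) / 2) = F ((z + 1) / 2) := by
        have h := per_int hA (z := (z + 1) / 2) (by
          apply him0
          simpa using hz) σ
        rw [← h]
        congr 1
        ring
      rw [hσ, ← mul_assoc (-(2 : ℂ) ^ (k - 1)), hT]
      ring
    have hlim : Tendsto (fun y : ℝ => D (y * Complex.I)) atTop (𝓝 0) := by
      have h0 := tendsto_Gp hPrim hA (pw k Q) (hdeg Q) 0 1 one_pos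
      have h1 := tendsto_Gp hPrim hA P0 (hdeg _) 0 (1 / 2) (by norm_num)
      have h2 := tendsto_Gp hPrim hA P1 (hdeg _) ((2 * σ + 1) / 2) (1 / 2) (by norm_num)
      have h3 := (h0.const_mul (-(2 : ℂ) ^ (k - 1))).sub (h1.add h2)
      rw [mul_zero, add_zero, sub_zero] at h3
      refine h3.congr fun y => ?_
      simp only [hD]
      congr 1
      · push_cast
        ring_nf
      · congr 1
        · push_cast
          ring_nf
        · push_cast
          ring_nf
    have h := zero_of D hder hlim hz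
    exact sub_eq_zero.mp h

end LT

end Pool.Agent.Lib.MP_7c5fb9_nt
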