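import Pool.Agent.Lib.MP_7c5fb9_nt.LT.Stmts

set_option autoImplicit false

/-!
# Level two (MP_7c5fb9_nt, project LT), module Lim: the cocycle at squares of linear forms
-/

namespace Pool.Agent.Lib.MP_7c5fb9_nt

namespace LT

open LO Pool.Agent.Lib.MP_7c08ba_nt.RZ UpperHalfPlane Filter Topology
open scoped MatrixGroups Polynomial

namespace LimAux2

variable {a : ℕ → ℂ} {F : ℂ → ℂ}

/-- The coefficients of the `(2 * k - 1)`-st primitive. -/
noncomputable def cc (k : ℕ) (a : ℕ → ℂ) (n : ℕ) : ℂ :=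
  a n * ((2 * Real.pi * Complex.I * n) ^ (2 * k - 1))⁻¹

theorem norm_two_pi (n : ℕ) : ‖(2 * Real.pi * Complex.I * n : ℂ)‖ = 2 * Real.pi * n := by
  rw [norm_mul, norm_mul, norm_mul, Complex.norm_I, Complex.norm_natCast, Complex.norm_real,
    Real.norm_of_nonneg Real.pi_pos.le]
  simp

theorem summ (k : ℕ) (hA : Ana k a F) (hk : 3 ≤ k) :
    Summable fun n : ℕ => ‖cc k a n‖ := by
  obtain ⟨C, hC⟩ := hA.bound
  have h0 := hA.zero
  refine Summable.of_nonneg_of_le (fun n => norm_nonneg _) (fun n => ?_)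
    ((Real.summable_one_div_nat_pow.2 one_lt_two).mul_left |C|)
  rcases Nat.eq_zero_or_pos n with rfl | hn
  · rw [cc, h0]
    simp
  · have hn' : (1 : ℝ) ≤ n := by exact_mod_cast hn
    have hn0 : (0 : ℝ) < n := by linarith
    have h1 : ‖a n‖ ≤ |C| * (n : ℝ) ^ k := by
      refine (hC n).trans ?_
      exact mul_le_mul_of_nonneg_right (le_abs_self C) (by positivity)
    have h2 : ‖((2 * Real.pi * Complex.I * n : ℂ) ^ (2 * k - 1))⁻¹‖ ≤ ((n : ℝ) ^ (2 * k - 1))⁻¹ := by
      rw [norm_inv, norm_pow, norm_two_pi]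
      apply inv_anti₀ (by positivity)
      apply pow_le_pow_left₀ (by positivity)
      nlinarith [Real.pi_gt_three]
    have h3 : (n : ℝ) ^ k * ((n : ℝ) ^ (2 * k - 1))⁻¹ ≤ 1 / (n : ℝ) ^ 2 := by
      rw [← div_eq_mul_inv, div_le_div_iff₀ (by positivity) (by positivity), one_mul, ← pow_add]
      exact pow_le_pow_right₀ hn' (by omega)
    rw [cc, norm_mul]
    calc ‖a n‖ * ‖((2 * Real.pi * Complex.I * n : ℂ) ^ (2 * k - 1))⁻¹‖
        ≤ (|C| * (n : ℝ) ^ k) * ((n : ℝ) ^ (2 * k - 1))⁻¹ :=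
          mul_le_mul h1 h2 (norm_nonneg _) (by positivity)
      _ = |C| * ((n : ℝ) ^ k * ((n : ℝ) ^ (2 * k - 1))⁻¹) := by ring
      _ ≤ |C| * (1 / (n : ℝ) ^ 2) := mul_le_mul_of_nonneg_left h3 (abs_nonneg C)

/-- the terms of the limit -/
theorem lim_term {k : ℕ} (hA : Ana k a F) (hs : Summable fun n : ℕ => ‖cc k a n‖) (x : ℝ) (m : ℕ)
    (hm : m ≤ 2 * k - 1) :
    Tendsto (fun t : ℝ => (Complex.I * t) ^ m * Fj a (2 * k - 1 - m) (x + Complex.I * t)) (𝓝[>] 0)
      (𝓝 (0 ^ m * Fj a (2 * k - 1) x)) := by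
  have h0 := hA.zero
  have h1 : ∀ t : ℝ, (Complex.I * t) ^ m * Fj a (2 * k - 1 - m) (x + Complex.I * t) =
      ∑' n : ℕ, cc k a n * ((-(2 * Real.pi * n * t) : ℝ) : ℂ) ^ m * ee (n * (x + Complex.I * t)) := by
    intro t
    rw [Fj, ← tsum_mul_left]
    refine tsum_congr fun n => ?_
    rcases Nat.eq_zero_or_pos n with rfl | hn
    · rw [cc, h0]
      simp
    · have hn0 : (n : ℂ) ≠ 0 := by exact_mod_cast hn.ne'
      have hne : (2 * Real.pi * Complex.I * n : ℂ) ≠ 0 := by
        refine mul_ne_zero (mul_ne_zero (mul_ne_zero two_ne_zero ?_) Complex.I_ne_zero) hn0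
        exact_mod_cast Real.pi_ne_zero
      have h2 : (2 * Real.pi * Complex.I * n : ℂ) ^ (2 * k - 1) =
          (2 * Real.pi * Complex.I * n) ^ (2 * k - 1 - m) * (2 * Real.pi * Complex.I * n) ^ m := by
        rw [← pow_add]
        congr 1
        omega
      have h3 : ((-(2 * Real.pi * n * t) : ℝ) : ℂ) =
          (2 * Real.pi * Complex.I * n) * (Complex.I * t) := by
        push_cast
        linear_combination (-(2 * Real.pi * n * t : ℂ)) * Complex.I_sq
      rw [cc, h2, h3, mul_pow (2 * Real.pi * Complex.I * n : ℂ) (Complex.I * t) m, mul_inv]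
      have h4 : (2 * Real.pi * Complex.I * n : ℂ) ^ m ≠ 0 := pow_ne_zero _ hne
      field_simp
  have h2 : (0 : ℂ) ^ m * Fj a (2 * k - 1) x = ∑' n : ℕ, cc k a n * 0 ^ m * ee (n * x) := by
    rw [Fj, ← tsum_mul_left]
    refine tsum_congr fun n => ?_
    rw [cc]
    ring
  rw [h2]
  simp_rw [h1]
  refine tendsto_tsum_of_dominated_convergence (bound := fun n => ‖cc k a n‖ * m.factorial)
    (hs.mul_right _) (fun n => ?_) ?_
  · have hc : Continuous fun t : ℝ =>
        cc k a n * ((-(2 * Real.pi * n * t) : ℝ) : ℂ) ^ m * ee (n * (x + Complex.I * t)) := by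
      unfold ee
      fun_prop
    have h3 := (hc.tendsto 0).mono_left (nhdsWithin_le_nhds (s := Set.Ioi 0))
    simpa using h3
  · filter_upwards [self_mem_nhdsWithin] with t ht n
    have ht' : (0 : ℝ) < t := ht
    have hp : 0 ≤ 2 * Real.pi * n * t := by
      have := Real.pi_pos
      positivity
    have h3 : ‖ee (n * (x + Complex.I * t))‖ = Real.exp (-(2 * Real.pi * n * t)) := by
      rw [ee, Complex.norm_exp]
      congr 1
      simp
      ring
    rw [norm_mul, norm_mul, norm_pow, Complex.norm_real, norm_neg, Real.norm_of_nonneg hp, h3,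
      mul_assoc]
    refine mul_le_mul_of_nonneg_left ?_ (norm_nonneg _)
    have h4 := Real.pow_div_factorial_le_exp _ hp m
    rw [div_le_iff₀ (by exact_mod_cast Nat.factorial_pos m)] at h4
    calc (2 * Real.pi * n * t) ^ m * Real.exp (-(2 * Real.pi * n * t))
        ≤ (Real.exp (2 * Real.pi * n * t) * m.factorial) * Real.exp (-(2 * Real.pi * n * t)) :=
          mul_le_mul_of_nonneg_right h4 (Real.exp_pos _).le
      _ = m.factorial * (Real.exp (2 * Real.pi * n * t) * Real.exp (-(2 * Real.pi * n * t))) := by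
          ring
      _ = m.factorial := by rw [← Real.exp_add, add_neg_cancel, Real.exp_zero, mul_one]

/-- derivatives of powers of linear polynomials -/
theorem der (a b : ℂ) (m j : ℕ) :
    Polynomial.derivative^[j] ((Polynomial.C a * Polynomial.X + Polynomial.C b) ^ m) =
      Polynomial.C ((m.descFactorial j : ℂ) * a ^ j) *
        (Polynomial.C a * Polynomial.X + Polynomial.C b) ^ (m - j) := by
  induction j with
  | zero => simp
  | succ j ih =>
    rw [Function.iterate_succ_apply', ih, Polynomial.derivative_C_mul, Polynomial.derivative_pow,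
      Nat.descFactorial_succ]
    have h1 : Polynomial.derivative (Polynomial.C a * Polynomial.X + Polynomial.C b) =
        Polynomial.C a := by simp
    rw [h1, Nat.sub_sub]
    push_cast
    simp only [Polynomial.C_mul, Polynomial.C_pow, map_natCast]
    ring

end LimAux2

open LimAux2

theorem stLim2 (hPrim : StPrim2) (hCoc : StCoc2) : StLim2 := by
  intro k a F hk hA
  have hs := summ k hA hk
  refine ⟨hs, ?_⟩
  intro p q r s hdet hr hr2
  have hr0 : (r : ℂ) ≠ 0 := by exact_mod_cast hr.ne'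
  have hrR : (0 : ℝ) < r := by exact_mod_cast hr
  have hdC : (p : ℂ) * s - q * r = 1 := by exact_mod_cast hdet
  obtain ⟨hC, -⟩ := hCoc k a F (by omega) hA
  set γ : Mat := !![p, q; r, s] with hγ
  set Q : Frm := ![r ^ 2, -2 * p * r, p ^ 2] with hQ
  have hγdet : γ.det = 1 := by
    rw [hγ, Matrix.det_fin_two_of]
    exact hdet
  have hact : act Q γ = ![0, 0, 1] := by
    have e2 : Q 0 = r ^ 2 ∧ Q 1 = -2 * p * r ∧ Q 2 = p ^ 2 := by simp [hQ]
    have e3 : γ 0 0 = p ∧ γ 0 1 = q ∧ γ 1 0 = r ∧ γ 1 1 = s := by simp [hγ]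
    rw [act, e2.1, e2.2.1, e2.2.2, e3.1, e3.2.1, e3.2.2.1, e3.2.2.2]
    congr 1
    · ring
    · congr 1
      · ring
      · congr 1
        linear_combination (p * s - q * r + 1) * hdet
  have hpw1 : pw k (act Q γ) = 1 := by
    rw [hact, pw]
    simp
  have hpwQ : pw k Q = (Polynomial.C (r : ℂ) * Polynomial.X + Polynomial.C (-p : ℂ)) ^ (2 * k - 2) := by
    have e2 : Q 0 = r ^ 2 ∧ Q 1 = -2 * p * r ∧ Q 2 = p ^ 2 := by simp [hQ]
    have h1 : 2 * k - 2 = 2 * (k - 1) := by omega
    rw [pw, h1, pow_mul, e2.1, e2.2.1, e2.2.2]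
    congr 1
    push_cast
    simp only [Polynomial.C_mul, Polynomial.C_pow, Polynomial.C_neg, map_ofNat]
    ring
  -- the value of the primitive near the cusp
  have hGp : ∀ t : ℝ, Gp k a (pw k Q) ((p : ℂ) / r + Complex.I * t) =
      ∑ j ∈ Finset.range (2 * k), (-1) ^ j * (((2 * k - 2).descFactorial j : ℂ) * (r : ℂ) ^ (2 * k - 2)) *
        ((Complex.I * t) ^ (2 * k - 2 - j) * Fj a (j + 1) ((p : ℂ) / r + Complex.I * t)) := by
    intro t
    rw [Gp]
    refine Finset.sum_congr rfl fun j hj => ?_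
    rw [hpwQ, der]
    rcases le_or_gt j (2 * k - 2) with h | h
    · have h2 : (r : ℂ) ^ (2 * k - 2) = (r : ℂ) ^ j * (r : ℂ) ^ (2 * k - 2 - j) := by
        rw [← pow_add]
        congr 1
        omega
      have h3 : (r : ℂ) * ((p : ℂ) / r + Complex.I * t) + -p = r * (Complex.I * t) := by
        field_simp
        ring
      simp only [Polynomial.eval_mul, Polynomial.eval_C, Polynomial.eval_pow, Polynomial.eval_add,
        Polynomial.eval_X]
      rw [h3, h2, mul_pow]
      ring
    · rw [Nat.descFactorial_eq_zero_iff_lt.2 h]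
      simp
  -- the limit of the right side
  have hx : ((p : ℂ) / r) = (((p : ℝ) / r : ℝ) : ℂ) := by push_cast; rfl
  have hlim1 : Tendsto (fun t : ℝ => Gp k a (pw k Q) ((p : ℂ) / r + Complex.I * t)) (𝓝[>] 0)
      (𝓝 ((2 * k - 2).factorial * (r : ℂ) ^ (2 * k - 2) * Fj a (2 * k - 1) ((p : ℂ) / r))) := by
    simp_rw [hGp]
    have h1 : ((2 * k - 2).factorial * (r : ℂ) ^ (2 * k - 2) * Fj a (2 * k - 1) ((p : ℂ) / r)) =
        ∑ j ∈ Finset.range (2 * k), (-1) ^ j * (((2 * k - 2).descFactorial j : ℂ) * (r : ℂ) ^ (2 * k - 2)) *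
          (0 ^ (2 * k - 2 - j) * Fj a (2 * k - 1) ((p : ℂ) / r)) := by
      rw [Finset.sum_eq_single (2 * k - 2)]
      · rw [Nat.descFactorial_self, Nat.sub_self, pow_zero, Even.neg_one_pow (by
          exact ⟨k - 1, by omega⟩)]
        ring
      · intro j hj hne
        rcases lt_or_gt_of_ne hne with h | h
        · rw [zero_pow (by omega)]
          ring
        · rw [Nat.descFactorial_eq_zero_iff_lt.2 h]
          simp
      · intro h
        exact absurd (Finset.mem_range.2 (by omega)) h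
    rw [h1]
    refine tendsto_finset_sum _ fun j hj => ?_
    rcases le_or_gt j (2 * k - 2) with h | h
    · refine Tendsto.const_mul _ ?_
      have h2 := lim_term hA hs ((p : ℝ) / r) (2 * k - 2 - j) (by omega)
      have h3 : 2 * k - 1 - (2 * k - 2 - j) = j + 1 := by omega
      rw [h3, ← hx] at h2
      exact h2
    · rw [Nat.descFactorial_eq_zero_iff_lt.2 h]
      simp
  -- the limit of the left side
  have hlim2 : Tendsto (fun t : ℝ => Gp k a (pw k Q) ((p : ℂ) / r + Complex.I * t)) (𝓝[>] 0)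
      (𝓝 (Phi k a γ Q)) := by
    have h1 : ∀ t : ℝ, 0 < t → Gp k a (pw k Q) ((p : ℂ) / r + Complex.I * t) =
        Phi k a γ Q + Gp k a 1 (Complex.I / ((r : ℂ) ^ 2 * t) - s / r) := by
      intro t ht
      have ht0 : (t : ℂ) ≠ 0 := by exact_mod_cast ht.ne'
      have him : (Complex.I / ((r : ℂ) ^ 2 * t) - s / r).im = 1 / ((r : ℝ) ^ 2 * t) := by
        have e1 : (Complex.I / ((r : ℂ) ^ 2 * t) - s / r) =
            ((1 / ((r : ℝ) ^ 2 * t) : ℝ) : ℂ) * Complex.I - (((s : ℝ) / r : ℝ) : ℂ) := by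
          push_cast
          ring
        rw [e1, Complex.sub_im, Complex.ofReal_im, sub_zero, Complex.im_ofReal_mul, Complex.I_im,
          mul_one]
      have hpos : 0 < (Complex.I / ((r : ℂ) ^ 2 * t) - s / r).im := by
        rw [him]
        positivity
      have h2 := hC γ Q _ ⟨hγdet, by simpa [hγ] using hr2⟩ hpos
      have hmb : mb γ (Complex.I / ((r : ℂ) ^ 2 * t) - s / r) = (p : ℂ) / r + Complex.I * t := by
        have e3 : γ 0 0 = p ∧ γ 0 1 = q ∧ γ 1 0 = r ∧ γ 1 1 = s := by simp [hγ]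
        rw [mb, e3.1, e3.2.1, e3.2.2.1, e3.2.2.2]
        have hI : Complex.I ≠ 0 := Complex.I_ne_zero
        have hden : (r : ℂ) * (Complex.I / ((r : ℂ) ^ 2 * t) - s / r) + s ≠ 0 := by
          have : (r : ℂ) * (Complex.I / ((r : ℂ) ^ 2 * t) - s / r) + s = Complex.I / (r * t) := by
            field_simp
            ring
          rw [this]
          exact div_ne_zero hI (mul_ne_zero hr0 ht0)
        rw [div_eq_iff hden]
        field_simp
        ring_nf
        rw [Complex.I_sq]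
        linear_combination (-(r : ℂ) * t) * hdC
      rw [hmb, hpw1] at h2
      rw [← h2]
      ring
    have h2 : Tendsto (fun t : ℝ => Gp k a 1 (Complex.I / ((r : ℂ) ^ 2 * t) - s / r)) (𝓝[>] 0)
        (𝓝 0) := by
      rw [Metric.tendsto_nhds]
      intro ε hε
      obtain ⟨Y, hY, hYb⟩ := (hPrim k a F 1 hA (by simp; omega)).2.2 |(s : ℝ) / r| (ε / 2) (by linarith)
      have h3 : ∀ᶠ t : ℝ in 𝓝[>] 0, t < 1 / ((r : ℝ) ^ 2 * Y) :=
        nhdsWithin_le_nhds (gt_mem_nhds (by positivity))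
      filter_upwards [self_mem_nhdsWithin, h3] with t ht ht3
      have ht' : (0 : ℝ) < t := ht
      rw [dist_zero_right]
      have e1 : (Complex.I / ((r : ℂ) ^ 2 * t) - s / r) =
          ((1 / ((r : ℝ) ^ 2 * t) : ℝ) : ℂ) * Complex.I - (((s : ℝ) / r : ℝ) : ℂ) := by
        push_cast
        ring
      have h4 := hYb (Complex.I / ((r : ℂ) ^ 2 * t) - s / r) (by
        rw [e1, Complex.sub_re, Complex.ofReal_re, Complex.re_ofReal_mul, Complex.I_re, mul_zero,
          zero_sub, abs_neg]) (by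
        rw [e1, Complex.sub_im, Complex.ofReal_im, sub_zero, Complex.im_ofReal_mul, Complex.I_im,
          mul_one]
        rw [lt_div_iff₀ (by positivity)] at ht3
        rw [le_div_iff₀ (by positivity)]
        nlinarith)
      linarith
    have h3 : Tendsto (fun t : ℝ => Phi k a γ Q + Gp k a 1 (Complex.I / ((r : ℂ) ^ 2 * t) - s / r))
        (𝓝[>] 0) (𝓝 (Phi k a γ Q)) := by
      simpa using h2.const_add (Phi k a γ Q)
    refine h3.congr' ?_
    filter_upwards [self_mem_nhdsWithin] with t ht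
    exact (h1 t ht).symm
  exact tendsto_nhds_unique hlim2 hlim1

end LT

end Pool.Agent.Lib.MP_7c5fb9_nt
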