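import Pool.Agent.Lib.MP_7c5fb9_nt.LT.Stmts

set_option autoImplicit false

/-!
# Level two (MP_7c5fb9_nt, project LT): the main theorem with prescribed local behaviour
-/

namespace Pool.Agent.Lib.MP_7c5fb9_nt

namespace LT

open LO Pool.Agent.Lib.MP_7c08ba_nt.RZ UpperHalfPlane
open scoped MatrixGroups

/-- Residue classes in which two is not inert. -/
theorem mod_eight {M ρ D : ℕ} (h : RealTwo M ρ) (h' : ¬ (M = 8 ∧ ρ = 5)) (hD : D % M = ρ) :
    D % 8 ≠ 5 := by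
  rcases h with ⟨rfl, rfl | rfl⟩ | ⟨rfl, rfl | rfl⟩ | ⟨rfl, rfl | rfl | rfl | rfl⟩
  · omega
  · exact absurd ⟨rfl, rfl⟩ h'
  all_goals omega

theorem stMain2 (hKey : StKeyB) (hCount : StCountB) (hCrit : StCrit2) : StMain2 := by
  intro k f hk hk3 hf
  have main : ∀ (K : Type) [Field K] [NumberField K] (D : ℕ), Module.finrank ℚ K = 2 →
      NumberField.discr K = D → D % 3 = 2 → D % 8 ≠ 5 → BKDH.NoThree (3 * D) → NonVan k f K := by
    intro K _ _ D hK hd hD3 hD8 hN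
    obtain ⟨h1, h2⟩ := hKey K D hK hd hD3 hN
    refine hCrit k f hk hk3 hf K hK ?_ ?_ ?_ h1 ?_
    · rw [hd]
      omega
    · rw [hd]
      omega
    · rw [hd]
      omega
    · intro D' t u hD' hF
      rw [hd] at hD'
      have : D' = D := by exact_mod_cast hD'.symm
      subst this
      exact h2 t u hF
  refine ⟨fun K _ _ D hK hd hD3 hD8 hN => main K D hK hd hD3 hD8 ?_,
    fun M ρ hM hM5 P hP r hr => ?_⟩
  · intro F _ _ s' hs' hF'
    exact hN F s' hF' hs'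
  · obtain ⟨⟨c, hc, X₁, hX₁⟩, hB⟩ := hCount M ρ hM P hP r hr
    have hfin : ∀ X : ℕ, {D : ℕ | D ≤ X ∧ FD D ∧ D % 3 = 2 ∧ D % M = ρ ∧
        D % (∏ p ∈ P, p ^ 2) = r % (∏ p ∈ P, p ^ 2) ∧
        ∀ (K : Type) [Field K] [NumberField K], Module.finrank ℚ K = 2 →
          NumberField.discr K = D → NonVan k f K}.Finite := fun X =>
      (Set.finite_Iic X).subset fun D hD => hD.1
    have hsub : ∀ X : ℕ, {D : ℕ | D ≤ X ∧ FD D ∧ D % 3 = 2 ∧ D % M = ρ ∧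
        D % (∏ p ∈ P, p ^ 2) = r % (∏ p ∈ P, p ^ 2) ∧ BKDH.NoThree (3 * D)} ⊆
        {D : ℕ | D ≤ X ∧ FD D ∧ D % 3 = 2 ∧ D % M = ρ ∧
        D % (∏ p ∈ P, p ^ 2) = r % (∏ p ∈ P, p ^ 2) ∧
        ∀ (K : Type) [Field K] [NumberField K], Module.finrank ℚ K = 2 →
          NumberField.discr K = D → NonVan k f K} := by
      intro X D hD
      exact ⟨hD.1, hD.2.1, hD.2.2.1, hD.2.2.2.1, hD.2.2.2.2.1,
        fun K _ _ hK hd => main K D hK hd hD.2.2.1 (mod_eight hM hM5 hD.2.2.2.1)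
          hD.2.2.2.2.2⟩
    have hle : ∀ X : ℕ, ({D : ℕ | D ≤ X ∧ FD D ∧ D % 3 = 2 ∧ D % M = ρ ∧
        D % (∏ p ∈ P, p ^ 2) = r % (∏ p ∈ P, p ^ 2) ∧ BKDH.NoThree (3 * D)}.ncard : ℝ) ≤
        ({D : ℕ | D ≤ X ∧ FD D ∧ D % 3 = 2 ∧ D % M = ρ ∧
        D % (∏ p ∈ P, p ^ 2) = r % (∏ p ∈ P, p ^ 2) ∧
        ∀ (K : Type) [Field K] [NumberField K], Module.finrank ℚ K = 2 →
          NumberField.discr K = D → NonVan k f K}.ncard : ℝ) := by
      intro X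
      exact_mod_cast Set.ncard_le_ncard (hsub X) (hfin X)
    refine ⟨?_, fun ε hε => ?_⟩
    · obtain ⟨X₂, hX₂⟩ := hB (1 / 4) (by norm_num)
      refine ⟨c / 4, by positivity, max X₁ X₂, fun X hX => ?_⟩
      have h1 := hX₁ X ((le_max_left _ _).trans hX)
      have h2 := hX₂ X ((le_max_right _ _).trans hX)
      have h3 := hle X
      refine le_trans ?_ (h2.trans h3)
      have : c / 4 * (X : ℝ) = (1 / 2 - 1 / 4) * (c * X) := by ring
      rw [this]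
      exact mul_le_mul_of_nonneg_left h1 (by norm_num)
    · obtain ⟨X₀, hX₀⟩ := hB ε hε
      exact ⟨X₀, fun X hX => (hX₀ X hX).trans (hle X)⟩

end LT

end Pool.Agent.Lib.MP_7c5fb9_nt
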