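import Pool.Agent.Lib.MP_7c5fb9_nt.LT.Stmts
import Pool.Agent.Lib.MP_7c5fb9_nt.LO.NZ
import Pool.Agent.Lib.MP_7c08ba_nt.RZ.Gs

set_option autoImplicit false

/-!
# Level two (MP_7c5fb9_nt, project LT), module NZ: the odd part of the period does not vanish
-/

namespace Pool.Agent.Lib.MP_7c5fb9_nt

namespace LT

open LO Pool.Agent.Lib.MP_7c08ba_nt.RZ UpperHalfPlane Filter Topology
open LO.NZAux (bip bip_coeff ee_add' norm_ee_real')
open scoped MatrixGroups Polynomial nonZeroDivisors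

namespace NZAux2

/-- The values on the line. -/
noncomputable def lpoly (k : ℕ) (a : ℕ → ℂ) (Q : Frm) : ℂ[X] :=
  ∑ m ∈ Finset.range (2 * k - 1), ((bip k Q).coeff m - (bip k (mir Q)).coeff m) *
    Polynomial.C (rp k a m)

theorem lpoly_eval {k : ℕ} {a : ℕ → ℂ}
    (h1 : ∀ Q : Frm, V k a Q = ∑ m ∈ Finset.range (2 * k - 1), (pw k Q).coeff m * rp k a m)
    (Q : Frm) (n : ℤ) :
    (lpoly k a Q).eval (n : ℂ) =
      Vo k a ![1 + n * (Q 0 - 1), n * Q 1, 1 + n * (Q 2 - 1)] := by
  have e : mir ![1 + n * (Q 0 - 1), n * Q 1, 1 + n * (Q 2 - 1)] =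
      ![1 + n * (mir Q 0 - 1), n * mir Q 1, 1 + n * (mir Q 2 - 1)] := by
    funext i
    fin_cases i <;> simp [mir]
  rw [Vo, h1, h1, ← Finset.sum_sub_distrib, e]
  unfold lpoly
  rw [Polynomial.eval_finsetSum]
  refine Finset.sum_congr rfl fun m _ => ?_
  rw [Polynomial.eval_mul, Polynomial.eval_sub, Polynomial.eval_C, bip_coeff, bip_coeff, sub_mul]

theorem all_of_two {k : ℕ} {a : ℕ → ℂ}
    (h1 : ∀ Q : Frm, V k a Q = ∑ m ∈ Finset.range (2 * k - 1), (pw k Q).coeff m * rp k a m)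
    (h : ∀ Q : Frm, disc Q % 3 = 2 → Vo k a Q = 0) (Q : Frm) : Vo k a Q = 0 := by
  have hz : lpoly k a Q = 0 := by
    refine Polynomial.eq_zero_of_infinite_isRoot _ ?_
    refine Set.Infinite.mono (s := Set.range fun n : ℕ => (((3 * n : ℤ)) : ℂ)) ?_ ?_
    · rintro _ ⟨n, rfl⟩
      show (lpoly k a Q).eval _ = 0
      rw [lpoly_eval h1]
      apply h
      have : disc ![1 + (3 * (n : ℤ)) * (Q 0 - 1), (3 * (n : ℤ)) * Q 1,
          1 + (3 * (n : ℤ)) * (Q 2 - 1)] = 2 + 3 * (-2 + 3 * (n * Q 1) ^ 2 -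
            4 * (n * (Q 0 - 1) + n * (Q 2 - 1) + 3 * (n * (Q 0 - 1)) * (n * (Q 2 - 1)))) := by
        simp [disc]
        ring
      rw [this]
      omega
    · apply Set.infinite_range_of_injective
      intro a b hab
      have hab : (((3 * (a : ℤ) : ℤ)) : ℂ) = ((3 * (b : ℤ) : ℤ) : ℂ) := hab
      have : (3 * (a : ℤ)) = 3 * b := Int.cast_injective hab
      omega
  have h3 := lpoly_eval h1 Q 1
  rw [hz, Polynomial.eval_zero] at h3
  rw [h3]
  congr 1
  funext i
  fin_cases i <;> simp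

/-- The vanishing on an inverse matrix. -/
theorem inv_zero {k : ℕ} {a : ℕ → ℂ}
    (h1 : ∀ (M N : Mat) (Q : Frm), InG M → InG N →
      Psi k a (M * N) Q = Psi k a M Q + Psi k a N (act Q M))
    (hone : ∀ Q : Frm, Psi k a 1 Q = 0) (M N : Mat) (hM : InG M) (hN : InG N) (hMN : M * N = 1)
    (hNM : N * M = 1) (h : ∀ Q : Frm, Psi k a M Q = 0) (Q : Frm) : Psi k a N Q = 0 := by
  have h2 := h1 M N (act Q N) hM hN
  rw [hMN, hone, h, LO.NZAux.act_mul, hNM, LO.NZAux.act_one, zero_add] at h2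
  exact h2.symm

theorem inG_one : InG 1 := ⟨by simp, by simp⟩

theorem inG_mT : InG mT := ⟨by simp [mT, Matrix.det_fin_two_of], by simp [mT]⟩

theorem inG_mT' : InG mT' := ⟨by simp [mT', Matrix.det_fin_two_of], by simp [mT']⟩

theorem inG_mL : InG mL := ⟨by simp [mL, Matrix.det_fin_two_of], by simp [mL]⟩

theorem inG_mL' : InG !![1, 0; -2, 1] := ⟨by simp [Matrix.det_fin_two_of], by simp⟩

theorem all_mat (hGen : StGen2) {k : ℕ} {a : ℕ → ℂ}
    (h1 : ∀ (M N : Mat) (Q : Frm), InG M → InG N →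
      Psi k a (M * N) Q = Psi k a M Q + Psi k a N (act Q M))
    (h2 : ∀ Q : Frm, Psi k a mT Q = 0) (h3 : ∀ (M : Mat) (Q : Frm), Psi k a (-M) Q = Psi k a M Q)
    (h4 : ∀ Q : Frm, Psi k a mL Q = 0) : ∀ M : Mat, InG M → ∀ Q : Frm, Psi k a M Q = 0 := by
  have hone : ∀ Q : Frm, Psi k a 1 Q = 0 := by
    intro Q
    have := h1 1 1 Q inG_one inG_one
    rw [one_mul, LO.NZAux.act_one] at this
    linear_combination -this
  have hT' : ∀ Q : Frm, Psi k a mT' Q = 0 := by
    refine inv_zero h1 hone mT mT' inG_mT inG_mT' ?_ ?_ h2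
    · ext i j
      fin_cases i <;> fin_cases j <;> simp [mT, mT', Matrix.mul_apply, Fin.sum_univ_two]
    · ext i j
      fin_cases i <;> fin_cases j <;> simp [mT, mT', Matrix.mul_apply, Fin.sum_univ_two]
  have hL' : ∀ Q : Frm, Psi k a !![1, 0; -2, 1] Q = 0 := by
    refine inv_zero h1 hone mL _ inG_mL inG_mL' ?_ ?_ h4
    · ext i j
      fin_cases i <;> fin_cases j <;> simp [mL, Matrix.mul_apply, Fin.sum_univ_two]
    · ext i j
      fin_cases i <;> fin_cases j <;> simp [mL, Matrix.mul_apply, Fin.sum_univ_two]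
  refine hGen (fun M => ∀ Q : Frm, Psi k a M Q = 0) hone ?_ ?_ ?_ ?_ ?_
  · intro M _ h Q
    rw [h3, h]
  · intro M hM h Q
    rw [h1 M mT Q hM inG_mT, h, h2, add_zero]
  · intro M hM h Q
    rw [h1 M mT' Q hM inG_mT', h, hT', add_zero]
  · intro M hM h Q
    rw [h1 M mL Q hM inG_mL, h, h4, add_zero]
  · intro M hM h Q
    rw [h1 M _ Q hM inG_mL', h, hL', add_zero]

end NZAux2

open NZAux2

/-- (NZ) the odd part of `V` does not vanish on the forms of discriminant `2` modulo `3`. -/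
theorem stNZ2 (hGen : StGen2) (hCoc : StCoc2) (hPer : StPer2) (hPsiC : StPsiC2)
    (hLim : StLim2) : StNZ2 := by
  intro k a G hk hAna
  by_contra hcon
  push Not at hcon
  have hk1 : 1 ≤ k := by omega
  have P1 := hPer k a G hk1 hAna
  obtain ⟨C1, C2, C3, C4, -⟩ := hPsiC k a G hk1 hAna
  obtain ⟨-, -, -, hneg, -⟩ := hCoc k a G hk1 hAna
  obtain ⟨hsum, hL⟩ := hLim k a G hk hAna
  have hV : ∀ Q : Frm, Vo k a Q = 0 := all_of_two P1 hcon
  have hA : ∀ (M : Mat), InG M → ∀ Q : Frm, Psi k a M Q = 0 :=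
    all_mat hGen C1 C2 C3 fun Q => by rw [C4, hV, hV, sub_zero]
  set F : ℂ → ℂ := Fj a (2 * k - 1) with hF
  -- the values at rational numbers with even denominator
  have hrat : ∀ p q r s : ℤ, p * s - q * r = 1 → 0 < r → (2 : ℤ) ∣ r →
      F (p / r) = F (-(p / r)) := by
    intro p q r s hdet hr h2r
    have hM : InG !![p, q; r, s] := by
      refine ⟨?_, by simpa using h2r⟩
      rw [Matrix.det_fin_two_of, hdet]
    have hrC : (r : ℂ) ≠ 0 := by exact_mod_cast hr.ne'
    have h0 := hA _ hM ![r ^ 2, -2 * p * r, p ^ 2]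
    unfold Psi at h0
    have e1 : mE * !![p, q; r, s] * mE = -!![-p, q; r, -s] := by
      ext i j
      fin_cases i <;> fin_cases j <;> simp [mE, Matrix.mul_apply, Fin.sum_univ_two]
    have e2 : mir ![r ^ 2, -2 * p * r, p ^ 2] = ![r ^ 2, -2 * (-p) * r, (-p) ^ 2] := by
      funext i
      fin_cases i <;> simp [mir]
    rw [e1, e2, hneg, hL p q r s hdet hr h2r,
      hL (-p) q r (-s) (by linear_combination hdet) hr h2r] at h0
    have h2 : ((2 * k - 2).factorial : ℂ) * (r : ℂ) ^ (2 * k - 2) ≠ 0 :=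
      mul_ne_zero (by exact_mod_cast (Nat.factorial_pos _).ne') (pow_ne_zero _ hrC)
    have h3 : ((2 * k - 2).factorial : ℂ) * (r : ℂ) ^ (2 * k - 2) *
        (F (p / r) - F ((-p : ℤ) / r)) = 0 := by
      rw [hF]
      linear_combination h0
    have h4 := (mul_eq_zero.1 h3).resolve_left h2
    have h5 : (((-p : ℤ)) : ℂ) / r = -(p / r) := by
      push_cast
      ring
    rw [h5] at h4
    exact sub_eq_zero.1 h4
  -- the coefficients
  set c : ℕ → ℂ := fun n => a n * ((2 * Real.pi * Complex.I * n) ^ (2 * k - 1))⁻¹ with hc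
  have hFx : ∀ x : ℂ, F x = ∑' n : ℕ, c n * ee (n * x) := fun x => rfl
  have hsx : ∀ x : ℝ, Summable fun n : ℕ => c n * ee (n * x) := by
    intro x
    refine Summable.of_norm (hsum.congr fun n => ?_)
    rw [norm_mul (c n), norm_ee_real' (n * x) (by simp), mul_one]
  have hcont : Continuous fun x : ℝ => F x := by
    have h1 : (fun x : ℝ => F x) = fun x : ℝ => ∑' n : ℕ, c n * ee (n * x) := by
      funext x
      exact hFx x
    rw [h1]
    refine continuous_tsum (fun n => ?_) hsum (fun n x => ?_)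
    · unfold ee
      fun_prop
    · rw [norm_mul, norm_ee_real' (n * x) (by simp), mul_one]
  have hreal : ∀ x : ℝ, F x = F (-x) := by
    intro x
    set y : ℕ → ℝ := fun m => ((2 * ⌊(2 : ℝ) ^ m * x⌋ + 1 : ℤ) : ℝ) / ((2 ^ (m + 1) : ℤ) : ℝ) with hy
    have hyx : Tendsto y atTop (𝓝 x) := by
      have h1 : ∀ m : ℕ, |y m - x| ≤ (1 / 2 : ℝ) ^ (m + 1) := by
        intro m
        have h2 : (0 : ℝ) < 2 ^ (m + 1) := by positivity
        have h3 : y m - x = ((2 * ⌊(2 : ℝ) ^ m * x⌋ + 1) - 2 * ((2 : ℝ) ^ m * x)) * (1 / 2) ^ (m + 1) := by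
          rw [hy]
          push_cast
          rw [one_div, inv_pow, pow_succ]
          field_simp
        rw [h3, abs_mul, abs_of_pos (by positivity : (0 : ℝ) < (1 / 2) ^ (m + 1))]
        refine mul_le_of_le_one_left (by positivity) ?_
        have h4 := Int.floor_le ((2 : ℝ) ^ m * x)
        have h5 := Int.lt_floor_add_one ((2 : ℝ) ^ m * x)
        rw [abs_le]
        constructor <;> linarith
      rw [tendsto_iff_norm_sub_tendsto_zero]
      refine squeeze_zero (g := fun m : ℕ => (1 / 2 : ℝ) ^ (m + 1)) (fun m => norm_nonneg _)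
        (fun m => by
          rw [Real.norm_eq_abs]
          exact h1 m) ?_
      exact (tendsto_pow_atTop_nhds_zero_of_lt_one (r := (1 / 2 : ℝ)) (by norm_num)
        (by norm_num)).comp (tendsto_add_atTop_nat 1)
    have h1 : ∀ m : ℕ, F (y m : ℝ) = F ((-y m : ℝ) : ℂ) := by
      intro m
      have hcop : IsCoprime (2 * ⌊(2 : ℝ) ^ m * x⌋ + 1 : ℤ) (2 ^ (m + 1) : ℤ) := by
        refine IsCoprime.pow_right ?_
        exact ⟨1, -⌊(2 : ℝ) ^ m * x⌋, by ring⟩
      obtain ⟨u, v, huv⟩ := hcop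
      have h2 := hrat (2 * ⌊(2 : ℝ) ^ m * x⌋ + 1) (-v) (2 ^ (m + 1)) u
        (by linear_combination huv) (by positivity) ⟨2 ^ m, by ring⟩
      rw [hy]
      push_cast at h2 ⊢
      exact h2
    have h2 : Tendsto (fun m => F (y m : ℝ)) atTop (𝓝 (F x)) := (hcont.tendsto x).comp hyx
    have h3 : Tendsto (fun m => F ((-y m : ℝ) : ℂ)) atTop (𝓝 (F ((-x : ℝ) : ℂ))) :=
      (hcont.tendsto (-x)).comp hyx.neg
    simp_rw [h1] at h2
    have h4 := tendsto_nhds_unique h2 h3
    rw [h4]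
    push_cast
    rfl
  have hrat' : ∀ j N : ℕ, 1 ≤ N → F (j / N) = F (-(j / N)) := by
    intro j N _
    have h1 := hreal (j / N)
    push_cast at h1
    exact h1
  set d : ℕ → ℕ → ℂ := fun N n => (if (N : ℤ) ∣ 1 - n then 1 else 0) -
    (if (N : ℤ) ∣ n + 1 then 1 else 0) with hd
  have hzero : ∀ N : ℕ, 1 ≤ N → ∑' n : ℕ, c n * d N n = 0 := by
    intro N hN
    have hNC : (N : ℂ) ≠ 0 := by
      have : N ≠ 0 := by omega
      exact_mod_cast this
    have h1 : ∀ j ∈ Finset.range N, ee (-(j / N)) * F (j / N) - ee (-(j / N)) * F (-(j / N)) = 0 := by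
      intro j _
      rw [hrat' j N hN, sub_self]
    have h2 : ∀ j : ℕ, ee (-(j / N)) * F (j / N) - ee (-(j / N)) * F (-(j / N)) =
        ∑' n : ℕ, c n * (ee (-(((1 - n : ℤ) : ℂ) * j / N)) -
          ee (-(((n + 1 : ℤ) : ℂ) * j / N))) := by
      intro j
      have s1 := hsx (j / N : ℝ)
      have s2 := hsx (-(j / N) : ℝ)
      push_cast at s1 s2
      rw [hFx, hFx, ← tsum_mul_left, ← tsum_mul_left,
        ← (s1.mul_left _).tsum_sub (s2.mul_left _)]
      refine tsum_congr fun n => ?_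
      have e1 : ee (-(((1 - n : ℤ) : ℂ) * j / N)) = ee (-(j / N)) * ee (n * (j / N)) := by
        rw [← ee_add']
        congr 1
        push_cast
        ring
      have e2 : ee (-(((n + 1 : ℤ) : ℂ) * j / N)) = ee (-(j / N)) * ee (n * -(j / N)) := by
        rw [← ee_add']
        congr 1
        push_cast
        ring
      rw [e1, e2]
      ring
    have h3 : ∑ j ∈ Finset.range N, ∑' n : ℕ, c n * (ee (-(((1 - n : ℤ) : ℂ) * j / N)) -
          ee (-(((n + 1 : ℤ) : ℂ) * j / N))) = 0 := by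
      rw [← Finset.sum_congr rfl fun j _ => h2 j]
      exact Finset.sum_eq_zero h1
    rw [← Summable.tsum_finsetSum] at h3
    · have h4 : ∀ n : ℕ, ∑ j ∈ Finset.range N, c n * (ee (-(((1 - n : ℤ) : ℂ) * j / N)) -
          ee (-(((n + 1 : ℤ) : ℂ) * j / N))) = N * (c n * d N n) := by
        intro n
        rw [← Finset.mul_sum, Finset.sum_sub_distrib, Gsm.sum_ee _ N hN, Gsm.sum_ee _ N hN, hd]
        simp only
        split_ifs <;> ring
      simp_rw [h4] at h3
      rw [tsum_mul_left] at h3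
      exact (mul_eq_zero.1 h3).resolve_left hNC
    · intro j _
      have s1 := hsum.mul_right 2
      refine Summable.of_norm_bounded s1 ?_
      intro n
      rw [norm_mul]
      refine mul_le_mul_of_nonneg_left ?_ (norm_nonneg _)
      refine (norm_sub_le _ _).trans ?_
      have r1 : (-(((1 - n : ℤ) : ℂ) * j / N)).im = 0 := by
        have : (-(((1 - n : ℤ) : ℂ) * j / N)) = (((-(((1 - n : ℤ) : ℝ) * j / N)) : ℝ) : ℂ) := by
          push_cast
          ring
        rw [this, Complex.ofReal_im]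
      have r2 : (-(((n + 1 : ℤ) : ℂ) * j / N)).im = 0 := by
        have : (-(((n + 1 : ℤ) : ℂ) * j / N)) = (((-(((n + 1 : ℤ) : ℝ) * j / N)) : ℝ) : ℂ) := by
          push_cast
          ring
        rw [this, Complex.ofReal_im]
      rw [norm_ee_real' _ r1, norm_ee_real' _ r2]
      norm_num
  have hlim : Tendsto (fun N : ℕ => ∑' n : ℕ, c n * d N n) atTop
      (𝓝 (∑' n : ℕ, if n = 1 then c 1 else 0)) := by
    refine tendsto_tsum_of_dominated_convergence (bound := fun n => ‖c n‖ * 2) (hsum.mul_right 2)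
      ?_ ?_
    · intro n
      refine tendsto_const_nhds.congr' ?_
      filter_upwards [eventually_ge_atTop (n + 3)] with N hN
      have a2 : ¬ ((N : ℤ) ∣ n + 1) := by
        intro h
        have := Int.le_of_dvd (by omega) h
        omega
      by_cases hn : n = 1
      · subst hn
        simp only [hd, if_true]
        rw [if_neg a2]
        simp
      · have a1 : ¬ ((N : ℤ) ∣ 1 - n) := by
          intro h
          have h' : (N : ℤ) ∣ |1 - (n : ℤ)| := (dvd_abs _ _).2 h
          have h2 := Int.le_of_dvd (by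
            rw [abs_pos]
            omega) h'
          rcases abs_cases (1 - (n : ℤ)) with h1 | h1 <;> omega
        simp only [hd, if_neg hn, if_neg a1, if_neg a2]
        simp
    · filter_upwards with N n
      rw [norm_mul]
      refine mul_le_mul_of_nonneg_left ?_ (norm_nonneg _)
      simp only [hd]
      split_ifs <;> norm_num
  have hlim0 : Tendsto (fun N : ℕ => ∑' n : ℕ, c n * d N n) atTop (𝓝 0) := by
    refine tendsto_const_nhds.congr' ?_
    filter_upwards [eventually_ge_atTop 1] with N hN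
    exact (hzero N hN).symm
  have hc1 := tendsto_nhds_unique hlim hlim0
  rw [tsum_ite_eq] at hc1
  simp only [hc] at hc1
  rw [hAna.one, one_mul, inv_eq_zero] at hc1
  have := (pow_eq_zero_iff (by omega)).1 hc1
  simp [Real.pi_ne_zero] at this

end LT

end Pool.Agent.Lib.MP_7c5fb9_nt
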