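import Pool.Agent.Lib.MP_7c5fb9_nt.LT.Stmts
import Pool.Agent.Lib.MP_7c5fb9_nt.LO.Basic

set_option autoImplicit false

/-! Level two: the values of the cocycle are integral combinations of the periods. -/

namespace Pool.Agent.Lib.MP_7c5fb9_nt

namespace LT

open LO UpperHalfPlane Filter Topology
open scoped MatrixGroups Polynomial

namespace Per2

variable {k : ℕ} {a : ℕ → ℂ}

theorem Gp_add (P R : ℂ[X]) (z : ℂ) : Gp k a (P + R) z = Gp k a P z + Gp k a R z := by
  unfold Gp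
  rw [← Finset.sum_add_distrib]
  refine Finset.sum_congr rfl fun j _ => ?_
  rw [iterate_map_add, Polynomial.eval_add, mul_add]

theorem Gp_zero (z : ℂ) : Gp k a 0 z = 0 := by
  unfold Gp
  refine Finset.sum_eq_zero fun j _ => ?_
  rw [Polynomial.iterate_derivative_zero, Polynomial.eval_zero, mul_zero]

theorem Gp_C_mul (c : ℂ) (P : ℂ[X]) (z : ℂ) :
    Gp k a (Polynomial.C c * P) z = c * Gp k a P z := by
  unfold Gp
  rw [Finset.mul_sum]
  refine Finset.sum_congr rfl fun j _ => ?_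
  rw [Polynomial.iterate_derivative_C_mul, Polynomial.eval_mul, Polynomial.eval_C]
  ring

theorem Gp_sum {ι : Type*} (s : Finset ι) (c : ι → ℂ) (P : ι → ℂ[X]) (z : ℂ) :
    Gp k a (∑ i ∈ s, Polynomial.C (c i) * P i) z = ∑ i ∈ s, c i * Gp k a (P i) z := by
  classical
  induction s using Finset.induction_on with
  | empty => simp [Gp_zero]
  | insert b s hb ih => rw [Finset.sum_insert hb, Finset.sum_insert hb, Gp_add, Gp_C_mul, ih]

theorem act_mW (Q : Frm) : act Q mW = ![4 * Q 2, -(2 * Q 1), Q 0] := by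
  funext i
  fin_cases i <;> simp [act, mW] <;> ring

theorem natDegree_pw (k : ℕ) (Q : Frm) : (pw k Q).natDegree ≤ 2 * (k - 1) := by
  unfold pw
  refine Polynomial.natDegree_pow_le.trans ?_
  rw [mul_comm 2]
  refine Nat.mul_le_mul_left _ ?_
  compute_degree

theorem pw_sum (k : ℕ) (Q : Frm) (h1 : 1 ≤ k) :
    pw k Q = ∑ m ∈ Finset.range (2 * k - 1),
      Polynomial.C ((pw k Q).coeff m) * Polynomial.X ^ m := by
  have h := natDegree_pw k Q
  exact Polynomial.as_sum_range_C_mul_X_pow' (pw k Q) (by omega)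

theorem eval_pw (k : ℕ) (Q : Frm) (z : ℂ) :
    (pw k Q).eval z = ((Q 0 : ℂ) * z ^ 2 + (Q 1 : ℂ) * z + (Q 2 : ℂ)) ^ (k - 1) := by
  simp [pw]

theorem pw_act_mW (k : ℕ) (Q : Frm) (h1 : 1 ≤ k) :
    pw k (act Q mW) = ∑ m ∈ Finset.range (2 * k - 1), Polynomial.C ((pw k Q).coeff m) *
      (Polynomial.C ((-1) ^ m * (2 : ℂ) ^ (2 * k - 2 - m)) *
        Polynomial.X ^ (2 * k - 2 - m)) := by
  refine mul_left_cancel₀ Polynomial.X_ne_zero (Polynomial.funext fun z => ?_)
  rw [Polynomial.eval_mul, Polynomial.eval_mul, Polynomial.eval_X]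
  rcases eq_or_ne z 0 with rfl | hz
  · simp
  congr 1
  rw [eval_pw, act_mW, Polynomial.eval_finsetSum]
  have h2 : (pw k Q).eval (-(2 * z)⁻¹) =
      ∑ m ∈ Finset.range (2 * k - 1), (pw k Q).coeff m * (-(2 * z)⁻¹) ^ m := by
    conv_lhs => rw [pw_sum k Q h1]
    rw [Polynomial.eval_finsetSum]
    refine Finset.sum_congr rfl fun m _ => ?_
    rw [Polynomial.eval_mul, Polynomial.eval_C, Polynomial.eval_pow, Polynomial.eval_X]
  have h3 : ∑ m ∈ Finset.range (2 * k - 1), Polynomial.eval z (Polynomial.C ((pw k Q).coeff m) *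
      (Polynomial.C ((-1) ^ m * (2 : ℂ) ^ (2 * k - 2 - m)) * Polynomial.X ^ (2 * k - 2 - m))) =
      (2 * z) ^ (2 * k - 2) * (pw k Q).eval (-(2 * z)⁻¹) := by
    rw [h2, Finset.mul_sum]
    refine Finset.sum_congr rfl fun m hm => ?_
    have hm' : m ≤ 2 * k - 2 := by
      have := Finset.mem_range.1 hm
      omega
    rw [Polynomial.eval_mul, Polynomial.eval_C, Polynomial.eval_mul, Polynomial.eval_C,
      Polynomial.eval_pow, Polynomial.eval_X]
    have e1 : (2 * z) ^ (2 * k - 2) = (2 * z) ^ (2 * k - 2 - m) * (2 * z) ^ m := by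
      rw [← pow_add]
      congr 1
      omega
    have e2 : (2 * z) ^ m ≠ 0 := pow_ne_zero _ (mul_ne_zero two_ne_zero hz)
    rw [e1, neg_pow ((2 * z)⁻¹), inv_pow, mul_pow 2 z (2 * k - 2 - m)]
    field_simp
  rw [h3, eval_pw]
  have e2 : 2 * k - 2 = 2 * (k - 1) := by omega
  rw [e2, pow_mul, ← mul_pow]
  congr 1
  simp only [Matrix.cons_val_zero, Matrix.cons_val_one, Matrix.cons_val]
  push_cast
  field_simp
  ring

end Per2

open Per2 in
/-- (Per) periods. -/
theorem stPer2 : StPer2 := by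
  intro k a F h1 _ Q
  have h4 : Gp k a (pw k Q) (-1 / (2 * Complex.I)) =
      ∑ m ∈ Finset.range (2 * k - 1), (pw k Q).coeff m *
        Gp k a (Polynomial.X ^ m) (-1 / (2 * Complex.I)) := by
    conv_lhs => rw [pw_sum k Q h1]
    rw [Gp_sum]
  unfold V
  rw [pw_act_mW k Q h1, Gp_sum, h4, Finset.mul_sum, ← Finset.sum_sub_distrib]
  refine Finset.sum_congr rfl fun m _ => ?_
  unfold rp
  ring

end LT

end Pool.Agent.Lib.MP_7c5fb9_nt
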