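import Pool.Agent.Lib.MP_7c5fb9_nt.LT.Coc2

set_option autoImplicit false

/-!
# Level two (MP_7c5fb9_nt, project LT): the odd cocycle
-/

namespace Pool.Agent.Lib.MP_7c5fb9_nt

namespace LT

open LO UpperHalfPlane Filter Topology
open scoped MatrixGroups Polynomial

namespace PsiC2

variable {k : ℕ} {F : ℂ → ℂ} {a : ℕ → ℂ}

theorem InG.conj {M : Mat} (hM : InG M) : InG (mE * M * mE) := by
  refine ⟨by rw [LO.conj_det, hM.1], ?_⟩
  have e : (mE * M * mE) 1 0 = -M 1 0 := by
    rw [Matrix.mul_apply, Fin.sum_univ_two, Matrix.mul_apply, Fin.sum_univ_two, Matrix.mul_apply,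
      Fin.sum_univ_two]
    simp [mE]
  rw [e]
  exact (dvd_neg).2 hM.2

theorem InG.mul {M N : Mat} (hM : InG M) (hN : InG N) : InG (M * N) := by
  refine ⟨by rw [Matrix.det_mul, hM.1, hN.1, mul_one], ?_⟩
  have e : (M * N) 1 0 = M 1 0 * N 0 0 + M 1 1 * N 1 0 := by
    simp [Matrix.mul_apply, Fin.sum_univ_two]
  rw [e]
  exact dvd_add (hM.2.mul_right _) (hN.2.mul_left _)

theorem mir_smul (c : ℤ) (Q : Frm) : mir (fun i => c * Q i) = fun i => c * mir Q i := by
  funext i
  fin_cases i <;> simp [mir]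

theorem V_smul (k : ℕ) (a : ℕ → ℂ) (c : ℤ) (Q : Frm) :
    V k a (fun i => c * Q i) = (c : ℂ) ^ (k - 1) * V k a Q := by
  rw [Coc2.V_eq, Coc2.V_eq, Coc2.Phi_smul]

/-- Mirror images and conjugation. -/
theorem V_mir_act (k : ℕ) (a : ℕ → ℂ) (Q : Frm) (M N : Mat)
    (h : mE * M * mE = N ∨ mE * M * mE = -N) : V k a (act (mir Q) N) = V k a (mir (act Q M)) := by
  rw [← LO.mir_act]
  rcases h with h | h
  · rw [h]
  · rw [h, act_neg]

/-- Hecke sums and mirror images. -/
theorem TL_mir (k : ℕ) (a : ℕ → ℂ) (L : List Mat) (hL : (L.map fun M => mE * M * mE).Perm L)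
    (Q : Frm) : TL L (fun Q' => V k a (mir Q')) Q = TL L (V k a) (mir Q) := by
  unfold TL
  have h1 : (L.map fun M => V k a (mir (act Q M))) =
      (L.map fun M => mE * M * mE).map fun M => V k a (act (mir Q) M) := by
    rw [List.map_map]
    refine List.map_congr_left fun M _ => ?_
    rw [Function.comp_apply, LO.mir_act]
  rw [h1]
  exact (hL.map _).sum_eq

theorem TL_Vo (k : ℕ) (a : ℕ → ℂ) (L : List Mat) (hL : (L.map fun M => mE * M * mE).Perm L)
    (Q : Frm) : TL L (Vo k a) Q = TL L (V k a) Q - TL L (V k a) (mir Q) := by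
  rw [← TL_mir k a L hL]
  unfold TL Vo
  induction L with
  | nil => simp
  | cons M L _ => 
    clear hL
    induction (M :: L) with
    | nil => simp
    | cons N L' ih =>
      simp only [List.map_cons, List.sum_cons] at ih ⊢
      linear_combination ih

end PsiC2

open PsiC2 in
/-- (PsiC) the odd cocycle. -/
theorem stPsiC2 (hCoc : StCoc2) (hCyc : StCyc2) (hNew : StNew2) (hHec : StHec2) : StPsiC2 := by
  intro k a F hk hA
  obtain ⟨-, hc, hT, hn, -, hL, hW⟩ := hCoc k a F hk hA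
  have iT : InG mT := ⟨LO.det_mT, by simp [mT]⟩
  have iT' : InG mT' := ⟨LO.det_mT', by simp [mT']⟩
  have i1 : InG 1 := ⟨Matrix.det_one, by simp⟩
  have hP1 : ∀ Q : Frm, Phi k a 1 Q = 0 := by
    intro Q
    have h := hc 1 1 Q i1 i1
    rw [LO.act_one, mul_one] at h
    linear_combination -h
  have hT' : ∀ Q : Frm, Phi k a mT' Q = 0 := by
    intro Q
    have h := hc mT' mT Q iT' iT
    rw [LO.mT'_mul_mT, hP1, hT, add_zero] at h
    exact h.symm
  have c7 : ∀ Q : Frm, Vo k a (mir Q) = -Vo k a Q := by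
    intro Q
    unfold Vo
    rw [LO.mir_mir]
    ring
  refine ⟨?_, ?_, ?_, ?_, ?_, ?_, c7, ?_, ?_, ?_⟩
  · intro M N Q hM hN
    have h1 := hc M N Q hM hN
    have h2 := hc (mE * M * mE) (mE * N * mE) (mir Q) (InG.conj hM) (InG.conj hN)
    unfold Psi
    rw [LO.conj_mul, h1, h2, LO.mir_act]
    ring
  · intro Q
    unfold Psi
    rw [LO.conj_mT, hT, hT', sub_zero]
  · intro M Q
    unfold Psi
    rw [hn, mul_neg, neg_mul, hn]
  · intro Q
    have iL : InG mL := ⟨Coc2.det_mL, by simp [mL]⟩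
    have iL' : InG (mE * mL * mE) := InG.conj iL
    have e1 : mE * mL * mE * mL = 1 := by decide
    have h1 := hc (mE * mL * mE) mL (mir Q) iL' iL
    rw [e1, hP1, hL, LO.act_act, e1, LO.act_one, LO.mir_act] at h1
    unfold Psi Vo
    rw [hL]
    linear_combination h1
  · intro Q
    have h1 := hW Q
    have h2 := hW (mir Q)
    have e1 : mE * mW * mE = -mW := by decide
    have e2 : act (mir Q) mW = mir (act Q mW) := by
      rw [← LO.mir_act, e1, LO.act_neg]
    rw [e2] at h2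
    unfold Vo
    rw [h1, h2]
    ring
  · intro Q
    have h1 := hNew k a F hk hA Q 1 (Or.inl rfl)
    have h2 := hNew k a F hk hA (mir Q) (-1) (Or.inr rfl)
    have e1 : mE * mS * mE = -mS := by decide
    have e2 : act (mir Q) mS = mir (act Q mS) := by
      rw [← LO.mir_act, e1, LO.act_neg]
    have e3 : mE * !![1, 0; 1, 1] * mE = !![1, 0; -1, 1] := by decide
    have e4 : act (mir Q) !![1, 0; -1, 1] = mir (act Q !![1, 0; 1, 1]) := by
      rw [← LO.mir_act, e3]
    have e5 : mE * (mT * mS) * mE = -(!![1, -1; 0, 1] * mS) := by decide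
    have e6 : act (mir Q) (!![1, -1; 0, 1] * mS) = mir (act Q (mT * mS)) := by
      rw [← LO.mir_act, e5, LO.act_neg]
    have e7 : (!![1, 1; 0, 1] : Mat) = mT := rfl
    rw [e2, e4, e6] at h2
    rw [e7] at h1
    unfold Vo
    linear_combination h1 - h2
  · intro c Q
    unfold Vo
    rw [mir_smul, V_smul, V_smul]
    ring
  · intro Q
    obtain ⟨h5, h7⟩ := hHec k a F hk hA Q
    obtain ⟨g5, g7⟩ := hHec k a F hk hA (mir Q)
    unfold TS at *
    rw [TL_Vo k a L5p (by decide), TL_Vo k a L5m (by decide), TL_Vo k a L7p (by decide),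
      TL_Vo k a L7m (by decide)]
    unfold Vo
    constructor
    · linear_combination h5 - g5
    · linear_combination h7 - g7
  · intro D t u Q hD hDp hQ0 hQ2 htu ht hu
    have hD' : disc (mir Q) = D := by rw [LO.disc_mir, hD]
    have hm0 : mir Q 0 = Q 0 := by simp [mir]
    rw [hCyc k a F hk hA D t u Q hD hDp hQ0 hQ2 htu ht hu,
      hCyc k a F hk hA D t u (mir Q) hD' hDp (by rw [hm0]; exact hQ0) (by rw [hm0]; exact hQ2)
        htu ht hu]
    have h10 : ∀ R : Frm, (2 : ℤ) ∣ R 0 → (2 : ℤ) ∣ aut R t u 1 0 := by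
      intro R hR
      have e : aut R t u 1 0 = R 0 * u := by simp [aut]
      rw [e]
      exact hR.mul_right u
    have n1 : InG (aut Q t u) := ⟨LO.det_aut hD htu, h10 Q hQ2⟩
    have n2 : InG (aut (mir Q) t u) := ⟨LO.det_aut hD' htu, h10 _ (by rw [hm0]; exact hQ2)⟩
    have hh := hc (mE * aut Q t u * mE) (aut (mir Q) t u) (mir Q) (InG.conj n1) n2
    rw [LO.mir_act, LO.act_aut hD htu] at hh
    have h2 : mE * aut Q t u * mE * aut (mir Q) t u = 1 := by
      rw [LO.conj_aut, Matrix.adjugate_mul, LO.det_aut hD' htu, one_smul]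
    rw [h2, hP1] at hh
    unfold Psi
    linear_combination hh

end LT

end Pool.Agent.Lib.MP_7c5fb9_nt
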