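import Pool.Agent.Lib.MP_7c5fb9_nt.LT.Stmts
import Pool.Agent.Lib.MP_7c5fb9_nt.LO.Red

set_option autoImplicit false

/-!
# Level two (MP_7c5fb9_nt, project LT): reduction modulo `3`
-/

namespace Pool.Agent.Lib.MP_7c5fb9_nt

namespace LT

open LO LO.RedAux Pool.Agent.Lib.MP_7c08ba_nt.RZ UpperHalfPlane
open scoped MatrixGroups Polynomial

noncomputable section

namespace RedAux2

variable {Φ : LO.Frm → ℂ} {N : AddSubgroup ℂ} {hN : ∀ Q, disc Q % 3 = 2 → Φ Q ∈ N}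

theorem pf_FF2 {m k : ℕ} (hk : Even k) (hk1 : 1 ≤ k) (hm : 1 ≤ m)
    (hmir : ∀ Q : LO.Frm, Φ (mir Q) = -Φ Q)
    (hW : ∀ Q : LO.Frm, Φ (act Q mW) = -(2 : ℂ) ^ (k - 1) * Φ Q)
    (hNr : ∀ Q : LO.Frm, Φ Q - Φ (act Q mS) + Φ (act Q !![1, 0; 1, 1]) -
      Φ (act Q (mT * mS)) = 0)
    (hsc : ∀ (c : ℤ) (Q : LO.Frm), Φ (fun i => c * Q i) = (c : ℂ) ^ (k - 1) * Φ Q)
    (hper : ∀ Q Q' : LO.Frm, disc Q % 3 = 2 → disc Q' % 3 = 2 →
      (∀ i, (3 ^ m : ℤ) ∣ Q i - Q' i) → ∃ z ∈ N, Φ Q - Φ Q' = 3 * z)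
    (θ : N →+ ZMod 3) : PF2 m (FF Φ N hN θ) where
  per Q R := by
    have hd : disc (fun i => Q i + 3 ^ m * R i) % 3 = disc Q % 3 := by
      obtain ⟨j, rfl⟩ : ∃ j, m = j + 1 := ⟨m - 1, by omega⟩
      apply Int.ModEq.symm
      rw [Int.modEq_iff_dvd]
      refine ⟨3 ^ j * (R 1 * (2 * Q 1 + 3 ^ (j + 1) * R 1) -
        4 * (Q 0 * R 2 + R 0 * Q 2 + 3 ^ (j + 1) * R 0 * R 2)), ?_⟩
      simp only [disc]
      ring
    by_cases hQ : disc Q % 3 = 2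
    · have hQ' : disc (fun i => Q i + 3 ^ m * R i) % 3 = 2 := hd.trans hQ
      rw [FF_of θ hQ, FF_of θ hQ']
      obtain ⟨z, hz, e⟩ := hper _ _ hQ' hQ (fun i => ⟨R i, by ring⟩)
      rw [← sub_eq_zero, ← map_sub]
      have e' : (⟨Φ (fun i => Q i + 3 ^ m * R i), hN _ hQ'⟩ - ⟨Φ Q, hN _ hQ⟩ : N) =
          3 • ⟨z, hz⟩ := by
        apply Subtype.ext
        simp only [AddSubgroup.coe_sub, e]
        simp
      rw [e', map_nsmul]
      have : (3 : ZMod 3) = 0 := rfl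
      rw [nsmul_eq_mul, Nat.cast_ofNat, this, zero_mul]
    · have hQ' : ¬ disc (fun i => Q i + 3 ^ m * R i) % 3 = 2 := fun h => hQ (hd.symm.trans h)
      rw [FF_of_not θ hQ, FF_of_not θ hQ']
  supp Q hQ := FF_of_not θ hQ
  scal c Q hc := by
    have hc3 : c % 3 = 1 ∨ c % 3 = 2 := by omega
    have hd : disc (fun i => c * Q i) % 3 = disc Q % 3 := by
      rw [RedAux.disc_smul, sq_mod c hc3]
    by_cases hQ : disc Q % 3 = 2
    · have hQ' : disc (fun i => c * Q i) % 3 = 2 := hd.trans hQ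
      rw [FF_of θ hQ, FF_of θ hQ']
      obtain ⟨j, hj⟩ : ∃ j, k - 1 = 2 * j + 1 := by
        obtain ⟨i, rfl⟩ := hk
        exact ⟨i - 1, by omega⟩
      rw [theta_mul θ (hN _ hQ) (hN _ hQ') (c ^ (k - 1)) (by rw [hsc c Q]; push_cast; rfl), hj,
        odd_pow]
    · have hQ' : ¬ disc (fun i => c * Q i) % 3 = 2 := fun h => hQ (hd.symm.trans h)
      rw [FF_of_not θ hQ, FF_of_not θ hQ', mul_zero]
  mir Q := by
    have hd : disc (mir Q) = disc Q := RedAux.disc_mir Q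
    by_cases hQ : disc Q % 3 = 2
    · have hQ' : disc (mir Q) % 3 = 2 := by rw [hd]; exact hQ
      rw [FF_of θ hQ, FF_of θ hQ']
      rw [theta_mul θ (hN _ hQ) (hN _ hQ') (-1) (by rw [hmir Q]; simp)]
      simp
    · have hQ' : ¬ disc (mir Q) % 3 = 2 := by rw [hd]; exact hQ
      rw [FF_of_not θ hQ, FF_of_not θ hQ', neg_zero]
  W Q := by
    have hd : disc (act Q mW) % 3 = disc Q % 3 :=
      disc_act_mod Q mW (Or.inr (by simp [mW, Matrix.det_fin_two]))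
    by_cases hQ : disc Q % 3 = 2
    · have hQ' : disc (act Q mW) % 3 = 2 := hd.trans hQ
      rw [FF_of θ hQ, FF_of θ hQ']
      obtain ⟨j, hj⟩ : ∃ j, k - 1 = 2 * j + 1 := by
        obtain ⟨i, rfl⟩ := hk
        exact ⟨i - 1, by omega⟩
      rw [theta_mul θ (hN _ hQ) (hN _ hQ') (-(2 ^ (k - 1))) (by rw [hW Q]; push_cast; rfl), hj]
      have h2 := odd_pow 2 j
      rw [Int.cast_neg, h2]
      have : -((2 : ℤ) : ZMod 3) = 1 := by decide
      rw [this, one_mul]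
    · have hQ' : ¬ disc (act Q mW) % 3 = 2 := fun h => hQ (hd.symm.trans h)
      rw [FF_of_not θ hQ, FF_of_not θ hQ']
  N Q := by
    have hd : disc (act Q mS) % 3 = disc Q % 3 :=
      disc_act_mod Q mS (Or.inl (by simp [mS, Matrix.det_fin_two]))
    have hd' : disc (act Q !![1, 0; 1, 1]) % 3 = disc Q % 3 :=
      disc_act_mod Q _ (Or.inl (by simp [Matrix.det_fin_two]))
    have hd'' : disc (act Q (mT * mS)) % 3 = disc Q % 3 :=
      disc_act_mod Q _ (Or.inl (by simp [mT, mS, Matrix.det_fin_two]))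
    by_cases hQ : disc Q % 3 = 2
    · have hQ' := hd.trans hQ
      have hQ'' := hd'.trans hQ
      have hQ3 := hd''.trans hQ
      rw [FF_of θ hQ, FF_of θ hQ', FF_of θ hQ'', FF_of θ hQ3, ← map_sub, ← map_add, ← map_sub]
      have e : (⟨Φ Q, hN _ hQ⟩ - ⟨Φ (act Q mS), hN _ hQ'⟩ +
          ⟨Φ (act Q !![1, 0; 1, 1]), hN _ hQ''⟩ - ⟨Φ (act Q (mT * mS)), hN _ hQ3⟩ : N) = 0 := by
        apply Subtype.ext
        exact hNr Q
      rw [e, map_zero]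
    · have hQ' : ¬ disc (act Q mS) % 3 = 2 := fun h => hQ (hd.symm.trans h)
      have hQ'' : ¬ disc (act Q !![1, 0; 1, 1]) % 3 = 2 := fun h => hQ (hd'.symm.trans h)
      have hQ3 : ¬ disc (act Q (mT * mS)) % 3 = 2 := fun h => hQ (hd''.symm.trans h)
      rw [FF_of_not θ hQ, FF_of_not θ hQ', FF_of_not θ hQ'', FF_of_not θ hQ3]
      simp

theorem list_FF (θ : N →+ ZMod 3) (L : List LO.Mat)
    (hL : ∀ M ∈ L, M.det % 3 = 1 ∨ M.det % 3 = 2) : ∀ Q : LO.Frm, disc Q % 3 = 2 →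
      ∃ h : TL L Φ Q ∈ N, TL L (FF Φ N hN θ) Q = θ ⟨_, h⟩ := by
  have hsum : ∀ (L' : List LO.Mat), (∀ M ∈ L', M ∈ L) → ∀ Q : LO.Frm, disc Q % 3 = 2 →
      ∃ h : TL L' Φ Q ∈ N, TL L' (FF Φ N hN θ) Q = θ ⟨_, h⟩ := by
    intro L'
    induction L' with
    | nil =>
      intro _ Q _
      refine ⟨by simp [TL], ?_⟩
      have e : (⟨TL [] Φ Q, by simp [TL]⟩ : N) = 0 := by
        apply Subtype.ext
        simp [TL]
      rw [e, map_zero]
      simp [TL]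
    | cons M L' ih =>
      intro hsub Q hQ
      obtain ⟨h, e⟩ := ih (fun q' hq' => hsub q' (by simp [hq'])) Q hQ
      have h1 : disc (act Q M) % 3 = 2 := by
        rw [disc_act_mod Q M (hL M (hsub M (by simp)))]; exact hQ
      have e1 : TL (M :: L') Φ Q = Φ (act Q M) + TL L' Φ Q := by
        simp [TL]
      have e2 : TL (M :: L') (FF Φ N hN θ) Q = FF Φ N hN θ (act Q M) + TL L' (FF Φ N hN θ) Q := by
        simp [TL]
      refine ⟨?_, ?_⟩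
      · rw [e1]
        exact N.add_mem (hN _ h1) h
      · rw [e2, e, FF_of θ h1, ← map_add]
        congr 1
  exact hsum L fun _ h => h

theorem list_FF_not (θ : N →+ ZMod 3) (L : List LO.Mat)
    (hL : ∀ M ∈ L, M.det % 3 = 1 ∨ M.det % 3 = 2) (Q : LO.Frm) (hQ : ¬ disc Q % 3 = 2) :
    TL L (FF Φ N hN θ) Q = 0 := by
  unfold TL
  rw [List.sum_eq_zero]
  intro z hz
  rw [List.mem_map] at hz
  obtain ⟨q, hq, rfl⟩ := hz
  exact FF_of_not θ (by rw [disc_act_mod Q q (hL q hq)]; exact hQ)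

theorem hecke_FF2 (L L' : List LO.Mat) (hL : ∀ M ∈ L, M.det % 3 = 1 ∨ M.det % 3 = 2)
    (hL' : ∀ M ∈ L', M.det % 3 = 1 ∨ M.det % 3 = 2) (c : ℂ)
    (hc : ∀ Q : LO.Frm, c * Φ Q = TS L L' Φ Q)
    (hgen : N = AddSubgroup.closure (Set.image Φ {Q | disc Q % 3 = 2}))
    (θ : N →+ ZMod 3) : ∃ θ' : N →+ ZMod 3, TS L L' (FF Φ N hN θ) = FF Φ N hN θ' := by
  -- multiplication by `c`
  have hmul : ∀ v ∈ N, c * v ∈ N := by
    intro v hv
    have hle : N ≤ N.comap (AddMonoidHom.mulLeft c) := by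
      rw [hgen, AddSubgroup.closure_le]
      rintro _ ⟨x, hx, rfl⟩
      change c * Φ x ∈ AddSubgroup.closure _
      rw [← hgen]
      have hx' : disc x % 3 = 2 := hx
      rw [hc x]
      obtain ⟨h, -⟩ := list_FF (hN := hN) θ L hL x hx'
      obtain ⟨h', -⟩ := list_FF (hN := hN) θ L' hL' x hx'
      exact N.sub_mem h h'
    exact hle hv
  let μ : N →+ N := ((AddMonoidHom.mulLeft c).comp N.subtype).codRestrict N
    fun v => hmul _ v.2
  refine ⟨θ.comp μ, funext fun x => ?_⟩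
  by_cases hx : disc x % 3 = 2
  · rw [FF_of _ hx]
    obtain ⟨h, e⟩ := list_FF (hN := hN) θ L hL x hx
    obtain ⟨h', e'⟩ := list_FF (hN := hN) θ L' hL' x hx
    have e1 : μ ⟨Φ x, hN _ hx⟩ = (⟨_, h⟩ - ⟨_, h'⟩ : N) := by
      apply Subtype.ext
      change c * Φ x = TL L Φ x - TL L' Φ x
      rw [hc _]
      rfl
    change TL L (FF Φ N hN θ) x - TL L' (FF Φ N hN θ) x = θ (μ ⟨Φ x, hN _ hx⟩)
    rw [e1, map_sub, e, e']
  · rw [FF_of_not _ hx]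
    change TL L (FF Φ N hN θ) x - TL L' (FF Φ N hN θ) x = 0
    rw [list_FF_not θ L hL x hx, list_FF_not θ L' hL' x hx, sub_zero]

/-- The cocycle of the eigenfunction at the second generator. -/
theorem psi_mL (hmul' : ∀ (M M' : LO.Mat) (Q : LO.Frm), M.det = 1 → M'.det = 1 →
      disc Q % 3 = 2 → psi (M * M') Q = psi M Q + psi M' (act Q M))
    (hT' : ∀ Q : LO.Frm, psi mT Q = 0) (hS' : ∀ Q : LO.Frm, disc Q % 3 = 2 → psi mS Q = g0 Q)
    (hneg' : ∀ (M : LO.Mat) (Q : LO.Frm), disc Q % 3 = 2 → psi (-M) Q = psi M Q)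
    (Q : LO.Frm) (hQ : disc Q % 3 = 2) : psi mL Q = g0 Q - g0 (act Q mL) := by
  have dS : (mS : LO.Mat).det = 1 := by simp [mS, Matrix.det_fin_two]
  have dT' : (mT' : LO.Mat).det = 1 := by simp [mT', Matrix.det_fin_two]
  have dT : (mT : LO.Mat).det = 1 := by simp [mT, Matrix.det_fin_two]
  have mod : ∀ (R : LO.Frm) (M : LO.Mat), M.det = 1 → disc R % 3 = 2 → disc (act R M) % 3 = 2 :=
    fun R M h hR => by rw [disc_act_mod R M (Or.inl (by rw [h]; rfl))]; exact hR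
  have one' : ∀ R : LO.Frm, disc R % 3 = 2 → psi 1 R = 0 := fun R hR => by
    have := hmul' 1 1 R Matrix.det_one Matrix.det_one hR
    rw [mul_one, RedAux.act_one] at this
    simpa using this
  have hTi : ∀ R : LO.Frm, disc R % 3 = 2 → psi mT' R = 0 := fun R hR => by
    have h := hmul' mT' mT R dT' dT hR
    have e : (mT' * mT : LO.Mat) = 1 := by
      ext i j
      fin_cases i <;> fin_cases j <;> simp [mT, mT', Matrix.mul_apply, Fin.sum_univ_two]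
    rw [e, one' R hR, hT', add_zero] at h
    exact h.symm
  have eL : mL = (mS * (mT' * mT')) * (-mS) := by
    ext i j
    fin_cases i <;> fin_cases j <;>
      simp [mL, mS, mT', Matrix.mul_apply, Fin.sum_univ_two]
  have dTT : (mT' * mT' : LO.Mat).det = 1 := by rw [Matrix.det_mul, dT', one_mul]
  have dA : (mS * (mT' * mT') : LO.Mat).det = 1 := by rw [Matrix.det_mul, dS, dTT, one_mul]
  have dnS : (-mS : LO.Mat).det = 1 := by simp [mS, Matrix.det_fin_two]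
  have hR := mod Q _ dA hQ
  have hQS := mod Q _ dS hQ
  have h1 := hmul' (mS * (mT' * mT')) (-mS) Q dA dnS hQ
  have h2 := hmul' mS (mT' * mT') Q dS dTT hQ
  have h3 := hmul' mT' mT' (act Q mS) dT' dT' hQS
  have h4 := hmul' mS mS (act Q (mS * (mT' * mT'))) dS dS hR
  have eSS : (mS * mS : LO.Mat) = -1 := by
    ext i j
    fin_cases i <;> fin_cases j <;> simp [mS, Matrix.mul_apply, Fin.sum_univ_two]
  have hRS := mod _ mS dS hR
  have act_neg' : ∀ (R : LO.Frm) (M : LO.Mat), act R (-M) = act R M := fun R M => by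
    funext i
    fin_cases i <;> simp [act]
  rw [hTi _ hQS, hTi _ (mod _ _ dT' hQS), add_zero] at h3
  rw [h3, add_zero] at h2
  rw [h2, hneg' _ _ hR, hS' Q hQ, hS' _ hR] at h1
  rw [eSS, hneg' _ _ hR, one' _ hR, hS' _ hR, hS' _ hRS] at h4
  have h5 : act (act Q (mS * (mT' * mT'))) mS = act Q mL := by
    rw [eL, RedAux.act_mul Q (mS * (mT' * mT')) (-mS), act_neg']
  rw [h5] at h4
  rw [eL, h1, ← eL]
  linear_combination -h4

/-- Comparison of two cocycles of the group of level two. -/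
theorem coc_cmp2 (hGen : StGen2) {Ψ : LO.Mat → LO.Frm → ℂ} {Vf : LO.Frm → ℂ} (θ : N →+ ZMod 3)
    (hmul : ∀ (M M' : LO.Mat) (Q : LO.Frm), InG M → InG M' →
      Ψ (M * M') Q = Ψ M Q + Ψ M' (act Q M))
    (hT : ∀ Q : LO.Frm, Ψ mT Q = 0)
    (hneg : ∀ (M : LO.Mat) (Q : LO.Frm), Ψ (-M) Q = Ψ M Q)
    (hL : ∀ Q : LO.Frm, Ψ mL Q = Vf Q - Vf (act Q mL))
    (hmul' : ∀ (M M' : LO.Mat) (Q : LO.Frm), M.det = 1 → M'.det = 1 → disc Q % 3 = 2 →
      psi (M * M') Q = psi M Q + psi M' (act Q M))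
    (hT' : ∀ Q : LO.Frm, psi mT Q = 0)
    (hS' : ∀ Q : LO.Frm, disc Q % 3 = 2 → psi mS Q = g0 Q)
    (hneg' : ∀ (M : LO.Mat) (Q : LO.Frm), disc Q % 3 = 2 → psi (-M) Q = psi M Q)
    (hV : ∀ Q : LO.Frm, disc Q % 3 = 2 → ∃ h : Vf Q ∈ N, θ ⟨Vf Q, h⟩ = g0 Q) :
    ∀ (M : LO.Mat) (Q : LO.Frm), InG M → disc Q % 3 = 2 →
      ∃ h : Ψ M Q ∈ N, θ ⟨Ψ M Q, h⟩ = psi M Q := by
  have hG1 : InG 1 := ⟨Matrix.det_one, by simp⟩
  have hGT : InG mT := ⟨by simp [mT, Matrix.det_fin_two], by simp [mT]⟩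
  have hGT' : InG mT' := ⟨by simp [mT', Matrix.det_fin_two], by simp [mT']⟩
  have hGL : InG mL := ⟨by simp [mL, Matrix.det_fin_two], by simp [mL]⟩
  have hGL' : InG !![1, 0; -2, 1] := ⟨by simp [Matrix.det_fin_two], by simp⟩
  have hone : ∀ Q, Ψ 1 Q = 0 := fun Q => by
    have := hmul 1 1 Q hG1 hG1
    rw [mul_one, RedAux.act_one] at this
    simpa using this
  have hone' : ∀ Q, disc Q % 3 = 2 → psi 1 Q = 0 := fun Q hQ => by
    have := hmul' 1 1 Q Matrix.det_one Matrix.det_one hQ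
    rw [mul_one, RedAux.act_one] at this
    simpa using this
  have mod : ∀ (R : LO.Frm) (M : LO.Mat), M.det = 1 → disc R % 3 = 2 → disc (act R M) % 3 = 2 :=
    fun R M h hR => by rw [disc_act_mod R M (Or.inl (by rw [h]; rfl))]; exact hR
  -- one step
  have step : ∀ (M X : LO.Mat), InG M → InG X →
      (∀ Q, disc Q % 3 = 2 → ∃ h : Ψ M Q ∈ N, θ ⟨Ψ M Q, h⟩ = psi M Q) →
      (∀ Q, disc Q % 3 = 2 → ∃ h : Ψ X Q ∈ N, θ ⟨Ψ X Q, h⟩ = psi X Q) →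
      ∀ Q, disc Q % 3 = 2 → ∃ h : Ψ (M * X) Q ∈ N, θ ⟨Ψ (M * X) Q, h⟩ = psi (M * X) Q := by
    intro M X hM hX ihM ihX Q hQ
    obtain ⟨h1, e1⟩ := ihM Q hQ
    obtain ⟨h2, e2⟩ := ihX (act Q M) (mod Q M hM.1 hQ)
    have e := hmul M X Q hM hX
    refine ⟨by rw [e]; exact N.add_mem h1 h2, ?_⟩
    have e' : (⟨Ψ (M * X) Q, by rw [e]; exact N.add_mem h1 h2⟩ : N) =
        ⟨_, h1⟩ + ⟨_, h2⟩ := Subtype.ext e
    rw [e', map_add, e1, e2]
    exact (hmul' M X Q hM.1 hX.1 hQ).symm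
  -- a generator and its inverse
  have inv : ∀ (X Y : LO.Mat), InG X → InG Y → Y * X = 1 →
      (∀ Q, disc Q % 3 = 2 → ∃ h : Ψ X Q ∈ N, θ ⟨Ψ X Q, h⟩ = psi X Q) →
      ∀ Q, disc Q % 3 = 2 → ∃ h : Ψ Y Q ∈ N, θ ⟨Ψ Y Q, h⟩ = psi Y Q := by
    intro X Y hX hY hYX ihX Q hQ
    obtain ⟨h1, e1⟩ := ihX (act Q Y) (mod Q Y hY.1 hQ)
    have e : Ψ Y Q = -Ψ X (act Q Y) := by
      have := hmul Y X Q hY hX
      rw [hYX, hone] at this
      exact eq_neg_of_add_eq_zero_left this.symm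
    have e3 : psi Y Q = -psi X (act Q Y) := by
      have := hmul' Y X Q hY.1 hX.1 hQ
      rw [hYX, hone' Q hQ] at this
      exact eq_neg_of_add_eq_zero_left this.symm
    refine ⟨by rw [e]; exact N.neg_mem h1, ?_⟩
    have e' : (⟨Ψ Y Q, by rw [e]; exact N.neg_mem h1⟩ : N) = -⟨_, h1⟩ := Subtype.ext e
    rw [e', map_neg, e1, e3]
  have gT : ∀ Q, disc Q % 3 = 2 → ∃ h : Ψ mT Q ∈ N, θ ⟨Ψ mT Q, h⟩ = psi mT Q := by
    intro Q _
    have e := hT Q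
    refine ⟨by rw [e]; exact N.zero_mem, ?_⟩
    have e' : (⟨Ψ mT Q, by rw [e]; exact N.zero_mem⟩ : N) = 0 := Subtype.ext e
    rw [e', map_zero]
    exact (hT' Q).symm
  have gL : ∀ Q, disc Q % 3 = 2 → ∃ h : Ψ mL Q ∈ N, θ ⟨Ψ mL Q, h⟩ = psi mL Q := by
    intro Q hQ
    obtain ⟨h1, e1⟩ := hV Q hQ
    obtain ⟨h2, e2⟩ := hV (act Q mL) (mod Q mL hGL.1 hQ)
    have e := hL Q
    refine ⟨by rw [e]; exact N.sub_mem h1 h2, ?_⟩
    have e' : (⟨Ψ mL Q, by rw [e]; exact N.sub_mem h1 h2⟩ : N) = ⟨_, h1⟩ - ⟨_, h2⟩ :=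
      Subtype.ext e
    rw [e', map_sub, e1, e2]
    exact (psi_mL hmul' hT' hS' hneg' Q hQ).symm
  have gT' := inv mT mT' hGT hGT' (by
    ext i j
    fin_cases i <;> fin_cases j <;> simp [mT, mT', Matrix.mul_apply, Fin.sum_univ_two]) gT
  have gL' := inv mL !![1, 0; -2, 1] hGL hGL' (by
    ext i j
    fin_cases i <;> fin_cases j <;> simp [mL, Matrix.mul_apply, Fin.sum_univ_two]) gL
  intro M Q hM
  refine hGen (fun M => ∀ Q, disc Q % 3 = 2 → ∃ h : Ψ M Q ∈ N, θ ⟨Ψ M Q, h⟩ = psi M Q)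
    ?_ ?_ ?_ ?_ ?_ ?_ M hM Q
  · intro Q hQ
    have e := hone Q
    refine ⟨by rw [e]; exact N.zero_mem, ?_⟩
    have e' : (⟨Ψ 1 Q, by rw [e]; exact N.zero_mem⟩ : N) = 0 := Subtype.ext e
    rw [e', map_zero]
    exact (hone' Q hQ).symm
  · intro M _ ih Q hQ
    obtain ⟨h, e⟩ := ih Q hQ
    have e1 := hneg M Q
    refine ⟨by rw [e1]; exact h, ?_⟩
    have e' : (⟨Ψ (-M) Q, by rw [e1]; exact h⟩ : N) = ⟨_, h⟩ := Subtype.ext e1
    rw [e', e]
    exact (hneg' M Q hQ).symm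
  · exact fun M hM ih => step M _ hM hGT ih gT
  · exact fun M hM ih => step M _ hM hGT' ih gT'
  · exact fun M hM ih => step M _ hM hGL ih gL
  · exact fun M hM ih => step M _ hM hGL' ih gL'

end RedAux2

open RedAux2 in
/-- (Red) reduction modulo `3`. -/
theorem stRed2 (hKL : StKL2) (hPsiC : StPsiC2) (hNZ : StNZ2) (hFin : StFin2) (hGen : StGen2)
    (hCocyc : StCocyc) : StRed2 := by
  intro k a F hk hk3 hA
  have hk1 : 1 ≤ k := by omega
  obtain ⟨pmul, pT, pneg, pL, pW, pN, pmir, psc, pH, -⟩ := hPsiC k a F hk1 hA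
  obtain ⟨cmul, cT, cS, cneg, -⟩ := hCocyc
  obtain ⟨hfg, m, hm, hper⟩ := hFin k a F hk1 hA
  have hN : ∀ Q, disc Q % 3 = 2 → Vo k a Q ∈ NN2 k a :=
    fun Q hQ => AddSubgroup.subset_closure ⟨Q, hQ, rfl⟩
  have hgen : NN2 k a = AddSubgroup.closure (Vo k a '' {Q | disc Q % 3 = 2}) := rfl
  obtain ⟨Q₀, hQ₀, hQ₀'⟩ := hNZ k a F hk3 hA
  obtain ⟨θ₀, hθ₀⟩ := exists_theta hfg (hN _ hQ₀) hQ₀'
  have key : g0 ∈ GG (Vo k a) (NN2 k a) hN := by
    refine hKL m (GG (Vo k a) (NN2 k a) hN) ?_ ?_ ?_ ?_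
    · rintro F ⟨θ, rfl⟩
      exact pf_FF2 hk hk1 hm pmir pW pN psc hper θ
    · rintro F ⟨θ, rfl⟩
      exact hecke_FF2 L5p L5m (by decide +kernel) (by decide +kernel) _ (fun Q => (pH Q).1)
        hgen θ
    · rintro F ⟨θ, rfl⟩
      exact hecke_FF2 L7p L7m (by decide +kernel) (by decide +kernel) _ (fun Q => (pH Q).2)
        hgen θ
    · intro hbot
      apply hθ₀
      have hz : FF (Vo k a) (NN2 k a) hN θ₀ = 0 := by
        have : FF (Vo k a) (NN2 k a) hN θ₀ ∈ GG (Vo k a) (NN2 k a) hN := ⟨θ₀, rfl⟩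
        rw [hbot] at this
        simpa using this
      ext ⟨v, hv⟩
      change θ₀ ⟨v, hv⟩ = 0
      induction hv using AddSubgroup.closure_induction with
      | mem v hv' =>
        obtain ⟨x, hx, rfl⟩ := hv'
        have := congrFun hz x
        rw [FF_of θ₀ hx] at this
        exact this
      | zero => exact map_zero θ₀
      | add u v hu hv iu iv =>
        have : (⟨u + v, (NN2 k a).add_mem hu hv⟩ : NN2 k a) = ⟨u, hu⟩ + ⟨v, hv⟩ := rfl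
        rw [this, map_add, iu, iv, add_zero]
      | neg u hu iu =>
        have : (⟨-u, (NN2 k a).neg_mem hu⟩ : NN2 k a) = -⟨u, hu⟩ := rfl
        rw [this, map_neg, iu, neg_zero]
  obtain ⟨θ, hθ⟩ := key
  refine ⟨NN2 k a, θ, coc_cmp2 hGen θ pmul pT pneg pL cmul cT cS cneg fun Q hQ =>
    ⟨hN Q hQ, ?_⟩⟩
  rw [hθ, FF_of θ hQ]

end

end LT

end Pool.Agent.Lib.MP_7c5fb9_nt
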