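import Pool.Agent.Lib.MP_7c5fb9_nt.LT.Basic2
import Pool.Agent.Lib.MP_7c5fb9_nt.LO.Rot

set_option autoImplicit false

/-!
# Level two (MP_7c5fb9_nt, project LT): symbols and rotations
-/

namespace Pool.Agent.Lib.MP_7c5fb9_nt

namespace LT

open LO

open KR in
/-- Symbols and rotations, for functions satisfying the relations of periods. -/
theorem rot_two (hVOne : StVOne2) {m d : ℕ} {v : Mat → ZMod 3} (hm : MF m v) (hw : WR2 v)
    (hF : LO.Fil (d + 1) v) (l : List (Fin 3)) (hl : l.length = d + 1) :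
    sym (Rt mr v) l = -((-1) ^ l.count 1 * sym v (l.map (Equiv.swap 1 2))) ∧
      sym (Rt mE v) l = -((-1) ^ l.count 0 * sym v (l.map (Equiv.swap 1 2))) ∧
      sym (Rt mT v) l = (-1) ^ (l.count 1 + l.count 2) * sym v (l.map ![2, 0, 1]) := by
  have hA := (lev_iff m v).mp hm
  have hF' := (fil_iff m (d + 1) v hA).mp hF
  match l, hl with
  | i :: t, hl =>
    have ht : t.length = d := by simpa using hl
    have gen : ∀ (h : Mat) (σ : Fin 3 → Fin 3) (e : Fin 3 → ℤ), ¬ (3 : ℤ) ∣ h.det →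
        (∀ a, ∃ N : Mt, h.adjugate * qg a * h =
          h.det • ((1 : Mt) + (3 : ℤ) • e a • J (σ a)) + (9 : ℤ) • N) →
        sym (Rt h v) (i :: t) = (t.map fun a => (e a : ZMod 3)).prod *
          ac i (Rt h (Wd (t.map σ) v)) := by
      intro h σ e hh hk
      rw [KR.sym_cons, Rt_eq, Wd_R' hh σ e hk t v (by rwa [ht])]
      obtain ⟨c, hc⟩ : ∃ c, c = (t.map fun a => (e a : ZMod 3)).prod := ⟨_, rfl⟩
      obtain ⟨g, hg⟩ : ∃ g, g = R h (Wd (t.map σ) v) := ⟨_, rfl⟩
      rw [← hc, ← hg, Rt_eq, ← hg]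
      clear hc hg
      unfold ac
      simp only [Pi.smul_apply, smul_eq_mul]
      fin_cases i <;> simp <;> ring
    have hone : ∀ σ : Fin 3 → Fin 3, MF m (Wd (t.map σ) v) ∧ WR2 (Wd (t.map σ) v) ∧
        LO.Fil 1 (Wd (t.map σ) v) := by
      intro σ
      rw [← KR.foldr_eq]
      have h1 : LO.Fil 1 ((t.map σ).foldr Xd v) :=
        Fil_foldr _ (by rw [List.length_map, ht, add_comm]; exact hF)
      exact ⟨hm.foldr _, hw.foldr _, h1⟩
    have fin : ∀ {P : Fin 3 → Prop}, P 0 → P 1 → P 2 → ∀ a, P a := by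
      intro P h0 h1 h2 a
      fin_cases a
      · exact h0
      · exact h1
      · exact h2
    obtain ⟨i0, i1, i2⟩ : (Equiv.swap (1 : Fin 3) 2) 0 = 0 ∧ (Equiv.swap (1 : Fin 3) 2) 1 = 2 ∧
      (Equiv.swap (1 : Fin 3) 2) 2 = 1 := by decide
    refine ⟨?_, ?_, ?_⟩
    · rw [gen mr (Equiv.swap 1 2) ![1, -1, 1] (by decide) (fin ⟨0, by decide +kernel⟩
        ⟨0, by decide +kernel⟩ ⟨0, by decide +kernel⟩), cnt1, List.map_cons, KR.sym_cons,
        List.count_cons, pow_add]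
      obtain ⟨h1, h2, h3⟩ := hone (Equiv.swap 1 2)
      obtain ⟨-, -, -, -, ⟨r0, r1, r2⟩, -⟩ := hVOne m _ h1 h2 h3
      revert i
      refine fin (fun _ => ?_) (fun _ => ?_) (fun _ => ?_)
      · rw [r0, i0]
        simp
      · rw [r1, i1]
        simp
      · rw [r2, i2]
        simp
    · rw [gen mE (Equiv.swap 1 2) ![-1, 1, 1] (by decide) (fin ⟨0, by decide +kernel⟩
        ⟨0, by decide +kernel⟩ ⟨0, by decide +kernel⟩), cnt0, List.map_cons, KR.sym_cons,
        List.count_cons, pow_add]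
      obtain ⟨h1, h2, h3⟩ := hone (Equiv.swap 1 2)
      obtain ⟨-, -, -, -, -, ⟨r0, r1, r2⟩, -⟩ := hVOne m _ h1 h2 h3
      revert i
      refine fin (fun _ => ?_) (fun _ => ?_) (fun _ => ?_)
      · rw [r0, i0]
        simp
      · rw [r1, i1]
        simp
      · rw [r2, i2]
        simp
    · rw [gen mT ![2, 0, 1] ![1, -1, -1] (by decide) (fin ⟨!![0, 1; 0, 0], by decide +kernel⟩
        ⟨!![0, 1; 0, 0], by decide +kernel⟩ ⟨!![1, 1; 0, -1], by decide +kernel⟩), cnt12,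
        List.map_cons, KR.sym_cons, List.count_cons, List.count_cons]
      obtain ⟨h1, h2, h3⟩ := hone ![2, 0, 1]
      obtain ⟨-, -, -, -, -, -, ⟨r0, r1, r2⟩⟩ := hVOne m _ h1 h2 h3
      revert i
      refine fin (fun _ => ?_) (fun _ => ?_) (fun _ => ?_)
      · rw [r0]
        simp
      · rw [r1]
        simp [pow_add]
      · rw [r2]
        simp [pow_add]

/-- (Rot) -/
theorem stRot2 (hVOne : StVOne2) : StRot2 := fun _ _ _ hv hF l hl =>
  rot_two hVOne hv.mf hv.wr hF l hl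

end LT

end Pool.Agent.Lib.MP_7c5fb9_nt
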