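import Pool.Agent.Lib.MP_7c5fb9_nt.LT.Basic2
import Pool.Agent.Lib.MP_7c5fb9_nt.LO.TorSym

set_option autoImplicit false

/-!
# Level two (MP_7c5fb9_nt, project LT): symbols of functions of forms
-/

namespace Pool.Agent.Lib.MP_7c5fb9_nt

namespace LT

open LO

open LO.TorSymAux (eq_zero_of_neg count_swap perm_std length_eq foldr_rep iter_zero iter_of_zero
  mf_zero) in
/-- (TorSym) -/
theorem stTorSym2 (hSym : StSym2) (hRot : StRot2) : StTorSym2 := by
  intro m d v hK hT hF hnF
  obtain ⟨hperm, htr, hnd⟩ := hSym m d v hK hF
  have hrot := hRot m d v hK hF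
  have hr : ∀ l : List (Fin 3), l.length = d + 1 →
      sym v l = -((-1) ^ l.count 1 * sym v (l.map (Equiv.swap 1 2))) := by
    intro l hl
    have := (hrot l hl).1
    rwa [hT.r] at this
  have hE : ∀ l : List (Fin 3), l.length = d + 1 →
      sym v l = (-1) ^ l.count 0 * sym v (l.map (Equiv.swap 1 2)) := by
    intro l hl
    have := (hrot l hl).2.1
    rw [hT.E, sym_neg] at this
    exact neg_injective this
  -- lists containing zero
  have h0 : ∀ l : List (Fin 3), l.length = d + 1 → l.count 0 ≠ 0 → sym v l = 0 := by
    intro l hl h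
    have hmem : (0 : Fin 3) ∈ l := by
      rw [← List.count_pos_iff]
      omega
    have hp : l.Perm (l.erase 0 ++ [0]) :=
      (List.perm_cons_erase hmem).trans (List.perm_append_singleton _ _).symm
    rw [hperm l _ hl hp]
    have hlen := hp.length_eq
    rcases hle : l.erase 0 with _ | ⟨i, l'⟩
    · rw [hle] at hlen
      have hlen' : ([] ++ [(0 : Fin 3)]).length = d + 1 := by rw [← hlen, hl]
      have h1 := hr _ hlen'
      simp only [List.nil_append, List.map_cons, List.map_nil] at h1 ⊢
      rw [Equiv.swap_apply_of_ne_of_ne (by decide) (by decide)] at h1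
      simp only [List.count_singleton] at h1
      norm_num at h1
      exact eq_zero_of_neg h1
    · rw [List.cons_append, sym, List.foldr_append]
      show ac i (l'.foldr Xd (Xd 0 v)) = 0
      rw [hT.g, foldr_zero, ac_zero]
  -- parity
  have hpar : ∀ l : List (Fin 3), l.length = d + 1 → l.count 0 = 0 → l.count 1 % 2 = 0 →
      sym v l = 0 := by
    intro l hl h1 h2
    have e1 := hr l hl
    have e2 := hE l hl
    rw [h1, pow_zero, one_mul] at e2
    rw [← e2, (Nat.even_iff.2 h2).neg_one_pow, one_mul] at e1
    exact eq_zero_of_neg e1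
  have hpar2 : ∀ l : List (Fin 3), l.length = d + 1 → l.count 0 = 0 → l.count 2 % 2 = 0 →
      sym v l = 0 := by
    intro l hl h1 h2
    have e2 := hE l hl
    rw [h1, pow_zero, one_mul] at e2
    obtain ⟨c1, c2, c0⟩ := count_swap l
    rw [e2]
    exact hpar _ (by rw [List.length_map, hl]) (by rw [c0, h1]) (by rw [c1, h2])
  -- standard lists
  obtain ⟨a, ha⟩ : ∃ a : ℕ → ZMod 3, ∀ j, a j =
      sym v (List.replicate (d + 1 - j) 1 ++ List.replicate j 2) := ⟨_, fun _ => rfl⟩
  have hcount0 : ∀ i j : ℕ,
      (List.replicate i (1 : Fin 3) ++ List.replicate j 2).count 0 = 0 := by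
    intro i j
    simp [List.count_append, List.count_replicate]
  have hcount1 : ∀ i j : ℕ,
      (List.replicate i (1 : Fin 3) ++ List.replicate j 2).count 1 = i := by
    intro i j
    simp [List.count_append, List.count_replicate]
  have hcount2 : ∀ i j : ℕ,
      (List.replicate i (1 : Fin 3) ++ List.replicate j 2).count 2 = j := by
    intro i j
    simp [List.count_append, List.count_replicate]
  have hlen : ∀ j, j ≤ d + 1 →
      (List.replicate (d + 1 - j) (1 : Fin 3) ++ List.replicate j 2).length = d + 1 := by
    intro j hj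
    simp
    omega
  have hstd : ∀ l : List (Fin 3), l.length = d + 1 → l.count 0 = 0 → sym v l = a (l.count 2) := by
    intro l hl h
    have h1 := length_eq l
    rw [ha, hperm l _ hl (perm_std h)]
    congr 3
    omega
  have hstep : ∀ j, j + 2 ≤ d + 1 → a (j + 2) = -a j := by
    intro j hj
    rcases Nat.lt_or_ge d 2 with hd2 | hd2
    · have hd1 : d = 1 := by omega
      have hj0 : j = 0 := by omega
      subst hd1 hj0
      have e1 : a 2 = 0 := by
        rw [ha]
        refine hpar2 _ (hlen 2 (by omega)) (hcount0 _ _) ?_
        rw [hcount2]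
      have e2 : a 0 = 0 := by
        rw [ha]
        refine hpar _ (hlen 0 (by omega)) (hcount0 _ _) ?_
        rw [hcount1]
      rw [zero_add, e1, e2, neg_zero]
    have h1 := htr (List.replicate (d - 1 - j) 1 ++ List.replicate j 2)
      (by
        intro h
        have := congrArg List.length h
        simp at this
        omega) (by simp; omega)
    rw [Fin.sum_univ_three] at h1
    have hl : ∀ i : Fin 3, (i :: i :: (List.replicate (d - 1 - j) 1 ++
        List.replicate j 2)).length = d + 1 := by
      intro i
      simp
      omega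
    rw [h0 _ (hl 0) (by simp [List.count_cons]), zero_add] at h1
    rw [hstd _ (hl 1) (by simp [List.count_cons, List.count_append, List.count_replicate]),
      hstd _ (hl 2) (by simp [List.count_cons, List.count_append, List.count_replicate])] at h1
    have e1 : (1 :: 1 :: (List.replicate (d - 1 - j) (1 : Fin 3) ++
        List.replicate j 2)).count 2 = j := by
      simp [List.count_cons, List.count_append, List.count_replicate]
    have e2 : (2 :: 2 :: (List.replicate (d - 1 - j) (1 : Fin 3) ++
        List.replicate j 2)).count 2 = j + 2 := by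
      simp [List.count_cons, List.count_append, List.count_replicate]
    rw [e1, e2] at h1
    linear_combination h1
  have hodd : ∀ i, 2 * i + 1 ≤ d + 1 → a (2 * i + 1) = (-1) ^ i * a 1 := by
    intro i
    induction i with
    | zero => intro _; simp
    | succ i ih =>
      intro hi
      rw [show 2 * (i + 1) + 1 = 2 * i + 1 + 2 by ring, hstep _ (by omega), ih (by omega),
        pow_succ]
      ring
  have hform : ∀ l : List (Fin 3), l.length = d + 1 → sym v l =
      if l.count 0 = 0 ∧ l.count 2 % 2 = 1 then (-1) ^ (l.count 2 / 2) * a 1 else 0 := by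
    intro l hl
    split_ifs with h
    · rw [hstd l hl h.1]
      have h1 := length_eq l
      have h2 : l.count 2 = 2 * (l.count 2 / 2) + 1 := by omega
      conv_lhs => rw [h2]
      rw [hodd _ (by omega)]
    · by_cases h1 : l.count 0 = 0
      · exact hpar2 l hl h1 (by
          have : ¬ l.count 2 % 2 = 1 := fun h2 => h ⟨h1, h2⟩
          omega)
      · exact h0 l hl h1
  have hB : a 1 ≠ 0 := by
    intro hB
    refine hnF (hnd fun l hl => ?_)
    rw [hform l hl, hB]
    simp
  -- `d` is odd
  have hd1 : d % 2 = 1 := by
    by_contra hd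
    refine hB ?_
    rw [ha]
    refine hpar _ (hlen 1 (by omega)) (hcount0 _ _) ?_
    rw [hcount1]
    omega
  have hd4 : d % 4 = 1 := by
    -- the symmetry
    have h1 : a d = a 1 := by
      rw [ha d, hE _ (hlen d (by omega)), hcount0, pow_zero, one_mul]
      obtain ⟨c1, c2, c0⟩ := count_swap (List.replicate (d + 1 - d) 1 ++ List.replicate d 2)
      rw [hstd _ (by rw [List.length_map]; exact hlen d (by omega)) (by rw [c0, hcount0]), c2,
        hcount1]
      congr 1
      omega
    have h2 : d = 2 * (d / 2) + 1 := by omega
    rw [h2, hodd _ (by omega)] at h1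
    by_contra hd
    have h3 : (-1 : ZMod 3) ^ (d / 2) = -1 := by
      refine Odd.neg_one_pow ?_
      rw [Nat.odd_iff]
      omega
    rw [h3, neg_one_mul] at h1
    exact hB (eq_zero_of_neg h1.symm)
  refine ⟨hd4, ?_, a 1, hB, hform⟩
  -- the bound for the degree
  rcases Nat.eq_zero_or_pos m with rfl | hm
  · refine absurd ?_ hnF
    rw [mf_zero hK.mf]
    exact Fil_zero d
  · by_contra hcon
    rw [not_lt] at hcon
    have h1 : sym v (2 :: List.replicate d 1) = a 1 := by
      rw [hstd _ (by simp) (by simp [List.count_cons, List.count_replicate])]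
      congr 1
      simp [List.count_cons, List.count_replicate]
    rw [sym, foldr_rep] at h1
    refine hB ?_
    rw [← h1, show d = (d - 3 ^ (m - 1)) + 3 ^ (m - 1) by omega, Function.iterate_add_apply,
      iter_zero hm hK.mf, iter_of_zero, ac_zero]

end LT

end Pool.Agent.Lib.MP_7c5fb9_nt
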