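import Pool.Agent.Lib.MP_7c5fb9_nt.LT.Basic2
import Pool.Agent.Lib.MP_7c5fb9_nt.LO.Vf

set_option autoImplicit false

/-!
# Level two (MP_7c5fb9_nt, project LT): functions of forms as functions of matrices
-/

namespace Pool.Agent.Lib.MP_7c5fb9_nt

namespace LT

open LO

namespace Vf2m

open LO.Vfm (q0 vf_eq adj_adj det_adj vf_left vf_right sq_one cast_three_pow hensel adj_mS adj_mE
  q_r q_g q_E det_gm0 tm)

theorem PF2.congr {m : ℕ} {u : Frm → ZMod 3} (h : PF2 m u) {Q Q' : Frm}
    (hQ : ∀ i, (3 : ℤ) ^ m ∣ Q i - Q' i) : u Q = u Q' := by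
  choose c hc using hQ
  have : Q = fun i => Q' i + 3 ^ m * c i := by
    funext i
    linarith [hc i]
  rw [this, h.per]

variable {m : ℕ} {u : Frm → ZMod 3}

theorem mf (hm : 1 ≤ m) (h : PF2 m u) : MF m (vf u) := by
  refine ⟨fun M N => ?_, fun c M hc => ?_, fun M hM => ?_⟩
  · rw [vf_eq, vf_eq]
    have h1 : ((M + (3 : ℤ) ^ m • N).det : ZMod 3) = (M.det : ZMod 3) := by
      have h3 := cast_three_pow hm
      rw [Matrix.det_fin_two, Matrix.det_fin_two]
      simp only [Matrix.add_apply, Matrix.smul_apply, smul_eq_mul]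
      push_cast at h3 ⊢
      rw [h3]
      ring
    have h2 : u (act q0 (M + (3 : ℤ) ^ m • N).adjugate) = u (act q0 M.adjugate) := by
      apply PF2.congr h
      intro i
      apply act_congr (fun i => by rw [sub_self]; exact dvd_zero _)
      have h4 : (M + (3 : ℤ) ^ m • N).adjugate = M.adjugate + (3 : ℤ) ^ m • N.adjugate := by
        rw [Matrix.adjugate_fin_two, Matrix.adjugate_fin_two, Matrix.adjugate_fin_two]
        ext i j
        fin_cases i <;> fin_cases j <;>
          simp only [Matrix.add_apply, Matrix.smul_apply, smul_eq_mul, Matrix.of_apply,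
            Matrix.cons_val', Matrix.cons_val_zero, Matrix.cons_val_one,
            Matrix.cons_val_fin_one, Fin.zero_eta, Fin.mk_one] <;> ring
      intro i j
      rw [h4, Matrix.add_apply, Matrix.smul_apply, smul_eq_mul, add_sub_cancel_left]
      exact dvd_mul_right _ _
    rw [h1, h2]
  · have h1 := sq_one hc
    have h2 : ¬ (3 : ℤ) ∣ c ^ 2 := by
      intro h
      exact hc (Int.prime_three.dvd_of_dvd_pow h)
    have h3 : (c • M).adjugate = c • M.adjugate := by
      rw [Matrix.adjugate_fin_two, Matrix.adjugate_fin_two]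
      ext i j
      fin_cases i <;> fin_cases j <;> simp
    have h4 : (c • M).det = c ^ 2 * M.det := by
      rw [Matrix.det_fin_two, Matrix.det_fin_two]
      simp only [Matrix.smul_apply, smul_eq_mul]
      ring
    rw [vf_eq, vf_eq, h3, h4, act_smul, h.scal _ _ h2, Int.cast_mul, Int.cast_pow]
    linear_combination ((c : ZMod 3) * c + 1) * (M.det : ZMod 3) * u (act q0 M.adjugate) * h1
  · rw [vf_eq, (ZMod.intCast_zmod_eq_zero_iff_dvd M.det 3).2 hM, zero_mul]

theorem adj_mW : mW.adjugate = -mW := by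
  rw [Matrix.adjugate_fin_two]
  simp [mW]

theorem det_mW : mW.det = 2 := by
  rw [Matrix.det_fin_two]
  simp [mW]

theorem adj_a : (!![1, 0; -1, 1] : Mat).adjugate = !![1, 0; 1, 1] := by
  rw [Matrix.adjugate_fin_two]
  simp

theorem adj_b : (mS * mT').adjugate = -(mT * mS) := by
  rw [Matrix.adjugate_fin_two]
  simp [mS, mT', mT]

theorem det_a : (!![1, 0; -1, 1] : Mat).det = 1 := by
  rw [Matrix.det_fin_two]
  simp

theorem det_b : (mS * mT').det = 1 := by
  rw [Matrix.det_mul, det_mS, det_mT', mul_one]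

theorem wr (h : PF2 m u) : WR2 (vf u) := by
  refine ⟨fun M => ?_, fun M => ?_, fun M => ?_⟩
  · rw [vf_left, adj_mW, act_neg, h.W, det_mW, vf_eq]
    have e : ((2 : ℤ) : ZMod 3) = -1 := by decide
    rw [e]
    ring
  · rw [vf_left, adj_mE, act_neg, ← mir_eq, h.mir, det_mE, vf_eq]
    push_cast
    ring
  · have h1 := h.N (act q0 M.adjugate)
    rw [vf_left, vf_left, vf_left, adj_mS, adj_a, adj_b, act_neg, act_neg, det_mS, det_a, det_b,
      vf_eq, Int.cast_one, one_mul, one_mul, one_mul]
    linear_combination (M.det : ZMod 3) * h1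

theorem tor (h : PF2 m u) : Tor (vf u) := by
  refine ⟨?_, ?_, ?_⟩
  · funext M
    rw [Rt_apply, vf_right, q_r, smul_act, h.scal _ _ (by norm_num), det_mr, vf_eq]
    have e : ((2 : ℤ) : ZMod 3) * ((2 : ℤ) : ZMod 3) = 1 := by decide
    linear_combination (M.det : ZMod 3) * u (act q0 M.adjugate) * e
  · funext M
    rw [Xd_eq, Pi.sub_apply, Rt_apply, vf_right, q_g, smul_act, h.scal _ _ (by norm_num), det_gm0,
      vf_eq, Pi.zero_apply]
    have e : ((10 : ℤ) : ZMod 3) * ((10 : ℤ) : ZMod 3) = 1 := by decide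
    linear_combination (M.det : ZMod 3) * u (act q0 M.adjugate) * e
  · funext M
    rw [Rt_apply, vf_right, q_E, det_mE, Pi.neg_apply, vf_eq]
    push_cast
    ring

theorem inj (hm : 1 ≤ m) (h : PF2 m u) (h0 : vf u = 0) : u = 0 := by
  funext Q
  by_cases hD : disc Q % 3 = 2
  · obtain ⟨w, hw, hw3⟩ := hensel hD m hm
    have ha : ¬ (3 : ℤ) ∣ Q 0 := by
      rintro ⟨a, ha⟩
      have h1 : disc Q = Q 1 * Q 1 + 3 * (-(4 * a * Q 2)) := by
        rw [disc, ha]
        ring
      rw [h1, Int.add_mul_emod_self_left, Int.mul_emod] at hD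
      have h2 : Q 1 % 3 = 0 ∨ Q 1 % 3 = 1 ∨ Q 1 % 3 = 2 := by omega
      rcases h2 with h2 | h2 | h2 <;> rw [h2] at hD <;> omega
    have h4a : ¬ (3 : ℤ) ∣ 4 * Q 0 := by
      intro h
      apply ha
      omega
    have h1 : u (act q0 (!![w, -Q 1; 0, 2 * Q 0] : Mat).adjugate) = u (fun i => (4 * Q 0) * Q i) := by
      apply PF2.congr h
      intro i
      rw [Matrix.adjugate_fin_two]
      fin_cases i
      · simp only [act, q0]
        simp
        exact ⟨0, by ring⟩
      · simp only [act, q0]
        simp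
        exact ⟨0, by ring⟩
      · simp only [act, q0]
        simp
        obtain ⟨e, he⟩ := hw
        refine ⟨e, ?_⟩
        rw [disc] at he
        linear_combination he
    have h2 : vf u !![w, -Q 1; 0, 2 * Q 0] = 0 := by
      rw [h0]
      rfl
    rw [vf_eq, h1, h.scal _ _ h4a, Matrix.det_fin_two] at h2
    simp only [Matrix.of_apply, Matrix.cons_val', Matrix.cons_val_zero, Matrix.cons_val_one,
      Matrix.cons_val_fin_one] at h2
    have h3 := sq_one ha
    have hw1 : (w : ZMod 3) = 1 := by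
      have : ((w - 1 : ℤ) : ZMod 3) = 0 := by
        rw [ZMod.intCast_zmod_eq_zero_iff_dvd]
        omega
      push_cast at this
      linear_combination this
    have e8 : (8 : ZMod 3) = -1 := by decide
    push_cast at h2
    rw [hw1] at h2
    rw [Pi.zero_apply]
    have h4 : (8 : ZMod 3) * ((Q 0 : ZMod 3) * Q 0) * u Q = 0 := by
      linear_combination h2
    rw [h3, e8] at h4
    linear_combination -h4
  · rw [h.supp Q hD, Pi.zero_apply]

end Vf2m

open Vf2m

/-- Functions of forms as functions of matrices. -/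
theorem stVf2 : StVf2 := by
  refine fun m u hm h => ⟨mf hm h, wr h, tor h, ?_, ?_, inj hm h⟩
  · rw [T5_eq, LO.Vfm.tm L5p 5 (by
      intro N hN
      simp only [L5p, List.mem_cons, List.not_mem_nil, or_false] at hN
      rcases hN with rfl | rfl | rfl | rfl | rfl | rfl | rfl | rfl | rfl | rfl <;>
        simp [Matrix.det_fin_two]), LO.Vfm.tm L5m 5 (by
      intro N hN
      simp only [L5m, List.mem_cons, List.not_mem_nil, or_false] at hN
      rcases hN with rfl | rfl | rfl | rfl <;> simp [Matrix.det_fin_two])]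
    have e : ((5 : ℤ) : ZMod 3) = -1 := by decide
    rw [e, neg_one_smul, neg_one_smul]
    funext M
    simp only [Pi.sub_apply, Pi.neg_apply, vf, TS]
    ring
  · rw [T7_eq, LO.Vfm.tm L7p 7 (by
      intro N hN
      simp only [L7p, List.mem_cons, List.not_mem_nil, or_false] at hN
      rcases hN with rfl | rfl | rfl | rfl | rfl | rfl | rfl | rfl | rfl | rfl | rfl | rfl | rfl |
        rfl <;> simp [Matrix.det_fin_two]), LO.Vfm.tm L7m 7 (by
      intro N hN
      simp only [L7m, List.mem_cons, List.not_mem_nil, or_false] at hN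
      rcases hN with rfl | rfl | rfl | rfl | rfl | rfl <;> simp [Matrix.det_fin_two])]
    have e : ((7 : ℤ) : ZMod 3) = 1 := by decide
    rw [e, one_smul, one_smul]
    funext M
    simp only [Pi.sub_apply, vf, TS]
    ring

end LT

end Pool.Agent.Lib.MP_7c5fb9_nt
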