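import Pool.Agent.Lib.MP_7c5fb9_nt.LO.AllB
import Pool.Agent.Lib.MP_7c5fb9_nt.LT.Coef2
import Pool.Agent.Lib.MP_7c5fb9_nt.LT.Prim2
import Pool.Agent.Lib.MP_7c5fb9_nt.LT.Coc2
import Pool.Agent.Lib.MP_7c5fb9_nt.LT.Gen2
import Pool.Agent.Lib.MP_7c5fb9_nt.LT.Per2
import Pool.Agent.Lib.MP_7c5fb9_nt.LT.HecG2
import Pool.Agent.Lib.MP_7c5fb9_nt.LT.Hec2
import Pool.Agent.Lib.MP_7c5fb9_nt.LT.New2
import Pool.Agent.Lib.MP_7c5fb9_nt.LT.Cyc2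
import Pool.Agent.Lib.MP_7c5fb9_nt.LT.PsiC2
import Pool.Agent.Lib.MP_7c5fb9_nt.LT.Lim2
import Pool.Agent.Lib.MP_7c5fb9_nt.LT.NZ2
import Pool.Agent.Lib.MP_7c5fb9_nt.LT.Fin2
import Pool.Agent.Lib.MP_7c5fb9_nt.LT.Red2
import Pool.Agent.Lib.MP_7c5fb9_nt.LT.Form2
import Pool.Agent.Lib.MP_7c5fb9_nt.LT.Crit2
import Pool.Agent.Lib.MP_7c5fb9_nt.LT.Main2
import Pool.Agent.Lib.MP_7c5fb9_nt.LT.Vf2
import Pool.Agent.Lib.MP_7c5fb9_nt.LT.Sym2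
import Pool.Agent.Lib.MP_7c5fb9_nt.LT.Rot2
import Pool.Agent.Lib.MP_7c5fb9_nt.LT.TorSym2
import Pool.Agent.Lib.MP_7c5fb9_nt.LT.Low2
import Pool.Agent.Lib.MP_7c5fb9_nt.LT.KL2

set_option autoImplicit false

/-!
# Level two (MP_7c5fb9_nt, project LT): assembly up to the functions of low degree
-/

namespace Pool.Agent.Lib.MP_7c5fb9_nt

namespace LT

open LO

theorem aCoc2 : StCoc2 := stCoc2 stPrim2

theorem aHecG2 : StHecG2 := stHecG2 stPrim2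

theorem aPsiC2 : StPsiC2 :=
  stPsiC2 aCoc2 (stCyc2 stPrim2 aCoc2) (stNew2 aCoc2 aHecG2) (stHec2 aCoc2 aHecG2)

theorem aNZ2 : StNZ2 := stNZ2 stGen2 aCoc2 stPer2 aPsiC2 (stLim2 stPrim2 aCoc2)

theorem aKL2 (hVOne : StVOne2) (hFirst : StFirst2) (hLap : StLap2) (hEx : StEx2) : StKL2 := by
  have hSym : StSym2 := stSym2 hVOne hFirst hLap
  have hRot : StRot2 := stRot2 hVOne
  have hTor : StTorSym2 := stTorSym2 hSym hRot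
  exact stKL2 stKTwo stVf2 hVOne hSym hTor hEx
    (stLow2 stKTwo stVf2 hEx hVOne hSym hRot hTor stRH)

theorem aRed2 (hKL : StKL2) : StRed2 := stRed2 hKL aPsiC2 aNZ2 (stFin2 stPer2) stGen2 aCocyc

theorem aCrit2 (hKL : StKL2) : StCrit2 :=
  stCrit2 stCoef2 (aRed2 hKL) aPsiC2 aCocyc stPell (stForm2 (stSplitB stDiscrB) stDiscrB) stDiscrB

theorem aMain2 (hKL : StKL2) : StMain2 := stMain2 bKey (stCountB stLocP) (aCrit2 hKL)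

end LT

end Pool.Agent.Lib.MP_7c5fb9_nt
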