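import Pool.Agent.Lib.MP_7c5fb9_nt.LT.Ex2A

set_option autoImplicit false

/-! (Ex2) the two functions. -/

namespace Pool.Agent.Lib.MP_7c5fb9_nt

namespace LT

namespace E2

open LO LO.ExAux

set_option maxRecDepth 100000 in
theorem pf_g0 : PF2 2 g0 :=
  pf2_of_nice 2 g0 nice_g0 (fun Q R => by simpa using per9_g0 Q R) (by decide +kernel)
    (by decide +kernel) (by decide +kernel)

set_option maxRecDepth 100000 in
theorem pf_u4w : PF2 3 u4w :=
  pf2_of_nice 3 u4w nice_u4w (fun Q R => by simpa using nice_u4w.per Q R) (by decide +kernel)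
    (by decide +kernel) (by decide +kernel)

end E2

end LT

end Pool.Agent.Lib.MP_7c5fb9_nt
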