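import Pool.Agent.Lib.MP_7c5fb9_nt.LT.Ex2A

set_option autoImplicit false

/-! (Ex2) the two functions. -/

namespace Pool.Agent.Lib.MP_7c5fb9_nt

namespace LT

namespace E2

open LO LO.ExAux

set_option maxRecDepth 100000 in
theorem T5_u4w : TS L5p L5m u4w = 0 :=
  (nice_TS nice_u4w L5p L5m det_L5p det_L5m).ext0 (by decide +kernel)

end E2

end LT

end Pool.Agent.Lib.MP_7c5fb9_nt
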