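import Pool.Agent.Lib.MP_7c5fb9_nt.LT.Ex2A

set_option autoImplicit false

/-! (Ex2) the two functions. -/

namespace Pool.Agent.Lib.MP_7c5fb9_nt

namespace LT

namespace E2

open LO LO.ExAux

set_option maxRecDepth 100000 in
theorem T7_finb : ∀ (b : Fin 9) (c : Fin 27),
    disc ![1, (((b : ℕ) + 9 : ℕ) : ℤ), ((c : ℕ) : ℤ)] % 3 = 2 →
    TS L7p L7m u4w ![1, (((b : ℕ) + 9 : ℕ) : ℤ), ((c : ℕ) : ℤ)] +
      (u4w ![1, (((b : ℕ) + 9 : ℕ) : ℤ), ((c : ℕ) : ℤ)] +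
      2 * g0 ![1, (((b : ℕ) + 9 : ℕ) : ℤ), ((c : ℕ) : ℤ)]) = 0 := by
  decide +kernel

end E2

end LT

end Pool.Agent.Lib.MP_7c5fb9_nt
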