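import Pool.Agent.Lib.MP_7c5fb9_nt.LT.Ex2A

set_option autoImplicit false

/-! (Ex2) the two functions. -/

namespace Pool.Agent.Lib.MP_7c5fb9_nt

namespace LT

namespace E2

open LO LO.ExAux

set_option maxRecDepth 100000 in
theorem T5_g0 : TS L5p L5m g0 = 0 :=
  (nice_TS nice_g0 L5p L5m det_L5p det_L5m).ext0 (by decide +kernel)

set_option maxRecDepth 100000 in
theorem T7_fin0 : ∀ b c : Fin 27, disc ![1, ((b : ℕ) : ℤ), ((c : ℕ) : ℤ)] % 3 = 2 →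
    TS L7p L7m g0 ![1, ((b : ℕ) : ℤ), ((c : ℕ) : ℤ)] +
      g0 ![1, ((b : ℕ) : ℤ), ((c : ℕ) : ℤ)] = 0 := by
  decide +kernel

end E2

end LT

end Pool.Agent.Lib.MP_7c5fb9_nt
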