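import Pool.Agent.Lib.MP_7c5fb9_nt.LO.Ex
import Pool.Agent.Lib.MP_7c5fb9_nt.LT.Ex2B
import Pool.Agent.Lib.MP_7c5fb9_nt.LT.Ex2C
import Pool.Agent.Lib.MP_7c5fb9_nt.LT.Ex2D
import Pool.Agent.Lib.MP_7c5fb9_nt.LT.Ex2E
import Pool.Agent.Lib.MP_7c5fb9_nt.LT.Ex2F
import Pool.Agent.Lib.MP_7c5fb9_nt.LT.Ex2G

set_option autoImplicit false

/-! (Ex2) the two functions. -/

namespace Pool.Agent.Lib.MP_7c5fb9_nt

namespace LT

namespace E2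

open LO LO.ExAux

theorem T7_fin : ∀ b c : Fin 27, disc ![1, ((b : ℕ) : ℤ), ((c : ℕ) : ℤ)] % 3 = 2 →
    TS L7p L7m u4w ![1, ((b : ℕ) : ℤ), ((c : ℕ) : ℤ)] + (u4w ![1, ((b : ℕ) : ℤ), ((c : ℕ) : ℤ)] +
      2 * g0 ![1, ((b : ℕ) : ℤ), ((c : ℕ) : ℤ)]) = 0 := by
  intro b c
  have hb := b.2
  rcases lt_or_ge (b : ℕ) 9 with h | h
  · exact T7_fina ⟨b, h⟩ c
  rcases lt_or_ge (b : ℕ) 18 with h2 | h2
  · have h3 := T7_finb ⟨(b : ℕ) - 9, by omega⟩ c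
    rwa [show (((⟨(b : ℕ) - 9, by omega⟩ : Fin 9) : ℕ) + 9 : ℕ) = (b : ℕ) from by
      show (b : ℕ) - 9 + 9 = b
      omega] at h3
  · have h3 := T7_finc ⟨(b : ℕ) - 18, by omega⟩ c
    rwa [show (((⟨(b : ℕ) - 18, by omega⟩ : Fin 9) : ℕ) + 18 : ℕ) = (b : ℕ) from by
      show (b : ℕ) - 18 + 18 = b
      omega] at h3

theorem T7_g0 : TS L7p L7m g0 = (2 : ZMod 3) • g0 := by
  have h := ((nice_TS nice_g0 L7p L7m det_L7p det_L7m).add nice_g0).ext0 T7_fin0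
  funext Q
  have h1 := congrFun h Q
  simp only [Pi.zero_apply] at h1
  have h3 : (3 : ZMod 3) = 0 := by decide
  simp only [Pi.smul_apply, smul_eq_mul]
  linear_combination h1 - (g0 Q) * h3

theorem T7_u4w : TS L7p L7m u4w = (2 : ZMod 3) • u4w + g0 := by
  have h := ((nice_TS nice_u4w L7p L7m det_L7p det_L7m).add
    (nice_u4w.add (nice_g0.smul 2))).ext0 T7_fin
  funext Q
  have h1 := congrFun h Q
  simp only [Pi.zero_apply] at h1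
  have h3 : (3 : ZMod 3) = 0 := by decide
  simp only [Pi.add_apply, Pi.smul_apply, smul_eq_mul]
  linear_combination h1 - (u4w Q + g0 Q) * h3

end E2

open E2 in
theorem stEx2 : StEx2 := ⟨pf_g0, pf_u4w, LO.ExAux.g0_ne, T5_g0, T5_u4w, T7_g0, T7_u4w⟩

end LT

end Pool.Agent.Lib.MP_7c5fb9_nt
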