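import Pool.Agent.Lib.MP_7c5fb9_nt.LT.Stmts
import Pool.Agent.Lib.MP_7c5fb9_nt.LT.Alg2
import Pool.Agent.Lib.MP_7c5fb9_nt.LO.FieldB

set_option autoImplicit false

/-!
# Level two (MP_7c5fb9_nt, project LT): the theorem in terms of quadratic fields
-/

namespace Pool.Agent.Lib.MP_7c5fb9_nt

namespace LT

open LO

/-- `D` is the discriminant of a (real) quadratic field. -/
def RealDisc (D : ℕ) : Prop :=
  ∃ (K : Type) (_ : Field K) (_ : NumberField K), Module.finrank ℚ K = 2 ∧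
    NumberField.discr K = (D : ℤ)

/-- The toric periods of `f` over the quadratic field of discriminant `D` do not vanish. -/
def NonVanAt (k : ℕ) (f : Cusp2 (2 * k)) (D : ℕ) : Prop :=
  ∀ (K : Type) [Field K] [NumberField K], Module.finrank ℚ K = 2 →
    NumberField.discr K = (D : ℤ) → NonVan k f K

theorem realDisc_iff (D : ℕ) : RealDisc D ↔ FD (D : ℤ) := by
  constructor
  · rintro ⟨K, _, _, hK, hd⟩
    rw [← hd]
    exact (stDiscrB.1 K hK).1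
  · intro h
    exact exists_field h

theorem fields2 (hMain : StMain2) (hCount : StCountB) (hOdd : StSqOdd) (hTwo : StSqTwo)
    (k : ℕ) (f : Cusp2 (2 * k)) (hk : Even k) (hk3 : 3 ≤ k) (hf : IsNew k f) :
    (∀ D : ℕ, D % 3 = 2 → D % 8 ≠ 5 →
      (∀ (F : Type) [Field F] [NumberField F] (s : F), Module.finrank ℚ F = 2 →
        s ^ 2 = -((3 * D : ℕ) : F) →
          ¬ 3 ∣ Nat.card (ClassGroup (NumberField.RingOfIntegers F))) →
      NonVanAt k f D) ∧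
    ∀ (P : Finset ℕ) (d : ℕ → ℤ), 2 ∈ P → (∀ p ∈ P, p.Prime ∧ p ≠ 3 ∧ d p ≠ 0) →
      (∀ [Fact (Nat.Prime 2)], ¬ IsSquare (((5 * d 2 : ℤ) : ℤ) : ℚ_[2])) →
      (∃ c : ℝ, 0 < c ∧ ∃ X₀ : ℕ, ∀ X : ℕ, X₀ ≤ X →
        c * X ≤ ({D : ℕ | D ≤ X ∧ RealDisc D ∧ D % 3 = 2 ∧ LocAt P d D ∧
          NonVanAt k f D}.ncard : ℝ)) ∧
      ∀ ε : ℝ, 0 < ε → ∃ X₀ : ℕ, ∀ X : ℕ, X₀ ≤ X →
        (1 / 2 - ε) * ({D : ℕ | D ≤ X ∧ RealDisc D ∧ D % 3 = 2 ∧ LocAt P d D}.ncard : ℝ) ≤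
          ({D : ℕ | D ≤ X ∧ RealDisc D ∧ D % 3 = 2 ∧ LocAt P d D ∧
            NonVanAt k f D}.ncard : ℝ) := by
  obtain ⟨h1, h2⟩ := hMain k f hk hk3 hf
  refine ⟨fun D hD hD8 hF K _ _ hK hd => h1 K D hK hd hD hD8 hF, ?_⟩
  simp only [realDisc_iff]
  exact stAlgTwo hCount hOdd hTwo (NonVanAt k f) h2

end LT

end Pool.Agent.Lib.MP_7c5fb9_nt
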