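import Pool.Agent.Lib.MP_7c5fb9_nt.LT.VOne2
import Pool.Agent.Lib.MP_7c5fb9_nt.LO.First

set_option autoImplicit false

/-! (First2) Symbols of functions of degree at most one are symmetric. -/

namespace Pool.Agent.Lib.MP_7c5fb9_nt

namespace LT

namespace F2

open LO LO.FirstAux LO.V1 V2

/-- Four matrices acting on the left. -/
def aa (t : Fin 4) : Mat := ![1, mE, mW, mE * mW] t

/-- The signs. -/
def se (t : Fin 4) : ZMod 3 := ![1, 1, -1, -1] t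

section

variable {m : ℕ} {v : Mat → ZMod 3}

theorem v_aa (hw : WR2 v) (t : Fin 4) (M : Mat) : v (aa t * M) = se t * v M := by
  fin_cases t
  · simp [aa, se]
  · simp [aa, se, hw.E]
  · simp [aa, se, hw.W]
  · simp [aa, se, mul_assoc, hw.E, hw.W]

theorem wr2_X (hw : WR2 v) (i : Fin 3) : WR2 (Xd i v) where
  W M := by
    rw [Xd, Xd, mul_assoc, hw.W, hw.W]
    ring
  E M := by
    rw [Xd, Xd, mul_assoc, hw.E, hw.E]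
  N M := by
    have h1 := hw.N M
    have h2 := hw.N (M * gm i)
    simp only [← mul_assoc] at h1 h2
    simp only [Xd]
    linear_combination h2 - h1

theorem det_aa (t : Fin 4) : ¬ (3 : ℤ) ∣ (aa t).det := by
  fin_cases t <;> simp [aa, mE, mW, Matrix.det_fin_two]

/-- The conditions in an instance. -/
def Chk (t : Fin 4) (M M' : Mat) (s : ℤ) (a b c : ℕ) (e t₀₀ t₀₁ t₀₂ t₁₀ t₁₁ t₁₂ t₂₀ t₂₁ t₂₂ : ZMod 3) :
    Prop :=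
  ¬ (3 : ℤ) ∣ s ∧ ¬ (3 : ℤ) ∣ d2 (M * gm 0 ^ a * gm 1 ^ b * gm 2 ^ c) ∧
    (∀ i j, (9 : ℤ) ∣ M' i j - s * (aa t * (M * gm 0 ^ a * gm 1 ^ b * gm 2 ^ c)) i j) ∧
    e = se t ∧
    t₀₀ = e * (a * ph 0 M) ∧ t₀₁ = e * (b * ph 0 M) ∧ t₀₂ = e * (c * ph 0 M) ∧
    t₁₀ = e * (a * ph 1 M) ∧ t₁₁ = e * (b * ph 1 M) ∧ t₁₂ = e * (c * ph 1 M) ∧
    t₂₀ = e * (a * ph 2 M) ∧ t₂₁ = e * (b * ph 2 M) ∧ t₂₂ = e * (c * ph 2 M)

instance (t : Fin 4) (M M' : Mat) (s : ℤ) (a b c : ℕ)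
    (e t₀₀ t₀₁ t₀₂ t₁₀ t₁₁ t₁₂ t₂₀ t₂₁ t₂₂ : ZMod 3) :
    Decidable (Chk t M M' s a b c e t₀₀ t₀₁ t₀₂ t₁₀ t₁₁ t₁₂ t₂₀ t₂₁ t₂₂) := by
  unfold Chk
  infer_instance

theorem key (h1 : StKOne) (h2 : StVOne) (hm : 1 ≤ m) (hv : MF m v) (hw : WR2 v)
    (hf : Fil 2 v) (t : Fin 4) (M M' : Mat)
    (s : ℤ) (a b c : ℕ) (e t₀₀ t₀₁ t₀₂ t₁₀ t₁₁ t₁₂ t₂₀ t₂₁ t₂₂ : ZMod 3)
    (h : Chk t M M' s a b c e t₀₀ t₀₁ t₀₂ t₁₀ t₁₁ t₁₂ t₂₀ t₂₁ t₂₂) :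
    v M' = e * v M + t₀₀ * ac 0 (Xd 0 v) + t₀₁ * ac 0 (Xd 1 v) + t₀₂ * ac 0 (Xd 2 v) +
      t₁₀ * ac 1 (Xd 0 v) + t₁₁ * ac 1 (Xd 1 v) + t₁₂ * ac 1 (Xd 2 v) +
      t₂₀ * ac 2 (Xd 0 v) + t₂₁ * ac 2 (Xd 1 v) + t₂₂ * ac 2 (Xd 2 v) := by
  obtain ⟨hs, hd, h9, he, e00, e01, e02, e10, e11, e12, e20, e21, e22⟩ := h
  have hd' : ¬ (3 : ℤ) ∣ (aa t * (M * gm 0 ^ a * gm 1 ^ b * gm 2 ^ c)).det := by
    rw [Matrix.det_mul, ← d2_eq (M * gm 0 ^ a * gm 1 ^ b * gm 2 ^ c)]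
    intro h
    rcases Int.prime_three.dvd_or_dvd h with h | h
    · exact det_aa t h
    · exact hd h
  rw [v_congr h1 hv hf hs hd' h9, v_aa hw, v_prod hf]
  have hX : ∀ j, Xd j v M = ∑ i, ac i (Xd j v) * ph i M := fun j =>
    X_eq h2 hm (mf_X hv j) (wr_of (mf_X hv j) (wr2_X hw j) (redc h1 (mf_X hv j) (hf j)))
      (hf j) M
  rw [hX 0, hX 1, hX 2, e00, e01, e02, e10, e11, e12, e20, e21, e22, he]
  simp only [Fin.sum_univ_three]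
  ring

theorem t_c01 (h1 : StKOne) (h2 : StVOne) (hm : 1 ≤ m) (hv : MF m v)
    (hw : WR2 v) (hf : Fil 2 v) : ac 0 (Xd 1 v) = ac 1 (Xd 0 v) := by
  have h3 : (3 : ZMod 3) = 0 := by decide
  have r1 := hw.N !![-1, -1; 1, -1]
  have k1_0 := key h1 h2 hm hv hw hf 1 !![1, 1; 1, -1] (!![-1, -1; 1, -1])
    (1) 0 0 0 (1) (0) (0) (0) (0) (0) (0) (0) (0) (0) (by decide +kernel)
  have k1_1 := key h1 h2 hm hv hw hf 2 !![1, 1; 1, -1] (mS * !![-1, -1; 1, -1])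
    (-2) 0 1 2 (-1) (0) (0) (0) (0) (1) (-1) (0) (1) (-1) (by decide +kernel)
  have k1_2 := key h1 h2 hm hv hw hf 0 !![1, 1; 1, 0] (!![1, 0; -1, 1] * !![-1, -1; 1, -1])
    (-4) 1 0 1 (1) (1) (0) (1) (0) (0) (0) (-1) (0) (-1) (by decide +kernel)
  have k1_3 := key h1 h2 hm hv hw hf 3 !![1, 0; 1, -1] (mS * mT' * !![-1, -1; 1, -1])
    (-1) 0 0 0 (-1) (0) (0) (0) (0) (0) (0) (0) (0) (0) (by decide +kernel)
  have r2 := hw.N !![-1, 0; 1, -1]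
  have k2_0 := key h1 h2 hm hv hw hf 1 !![1, 0; 1, -1] (!![-1, 0; 1, -1])
    (1) 0 0 0 (1) (0) (0) (0) (0) (0) (0) (0) (0) (0) (by decide +kernel)
  have k2_1 := key h1 h2 hm hv hw hf 2 !![1, 0; 1, -1] (mS * !![-1, 0; 1, -1])
    (-2) 1 2 0 (-1) (1) (-1) (0) (1) (-1) (0) (0) (0) (0) (by decide +kernel)
  have k2_2 := key h1 h2 hm hv hw hf 2 !![1, 1; 1, 0] (!![1, 0; -1, 1] * !![-1, 0; 1, -1])
    (-2) 0 2 2 (-1) (0) (1) (1) (0) (0) (0) (0) (-1) (-1) (by decide +kernel)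
  have k2_3 := key h1 h2 hm hv hw hf 3 !![1, 1; 1, -1] (mS * mT' * !![-1, 0; 1, -1])
    (-4) 1 0 2 (-1) (0) (0) (0) (1) (0) (-1) (1) (0) (-1) (by decide +kernel)
  have r3 := hw.N !![-1, 0; -1, 1]
  have k3_0 := key h1 h2 hm hv hw hf 0 !![1, 0; 1, -1] (!![-1, 0; -1, 1])
    (-1) 0 0 0 (1) (0) (0) (0) (0) (0) (0) (0) (0) (0) (by decide +kernel)
  have k3_1 := key h1 h2 hm hv hw hf 3 !![1, 0; 1, -1] (mS * !![-1, 0; -1, 1])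
    (-2) 1 2 0 (-1) (1) (-1) (0) (1) (-1) (0) (0) (0) (0) (by decide +kernel)
  have k3_2 := key h1 h2 hm hv hw hf 1 !![1, 0; 0, 1] (!![1, 0; -1, 1] * !![-1, 0; -1, 1])
    (1) 0 0 0 (1) (0) (0) (0) (0) (0) (0) (0) (0) (0) (by decide +kernel)
  have k3_3 := key h1 h2 hm hv hw hf 1 !![1, -1; 0, 1] (mS * mT' * !![-1, 0; -1, 1])
    (-1) 0 0 0 (1) (0) (0) (0) (0) (0) (0) (0) (0) (0) (by decide +kernel)
  have r4 := hw.N !![-1, 0; 0, -1]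
  have k4_0 := key h1 h2 hm hv hw hf 0 !![1, 0; 0, 1] (!![-1, 0; 0, -1])
    (-1) 0 0 0 (1) (0) (0) (0) (0) (0) (0) (0) (0) (0) (by decide +kernel)
  have k4_1 := key h1 h2 hm hv hw hf 3 !![1, 0; 0, 1] (mS * !![-1, 0; 0, -1])
    (-2) 0 1 1 (-1) (0) (0) (0) (0) (1) (1) (0) (-1) (-1) (by decide +kernel)
  have k4_2 := key h1 h2 hm hv hw hf 1 !![1, 0; 1, -1] (!![1, 0; -1, 1] * !![-1, 0; 0, -1])
    (1) 0 0 0 (1) (0) (0) (0) (0) (0) (0) (0) (0) (0) (by decide +kernel)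
  have k4_3 := key h1 h2 hm hv hw hf 3 !![1, -1; 0, 1] (mS * mT' * !![-1, 0; 0, -1])
    (-2) 1 0 2 (-1) (-1) (0) (1) (0) (0) (0) (-1) (0) (1) (by decide +kernel)
  linear_combination (1) * r1 + (-1) * k1_0 + (1) * k1_1 + (-1) * k1_2 + (1) * k1_3 + (1) * r2 + (-1) * k2_0
    + (1) * k2_1 + (-1) * k2_2 + (1) * k2_3 + (-1) * r3 + (1) * k3_0 + (-1) * k3_1
    + (1) * k3_2 + (-1) * k3_3 + (-1) * r4 + (1) * k4_0 + (-1) * k4_1 + (1) * k4_2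
    + (-1) * k4_3
    + ((1) * ac 2 (Xd 1 v) + (1) * v !![1, 0; 0, 1] + (1) * ac 2 (Xd 0 v) + (-1) * ac 0 (Xd 2 v) + (-1) * v !![1, 1; 1, -1] + (-1) * ac 1 (Xd 2 v)) * h3

theorem t_c02 (h1 : StKOne) (h2 : StVOne) (hm : 1 ≤ m) (hv : MF m v)
    (hw : WR2 v) (hf : Fil 2 v) : ac 0 (Xd 2 v) = ac 2 (Xd 0 v) := by
  have h3 : (3 : ZMod 3) = 0 := by decide
  have r1 := hw.N !![-1, 1; 0, -1]
  have k1_0 := key h1 h2 hm hv hw hf 0 !![1, -1; 0, 1] (!![-1, 1; 0, -1])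
    (-1) 0 0 0 (1) (0) (0) (0) (0) (0) (0) (0) (0) (0) (by decide +kernel)
  have k1_1 := key h1 h2 hm hv hw hf 3 !![1, -1; 0, 1] (mS * !![-1, 1; 0, -1])
    (-2) 1 0 2 (-1) (-1) (0) (1) (0) (0) (0) (-1) (0) (1) (by decide +kernel)
  have k1_2 := key h1 h2 hm hv hw hf 3 !![1, 1; 1, -1] (!![1, 0; -1, 1] * !![-1, 1; 0, -1])
    (-4) 2 1 0 (-1) (0) (0) (0) (-1) (1) (0) (-1) (1) (0) (by decide +kernel)
  have k1_3 := key h1 h2 hm hv hw hf 3 !![1, 1; 0, 1] (mS * mT' * !![-1, 1; 0, -1])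
    (-2) 0 1 1 (-1) (0) (-1) (-1) (0) (1) (1) (0) (0) (0) (by decide +kernel)
  have r2 := hw.N !![-1, 0; 0, 1]
  have k2_0 := key h1 h2 hm hv hw hf 1 !![1, 0; 0, 1] (!![-1, 0; 0, 1])
    (1) 0 0 0 (1) (0) (0) (0) (0) (0) (0) (0) (0) (0) (by decide +kernel)
  have k2_1 := key h1 h2 hm hv hw hf 2 !![1, 0; 0, 1] (mS * !![-1, 0; 0, 1])
    (-2) 0 1 1 (-1) (0) (0) (0) (0) (1) (1) (0) (-1) (-1) (by decide +kernel)
  have k2_2 := key h1 h2 hm hv hw hf 3 !![1, 1; 1, 0] (!![1, 0; -1, 1] * !![-1, 0; 0, 1])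
    (2) 1 0 1 (-1) (-1) (0) (-1) (0) (0) (0) (1) (0) (1) (by decide +kernel)
  have k2_3 := key h1 h2 hm hv hw hf 2 !![1, 1; 0, 1] (mS * mT' * !![-1, 0; 0, 1])
    (-2) 2 2 0 (-1) (1) (1) (0) (-1) (-1) (0) (0) (0) (0) (by decide +kernel)
  have r3 := hw.N !![-1, 1; 0, 1]
  have k3_0 := key h1 h2 hm hv hw hf 1 !![1, -1; 0, 1] (!![-1, 1; 0, 1])
    (1) 0 0 0 (1) (0) (0) (0) (0) (0) (0) (0) (0) (0) (by decide +kernel)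
  have k3_1 := key h1 h2 hm hv hw hf 2 !![1, -1; 0, 1] (mS * !![-1, 1; 0, 1])
    (-2) 1 0 2 (-1) (-1) (0) (1) (0) (0) (0) (-1) (0) (1) (by decide +kernel)
  have k3_2 := key h1 h2 hm hv hw hf 3 !![1, 0; 1, -1] (!![1, 0; -1, 1] * !![-1, 1; 0, 1])
    (2) 1 2 0 (-1) (1) (-1) (0) (1) (-1) (0) (0) (0) (0) (by decide +kernel)
  have k3_3 := key h1 h2 hm hv hw hf 2 !![1, 0; 0, 1] (mS * mT' * !![-1, 1; 0, 1])
    (-2) 0 1 1 (-1) (0) (0) (0) (0) (1) (1) (0) (-1) (-1) (by decide +kernel)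
  have r4 := hw.N !![-1, -1; 1, -1]
  have k4_0 := key h1 h2 hm hv hw hf 1 !![1, 1; 1, -1] (!![-1, -1; 1, -1])
    (1) 0 0 0 (1) (0) (0) (0) (0) (0) (0) (0) (0) (0) (by decide +kernel)
  have k4_1 := key h1 h2 hm hv hw hf 2 !![1, 1; 1, -1] (mS * !![-1, -1; 1, -1])
    (-2) 0 1 2 (-1) (0) (0) (0) (0) (1) (-1) (0) (1) (-1) (by decide +kernel)
  have k4_2 := key h1 h2 hm hv hw hf 0 !![1, 1; 1, 0] (!![1, 0; -1, 1] * !![-1, -1; 1, -1])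
    (-4) 1 0 1 (1) (1) (0) (1) (0) (0) (0) (-1) (0) (-1) (by decide +kernel)
  have k4_3 := key h1 h2 hm hv hw hf 3 !![1, 0; 1, -1] (mS * mT' * !![-1, -1; 1, -1])
    (-1) 0 0 0 (-1) (0) (0) (0) (0) (0) (0) (0) (0) (0) (by decide +kernel)
  linear_combination (1) * r1 + (-1) * k1_0 + (1) * k1_1 + (-1) * k1_2 + (1) * k1_3 + (-1) * r2 + (1) * k2_0
    + (-1) * k2_1 + (1) * k2_2 + (-1) * k2_3 + (-1) * r3 + (1) * k3_0 + (-1) * k3_1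
    + (1) * k3_2 + (-1) * k3_3 + (-1) * r4 + (1) * k4_0 + (-1) * k4_1 + (1) * k4_2
    + (-1) * k4_3
    + ((-1) * ac 0 (Xd 1 v) + (-1) * ac 1 (Xd 1 v) + (1) * v !![1, 0; 0, 1] + (1) * ac 1 (Xd 0 v) + (1) * v !![1, 1; 1, -1] + (1) * ac 2 (Xd 2 v)) * h3

theorem t_c12 (h1 : StKOne) (h2 : StVOne) (hm : 1 ≤ m) (hv : MF m v)
    (hw : WR2 v) (hf : Fil 2 v) : ac 1 (Xd 2 v) = ac 2 (Xd 1 v) := by
  have h3 : (3 : ZMod 3) = 0 := by decide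
  have r1 := hw.N !![-1, 0; 0, -1]
  have k1_0 := key h1 h2 hm hv hw hf 0 !![1, 0; 0, 1] (!![-1, 0; 0, -1])
    (-1) 0 0 0 (1) (0) (0) (0) (0) (0) (0) (0) (0) (0) (by decide +kernel)
  have k1_1 := key h1 h2 hm hv hw hf 3 !![1, 0; 0, 1] (mS * !![-1, 0; 0, -1])
    (-2) 0 1 1 (-1) (0) (0) (0) (0) (1) (1) (0) (-1) (-1) (by decide +kernel)
  have k1_2 := key h1 h2 hm hv hw hf 1 !![1, 0; 1, -1] (!![1, 0; -1, 1] * !![-1, 0; 0, -1])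
    (1) 0 0 0 (1) (0) (0) (0) (0) (0) (0) (0) (0) (0) (by decide +kernel)
  have k1_3 := key h1 h2 hm hv hw hf 3 !![1, -1; 0, 1] (mS * mT' * !![-1, 0; 0, -1])
    (-2) 1 0 2 (-1) (-1) (0) (1) (0) (0) (0) (-1) (0) (1) (by decide +kernel)
  have r2 := hw.N !![-1, 1; 0, -1]
  have k2_0 := key h1 h2 hm hv hw hf 0 !![1, -1; 0, 1] (!![-1, 1; 0, -1])
    (-1) 0 0 0 (1) (0) (0) (0) (0) (0) (0) (0) (0) (0) (by decide +kernel)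
  have k2_1 := key h1 h2 hm hv hw hf 3 !![1, -1; 0, 1] (mS * !![-1, 1; 0, -1])
    (-2) 1 0 2 (-1) (-1) (0) (1) (0) (0) (0) (-1) (0) (1) (by decide +kernel)
  have k2_2 := key h1 h2 hm hv hw hf 3 !![1, 1; 1, -1] (!![1, 0; -1, 1] * !![-1, 1; 0, -1])
    (-4) 2 1 0 (-1) (0) (0) (0) (-1) (1) (0) (-1) (1) (0) (by decide +kernel)
  have k2_3 := key h1 h2 hm hv hw hf 3 !![1, 1; 0, 1] (mS * mT' * !![-1, 1; 0, -1])
    (-2) 0 1 1 (-1) (0) (-1) (-1) (0) (1) (1) (0) (0) (0) (by decide +kernel)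
  have r3 := hw.N !![-1, -1; 1, 0]
  have k3_0 := key h1 h2 hm hv hw hf 1 !![1, 1; 1, 0] (!![-1, -1; 1, 0])
    (1) 0 0 0 (1) (0) (0) (0) (0) (0) (0) (0) (0) (0) (by decide +kernel)
  have k3_1 := key h1 h2 hm hv hw hf 2 !![1, 1; 1, 0] (mS * !![-1, -1; 1, 0])
    (-2) 1 0 1 (-1) (-1) (0) (-1) (0) (0) (0) (1) (0) (1) (by decide +kernel)
  have k3_2 := key h1 h2 hm hv hw hf 0 !![1, 1; 1, -1] (!![1, 0; -1, 1] * !![-1, -1; 1, 0])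
    (2) 2 0 2 (1) (0) (0) (0) (1) (0) (1) (1) (0) (1) (by decide +kernel)
  have k3_3 := key h1 h2 hm hv hw hf 1 !![1, 0; 1, -1] (mS * mT' * !![-1, -1; 1, 0])
    (1) 1 1 2 (1) (-1) (-1) (1) (-1) (-1) (1) (0) (0) (0) (by decide +kernel)
  have r4 := hw.N !![-1, 0; 0, 1]
  have k4_0 := key h1 h2 hm hv hw hf 1 !![1, 0; 0, 1] (!![-1, 0; 0, 1])
    (1) 0 0 0 (1) (0) (0) (0) (0) (0) (0) (0) (0) (0) (by decide +kernel)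
  have k4_1 := key h1 h2 hm hv hw hf 2 !![1, 0; 0, 1] (mS * !![-1, 0; 0, 1])
    (-2) 0 1 1 (-1) (0) (0) (0) (0) (1) (1) (0) (-1) (-1) (by decide +kernel)
  have k4_2 := key h1 h2 hm hv hw hf 3 !![1, 1; 1, 0] (!![1, 0; -1, 1] * !![-1, 0; 0, 1])
    (2) 1 0 1 (-1) (-1) (0) (-1) (0) (0) (0) (1) (0) (1) (by decide +kernel)
  have k4_3 := key h1 h2 hm hv hw hf 2 !![1, 1; 0, 1] (mS * mT' * !![-1, 0; 0, 1])
    (-2) 2 2 0 (-1) (1) (1) (0) (-1) (-1) (0) (0) (0) (0) (by decide +kernel)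
  linear_combination (-1) * r1 + (1) * k1_0 + (-1) * k1_1 + (1) * k1_2 + (-1) * k1_3 + (-1) * r2 + (1) * k2_0
    + (-1) * k2_1 + (1) * k2_2 + (-1) * k2_3 + (-1) * r3 + (1) * k3_0 + (-1) * k3_1
    + (1) * k3_2 + (-1) * k3_3 + (1) * r4 + (-1) * k4_0 + (1) * k4_1 + (-1) * k4_2
    + (1) * k4_3
    + ((1) * ac 0 (Xd 1 v) + (2) * ac 0 (Xd 0 v) + (1) * v !![1, 1; 1, 0] + (-1) * ac 2 (Xd 2 v) + (1) * v !![1, -1; 0, 1]) * h3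

end

end F2

open LO F2 in
theorem stFirst2 (hKOne : StKOne) (hVOne : StVOne) : StFirst2 := by
  intro m v hv hw hf
  rcases Nat.eq_zero_or_pos m with rfl | hm
  · have h0 : ∀ M, v M = 0 := by
      intro M
      have h1 := hv.per 0 M
      rw [pow_zero, one_smul, zero_add] at h1
      rw [h1]
      exact hv.supp 0 (by simp)
    have h1 : ∀ i j, ac i (Xd j v) = 0 := by
      intro i j
      fin_cases i <;> simp [ac, Xd, h0]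
    exact fun i j => by rw [h1, h1]
  · have e1 := t_c01 hKOne hVOne hm hv hw hf
    have e2 := t_c02 hKOne hVOne hm hv hw hf
    have e3 := t_c12 hKOne hVOne hm hv hw hf
    intro i j
    fin_cases i <;> fin_cases j
    · rfl
    · exact e1
    · exact e2
    · exact e1.symm
    · rfl
    · exact e3
    · exact e2.symm
    · exact e3.symm
    · rfl

end LT

end Pool.Agent.Lib.MP_7c5fb9_nt
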