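import Pool.Agent.Lib.MP_7c5fb9_nt.LT.First2

set_option autoImplicit false

/-! (Lap2) `T_5` is the Laplace operator on symbols. -/

namespace Pool.Agent.Lib.MP_7c5fb9_nt

namespace LT

namespace F3

open LO LO.FirstAux LO.V1 V2 F2

section

variable {m : ℕ} {v : Mat → ZMod 3}

/-- The coordinates of the second differences. -/
def cc (v : Mat → ZMod 3) (i j k : Fin 3) : ZMod 3 := ac i (Xd j (Xd k v))

theorem inv3 (h1 : StKOne) (hv : MF m v) (hf : Fil 3 v) {k : Mat} (hk : Scal 2 k) (M : Mat) :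
    v (M * k) = v M := by
  have h5 : Rt k v - v = 0 := h1 m 2 0 k v (by norm_num) hk hv (by simpa using hf)
  have h6 := congr_fun h5 M
  simp only [Pi.sub_apply, Rt, Pi.zero_apply] at h6
  exact sub_eq_zero.1 h6

theorem v_congr3 (h1 : StKOne) (hv : MF m v) (hf : Fil 3 v) {s : ℤ} (hs : ¬ (3 : ℤ) ∣ s)
    {W M' : Mat} (hW : ¬ (3 : ℤ) ∣ W.det) (h : ∀ i j, (9 : ℤ) ∣ M' i j - s * W i j) :
    v M' = v W := by
  choose N hN using h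
  have hM' : M' = s • W + (9 : ℤ) • Matrix.of N := by
    ext i j
    have := hN i j
    rw [Matrix.add_apply, Matrix.smul_apply, Matrix.smul_apply, Matrix.of_apply, smul_eq_mul,
      smul_eq_mul]
    linarith
  have hcop : IsCoprime W.det ((3 : ℤ) ^ (m + 2)) :=
    IsCoprime.pow_right ((Prime.coprime_iff_not_dvd Int.prime_three).2 hW).symm
  obtain ⟨x, y, hxy⟩ := hcop
  set k : Mat := x • (W.adjugate * M') with hk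
  have hk1 : W * k = M' + (3 : ℤ) ^ m • ((-(9 * y)) • M') := by
    have e1 : W * k = (x * W.det) • M' := by
      rw [hk, mul_smul_comm, ← mul_assoc, Matrix.mul_adjugate, smul_mul_assoc, one_mul, smul_smul]
    have e2 : x * W.det = 1 + 3 ^ m * (-(9 * y)) := by
      rw [pow_add] at hxy
      linear_combination hxy
    rw [e1, e2, add_smul, one_smul, smul_smul]
  have hk2 : Scal 2 k := by
    refine ⟨x * W.det * s, x • (W.adjugate * Matrix.of N), ?_, ?_⟩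
    · intro h3
      rcases Int.prime_three.dvd_or_dvd h3 with h3 | h3
      · have h4 : (3 : ℤ) ∣ 1 := by
          rw [← hxy]
          refine dvd_add h3 (dvd_mul_of_dvd_right ?_ _)
          exact dvd_pow_self _ (by omega)
        omega
      · exact hs h3
    · rw [hk, hM', mul_add, mul_smul_comm, Matrix.adjugate_mul, mul_smul_comm, smul_add, smul_smul,
        smul_smul, smul_smul, smul_smul]
      congr 1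
      · congr 1
        ring
      · congr 1
        ring
  rw [← inv3 h1 hv hf hk2 W, hk1, hv.per]

theorem v_pow3 (hf : Fil 3 v) (i : Fin 3) (n : ℕ) (M : Mat) :
    v (M * gm i ^ n) = v M + n * Xd i v M + (n.choose 2 : ℕ) * Xd i (Xd i v) M := by
  induction n with
  | zero => simp
  | succ n ih =>
    have h1 : v (M * gm i ^ n * gm i) = v (M * gm i ^ n) + Xd i v (M * gm i ^ n) := by
      rw [Xd]
      ring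
    rw [pow_succ, ← mul_assoc, h1, ih, v_pow (hf i), Nat.choose_succ_succ' n 1, Nat.choose_one_right]
    push_cast
    ring

theorem v_prod3 (hf : Fil 3 v) (a b c : ℕ) (M : Mat) :
    v (M * gm 0 ^ a * gm 1 ^ b * gm 2 ^ c) = v M + a * Xd 0 v M + b * Xd 1 v M + c * Xd 2 v M +
      (a.choose 2 : ℕ) * Xd 0 (Xd 0 v) M + (b.choose 2 : ℕ) * Xd 1 (Xd 1 v) M +
      (c.choose 2 : ℕ) * Xd 2 (Xd 2 v) M + a * b * Xd 0 (Xd 1 v) M + a * c * Xd 0 (Xd 2 v) M +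
      b * c * Xd 1 (Xd 2 v) M := by
  rw [v_pow3 hf, v_pow3 hf, v_pow3 hf, v_pow (hf 1), v_pow (hf 2), v_pow (hf 2), X_pow (hf 1),
    X_pow (hf 2), X_pow (hf 2), X_pow (hf 2)]
  ring

/-- The conditions in an instance. -/
def Chk3 (t : Fin 4) (M M' : Mat) (s : ℤ) (a b c : ℕ)
    (e x₀ x₁ x₂ y₀₀ y₁₁ y₂₂ y₀₁ y₀₂ y₁₂ p₀ p₁ p₂ : ZMod 3) : Prop :=
  ¬ (3 : ℤ) ∣ s ∧ ¬ (3 : ℤ) ∣ d2 (M * gm 0 ^ a * gm 1 ^ b * gm 2 ^ c) ∧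
    (∀ i j, (9 : ℤ) ∣ M' i j - s * (aa t * (M * gm 0 ^ a * gm 1 ^ b * gm 2 ^ c)) i j) ∧
    e = se t ∧ x₀ = e * a ∧ x₁ = e * b ∧ x₂ = e * c ∧
    y₀₀ = e * (a.choose 2 : ℕ) ∧ y₁₁ = e * (b.choose 2 : ℕ) ∧ y₂₂ = e * (c.choose 2 : ℕ) ∧
    y₀₁ = e * (a * b) ∧ y₀₂ = e * (a * c) ∧ y₁₂ = e * (b * c) ∧
    p₀ = ph 0 M ∧ p₁ = ph 1 M ∧ p₂ = ph 2 M

instance (t : Fin 4) (M M' : Mat) (s : ℤ) (a b c : ℕ)
    (e x₀ x₁ x₂ y₀₀ y₁₁ y₂₂ y₀₁ y₀₂ y₁₂ p₀ p₁ p₂ : ZMod 3) :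
    Decidable (Chk3 t M M' s a b c e x₀ x₁ x₂ y₀₀ y₁₁ y₂₂ y₀₁ y₀₂ y₁₂ p₀ p₁ p₂) := by
  unfold Chk3
  infer_instance

theorem key3 (h1 : StKOne) (h2 : StVOne) (hm : 1 ≤ m) (hv : MF m v)
    (hw : WR2 v) (hf : Fil 3 v) (t : Fin 4) (M M' : Mat) (s : ℤ) (a b c : ℕ)
    (e x₀ x₁ x₂ y₀₀ y₁₁ y₂₂ y₀₁ y₀₂ y₁₂ p₀ p₁ p₂ : ZMod 3)
    (h : Chk3 t M M' s a b c e x₀ x₁ x₂ y₀₀ y₁₁ y₂₂ y₀₁ y₀₂ y₁₂ p₀ p₁ p₂) :
    v M' = e * v M + x₀ * Xd 0 v M + x₁ * Xd 1 v M + x₂ * Xd 2 v M +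
      y₀₀ * (p₀ * cc v 0 0 0 + p₁ * cc v 1 0 0 + p₂ * cc v 2 0 0) +
      y₁₁ * (p₀ * cc v 0 1 1 + p₁ * cc v 1 1 1 + p₂ * cc v 2 1 1) +
      y₂₂ * (p₀ * cc v 0 2 2 + p₁ * cc v 1 2 2 + p₂ * cc v 2 2 2) +
      y₀₁ * (p₀ * cc v 0 0 1 + p₁ * cc v 1 0 1 + p₂ * cc v 2 0 1) +
      y₀₂ * (p₀ * cc v 0 0 2 + p₁ * cc v 1 0 2 + p₂ * cc v 2 0 2) +
      y₁₂ * (p₀ * cc v 0 1 2 + p₁ * cc v 1 1 2 + p₂ * cc v 2 1 2) := by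
  obtain ⟨hs, hd, h9, he, e0, e1, e2, f00, f11, f22, f01, f02, f12, q0, q1, q2⟩ := h
  have hd' : ¬ (3 : ℤ) ∣ (aa t * (M * gm 0 ^ a * gm 1 ^ b * gm 2 ^ c)).det := by
    rw [Matrix.det_mul, ← d2_eq (M * gm 0 ^ a * gm 1 ^ b * gm 2 ^ c)]
    intro h
    rcases Int.prime_three.dvd_or_dvd h with h | h
    · exact det_aa t h
    · exact hd h
  rw [v_congr3 h1 hv hf hs hd' h9, v_aa hw, v_prod3 hf]
  have hX : ∀ j k, Xd j (Xd k v) M = ∑ i, cc v i j k * ph i M := fun j k =>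
    X_eq h2 hm (mf_X (mf_X hv k) j)
      (wr_of (mf_X (mf_X hv k) j) (wr2_X (wr2_X hw k) j) (redc h1 (mf_X (mf_X hv k) j) (hf k j)))
      (hf k j) M
  rw [hX 0 0, hX 1 1, hX 2 2, hX 0 1, hX 0 2, hX 1 2, e0, e1, e2, f00, f11, f22, f01, f02, f12,
    q0, q1, q2, he]
  simp only [Fin.sum_univ_three]
  ring

theorem T5e (v : Mat → ZMod 3) (M : Mat) : T5 v M =
    (v (!![5, 0; 0, 1] * M) + v (!![1, 0; 0, 5] * M) + v (!![1, 1; 0, 5] * M)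
      + v (!![1, -1; 0, 5] * M) + v (!![5, 0; -4, 1] * M) + v (!![5, 0; 4, 1] * M)
      + v (!![1, 2; 0, 5] * M) + v (!![1, -2; 0, 5] * M) + v (!![5, 0; -2, 1] * M)
      + v (!![5, 0; 2, 1] * M) - v (!![1, 1; -4, 1] * M) - v (!![1, -1; 4, 1] * M)
      - v (!![1, 2; -2, 1] * M) - v (!![1, -2; 2, 1] * M)) := by
  simp only [T5, TM, L5p, L5m, List.map_cons, List.map_nil, List.sum_cons, List.sum_nil,
    Matrix.adjugate_fin_two_of, neg_zero, add_zero, neg_neg]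
  ring

theorem ac_eq0 (w : Mat → ZMod 3) : ac 0 w = w !![1, 0; 0, 1] - w !![1, -1; 0, 1] -
    w !![1, 1; 0, 1] := by
  rw [← Matrix.one_fin_two]
  rfl

theorem ac_eq1 (w : Mat → ZMod 3) : ac 1 w = w !![1, 0; 0, 1] - w !![1, -1; 0, 1] +
    w !![1, 1; 0, 1] := by
  rw [← Matrix.one_fin_two]
  rfl

theorem ac_eq2 (w : Mat → ZMod 3) : ac 2 w = -w !![1, 0; 0, 1] - w !![1, -1; 0, 1] +
    w !![1, 1; 0, 1] := by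
  rw [← Matrix.one_fin_two]
  rfl

theorem t_lap0 (h1 : StKOne) (h2 : StVOne) (hm : 1 ≤ m) (hv : MF m v)
    (hw : WR2 v) (hf : Fil 3 v) (sw1 : ∀ i j k, cc v i j k = cc v j i k)
    (sw2 : ∀ i j k, cc v i j k = cc v i k j) :
    ac 0 (T5 v) = -(cc v 0 0 0 + cc v 1 1 0 + cc v 2 2 0) := by
  have h3 : (3 : ZMod 3) = 0 := by decide
  have hac : ac 0 (T5 v) = (1) * T5 v !![1, 0; 0, 1] + (-1) * T5 v !![1, -1; 0, 1] +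
      (-1) * T5 v !![1, 1; 0, 1] := by
    rw [ac_eq0]
    ring
  have s220 : cc v 2 2 0 = cc v 0 2 2 := ((sw2 2 2 0).trans (sw1 2 0 2))
  have s110 : cc v 1 1 0 = cc v 0 1 1 := ((sw2 1 1 0).trans (sw1 1 0 1))
  have s212 : cc v 2 1 2 = cc v 1 2 2 := (sw1 2 1 2)
  have s102 : cc v 1 0 2 = cc v 0 1 2 := (sw1 1 0 2)
  have s201 : cc v 2 0 1 = cc v 0 1 2 := ((sw1 2 0 1).trans (sw2 0 2 1))
  have s101 : cc v 1 0 1 = cc v 0 1 1 := (sw1 1 0 1)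
  have s100 : cc v 1 0 0 = cc v 0 0 1 := ((sw1 1 0 0).trans (sw2 0 1 0))
  have e0 := T5e v !![1, 0; 0, 1]
  have t0_0 := key3 h1 h2 hm hv hw hf 1 !![1, 0; 0, 1] (!![5, 0; 0, 1] * !![1, 0; 0, 1])
    (-2) 0 1 1 (1) (0) (1) (1) (0) (0) (0) (0) (0) (1) (0) (-1) (1) (by decide +kernel)
  have t0_1 := key3 h1 h2 hm hv hw hf 1 !![1, 0; 0, 1] (!![1, 0; 0, 5] * !![1, 0; 0, 1])
    (2) 0 2 2 (1) (0) (-1) (-1) (0) (1) (1) (0) (0) (1) (0) (-1) (1) (by decide +kernel)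
  have t0_2 := key3 h1 h2 hm hv hw hf 1 !![1, 1; 0, 1] (!![1, 1; 0, 5] * !![1, 0; 0, 1])
    (2) 1 1 0 (1) (1) (1) (0) (0) (0) (0) (1) (0) (0) (1) (-1) (0) (by decide +kernel)
  have t0_3 := key3 h1 h2 hm hv hw hf 1 !![1, -1; 0, 1] (!![1, -1; 0, 5] * !![1, 0; 0, 1])
    (2) 2 0 1 (1) (-1) (0) (1) (1) (0) (0) (0) (-1) (0) (1) (0) (1) (by decide +kernel)
  have t0_4 := key3 h1 h2 hm hv hw hf 0 !![1, 0; 1, -1] (!![5, 0; -4, 1] * !![1, 0; 0, 1])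
    (2) 0 1 1 (1) (0) (1) (1) (0) (0) (0) (0) (0) (1) (-1) (-1) (0) (by decide +kernel)
  have t0_5 := key3 h1 h2 hm hv hw hf 3 !![1, 1; 1, 0] (!![5, 0; 4, 1] * !![1, 0; 0, 1])
    (-4) 1 1 2 (-1) (-1) (-1) (1) (0) (0) (-1) (-1) (1) (1) (1) (0) (-1) (by decide +kernel)
  have t0_6 := key3 h1 h2 hm hv hw hf 1 !![1, -1; 0, 1] (!![1, 2; 0, 5] * !![1, 0; 0, 1])
    (2) 1 1 0 (1) (1) (1) (0) (0) (0) (0) (1) (0) (0) (1) (0) (1) (by decide +kernel)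
  have t0_7 := key3 h1 h2 hm hv hw hf 1 !![1, 1; 0, 1] (!![1, -2; 0, 5] * !![1, 0; 0, 1])
    (2) 2 0 1 (1) (-1) (0) (1) (1) (0) (0) (0) (-1) (0) (1) (-1) (0) (by decide +kernel)
  have t0_8 := key3 h1 h2 hm hv hw hf 3 !![1, 1; 1, 0] (!![5, 0; -2, 1] * !![1, 0; 0, 1])
    (-4) 2 2 1 (-1) (1) (1) (-1) (-1) (-1) (0) (-1) (1) (1) (1) (0) (-1) (by decide +kernel)
  have t0_9 := key3 h1 h2 hm hv hw hf 0 !![1, 0; 1, -1] (!![5, 0; 2, 1] * !![1, 0; 0, 1])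
    (2) 2 0 2 (1) (-1) (0) (-1) (1) (0) (1) (0) (1) (0) (-1) (-1) (0) (by decide +kernel)
  have t0_10 := key3 h1 h2 hm hv hw hf 1 !![1, 1; 1, -1] (!![1, 1; -4, 1] * !![1, 0; 0, 1])
    (-4) 1 0 1 (1) (1) (0) (1) (0) (0) (0) (0) (1) (0) (0) (-1) (-1) (by decide +kernel)
  have t0_11 := key3 h1 h2 hm hv hw hf 2 !![1, 1; 1, -1] (!![1, -1; 4, 1] * !![1, 0; 0, 1])
    (-1) 2 2 2 (-1) (1) (1) (1) (-1) (-1) (-1) (-1) (-1) (-1) (0) (-1) (-1) (by decide +kernel)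
  have t0_12 := key3 h1 h2 hm hv hw hf 2 !![1, 1; 1, -1] (!![1, 2; -2, 1] * !![1, 0; 0, 1])
    (-1) 2 1 2 (-1) (1) (-1) (1) (-1) (0) (-1) (1) (-1) (1) (0) (-1) (-1) (by decide +kernel)
  have t0_13 := key3 h1 h2 hm hv hw hf 1 !![1, 1; 1, -1] (!![1, -2; 2, 1] * !![1, 0; 0, 1])
    (-4) 1 0 0 (1) (1) (0) (0) (0) (0) (0) (0) (0) (0) (0) (-1) (-1) (by decide +kernel)
  have e1 := T5e v !![1, -1; 0, 1]
  have t1_0 := key3 h1 h2 hm hv hw hf 1 !![1, -1; 0, 1] (!![5, 0; 0, 1] * !![1, -1; 0, 1])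
    (-2) 1 0 2 (1) (1) (0) (-1) (0) (0) (1) (0) (-1) (0) (1) (0) (1) (by decide +kernel)
  have t1_1 := key3 h1 h2 hm hv hw hf 1 !![1, -1; 0, 1] (!![1, 0; 0, 5] * !![1, -1; 0, 1])
    (2) 2 0 1 (1) (-1) (0) (1) (1) (0) (0) (0) (-1) (0) (1) (0) (1) (by decide +kernel)
  have t1_2 := key3 h1 h2 hm hv hw hf 1 !![1, 0; 0, 1] (!![1, 1; 0, 5] * !![1, -1; 0, 1])
    (2) 0 2 2 (1) (0) (-1) (-1) (0) (1) (1) (0) (0) (1) (0) (-1) (1) (by decide +kernel)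
  have t1_3 := key3 h1 h2 hm hv hw hf 1 !![1, 1; 0, 1] (!![1, -1; 0, 5] * !![1, -1; 0, 1])
    (2) 2 0 1 (1) (-1) (0) (1) (1) (0) (0) (0) (-1) (0) (1) (-1) (0) (by decide +kernel)
  have t1_4 := key3 h1 h2 hm hv hw hf 2 !![1, 1; 1, -1] (!![5, 0; -4, 1] * !![1, -1; 0, 1])
    (1) 0 1 2 (-1) (0) (-1) (1) (0) (0) (-1) (0) (0) (1) (0) (-1) (-1) (by decide +kernel)
  have t1_5 := key3 h1 h2 hm hv hw hf 3 !![1, 0; 1, -1] (!![5, 0; 4, 1] * !![1, -1; 0, 1])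
    (-4) 2 2 2 (-1) (1) (1) (1) (-1) (-1) (-1) (-1) (-1) (-1) (-1) (-1) (0) (by decide +kernel)
  have t1_6 := key3 h1 h2 hm hv hw hf 1 !![1, 1; 0, 1] (!![1, 2; 0, 5] * !![1, -1; 0, 1])
    (2) 1 1 0 (1) (1) (1) (0) (0) (0) (0) (1) (0) (0) (1) (-1) (0) (by decide +kernel)
  have t1_7 := key3 h1 h2 hm hv hw hf 1 !![1, 0; 0, 1] (!![1, -2; 0, 5] * !![1, -1; 0, 1])
    (2) 1 1 0 (1) (1) (1) (0) (0) (0) (0) (1) (0) (0) (0) (-1) (1) (by decide +kernel)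
  have t1_8 := key3 h1 h2 hm hv hw hf 3 !![1, 0; 1, -1] (!![5, 0; -2, 1] * !![1, -1; 0, 1])
    (-4) 1 1 1 (-1) (-1) (-1) (-1) (0) (0) (0) (-1) (-1) (-1) (-1) (-1) (0) (by decide +kernel)
  have t1_9 := key3 h1 h2 hm hv hw hf 2 !![1, 1; 1, -1] (!![5, 0; 2, 1] * !![1, -1; 0, 1])
    (1) 1 2 0 (-1) (-1) (1) (0) (0) (-1) (0) (1) (0) (0) (0) (-1) (-1) (by decide +kernel)
  have t1_10 := key3 h1 h2 hm hv hw hf 3 !![1, 1; 1, 0] (!![1, 1; -4, 1] * !![1, -1; 0, 1])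
    (4) 2 0 2 (-1) (1) (0) (1) (-1) (0) (-1) (0) (-1) (0) (1) (0) (-1) (by decide +kernel)
  have t1_11 := key3 h1 h2 hm hv hw hf 0 !![1, 1; 1, 0] (!![1, -1; 4, 1] * !![1, -1; 0, 1])
    (-2) 0 2 0 (1) (0) (-1) (0) (0) (1) (0) (0) (0) (0) (1) (0) (-1) (by decide +kernel)
  have t1_12 := key3 h1 h2 hm hv hw hf 0 !![1, 1; 1, 0] (!![1, 2; -2, 1] * !![1, -1; 0, 1])
    (-2) 0 2 1 (1) (0) (-1) (1) (0) (1) (0) (0) (0) (-1) (1) (0) (-1) (by decide +kernel)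
  have t1_13 := key3 h1 h2 hm hv hw hf 3 !![1, 1; 1, 0] (!![1, -2; 2, 1] * !![1, -1; 0, 1])
    (4) 1 0 2 (-1) (-1) (0) (1) (0) (0) (-1) (0) (1) (0) (1) (0) (-1) (by decide +kernel)
  have e2 := T5e v !![1, 1; 0, 1]
  have t2_0 := key3 h1 h2 hm hv hw hf 1 !![1, 1; 0, 1] (!![5, 0; 0, 1] * !![1, 1; 0, 1])
    (-2) 2 2 0 (1) (-1) (-1) (0) (1) (1) (0) (1) (0) (0) (1) (-1) (0) (by decide +kernel)
  have t2_1 := key3 h1 h2 hm hv hw hf 1 !![1, 1; 0, 1] (!![1, 0; 0, 5] * !![1, 1; 0, 1])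
    (2) 1 1 0 (1) (1) (1) (0) (0) (0) (0) (1) (0) (0) (1) (-1) (0) (by decide +kernel)
  have t2_2 := key3 h1 h2 hm hv hw hf 1 !![1, -1; 0, 1] (!![1, 1; 0, 5] * !![1, 1; 0, 1])
    (2) 1 1 0 (1) (1) (1) (0) (0) (0) (0) (1) (0) (0) (1) (0) (1) (by decide +kernel)
  have t2_3 := key3 h1 h2 hm hv hw hf 1 !![1, 0; 0, 1] (!![1, -1; 0, 5] * !![1, 1; 0, 1])
    (2) 0 2 2 (1) (0) (-1) (-1) (0) (1) (1) (0) (0) (1) (0) (-1) (1) (by decide +kernel)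
  have t2_4 := key3 h1 h2 hm hv hw hf 0 !![1, 1; 1, 0] (!![5, 0; -4, 1] * !![1, 1; 0, 1])
    (2) 2 2 0 (1) (-1) (-1) (0) (1) (1) (0) (1) (0) (0) (1) (0) (-1) (by decide +kernel)
  have t2_5 := key3 h1 h2 hm hv hw hf 1 !![1, 1; 1, -1] (!![5, 0; 4, 1] * !![1, 1; 0, 1])
    (4) 0 0 0 (1) (0) (0) (0) (0) (0) (0) (0) (0) (0) (0) (-1) (-1) (by decide +kernel)
  have t2_6 := key3 h1 h2 hm hv hw hf 1 !![1, 0; 0, 1] (!![1, 2; 0, 5] * !![1, 1; 0, 1])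
    (2) 2 0 1 (1) (-1) (0) (1) (1) (0) (0) (0) (-1) (0) (0) (-1) (1) (by decide +kernel)
  have t2_7 := key3 h1 h2 hm hv hw hf 1 !![1, -1; 0, 1] (!![1, -2; 0, 5] * !![1, 1; 0, 1])
    (2) 2 0 1 (1) (-1) (0) (1) (1) (0) (0) (0) (-1) (0) (1) (0) (1) (by decide +kernel)
  have t2_8 := key3 h1 h2 hm hv hw hf 1 !![1, 1; 1, -1] (!![5, 0; -2, 1] * !![1, 1; 0, 1])
    (4) 2 1 1 (1) (-1) (1) (1) (1) (0) (0) (-1) (-1) (1) (0) (-1) (-1) (by decide +kernel)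
  have t2_9 := key3 h1 h2 hm hv hw hf 0 !![1, 1; 1, 0] (!![5, 0; 2, 1] * !![1, 1; 0, 1])
    (2) 0 1 2 (1) (0) (1) (-1) (0) (0) (1) (0) (0) (-1) (1) (0) (-1) (by decide +kernel)
  have t2_10 := key3 h1 h2 hm hv hw hf 3 !![1, 0; 1, -1] (!![1, 1; -4, 1] * !![1, 1; 0, 1])
    (4) 1 2 2 (-1) (-1) (1) (1) (0) (-1) (-1) (1) (1) (-1) (-1) (-1) (0) (by decide +kernel)
  have t2_11 := key3 h1 h2 hm hv hw hf 0 !![1, 0; 1, -1] (!![1, -1; 4, 1] * !![1, 1; 0, 1])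
    (-2) 2 1 0 (1) (-1) (1) (0) (1) (0) (0) (-1) (0) (0) (-1) (-1) (0) (by decide +kernel)
  have t2_12 := key3 h1 h2 hm hv hw hf 0 !![1, 0; 1, -1] (!![1, 2; -2, 1] * !![1, 1; 0, 1])
    (-2) 0 1 0 (1) (0) (1) (0) (0) (0) (0) (0) (0) (0) (-1) (-1) (0) (by decide +kernel)
  have t2_13 := key3 h1 h2 hm hv hw hf 3 !![1, 0; 1, -1] (!![1, -2; 2, 1] * !![1, 1; 0, 1])
    (4) 1 0 2 (-1) (-1) (0) (1) (0) (0) (-1) (0) (1) (0) (-1) (-1) (0) (by decide +kernel)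
  have r1 := hw.N !![-1, -1; 4, 2]
  have k1_0 := key3 h1 h2 hm hv hw hf 1 !![1, 1; 1, -1] (!![-1, -1; 4, 2])
    (1) 2 1 1 (1) (-1) (1) (1) (1) (0) (0) (-1) (-1) (1) (0) (-1) (-1) (by decide +kernel)
  have k1_1 := key3 h1 h2 hm hv hw hf 2 !![1, 1; 1, -1] (mS * !![-1, -1; 4, 2])
    (-2) 2 2 0 (-1) (1) (1) (0) (-1) (-1) (0) (-1) (0) (0) (0) (-1) (-1) (by decide +kernel)
  have k1_2 := key3 h1 h2 hm hv hw hf 0 !![1, 1; 1, 0] (!![1, 0; -1, 1] * !![-1, -1; 4, 2])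
    (-4) 0 1 2 (1) (0) (1) (-1) (0) (0) (1) (0) (0) (-1) (1) (0) (-1) (by decide +kernel)
  have k1_3 := key3 h1 h2 hm hv hw hf 3 !![1, 0; 1, -1] (mS * mT' * !![-1, -1; 4, 2])
    (-1) 2 1 1 (-1) (1) (-1) (-1) (-1) (0) (0) (1) (1) (-1) (-1) (-1) (0) (by decide +kernel)
  have r2 := hw.N !![-2, 3; 0, 1]
  have k2_0 := key3 h1 h2 hm hv hw hf 0 !![1, 0; 0, 1] (!![-2, 3; 0, 1])
    (4) 2 0 1 (1) (-1) (0) (1) (1) (0) (0) (0) (-1) (0) (0) (-1) (1) (by decide +kernel)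
  have k2_1 := key3 h1 h2 hm hv hw hf 3 !![1, 0; 0, 1] (mS * !![-2, 3; 0, 1])
    (-1) 2 1 2 (-1) (1) (-1) (1) (-1) (0) (-1) (1) (-1) (1) (0) (-1) (1) (by decide +kernel)
  have k2_2 := key3 h1 h2 hm hv hw hf 1 !![1, 0; 1, -1] (!![1, 0; -1, 1] * !![-2, 3; 0, 1])
    (-4) 2 0 1 (1) (-1) (0) (1) (1) (0) (0) (0) (-1) (0) (-1) (-1) (0) (by decide +kernel)
  have k2_3 := key3 h1 h2 hm hv hw hf 3 !![1, -1; 0, 1] (mS * mT' * !![-2, 3; 0, 1])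
    (-1) 0 0 0 (-1) (0) (0) (0) (0) (0) (0) (0) (0) (0) (1) (0) (1) (by decide +kernel)
  have r3 := hw.N !![-1, 2; 1, -3]
  have k3_0 := key3 h1 h2 hm hv hw hf 1 !![1, 1; 1, 0] (!![-1, 2; 1, -3])
    (1) 1 2 1 (1) (1) (-1) (1) (0) (1) (0) (-1) (1) (-1) (1) (0) (-1) (by decide +kernel)
  have k3_1 := key3 h1 h2 hm hv hw hf 2 !![1, 1; 1, 0] (mS * !![-1, 2; 1, -3])
    (-2) 2 2 2 (-1) (1) (1) (1) (-1) (-1) (-1) (-1) (-1) (-1) (1) (0) (-1) (by decide +kernel)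
  have k3_2 := key3 h1 h2 hm hv hw hf 0 !![1, 1; 1, -1] (!![1, 0; -1, 1] * !![-1, 2; 1, -3])
    (2) 0 2 0 (1) (0) (-1) (0) (0) (1) (0) (0) (0) (0) (0) (-1) (-1) (by decide +kernel)
  have k3_3 := key3 h1 h2 hm hv hw hf 1 !![1, 0; 1, -1] (mS * mT' * !![-1, 2; 1, -3])
    (1) 2 0 0 (1) (-1) (0) (0) (1) (0) (0) (0) (0) (0) (-1) (-1) (0) (by decide +kernel)
  have r4 := hw.N !![-2, -3; 0, -1]
  have k4_0 := key3 h1 h2 hm hv hw hf 1 !![1, 0; 0, 1] (!![-2, -3; 0, -1])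
    (-4) 1 1 0 (1) (1) (1) (0) (0) (0) (0) (1) (0) (0) (0) (-1) (1) (by decide +kernel)
  have k4_1 := key3 h1 h2 hm hv hw hf 2 !![1, 0; 0, 1] (mS * !![-2, -3; 0, -1])
    (-1) 1 2 1 (-1) (-1) (1) (-1) (0) (-1) (0) (1) (-1) (1) (0) (-1) (1) (by decide +kernel)
  have k4_2 := key3 h1 h2 hm hv hw hf 3 !![1, 1; 1, 0] (!![1, 0; -1, 1] * !![-2, -3; 0, -1])
    (1) 2 1 1 (-1) (1) (-1) (-1) (-1) (0) (0) (1) (1) (-1) (1) (0) (-1) (by decide +kernel)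
  have k4_3 := key3 h1 h2 hm hv hw hf 2 !![1, 1; 0, 1] (mS * mT' * !![-2, -3; 0, -1])
    (-1) 0 0 0 (-1) (0) (0) (0) (0) (0) (0) (0) (0) (0) (1) (-1) (0) (by decide +kernel)
  linear_combination hac + (1) * e0 + (1) * t0_0 + (1) * t0_1 + (1) * t0_2 + (1) * t0_3 + (1) * t0_4
    + (1) * t0_5 + (1) * t0_6 + (1) * t0_7 + (1) * t0_8 + (1) * t0_9 + (-1) * t0_10
    + (-1) * t0_11 + (-1) * t0_12 + (-1) * t0_13 + (-1) * e1 + (-1) * t1_0 + (-1) * t1_1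
    + (-1) * t1_2 + (-1) * t1_3 + (-1) * t1_4 + (-1) * t1_5 + (-1) * t1_6 + (-1) * t1_7
    + (-1) * t1_8 + (-1) * t1_9 + (1) * t1_10 + (1) * t1_11 + (1) * t1_12 + (1) * t1_13
    + (-1) * e2 + (-1) * t2_0 + (-1) * t2_1 + (-1) * t2_2 + (-1) * t2_3 + (-1) * t2_4
    + (-1) * t2_5 + (-1) * t2_6 + (-1) * t2_7 + (-1) * t2_8 + (-1) * t2_9 + (1) * t2_10
    + (1) * t2_11 + (1) * t2_12 + (1) * t2_13 + (1) * r1 + (-1) * k1_0 + (1) * k1_1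
    + (-1) * k1_2 + (1) * k1_3 + (1) * r2 + (-1) * k2_0 + (1) * k2_1 + (-1) * k2_2
    + (1) * k2_3 + (1) * r3 + (-1) * k3_0 + (1) * k3_1 + (-1) * k3_2 + (1) * k3_3
    + (1) * r4 + (-1) * k4_0 + (1) * k4_1 + (-1) * k4_2 + (1) * k4_3 + (3) * s100
    + (-1) * s101 + (4) * s201 + (-10) * s102 + (1) * s212 + (1) * s110 + (1) * s220
    + ((-2) * v !![1, 0; 0, 1]
    + (-2) * cc v 0 0 0
    + (-1) * cc v 0 1 1
    + (1) * cc v 1 1 1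
    + (-2) * cc v 0 2 2
    + (-2) * cc v 0 0 1
    + (-2) * cc v 0 0 2
    + (-1) * cc v 0 1 2
    + (-1) * v !![1, 1; 0, 1]
    + (-1) * v !![1, -1; 0, 1]
    + (1) * v !![1, 0; 1, -1]
    + (-1) * Xd 0 v !![1, 0; 1, -1]
    + (1) * Xd 1 v !![1, 0; 1, -1]
    + (-2) * v !![1, 1; 1, 0]
    + (2) * Xd 2 v !![1, 1; 1, 0]
    + (-1) * v !![1, 1; 1, -1]
    + (-2) * Xd 2 v !![1, 1; 1, -1]) * h3

theorem t_lap1 (h1 : StKOne) (h2 : StVOne) (hm : 1 ≤ m) (hv : MF m v)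
    (hw : WR2 v) (hf : Fil 3 v) (sw1 : ∀ i j k, cc v i j k = cc v j i k)
    (sw2 : ∀ i j k, cc v i j k = cc v i k j) :
    ac 1 (T5 v) = -(cc v 0 0 1 + cc v 1 1 1 + cc v 2 2 1) := by
  have h3 : (3 : ZMod 3) = 0 := by decide
  have hac : ac 1 (T5 v) = (1) * T5 v !![1, 0; 0, 1] + (-1) * T5 v !![1, -1; 0, 1] +
      (1) * T5 v !![1, 1; 0, 1] := by
    rw [ac_eq1]
    ring
  have s221 : cc v 2 2 1 = cc v 1 2 2 := ((sw2 2 2 1).trans (sw1 2 1 2))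
  have s212 : cc v 2 1 2 = cc v 1 2 2 := (sw1 2 1 2)
  have s202 : cc v 2 0 2 = cc v 0 2 2 := (sw1 2 0 2)
  have s201 : cc v 2 0 1 = cc v 0 1 2 := ((sw1 2 0 1).trans (sw2 0 2 1))
  have s101 : cc v 1 0 1 = cc v 0 1 1 := (sw1 1 0 1)
  have s211 : cc v 2 1 1 = cc v 1 1 2 := ((sw1 2 1 1).trans (sw2 1 2 1))
  have s200 : cc v 2 0 0 = cc v 0 0 2 := ((sw1 2 0 0).trans (sw2 0 2 0))
  have s100 : cc v 1 0 0 = cc v 0 0 1 := ((sw1 1 0 0).trans (sw2 0 1 0))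
  have e0 := T5e v !![1, 0; 0, 1]
  have t0_0 := key3 h1 h2 hm hv hw hf 1 !![1, 0; 0, 1] (!![5, 0; 0, 1] * !![1, 0; 0, 1])
    (-2) 0 1 1 (1) (0) (1) (1) (0) (0) (0) (0) (0) (1) (0) (-1) (1) (by decide +kernel)
  have t0_1 := key3 h1 h2 hm hv hw hf 1 !![1, 0; 0, 1] (!![1, 0; 0, 5] * !![1, 0; 0, 1])
    (2) 0 2 2 (1) (0) (-1) (-1) (0) (1) (1) (0) (0) (1) (0) (-1) (1) (by decide +kernel)
  have t0_2 := key3 h1 h2 hm hv hw hf 1 !![1, 1; 0, 1] (!![1, 1; 0, 5] * !![1, 0; 0, 1])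
    (2) 1 1 0 (1) (1) (1) (0) (0) (0) (0) (1) (0) (0) (1) (-1) (0) (by decide +kernel)
  have t0_3 := key3 h1 h2 hm hv hw hf 1 !![1, -1; 0, 1] (!![1, -1; 0, 5] * !![1, 0; 0, 1])
    (2) 2 0 1 (1) (-1) (0) (1) (1) (0) (0) (0) (-1) (0) (1) (0) (1) (by decide +kernel)
  have t0_4 := key3 h1 h2 hm hv hw hf 0 !![1, 0; 1, -1] (!![5, 0; -4, 1] * !![1, 0; 0, 1])
    (2) 0 1 1 (1) (0) (1) (1) (0) (0) (0) (0) (0) (1) (-1) (-1) (0) (by decide +kernel)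
  have t0_5 := key3 h1 h2 hm hv hw hf 3 !![1, 1; 1, 0] (!![5, 0; 4, 1] * !![1, 0; 0, 1])
    (-4) 1 1 2 (-1) (-1) (-1) (1) (0) (0) (-1) (-1) (1) (1) (1) (0) (-1) (by decide +kernel)
  have t0_6 := key3 h1 h2 hm hv hw hf 1 !![1, -1; 0, 1] (!![1, 2; 0, 5] * !![1, 0; 0, 1])
    (2) 1 1 0 (1) (1) (1) (0) (0) (0) (0) (1) (0) (0) (1) (0) (1) (by decide +kernel)
  have t0_7 := key3 h1 h2 hm hv hw hf 1 !![1, 1; 0, 1] (!![1, -2; 0, 5] * !![1, 0; 0, 1])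
    (2) 2 0 1 (1) (-1) (0) (1) (1) (0) (0) (0) (-1) (0) (1) (-1) (0) (by decide +kernel)
  have t0_8 := key3 h1 h2 hm hv hw hf 3 !![1, 1; 1, 0] (!![5, 0; -2, 1] * !![1, 0; 0, 1])
    (-4) 2 2 1 (-1) (1) (1) (-1) (-1) (-1) (0) (-1) (1) (1) (1) (0) (-1) (by decide +kernel)
  have t0_9 := key3 h1 h2 hm hv hw hf 0 !![1, 0; 1, -1] (!![5, 0; 2, 1] * !![1, 0; 0, 1])
    (2) 2 0 2 (1) (-1) (0) (-1) (1) (0) (1) (0) (1) (0) (-1) (-1) (0) (by decide +kernel)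
  have t0_10 := key3 h1 h2 hm hv hw hf 1 !![1, 1; 1, -1] (!![1, 1; -4, 1] * !![1, 0; 0, 1])
    (-4) 1 0 1 (1) (1) (0) (1) (0) (0) (0) (0) (1) (0) (0) (-1) (-1) (by decide +kernel)
  have t0_11 := key3 h1 h2 hm hv hw hf 2 !![1, 1; 1, -1] (!![1, -1; 4, 1] * !![1, 0; 0, 1])
    (-1) 2 2 2 (-1) (1) (1) (1) (-1) (-1) (-1) (-1) (-1) (-1) (0) (-1) (-1) (by decide +kernel)
  have t0_12 := key3 h1 h2 hm hv hw hf 2 !![1, 1; 1, -1] (!![1, 2; -2, 1] * !![1, 0; 0, 1])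
    (-1) 2 1 2 (-1) (1) (-1) (1) (-1) (0) (-1) (1) (-1) (1) (0) (-1) (-1) (by decide +kernel)
  have t0_13 := key3 h1 h2 hm hv hw hf 1 !![1, 1; 1, -1] (!![1, -2; 2, 1] * !![1, 0; 0, 1])
    (-4) 1 0 0 (1) (1) (0) (0) (0) (0) (0) (0) (0) (0) (0) (-1) (-1) (by decide +kernel)
  have e1 := T5e v !![1, -1; 0, 1]
  have t1_0 := key3 h1 h2 hm hv hw hf 1 !![1, -1; 0, 1] (!![5, 0; 0, 1] * !![1, -1; 0, 1])
    (-2) 1 0 2 (1) (1) (0) (-1) (0) (0) (1) (0) (-1) (0) (1) (0) (1) (by decide +kernel)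
  have t1_1 := key3 h1 h2 hm hv hw hf 1 !![1, -1; 0, 1] (!![1, 0; 0, 5] * !![1, -1; 0, 1])
    (2) 2 0 1 (1) (-1) (0) (1) (1) (0) (0) (0) (-1) (0) (1) (0) (1) (by decide +kernel)
  have t1_2 := key3 h1 h2 hm hv hw hf 1 !![1, 0; 0, 1] (!![1, 1; 0, 5] * !![1, -1; 0, 1])
    (2) 0 2 2 (1) (0) (-1) (-1) (0) (1) (1) (0) (0) (1) (0) (-1) (1) (by decide +kernel)
  have t1_3 := key3 h1 h2 hm hv hw hf 1 !![1, 1; 0, 1] (!![1, -1; 0, 5] * !![1, -1; 0, 1])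
    (2) 2 0 1 (1) (-1) (0) (1) (1) (0) (0) (0) (-1) (0) (1) (-1) (0) (by decide +kernel)
  have t1_4 := key3 h1 h2 hm hv hw hf 2 !![1, 1; 1, -1] (!![5, 0; -4, 1] * !![1, -1; 0, 1])
    (1) 0 1 2 (-1) (0) (-1) (1) (0) (0) (-1) (0) (0) (1) (0) (-1) (-1) (by decide +kernel)
  have t1_5 := key3 h1 h2 hm hv hw hf 3 !![1, 0; 1, -1] (!![5, 0; 4, 1] * !![1, -1; 0, 1])
    (-4) 2 2 2 (-1) (1) (1) (1) (-1) (-1) (-1) (-1) (-1) (-1) (-1) (-1) (0) (by decide +kernel)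
  have t1_6 := key3 h1 h2 hm hv hw hf 1 !![1, 1; 0, 1] (!![1, 2; 0, 5] * !![1, -1; 0, 1])
    (2) 1 1 0 (1) (1) (1) (0) (0) (0) (0) (1) (0) (0) (1) (-1) (0) (by decide +kernel)
  have t1_7 := key3 h1 h2 hm hv hw hf 1 !![1, 0; 0, 1] (!![1, -2; 0, 5] * !![1, -1; 0, 1])
    (2) 1 1 0 (1) (1) (1) (0) (0) (0) (0) (1) (0) (0) (0) (-1) (1) (by decide +kernel)
  have t1_8 := key3 h1 h2 hm hv hw hf 3 !![1, 0; 1, -1] (!![5, 0; -2, 1] * !![1, -1; 0, 1])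
    (-4) 1 1 1 (-1) (-1) (-1) (-1) (0) (0) (0) (-1) (-1) (-1) (-1) (-1) (0) (by decide +kernel)
  have t1_9 := key3 h1 h2 hm hv hw hf 2 !![1, 1; 1, -1] (!![5, 0; 2, 1] * !![1, -1; 0, 1])
    (1) 1 2 0 (-1) (-1) (1) (0) (0) (-1) (0) (1) (0) (0) (0) (-1) (-1) (by decide +kernel)
  have t1_10 := key3 h1 h2 hm hv hw hf 3 !![1, 1; 1, 0] (!![1, 1; -4, 1] * !![1, -1; 0, 1])
    (4) 2 0 2 (-1) (1) (0) (1) (-1) (0) (-1) (0) (-1) (0) (1) (0) (-1) (by decide +kernel)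
  have t1_11 := key3 h1 h2 hm hv hw hf 0 !![1, 1; 1, 0] (!![1, -1; 4, 1] * !![1, -1; 0, 1])
    (-2) 0 2 0 (1) (0) (-1) (0) (0) (1) (0) (0) (0) (0) (1) (0) (-1) (by decide +kernel)
  have t1_12 := key3 h1 h2 hm hv hw hf 0 !![1, 1; 1, 0] (!![1, 2; -2, 1] * !![1, -1; 0, 1])
    (-2) 0 2 1 (1) (0) (-1) (1) (0) (1) (0) (0) (0) (-1) (1) (0) (-1) (by decide +kernel)
  have t1_13 := key3 h1 h2 hm hv hw hf 3 !![1, 1; 1, 0] (!![1, -2; 2, 1] * !![1, -1; 0, 1])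
    (4) 1 0 2 (-1) (-1) (0) (1) (0) (0) (-1) (0) (1) (0) (1) (0) (-1) (by decide +kernel)
  have e2 := T5e v !![1, 1; 0, 1]
  have t2_0 := key3 h1 h2 hm hv hw hf 1 !![1, 1; 0, 1] (!![5, 0; 0, 1] * !![1, 1; 0, 1])
    (-2) 2 2 0 (1) (-1) (-1) (0) (1) (1) (0) (1) (0) (0) (1) (-1) (0) (by decide +kernel)
  have t2_1 := key3 h1 h2 hm hv hw hf 1 !![1, 1; 0, 1] (!![1, 0; 0, 5] * !![1, 1; 0, 1])
    (2) 1 1 0 (1) (1) (1) (0) (0) (0) (0) (1) (0) (0) (1) (-1) (0) (by decide +kernel)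
  have t2_2 := key3 h1 h2 hm hv hw hf 1 !![1, -1; 0, 1] (!![1, 1; 0, 5] * !![1, 1; 0, 1])
    (2) 1 1 0 (1) (1) (1) (0) (0) (0) (0) (1) (0) (0) (1) (0) (1) (by decide +kernel)
  have t2_3 := key3 h1 h2 hm hv hw hf 1 !![1, 0; 0, 1] (!![1, -1; 0, 5] * !![1, 1; 0, 1])
    (2) 0 2 2 (1) (0) (-1) (-1) (0) (1) (1) (0) (0) (1) (0) (-1) (1) (by decide +kernel)
  have t2_4 := key3 h1 h2 hm hv hw hf 0 !![1, 1; 1, 0] (!![5, 0; -4, 1] * !![1, 1; 0, 1])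
    (2) 2 2 0 (1) (-1) (-1) (0) (1) (1) (0) (1) (0) (0) (1) (0) (-1) (by decide +kernel)
  have t2_5 := key3 h1 h2 hm hv hw hf 1 !![1, 1; 1, -1] (!![5, 0; 4, 1] * !![1, 1; 0, 1])
    (4) 0 0 0 (1) (0) (0) (0) (0) (0) (0) (0) (0) (0) (0) (-1) (-1) (by decide +kernel)
  have t2_6 := key3 h1 h2 hm hv hw hf 1 !![1, 0; 0, 1] (!![1, 2; 0, 5] * !![1, 1; 0, 1])
    (2) 2 0 1 (1) (-1) (0) (1) (1) (0) (0) (0) (-1) (0) (0) (-1) (1) (by decide +kernel)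
  have t2_7 := key3 h1 h2 hm hv hw hf 1 !![1, -1; 0, 1] (!![1, -2; 0, 5] * !![1, 1; 0, 1])
    (2) 2 0 1 (1) (-1) (0) (1) (1) (0) (0) (0) (-1) (0) (1) (0) (1) (by decide +kernel)
  have t2_8 := key3 h1 h2 hm hv hw hf 1 !![1, 1; 1, -1] (!![5, 0; -2, 1] * !![1, 1; 0, 1])
    (4) 2 1 1 (1) (-1) (1) (1) (1) (0) (0) (-1) (-1) (1) (0) (-1) (-1) (by decide +kernel)
  have t2_9 := key3 h1 h2 hm hv hw hf 0 !![1, 1; 1, 0] (!![5, 0; 2, 1] * !![1, 1; 0, 1])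
    (2) 0 1 2 (1) (0) (1) (-1) (0) (0) (1) (0) (0) (-1) (1) (0) (-1) (by decide +kernel)
  have t2_10 := key3 h1 h2 hm hv hw hf 3 !![1, 0; 1, -1] (!![1, 1; -4, 1] * !![1, 1; 0, 1])
    (4) 1 2 2 (-1) (-1) (1) (1) (0) (-1) (-1) (1) (1) (-1) (-1) (-1) (0) (by decide +kernel)
  have t2_11 := key3 h1 h2 hm hv hw hf 0 !![1, 0; 1, -1] (!![1, -1; 4, 1] * !![1, 1; 0, 1])
    (-2) 2 1 0 (1) (-1) (1) (0) (1) (0) (0) (-1) (0) (0) (-1) (-1) (0) (by decide +kernel)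
  have t2_12 := key3 h1 h2 hm hv hw hf 0 !![1, 0; 1, -1] (!![1, 2; -2, 1] * !![1, 1; 0, 1])
    (-2) 0 1 0 (1) (0) (1) (0) (0) (0) (0) (0) (0) (0) (-1) (-1) (0) (by decide +kernel)
  have t2_13 := key3 h1 h2 hm hv hw hf 3 !![1, 0; 1, -1] (!![1, -2; 2, 1] * !![1, 1; 0, 1])
    (4) 1 0 2 (-1) (-1) (0) (1) (0) (0) (-1) (0) (1) (0) (-1) (-1) (0) (by decide +kernel)
  have r1 := hw.N !![-1, -1; -1, 0]
  have k1_0 := key3 h1 h2 hm hv hw hf 0 !![1, 1; 1, 0] (!![-1, -1; -1, 0])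
    (-1) 0 0 0 (1) (0) (0) (0) (0) (0) (0) (0) (0) (0) (1) (0) (-1) (by decide +kernel)
  have k1_1 := key3 h1 h2 hm hv hw hf 3 !![1, 1; 1, 0] (mS * !![-1, -1; -1, 0])
    (-2) 1 0 1 (-1) (-1) (0) (-1) (0) (0) (0) (0) (-1) (0) (1) (0) (-1) (by decide +kernel)
  have k1_2 := key3 h1 h2 hm hv hw hf 1 !![1, 1; 0, 1] (!![1, 0; -1, 1] * !![-1, -1; -1, 0])
    (1) 0 0 0 (1) (0) (0) (0) (0) (0) (0) (0) (0) (0) (1) (-1) (0) (by decide +kernel)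
  have k1_3 := key3 h1 h2 hm hv hw hf 1 !![1, 0; 0, 1] (mS * mT' * !![-1, -1; -1, 0])
    (-1) 0 0 0 (1) (0) (0) (0) (0) (0) (0) (0) (0) (0) (0) (-1) (1) (by decide +kernel)
  have r2 := hw.N !![-4, 1; 0, -2]
  have k2_0 := key3 h1 h2 hm hv hw hf 1 !![1, -1; 0, 1] (!![-4, 1; 0, -2])
    (1) 1 1 0 (1) (1) (1) (0) (0) (0) (0) (1) (0) (0) (1) (0) (1) (by decide +kernel)
  have k2_1 := key3 h1 h2 hm hv hw hf 2 !![1, -1; 0, 1] (mS * !![-4, 1; 0, -2])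
    (-2) 2 1 2 (-1) (1) (-1) (1) (-1) (0) (-1) (1) (-1) (1) (1) (0) (1) (by decide +kernel)
  have k2_2 := key3 h1 h2 hm hv hw hf 3 !![1, 0; 1, -1] (!![1, 0; -1, 1] * !![-4, 1; 0, -2])
    (2) 2 0 0 (-1) (1) (0) (0) (-1) (0) (0) (0) (0) (0) (-1) (-1) (0) (by decide +kernel)
  have k2_3 := key3 h1 h2 hm hv hw hf 2 !![1, 0; 0, 1] (mS * mT' * !![-4, 1; 0, -2])
    (-2) 1 2 1 (-1) (-1) (1) (-1) (0) (-1) (0) (1) (-1) (1) (0) (-1) (1) (by decide +kernel)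
  have r3 := hw.N !![-2, 4; -1, 1]
  have k3_0 := key3 h1 h2 hm hv hw hf 1 !![1, 1; 1, -1] (!![-2, 4; -1, 1])
    (-1) 2 2 2 (1) (-1) (-1) (-1) (1) (1) (1) (1) (1) (1) (0) (-1) (-1) (by decide +kernel)
  have k3_1 := key3 h1 h2 hm hv hw hf 2 !![1, 1; 1, -1] (mS * !![-2, 4; -1, 1])
    (2) 2 0 1 (-1) (1) (0) (-1) (-1) (0) (0) (0) (1) (0) (0) (-1) (-1) (by decide +kernel)
  have k3_2 := key3 h1 h2 hm hv hw hf 0 !![1, 1; 1, 0] (!![1, 0; -1, 1] * !![-2, 4; -1, 1])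
    (4) 0 2 0 (1) (0) (-1) (0) (0) (1) (0) (0) (0) (0) (1) (0) (-1) (by decide +kernel)
  have k3_3 := key3 h1 h2 hm hv hw hf 3 !![1, 0; 1, -1] (mS * mT' * !![-2, 4; -1, 1])
    (1) 2 2 2 (-1) (1) (1) (1) (-1) (-1) (-1) (-1) (-1) (-1) (-1) (-1) (0) (by decide +kernel)
  linear_combination hac + (1) * e0 + (1) * t0_0 + (1) * t0_1 + (1) * t0_2 + (1) * t0_3 + (1) * t0_4
    + (1) * t0_5 + (1) * t0_6 + (1) * t0_7 + (1) * t0_8 + (1) * t0_9 + (-1) * t0_10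
    + (-1) * t0_11 + (-1) * t0_12 + (-1) * t0_13 + (-1) * e1 + (-1) * t1_0 + (-1) * t1_1
    + (-1) * t1_2 + (-1) * t1_3 + (-1) * t1_4 + (-1) * t1_5 + (-1) * t1_6 + (-1) * t1_7
    + (-1) * t1_8 + (-1) * t1_9 + (1) * t1_10 + (1) * t1_11 + (1) * t1_12 + (1) * t1_13
    + (1) * e2 + (1) * t2_0 + (1) * t2_1 + (1) * t2_2 + (1) * t2_3 + (1) * t2_4
    + (1) * t2_5 + (1) * t2_6 + (1) * t2_7 + (1) * t2_8 + (1) * t2_9 + (-1) * t2_10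
    + (-1) * t2_11 + (-1) * t2_12 + (-1) * t2_13 + (-1) * r1 + (1) * k1_0 + (-1) * k1_1
    + (1) * k1_2 + (-1) * k1_3 + (1) * r2 + (-1) * k2_0 + (1) * k2_1 + (-1) * k2_2
    + (1) * k2_3 + (-1) * r3 + (1) * k3_0 + (-1) * k3_1 + (1) * k3_2 + (-1) * k3_3
    + (-10) * s100 + (-3) * s200 + (-6) * s211 + (-4) * s101 + (4) * s201 + (-6) * s202
    + (3) * s212 + (1) * s221
    + ((-1) * Xd 0 v !![1, 0; 0, 1]
    + (-1) * cc v 0 0 0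
    + (-1) * cc v 0 1 1
    + (-2) * cc v 1 1 1
    + (-5) * cc v 0 2 2
    + (-2) * cc v 1 2 2
    + (-1) * cc v 2 2 2
    + (-3) * cc v 0 0 1
    + (-5) * cc v 1 1 2
    + (1) * v !![1, 1; 0, 1]
    + (1) * Xd 2 v !![1, -1; 0, 1]
    + (2) * v !![1, 0; 1, -1]
    + (-1) * Xd 1 v !![1, 0; 1, -1]
    + (-1) * Xd 2 v !![1, 0; 1, -1]
    + (1) * v !![1, 1; 1, 0]
    + (-1) * Xd 1 v !![1, 1; 1, 0]
    + (1) * Xd 2 v !![1, 1; 1, 0]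
    + (2) * v !![1, 1; 1, -1]
    + (-2) * Xd 0 v !![1, 1; 1, -1]
    + (-1) * Xd 2 v !![1, 1; 1, -1]
    + (-1) * cc v 0 0 2) * h3

theorem t_lap2 (h1 : StKOne) (h2 : StVOne) (hm : 1 ≤ m) (hv : MF m v)
    (hw : WR2 v) (hf : Fil 3 v) (sw1 : ∀ i j k, cc v i j k = cc v j i k)
    (sw2 : ∀ i j k, cc v i j k = cc v i k j) :
    ac 2 (T5 v) = -(cc v 0 0 2 + cc v 1 1 2 + cc v 2 2 2) := by
  have h3 : (3 : ZMod 3) = 0 := by decide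
  have hac : ac 2 (T5 v) = (-1) * T5 v !![1, 0; 0, 1] + (-1) * T5 v !![1, -1; 0, 1] +
      (1) * T5 v !![1, 1; 0, 1] := by
    rw [ac_eq2]
    ring
  have s202 : cc v 2 0 2 = cc v 0 2 2 := (sw1 2 0 2)
  have s102 : cc v 1 0 2 = cc v 0 1 2 := (sw1 1 0 2)
  have s201 : cc v 2 0 1 = cc v 0 1 2 := ((sw1 2 0 1).trans (sw2 0 2 1))
  have s101 : cc v 1 0 1 = cc v 0 1 1 := (sw1 1 0 1)
  have s211 : cc v 2 1 1 = cc v 1 1 2 := ((sw1 2 1 1).trans (sw2 1 2 1))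
  have s200 : cc v 2 0 0 = cc v 0 0 2 := ((sw1 2 0 0).trans (sw2 0 2 0))
  have e0 := T5e v !![1, 0; 0, 1]
  have t0_0 := key3 h1 h2 hm hv hw hf 1 !![1, 0; 0, 1] (!![5, 0; 0, 1] * !![1, 0; 0, 1])
    (-2) 0 1 1 (1) (0) (1) (1) (0) (0) (0) (0) (0) (1) (0) (-1) (1) (by decide +kernel)
  have t0_1 := key3 h1 h2 hm hv hw hf 1 !![1, 0; 0, 1] (!![1, 0; 0, 5] * !![1, 0; 0, 1])
    (2) 0 2 2 (1) (0) (-1) (-1) (0) (1) (1) (0) (0) (1) (0) (-1) (1) (by decide +kernel)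
  have t0_2 := key3 h1 h2 hm hv hw hf 1 !![1, 1; 0, 1] (!![1, 1; 0, 5] * !![1, 0; 0, 1])
    (2) 1 1 0 (1) (1) (1) (0) (0) (0) (0) (1) (0) (0) (1) (-1) (0) (by decide +kernel)
  have t0_3 := key3 h1 h2 hm hv hw hf 1 !![1, -1; 0, 1] (!![1, -1; 0, 5] * !![1, 0; 0, 1])
    (2) 2 0 1 (1) (-1) (0) (1) (1) (0) (0) (0) (-1) (0) (1) (0) (1) (by decide +kernel)
  have t0_4 := key3 h1 h2 hm hv hw hf 0 !![1, 0; 1, -1] (!![5, 0; -4, 1] * !![1, 0; 0, 1])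
    (2) 0 1 1 (1) (0) (1) (1) (0) (0) (0) (0) (0) (1) (-1) (-1) (0) (by decide +kernel)
  have t0_5 := key3 h1 h2 hm hv hw hf 3 !![1, 1; 1, 0] (!![5, 0; 4, 1] * !![1, 0; 0, 1])
    (-4) 1 1 2 (-1) (-1) (-1) (1) (0) (0) (-1) (-1) (1) (1) (1) (0) (-1) (by decide +kernel)
  have t0_6 := key3 h1 h2 hm hv hw hf 1 !![1, -1; 0, 1] (!![1, 2; 0, 5] * !![1, 0; 0, 1])
    (2) 1 1 0 (1) (1) (1) (0) (0) (0) (0) (1) (0) (0) (1) (0) (1) (by decide +kernel)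
  have t0_7 := key3 h1 h2 hm hv hw hf 1 !![1, 1; 0, 1] (!![1, -2; 0, 5] * !![1, 0; 0, 1])
    (2) 2 0 1 (1) (-1) (0) (1) (1) (0) (0) (0) (-1) (0) (1) (-1) (0) (by decide +kernel)
  have t0_8 := key3 h1 h2 hm hv hw hf 3 !![1, 1; 1, 0] (!![5, 0; -2, 1] * !![1, 0; 0, 1])
    (-4) 2 2 1 (-1) (1) (1) (-1) (-1) (-1) (0) (-1) (1) (1) (1) (0) (-1) (by decide +kernel)
  have t0_9 := key3 h1 h2 hm hv hw hf 0 !![1, 0; 1, -1] (!![5, 0; 2, 1] * !![1, 0; 0, 1])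
    (2) 2 0 2 (1) (-1) (0) (-1) (1) (0) (1) (0) (1) (0) (-1) (-1) (0) (by decide +kernel)
  have t0_10 := key3 h1 h2 hm hv hw hf 1 !![1, 1; 1, -1] (!![1, 1; -4, 1] * !![1, 0; 0, 1])
    (-4) 1 0 1 (1) (1) (0) (1) (0) (0) (0) (0) (1) (0) (0) (-1) (-1) (by decide +kernel)
  have t0_11 := key3 h1 h2 hm hv hw hf 2 !![1, 1; 1, -1] (!![1, -1; 4, 1] * !![1, 0; 0, 1])
    (-1) 2 2 2 (-1) (1) (1) (1) (-1) (-1) (-1) (-1) (-1) (-1) (0) (-1) (-1) (by decide +kernel)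
  have t0_12 := key3 h1 h2 hm hv hw hf 2 !![1, 1; 1, -1] (!![1, 2; -2, 1] * !![1, 0; 0, 1])
    (-1) 2 1 2 (-1) (1) (-1) (1) (-1) (0) (-1) (1) (-1) (1) (0) (-1) (-1) (by decide +kernel)
  have t0_13 := key3 h1 h2 hm hv hw hf 1 !![1, 1; 1, -1] (!![1, -2; 2, 1] * !![1, 0; 0, 1])
    (-4) 1 0 0 (1) (1) (0) (0) (0) (0) (0) (0) (0) (0) (0) (-1) (-1) (by decide +kernel)
  have e1 := T5e v !![1, -1; 0, 1]
  have t1_0 := key3 h1 h2 hm hv hw hf 1 !![1, -1; 0, 1] (!![5, 0; 0, 1] * !![1, -1; 0, 1])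
    (-2) 1 0 2 (1) (1) (0) (-1) (0) (0) (1) (0) (-1) (0) (1) (0) (1) (by decide +kernel)
  have t1_1 := key3 h1 h2 hm hv hw hf 1 !![1, -1; 0, 1] (!![1, 0; 0, 5] * !![1, -1; 0, 1])
    (2) 2 0 1 (1) (-1) (0) (1) (1) (0) (0) (0) (-1) (0) (1) (0) (1) (by decide +kernel)
  have t1_2 := key3 h1 h2 hm hv hw hf 1 !![1, 0; 0, 1] (!![1, 1; 0, 5] * !![1, -1; 0, 1])
    (2) 0 2 2 (1) (0) (-1) (-1) (0) (1) (1) (0) (0) (1) (0) (-1) (1) (by decide +kernel)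
  have t1_3 := key3 h1 h2 hm hv hw hf 1 !![1, 1; 0, 1] (!![1, -1; 0, 5] * !![1, -1; 0, 1])
    (2) 2 0 1 (1) (-1) (0) (1) (1) (0) (0) (0) (-1) (0) (1) (-1) (0) (by decide +kernel)
  have t1_4 := key3 h1 h2 hm hv hw hf 2 !![1, 1; 1, -1] (!![5, 0; -4, 1] * !![1, -1; 0, 1])
    (1) 0 1 2 (-1) (0) (-1) (1) (0) (0) (-1) (0) (0) (1) (0) (-1) (-1) (by decide +kernel)
  have t1_5 := key3 h1 h2 hm hv hw hf 3 !![1, 0; 1, -1] (!![5, 0; 4, 1] * !![1, -1; 0, 1])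
    (-4) 2 2 2 (-1) (1) (1) (1) (-1) (-1) (-1) (-1) (-1) (-1) (-1) (-1) (0) (by decide +kernel)
  have t1_6 := key3 h1 h2 hm hv hw hf 1 !![1, 1; 0, 1] (!![1, 2; 0, 5] * !![1, -1; 0, 1])
    (2) 1 1 0 (1) (1) (1) (0) (0) (0) (0) (1) (0) (0) (1) (-1) (0) (by decide +kernel)
  have t1_7 := key3 h1 h2 hm hv hw hf 1 !![1, 0; 0, 1] (!![1, -2; 0, 5] * !![1, -1; 0, 1])
    (2) 1 1 0 (1) (1) (1) (0) (0) (0) (0) (1) (0) (0) (0) (-1) (1) (by decide +kernel)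
  have t1_8 := key3 h1 h2 hm hv hw hf 3 !![1, 0; 1, -1] (!![5, 0; -2, 1] * !![1, -1; 0, 1])
    (-4) 1 1 1 (-1) (-1) (-1) (-1) (0) (0) (0) (-1) (-1) (-1) (-1) (-1) (0) (by decide +kernel)
  have t1_9 := key3 h1 h2 hm hv hw hf 2 !![1, 1; 1, -1] (!![5, 0; 2, 1] * !![1, -1; 0, 1])
    (1) 1 2 0 (-1) (-1) (1) (0) (0) (-1) (0) (1) (0) (0) (0) (-1) (-1) (by decide +kernel)
  have t1_10 := key3 h1 h2 hm hv hw hf 3 !![1, 1; 1, 0] (!![1, 1; -4, 1] * !![1, -1; 0, 1])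
    (4) 2 0 2 (-1) (1) (0) (1) (-1) (0) (-1) (0) (-1) (0) (1) (0) (-1) (by decide +kernel)
  have t1_11 := key3 h1 h2 hm hv hw hf 0 !![1, 1; 1, 0] (!![1, -1; 4, 1] * !![1, -1; 0, 1])
    (-2) 0 2 0 (1) (0) (-1) (0) (0) (1) (0) (0) (0) (0) (1) (0) (-1) (by decide +kernel)
  have t1_12 := key3 h1 h2 hm hv hw hf 0 !![1, 1; 1, 0] (!![1, 2; -2, 1] * !![1, -1; 0, 1])
    (-2) 0 2 1 (1) (0) (-1) (1) (0) (1) (0) (0) (0) (-1) (1) (0) (-1) (by decide +kernel)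
  have t1_13 := key3 h1 h2 hm hv hw hf 3 !![1, 1; 1, 0] (!![1, -2; 2, 1] * !![1, -1; 0, 1])
    (4) 1 0 2 (-1) (-1) (0) (1) (0) (0) (-1) (0) (1) (0) (1) (0) (-1) (by decide +kernel)
  have e2 := T5e v !![1, 1; 0, 1]
  have t2_0 := key3 h1 h2 hm hv hw hf 1 !![1, 1; 0, 1] (!![5, 0; 0, 1] * !![1, 1; 0, 1])
    (-2) 2 2 0 (1) (-1) (-1) (0) (1) (1) (0) (1) (0) (0) (1) (-1) (0) (by decide +kernel)
  have t2_1 := key3 h1 h2 hm hv hw hf 1 !![1, 1; 0, 1] (!![1, 0; 0, 5] * !![1, 1; 0, 1])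
    (2) 1 1 0 (1) (1) (1) (0) (0) (0) (0) (1) (0) (0) (1) (-1) (0) (by decide +kernel)
  have t2_2 := key3 h1 h2 hm hv hw hf 1 !![1, -1; 0, 1] (!![1, 1; 0, 5] * !![1, 1; 0, 1])
    (2) 1 1 0 (1) (1) (1) (0) (0) (0) (0) (1) (0) (0) (1) (0) (1) (by decide +kernel)
  have t2_3 := key3 h1 h2 hm hv hw hf 1 !![1, 0; 0, 1] (!![1, -1; 0, 5] * !![1, 1; 0, 1])
    (2) 0 2 2 (1) (0) (-1) (-1) (0) (1) (1) (0) (0) (1) (0) (-1) (1) (by decide +kernel)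
  have t2_4 := key3 h1 h2 hm hv hw hf 0 !![1, 1; 1, 0] (!![5, 0; -4, 1] * !![1, 1; 0, 1])
    (2) 2 2 0 (1) (-1) (-1) (0) (1) (1) (0) (1) (0) (0) (1) (0) (-1) (by decide +kernel)
  have t2_5 := key3 h1 h2 hm hv hw hf 1 !![1, 1; 1, -1] (!![5, 0; 4, 1] * !![1, 1; 0, 1])
    (4) 0 0 0 (1) (0) (0) (0) (0) (0) (0) (0) (0) (0) (0) (-1) (-1) (by decide +kernel)
  have t2_6 := key3 h1 h2 hm hv hw hf 1 !![1, 0; 0, 1] (!![1, 2; 0, 5] * !![1, 1; 0, 1])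
    (2) 2 0 1 (1) (-1) (0) (1) (1) (0) (0) (0) (-1) (0) (0) (-1) (1) (by decide +kernel)
  have t2_7 := key3 h1 h2 hm hv hw hf 1 !![1, -1; 0, 1] (!![1, -2; 0, 5] * !![1, 1; 0, 1])
    (2) 2 0 1 (1) (-1) (0) (1) (1) (0) (0) (0) (-1) (0) (1) (0) (1) (by decide +kernel)
  have t2_8 := key3 h1 h2 hm hv hw hf 1 !![1, 1; 1, -1] (!![5, 0; -2, 1] * !![1, 1; 0, 1])
    (4) 2 1 1 (1) (-1) (1) (1) (1) (0) (0) (-1) (-1) (1) (0) (-1) (-1) (by decide +kernel)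
  have t2_9 := key3 h1 h2 hm hv hw hf 0 !![1, 1; 1, 0] (!![5, 0; 2, 1] * !![1, 1; 0, 1])
    (2) 0 1 2 (1) (0) (1) (-1) (0) (0) (1) (0) (0) (-1) (1) (0) (-1) (by decide +kernel)
  have t2_10 := key3 h1 h2 hm hv hw hf 3 !![1, 0; 1, -1] (!![1, 1; -4, 1] * !![1, 1; 0, 1])
    (4) 1 2 2 (-1) (-1) (1) (1) (0) (-1) (-1) (1) (1) (-1) (-1) (-1) (0) (by decide +kernel)
  have t2_11 := key3 h1 h2 hm hv hw hf 0 !![1, 0; 1, -1] (!![1, -1; 4, 1] * !![1, 1; 0, 1])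
    (-2) 2 1 0 (1) (-1) (1) (0) (1) (0) (0) (-1) (0) (0) (-1) (-1) (0) (by decide +kernel)
  have t2_12 := key3 h1 h2 hm hv hw hf 0 !![1, 0; 1, -1] (!![1, 2; -2, 1] * !![1, 1; 0, 1])
    (-2) 0 1 0 (1) (0) (1) (0) (0) (0) (0) (0) (0) (0) (-1) (-1) (0) (by decide +kernel)
  have t2_13 := key3 h1 h2 hm hv hw hf 3 !![1, 0; 1, -1] (!![1, -2; 2, 1] * !![1, 1; 0, 1])
    (4) 1 0 2 (-1) (-1) (0) (1) (0) (0) (-1) (0) (1) (0) (-1) (-1) (0) (by decide +kernel)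
  have r1 := hw.N !![-1, -1; -2, -4]
  have k1_0 := key3 h1 h2 hm hv hw hf 1 !![1, 1; 1, -1] (!![-1, -1; -2, -4])
    (1) 1 2 2 (1) (1) (-1) (-1) (0) (1) (1) (-1) (-1) (1) (0) (-1) (-1) (by decide +kernel)
  have k1_1 := key3 h1 h2 hm hv hw hf 2 !![1, 1; 1, -1] (mS * !![-1, -1; -2, -4])
    (-2) 1 0 1 (-1) (-1) (0) (-1) (0) (0) (0) (0) (-1) (0) (0) (-1) (-1) (by decide +kernel)
  have k1_2 := key3 h1 h2 hm hv hw hf 0 !![1, 1; 1, 0] (!![1, 0; -1, 1] * !![-1, -1; -2, -4])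
    (-4) 2 2 0 (1) (-1) (-1) (0) (1) (1) (0) (1) (0) (0) (1) (0) (-1) (by decide +kernel)
  have k1_3 := key3 h1 h2 hm hv hw hf 3 !![1, 0; 1, -1] (mS * mT' * !![-1, -1; -2, -4])
    (-1) 1 2 2 (-1) (-1) (1) (1) (0) (-1) (-1) (1) (1) (-1) (-1) (-1) (0) (by decide +kernel)
  have r2 := hw.N !![-4, -1; 0, 2]
  have k2_0 := key3 h1 h2 hm hv hw hf 0 !![1, 1; 0, 1] (!![-4, -1; 0, 2])
    (-1) 2 0 1 (1) (-1) (0) (1) (1) (0) (0) (0) (-1) (0) (1) (-1) (0) (by decide +kernel)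
  have k2_1 := key3 h1 h2 hm hv hw hf 3 !![1, 1; 0, 1] (mS * !![-4, -1; 0, 2])
    (-2) 1 2 1 (-1) (-1) (1) (-1) (0) (-1) (0) (1) (-1) (1) (1) (-1) (0) (by decide +kernel)
  have k2_2 := key3 h1 h2 hm hv hw hf 1 !![1, 1; 1, 0] (!![1, 0; -1, 1] * !![-4, -1; 0, 2])
    (1) 2 0 1 (1) (-1) (0) (1) (1) (0) (0) (0) (-1) (0) (1) (0) (-1) (by decide +kernel)
  have k2_3 := key3 h1 h2 hm hv hw hf 3 !![1, 0; 0, 1] (mS * mT' * !![-4, -1; 0, 2])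
    (-2) 2 1 2 (-1) (1) (-1) (1) (-1) (0) (-1) (1) (-1) (1) (0) (-1) (1) (by decide +kernel)
  have r3 := hw.N !![-1, 0; -1, 1]
  have k3_0 := key3 h1 h2 hm hv hw hf 0 !![1, 0; 1, -1] (!![-1, 0; -1, 1])
    (-1) 0 0 0 (1) (0) (0) (0) (0) (0) (0) (0) (0) (0) (-1) (-1) (0) (by decide +kernel)
  have k3_1 := key3 h1 h2 hm hv hw hf 3 !![1, 0; 1, -1] (mS * !![-1, 0; -1, 1])
    (-2) 1 2 0 (-1) (-1) (1) (0) (0) (-1) (0) (1) (0) (0) (-1) (-1) (0) (by decide +kernel)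
  have k3_2 := key3 h1 h2 hm hv hw hf 1 !![1, 0; 0, 1] (!![1, 0; -1, 1] * !![-1, 0; -1, 1])
    (1) 0 0 0 (1) (0) (0) (0) (0) (0) (0) (0) (0) (0) (0) (-1) (1) (by decide +kernel)
  have k3_3 := key3 h1 h2 hm hv hw hf 1 !![1, -1; 0, 1] (mS * mT' * !![-1, 0; -1, 1])
    (-1) 0 0 0 (1) (0) (0) (0) (0) (0) (0) (0) (0) (0) (1) (0) (1) (by decide +kernel)
  linear_combination hac + (-1) * e0 + (-1) * t0_0 + (-1) * t0_1 + (-1) * t0_2 + (-1) * t0_3 + (-1) * t0_4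
    + (-1) * t0_5 + (-1) * t0_6 + (-1) * t0_7 + (-1) * t0_8 + (-1) * t0_9 + (1) * t0_10
    + (1) * t0_11 + (1) * t0_12 + (1) * t0_13 + (-1) * e1 + (-1) * t1_0 + (-1) * t1_1
    + (-1) * t1_2 + (-1) * t1_3 + (-1) * t1_4 + (-1) * t1_5 + (-1) * t1_6 + (-1) * t1_7
    + (-1) * t1_8 + (-1) * t1_9 + (1) * t1_10 + (1) * t1_11 + (1) * t1_12 + (1) * t1_13
    + (1) * e2 + (1) * t2_0 + (1) * t2_1 + (1) * t2_2 + (1) * t2_3 + (1) * t2_4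
    + (1) * t2_5 + (1) * t2_6 + (1) * t2_7 + (1) * t2_8 + (1) * t2_9 + (-1) * t2_10
    + (-1) * t2_11 + (-1) * t2_12 + (-1) * t2_13 + (-1) * r1 + (1) * k1_0 + (-1) * k1_1
    + (1) * k1_2 + (-1) * k1_3 + (-1) * r2 + (1) * k2_0 + (-1) * k2_1 + (1) * k2_2
    + (-1) * k2_3 + (-1) * r3 + (1) * k3_0 + (-1) * k3_1 + (1) * k3_2 + (-1) * k3_3
    + (-1) * s200 + (-7) * s211 + (6) * s101 + (-3) * s201 + (2) * s102 + (7) * s202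
    + ((-1) * Xd 0 v !![1, 0; 0, 1]
    + (1) * cc v 0 0 0
    + (3) * cc v 0 1 1
    + (-2) * cc v 1 1 1
    + (1) * cc v 0 2 2
    + (-1) * cc v 1 2 2
    + (1) * cc v 0 0 1
    + (1) * cc v 0 0 2
    + (-3) * cc v 0 1 2
    + (-2) * cc v 1 1 2
    + (-1) * Xd 1 v !![1, 1; 0, 1]
    + (-1) * v !![1, -1; 0, 1]
    + (1) * v !![1, 0; 1, -1]
    + (2) * Xd 0 v !![1, 0; 1, -1]
    + (-2) * Xd 1 v !![1, 0; 1, -1]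
    + (-1) * Xd 2 v !![1, 0; 1, -1]
    + (2) * v !![1, 1; 1, 0]
    + (-1) * Xd 0 v !![1, 1; 1, 0]
    + (-1) * Xd 1 v !![1, 1; 1, 0]
    + (1) * Xd 2 v !![1, 1; 1, 0]
    + (2) * v !![1, 1; 1, -1]
    + (2) * Xd 0 v !![1, 1; 1, -1]
    + (1) * Xd 2 v !![1, 1; 1, -1]) * h3

end

end F3

open LO LO.FirstAux F2 F3 in
theorem stLap2 (hKOne : StKOne) (hRH : StRH) (hVOne : StVOne) (hFirst2 : StFirst2) :
    StLap2 := by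
  intro m v hv hw hf j
  rcases Nat.eq_zero_or_pos m with rfl | hm
  · have h0 : ∀ M, v M = 0 := by
      intro M
      have h1 := hv.per 0 M
      rw [pow_zero, one_smul, zero_add] at h1
      rw [h1]
      exact hv.supp 0 (by simp)
    have h1 : ∀ i, ac i (Xd i (Xd j v)) = 0 := by
      intro i
      fin_cases i <;> simp [ac, Xd, h0]
    have h2 : T5 v = 0 := by
      ext M
      simp [T5, TM, h0]
    rw [h2]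
    simp only [h1]
    fin_cases j <;> simp [ac]
  · have sw1 : ∀ i j k, cc v i j k = cc v j i k := fun i j k =>
      hFirst2 m (Xd k v) (mf_X hv k) (wr2_X hw k) (hf k) i j
    have sw2 : ∀ i j k, cc v i j k = cc v i k j := by
      intro i j k
      have h1 : Fil 0 (Xd j (Xd k v) - Xd k (Xd j v)) := hRH.2.2 m 0 j k v hv (by simpa using hf)
      have h2 : Xd j (Xd k v) = Xd k (Xd j v) := sub_eq_zero.1 h1
      rw [cc, cc, h2]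
    rw [Fin.sum_univ_three]
    fin_cases j
    · exact t_lap0 hKOne hVOne hm hv hw hf sw1 sw2
    · exact t_lap1 hKOne hVOne hm hv hw hf sw1 sw2
    · exact t_lap2 hKOne hVOne hm hv hw hf sw1 sw2

end LT

end Pool.Agent.Lib.MP_7c5fb9_nt
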