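import Pool.Agent.Lib.MP_7c5fb9_nt.LT.Stmts
import Pool.Agent.Lib.MP_7c5fb9_nt.LO.VOne

set_option autoImplicit false

/-! (VOne2) functions of level three. -/

namespace Pool.Agent.Lib.MP_7c5fb9_nt

namespace LT

namespace V2

open LO LO.V1

theorem chk5 : ∀ x y z a b c d : ZMod 3, (L5p.map fun N => Va N x y z a b c d).sum -
    (L5m.map fun N => Va N x y z a b c d).sum = 0 := by
  decide +kernel

theorem chk7 : ∀ x y z a b c d : ZMod 3, (L7p.map fun N => Va N x y z a b c d).sum -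
    (L7m.map fun N => Va N x y z a b c d).sum - 2 * Vv x y z a b c d = 0 := by
  decide +kernel

/-- Functions of level three satisfy the relations of level one. -/
theorem wr_of {m : ℕ} {v : Mat → ZMod 3} (hv : MF m v) (hw : WR2 v)
    (h3 : ∀ M N : Mat, v (M + (3 : ℤ) • N) = v M) : WR v := by
  have hS : ∀ M : Mat, v (mS * M) = -v M := by
    intro M
    have h1 : mS * M = mW * (mE * M) + (3 : ℤ) • (!![0, 0; 1, 0] * M) := by
      obtain ⟨a, b, c, d, rfl⟩ : ∃ a b c d, M = !![a, b; c, d] :=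
        ⟨_, _, _, _, Matrix.eta_fin_two M⟩
      ext i j
      fin_cases i <;> fin_cases j <;> simp [mS, mW, mE] <;> ring
    rw [h1, h3, hw.W, hw.E]
  refine ⟨hS, hw.E, fun M => ?_⟩
  have h1 := hw.N M
  rw [hS] at h1
  have h2 : !![1, 0; -1, 1] * M = (-1 : ℤ) • (mS * (mU * M)) := by
    obtain ⟨a, b, c, d, rfl⟩ : ∃ a b c d, M = !![a, b; c, d] :=
      ⟨_, _, _, _, Matrix.eta_fin_two M⟩
    ext i j
    fin_cases i <;> fin_cases j <;> simp [mS, mU] <;> ring
  have h4 : mS * mT' * M = mU * mU * M := by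
    congr 1
    ext i j
    fin_cases i <;> fin_cases j <;> simp [mU, mS, mT', Matrix.mul_apply, Fin.sum_univ_two]
  rw [h2, h4, hv.scal _ _ (by decide), hS] at h1
  have h5 : (3 : ZMod 3) = 0 := by decide
  linear_combination (-1) * h1 + v M * h5

end V2

open LO LO.V1 V2

/-- (VOne2) -/
theorem stVOne2 (hKOne : StKOne) (hVOne : StVOne) : StVOne2 := by
  intro m v hv hw hF
  have h3 := redc hKOne hv hF
  have hw1 := wr_of hv hw h3
  have hf := form hv hw1 h3
  obtain ⟨-, -, -, h5, h6⟩ := hVOne m v hv hw1 hF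
  have hadj : ∀ N M : Mat, v (N.adjugate * M) =
      Va N (v 1) (v mT') (v mT) (M 0 0 : ℤ) (M 0 1 : ℤ) (M 1 0 : ℤ) (M 1 1 : ℤ) := by
    intro N M
    rw [hf (N.adjugate * M), Matrix.adjugate_fin_two]
    unfold Va
    simp only [Matrix.mul_apply, Fin.sum_univ_two, Matrix.of_apply, Matrix.cons_val',
      Matrix.cons_val_zero, Matrix.cons_val_one, Matrix.cons_val_fin_one]
    push_cast
    congr 1 <;> ring
  have hTM : ∀ (L : List Mat) (M : Mat), TM L v M = (L.map fun N =>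
      Va N (v 1) (v mT') (v mT) (M 0 0 : ℤ) (M 0 1 : ℤ) (M 1 0 : ℤ) (M 1 1 : ℤ)).sum := by
    intro L M
    unfold TM
    congr 1
    exact List.map_congr_left fun N _ => hadj N M
  refine ⟨h3, ?_, ?_, h5, h6⟩
  · ext M
    unfold T5
    rw [hTM, hTM, chk5]
    rfl
  · ext M
    unfold Lop2 T7
    rw [hTM, hTM, hf M, V2.chk7]
    rfl

end LT

end Pool.Agent.Lib.MP_7c5fb9_nt
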