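import Pool.Agent.Lib.MP_7c5fb9_nt.LO.SqOdd
import Pool.Agent.Lib.MP_7c5fb9_nt.LO.SqTwo
import Pool.Agent.Lib.MP_7c5fb9_nt.LT.Asm
import Pool.Agent.Lib.MP_7c5fb9_nt.LT.VOne2
import Pool.Agent.Lib.MP_7c5fb9_nt.LT.First2
import Pool.Agent.Lib.MP_7c5fb9_nt.LT.Lap2
import Pool.Agent.Lib.MP_7c5fb9_nt.LT.Ex2
import Pool.Agent.Lib.MP_7c5fb9_nt.LT.Fields2

set_option autoImplicit false

/-!
# Level two (MP_7c5fb9_nt, project LT): assembly
-/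

namespace Pool.Agent.Lib.MP_7c5fb9_nt

namespace LT

open LO

theorem bVOne2 : StVOne2 := stVOne2 stKOne aVOne

theorem bFirst2 : StFirst2 := stFirst2 stKOne aVOne

theorem bLap2 : StLap2 := stLap2 stKOne stRH aVOne bFirst2

theorem bKL2 : StKL2 := aKL2 bVOne2 bFirst2 bLap2 stEx2

theorem bMain2 : StMain2 := aMain2 bKL2

end LT

end Pool.Agent.Lib.MP_7c5fb9_nt
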