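import Pool.Agent.Lib.MP_7c5fb9_nt.LT.Stmts
import Pool.Agent.Lib.MP_7c5fb9_nt.LO.Basic

set_option autoImplicit false

/-!
# Level two (MP_7c5fb9_nt, project LT): basic lemmas of the algebra modulo three
-/

namespace Pool.Agent.Lib.MP_7c5fb9_nt

namespace LT

open LO

section right

variable {m n d : ℕ} {v v' : Mat → ZMod 3}

theorem WR2_zero : WR2 (0 : Mat → ZMod 3) := ⟨by simp, by simp, by simp⟩

theorem WR2.add (h : WR2 v) (h' : WR2 v') : WR2 (v + v') :=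
  ⟨fun M => by simp only [Pi.add_apply, h.W, h'.W, neg_add],
    fun M => by simp only [Pi.add_apply, h.E, h'.E],
    fun M => by
      have h1 := h.N M
      have h2 := h'.N M
      simp only [Pi.add_apply]
      linear_combination h1 + h2⟩

theorem WR2.smul (c : ZMod 3) (h : WR2 v) : WR2 (c • v) :=
  ⟨fun M => by simp only [Pi.smul_apply, h.W, smul_neg],
    fun M => by simp only [Pi.smul_apply, h.E],
    fun M => by
      have h1 := h.N M
      simp only [Pi.smul_apply, smul_eq_mul]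
      linear_combination c * h1⟩

theorem WR2.neg (h : WR2 v) : WR2 (-v) := by
  have := h.smul (-1)
  rwa [neg_one_smul] at this

theorem WR2.sub (h : WR2 v) (h' : WR2 v') : WR2 (v - v') := by
  rw [sub_eq_add_neg]
  exact h.add h'.neg

theorem WR2.Rt (k : Mat) (h : WR2 v) : WR2 (Rt k v) :=
  ⟨fun M => by simp only [LO.Rt, mul_assoc]; exact h.W _,
    fun M => by simp only [LO.Rt, mul_assoc]; exact h.E _,
    fun M => by
      have h1 := h.N (M * k)
      simp only [LO.Rt, mul_assoc] at h1 ⊢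
      exact h1⟩

theorem WR2.Xd (i : Fin 3) (h : WR2 v) : WR2 (Xd i v) := by
  rw [Xd_eq]
  exact (h.Rt _).sub h

theorem WR2.foldr (l : List (Fin 3)) (h : WR2 v) : WR2 (l.foldr LO.Xd v) := by
  induction l with
  | nil => exact h
  | cons i l ih => exact ih.Xd i

/-! ### Hecke operators -/

theorem T5_eq (v : Mat → ZMod 3) : T5 v = TM L5p v - TM L5m v := rfl

theorem T7_eq (v : Mat → ZMod 3) : T7 v = TM L7p v - TM L7m v := rfl

theorem Lop2_eq (v : Mat → ZMod 3) : Lop2 v = T7 v - (2 : ZMod 3) • v := rfl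

theorem T5_add (v v' : Mat → ZMod 3) : T5 (v + v') = T5 v + T5 v' := by
  simp only [T5_eq, TM_add]
  abel

theorem T5_smul (c : ZMod 3) (v : Mat → ZMod 3) : T5 (c • v) = c • T5 v := by
  simp only [T5_eq, TM_smul, smul_sub]

theorem T5_neg (v : Mat → ZMod 3) : T5 (-v) = -T5 v := by
  have := T5_smul (-1) v
  rwa [neg_one_smul, neg_one_smul] at this

theorem T5_sub (v v' : Mat → ZMod 3) : T5 (v - v') = T5 v - T5 v' := by
  rw [sub_eq_add_neg, T5_add, T5_neg, sub_eq_add_neg]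

theorem T5_zero : T5 0 = 0 := by
  rw [T5_eq, TM_zero, TM_zero, sub_zero]

theorem T5_Rt (k : Mat) (v : Mat → ZMod 3) : T5 (Rt k v) = Rt k (T5 v) := by
  simp only [T5_eq, TM_Rt, Rt_sub]

theorem T5_Xd (i : Fin 3) (v : Mat → ZMod 3) : T5 (Xd i v) = Xd i (T5 v) := by
  rw [Xd_eq, Xd_eq, T5_sub, T5_Rt]

theorem T5_foldr (l : List (Fin 3)) (v : Mat → ZMod 3) :
    T5 (l.foldr Xd v) = l.foldr Xd (T5 v) := by
  induction l with
  | nil => rfl
  | cons i l ih => rw [List.foldr_cons, T5_Xd, ih, List.foldr_cons]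

theorem T7_add (v v' : Mat → ZMod 3) : T7 (v + v') = T7 v + T7 v' := by
  simp only [T7_eq, TM_add]
  abel

theorem T7_smul (c : ZMod 3) (v : Mat → ZMod 3) : T7 (c • v) = c • T7 v := by
  simp only [T7_eq, TM_smul, smul_sub]

theorem T7_neg (v : Mat → ZMod 3) : T7 (-v) = -T7 v := by
  have := T7_smul (-1) v
  rwa [neg_one_smul, neg_one_smul] at this

theorem T7_sub (v v' : Mat → ZMod 3) : T7 (v - v') = T7 v - T7 v' := by
  rw [sub_eq_add_neg, T7_add, T7_neg, sub_eq_add_neg]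

theorem T7_zero : T7 0 = 0 := by
  rw [T7_eq, TM_zero, TM_zero, sub_zero]

theorem T7_Rt (k : Mat) (v : Mat → ZMod 3) : T7 (Rt k v) = Rt k (T7 v) := by
  simp only [T7_eq, TM_Rt, Rt_sub]

theorem T7_Xd (i : Fin 3) (v : Mat → ZMod 3) : T7 (Xd i v) = Xd i (T7 v) := by
  rw [Xd_eq, Xd_eq, T7_sub, T7_Rt]

theorem Lop2_add (v v' : Mat → ZMod 3) : Lop2 (v + v') = Lop2 v + Lop2 v' := by
  simp only [Lop2_eq, T7_add, smul_add]
  abel

theorem Lop2_sub (v v' : Mat → ZMod 3) : Lop2 (v - v') = Lop2 v - Lop2 v' := by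
  simp only [Lop2_eq, T7_sub, smul_sub]
  abel

theorem Lop2_neg (v : Mat → ZMod 3) : Lop2 (-v) = -Lop2 v := by
  simp only [Lop2_eq, T7_neg, smul_neg]
  abel

theorem Lop2_smul (c : ZMod 3) (v : Mat → ZMod 3) : Lop2 (c • v) = c • Lop2 v := by
  simp only [Lop2_eq, T7_smul, smul_sub]
  rw [smul_comm]

theorem Lop2_zero : Lop2 0 = 0 := by
  rw [Lop2_eq, T7_zero, smul_zero, sub_zero]

theorem Lop2_Rt (k : Mat) (v : Mat → ZMod 3) : Lop2 (Rt k v) = Rt k (Lop2 v) := by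
  simp only [Lop2_eq, T7_Rt, Rt_sub, Rt_smul]

theorem Lop2_Xd (i : Fin 3) (v : Mat → ZMod 3) : Lop2 (Xd i v) = Xd i (Lop2 v) := by
  rw [Xd_eq, Xd_eq, Lop2_sub, Lop2_Rt]

theorem Lop2_foldr (l : List (Fin 3)) (v : Mat → ZMod 3) :
    Lop2 (l.foldr Xd v) = l.foldr Xd (Lop2 v) := by
  induction l with
  | nil => rfl
  | cons i l ih => rw [List.foldr_cons, Lop2_Xd, ih, List.foldr_cons]

theorem MF_T5 (h : MF m v) : MF m (T5 v) := by
  rw [T5_eq]
  exact (h.TM L5p).sub (h.TM L5m)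

theorem MF_T7 (h : MF m v) : MF m (T7 v) := by
  rw [T7_eq]
  exact (h.TM L7p).sub (h.TM L7m)

theorem MF_Lop2 (h : MF m v) : MF m (Lop2 v) := by
  rw [Lop2_eq]
  exact (MF_T7 h).sub (h.smul 2)

/-! ### The class of functions killed by `T_5` -/

theorem KK2_zero (m : ℕ) : KK2 m 0 := ⟨MF_zero m, WR2_zero, T5_zero, by
  rw [T7_zero]
  exact WR2_zero⟩

theorem KK2.add (h : KK2 m v) (h' : KK2 m v') : KK2 m (v + v') :=
  ⟨h.mf.add h'.mf, h.wr.add h'.wr, by rw [T5_add, h.t5, h'.t5, add_zero], by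
    rw [T7_add]
    exact h.t7.add h'.t7⟩

theorem KK2.neg (h : KK2 m v) : KK2 m (-v) :=
  ⟨h.mf.neg, h.wr.neg, by rw [T5_neg, h.t5, neg_zero], by
    rw [T7_neg]
    exact h.t7.neg⟩

theorem KK2.sub (h : KK2 m v) (h' : KK2 m v') : KK2 m (v - v') := by
  rw [sub_eq_add_neg]
  exact h.add h'.neg

theorem KK2.smul (c : ZMod 3) (h : KK2 m v) : KK2 m (c • v) :=
  ⟨h.mf.smul c, h.wr.smul c, by rw [T5_smul, h.t5, smul_zero], by
    rw [T7_smul]
    exact h.t7.smul c⟩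

theorem KK2.Rt (k : Mat) (h : KK2 m v) : KK2 m (Rt k v) :=
  ⟨h.mf.Rt k, h.wr.Rt k, by rw [T5_Rt, h.t5, Rt_zero], by
    rw [T7_Rt]
    exact h.t7.Rt k⟩

theorem KK2.Xd (i : Fin 3) (h : KK2 m v) : KK2 m (Xd i v) := by
  rw [Xd_eq]
  exact (h.Rt _).sub h

theorem KK2.foldr (l : List (Fin 3)) (h : KK2 m v) : KK2 m (l.foldr LO.Xd v) := by
  induction l with
  | nil => exact h
  | cons i l ih => exact ih.Xd i

theorem KK2.mono {m m' : ℕ} (hm : m ≤ m') (h : KK2 m v) : KK2 m' v :=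
  ⟨h.mf.mono hm, h.wr, h.t5, h.t7⟩

theorem WR2_Lop2 (h : KK2 m v) : WR2 (Lop2 v) := by
  rw [Lop2_eq]
  exact h.t7.sub (h.wr.smul 2)

end right

end LT

end Pool.Agent.Lib.MP_7c5fb9_nt
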