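import Mathlib
import Pool.Agent.Lib.MP_7c5fb9_nt.LT.HecG2
import Pool.Agent.Lib.MP_7c5fb9_nt.LO.Cyc

set_option autoImplicit false

/-!
# Level two (MP_7c5fb9_nt, project LT): (Cyc2) cycle integrals are values of the cocycle
-/

namespace Pool.Agent.Lib.MP_7c5fb9_nt

namespace LT

open LO Pool.Agent.Lib.MP_7c08ba_nt.RZ UpperHalfPlane Filter Topology
open scoped MatrixGroups Polynomial nonZeroDivisors

namespace Cyc2Aux

theorem continuousOn_F (hPrim : StPrim2) {k : ℕ} {a : ℕ → ℂ} {F : ℂ → ℂ} (hk : 1 ≤ k)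
    (hA : Ana k a F) : ContinuousOn F {z : ℂ | 0 < z.im} := by
  have hopen : IsOpen {z : ℂ | 0 < z.im} := isOpen_lt continuous_const Complex.continuous_im
  have h := (hPrim k a F 1 hA (by simp; omega)).1
  simp only [Polynomial.eval_one, mul_one] at h
  have hd : DifferentiableOn ℂ (Gp k a 1) {z : ℂ | 0 < z.im} := fun z hz =>
    (h z hz).differentiableAt.differentiableWithinAt
  have hd2 := (hd.deriv hopen).continuousOn
  exact hd2.congr fun z hz => (h z hz).deriv.symm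

end Cyc2Aux

open LO.CycAux in
theorem stCyc2 (hPrim : StPrim2) (hCoc : StCoc2) : StCyc2 := by
  intro k a' F hk hA D t u Q hD hD0 hQ0 hQ2 htu ht hu
  have hdisc : 0 < disc Q := by rw [hD]; exact_mod_cast hD0
  obtain ⟨hP, -⟩ := hPrim k a' F (pw k Q) hA (natDegree_pw hk rfl Q)
  have hderiv : ∀ θ : ℝ, HasDerivAt (fun θ : ℝ => Gp k a' (pw k Q) (geo Q θ))
      (F (geo Q θ) * qv Q (geo Q θ) ^ (k - 1) * deriv (geo Q) θ) θ := by
    intro θ
    have h1 := hP (geo Q θ) (geo_im hdisc hQ0 θ)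
    rw [eval_pw] at h1
    have h2 : HasDerivAt (geo Q) (deriv (geo Q) θ) θ := by
      rw [(hasDerivAt_geo Q θ).deriv]
      exact hasDerivAt_geo Q θ
    exact h1.comp_of_eq θ h2 rfl
  have hfc : Continuous fun θ : ℝ => F (geo Q θ) := by
    exact (Cyc2Aux.continuousOn_F hPrim hk hA).comp_continuous (continuous_geo Q)
      (fun θ => geo_im hdisc hQ0 θ)
  have hcont : Continuous fun θ : ℝ =>
      F (geo Q θ) * qv Q (geo Q θ) ^ (k - 1) * deriv (geo Q) θ := by
    have h1 : Continuous fun θ : ℝ => qv Q (geo Q θ) := by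
      unfold qv
      have := continuous_geo Q
      fun_prop
    exact (hfc.mul (h1.pow _)).mul (continuous_deriv_geo Q)
  unfold cyc
  rw [intervalIntegral.integral_eq_sub_of_hasDerivAt (fun θ _ => hderiv θ)
    (hcont.intervalIntegrable _ _)]
  have hdet := aut_det hD htu
  have hact := LO.CycAux.act_aut hD htu
  have hG : InG (aut Q t u) := ⟨hdet, by
    have e : (aut Q t u) 1 0 = Q 0 * u := by simp [aut]
    rw [e]
    exact hQ2.mul_right u⟩
  have hco := (hCoc k a' F hk hA).1 (aut Q t u) Q (geo Q 0) hG (geo_im hdisc hQ0 0)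
  rw [hact] at hco
  rw [← hco]
  congr 2
  -- the action of the automorph on the geodesic
  obtain ⟨a, hta, h1, h2⟩ := aut_data hD htu
  have hDr : (disc Q : ℝ) = D := by rw [hD]; simp
  set d : ℝ := Real.sqrt D with hd
  have hd2 : d ^ 2 = D := Real.sq_sqrt (by positivity)
  have hdpos : 0 < d := Real.sqrt_pos.mpr (by exact_mod_cast hD0)
  have htr : (0 : ℝ) < t := by exact_mod_cast ht
  have hur : (0 : ℝ) < u := by exact_mod_cast hu
  set E : ℝ := eps D t u with hE
  have hEpos : 0 < E := by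
    rw [hE, eps]
    positivity
  set E' : ℝ := (t - u * d) / 2 with hE'
  have hEE : E * E' = 1 := by
    rw [hE, eps, hE', ← hd]
    have h3 : (t : ℝ) ^ 2 - D * u ^ 2 = 4 := by exact_mod_cast htu
    linear_combination (1 / 4 : ℝ) * h3 - (u : ℝ) ^ 2 / 4 * hd2
  have hexp : Real.exp (2 * Real.log E) = E ^ 2 := by
    rw [two_mul, Real.exp_add, Real.exp_log hEpos, sq]
  have hQr : (Q 0 : ℝ) ≠ 0 := by
    have : (0 : ℝ) < Q 0 := by exact_mod_cast hQ0
    exact this.ne'
  obtain ⟨hrA, hrB⟩ := roots_eq hdisc hQ0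
  have htar : (t : ℝ) = 2 * a + Q 1 * u := by exact_mod_cast hta
  have hA1 : (Q 0 : ℝ) * u * rA Q + (a + Q 1 * u) = E := by
    rw [hE, eps, rA, hDr, ← hd, htar]
    field_simp
    ring
  have hB1 : (Q 0 : ℝ) * u * rB Q + (a + Q 1 * u) = E' := by
    rw [hE', rB, hDr, ← hd, htar]
    field_simp
    ring
  have hA2 : (a : ℝ) * rA Q - Q 2 * u = rA Q * E := by
    rw [← hA1]
    linear_combination (-(u : ℝ)) * hrA
  have hB2 : (a : ℝ) * rB Q - Q 2 * u = rB Q * E' := by
    rw [← hB1]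
    linear_combination (-(u : ℝ)) * hrB
  have hA1c : (Q 0 : ℂ) * u * rA Q + (a + Q 1 * u) = (E : ℂ) := by exact_mod_cast hA1
  have hB1c : (Q 0 : ℂ) * u * rB Q + (a + Q 1 * u) = (E' : ℂ) := by exact_mod_cast hB1
  have hA2c : (a : ℂ) * rA Q - Q 2 * u = (rA Q : ℂ) * E := by exact_mod_cast hA2
  have hB2c : (a : ℂ) * rB Q - Q 2 * u = (rB Q : ℂ) * E' := by exact_mod_cast hB2
  have hEEc : (E : ℂ) * E' = 1 := by exact_mod_cast hEE
  have hE0 : (E : ℂ) ≠ 0 := by exact_mod_cast hEpos.ne'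
  have hI1 : Complex.I + 1 ≠ 0 := by
    have := den_ne 1
    simpa using this
  rw [geo_eq, geo_eq, hexp, h2, mb]
  simp only [Matrix.of_apply, Matrix.cons_val', Matrix.cons_val_zero, Matrix.cons_val_one,
    Matrix.cons_val_fin_one, Real.exp_zero, Complex.ofReal_one, mul_one]
  have hnum : (a : ℂ) * (((rA Q : ℂ) * Complex.I + rB Q) / (Complex.I + 1)) +
      ((-Q 2 * u : ℤ) : ℂ) = ((rA Q : ℂ) * E * Complex.I + rB Q * E') / (Complex.I + 1) := by
    rw [← hA2c, ← hB2c]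
    push_cast
    field_simp
    ring
  have hden : ((Q 0 * u : ℤ) : ℂ) * (((rA Q : ℂ) * Complex.I + rB Q) / (Complex.I + 1)) +
      ((a + Q 1 * u : ℤ) : ℂ) = ((E : ℂ) * Complex.I + E') / (Complex.I + 1) := by
    rw [← hA1c, ← hB1c]
    push_cast
    field_simp
    ring
  rw [hnum, hden, div_div_div_cancel_right₀ hI1]
  have hden2 : (E : ℂ) * Complex.I + E' ≠ 0 := by
    intro h
    have h3 := congrArg Complex.im h
    simp at h3
    exact hEpos.ne' h3
  have hden3 : Complex.I * ((E ^ 2 : ℝ) : ℂ) + 1 ≠ 0 := den_ne _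
  rw [div_eq_div_iff hden3 hden2]
  push_cast
  linear_combination ((rA Q : ℂ) * Complex.I * (E : ℂ) - (rB Q : ℂ) * Complex.I * (E : ℂ)) * hEEc

end LT

end Pool.Agent.Lib.MP_7c5fb9_nt
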