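import Pool.Agent.Lib.MP_7c5fb9_nt.LO.Stmts2

set_option autoImplicit false

/-!
# Level two (MP_7c5fb9_nt, project LT): definitions

Newforms of level two and weight `2 * k`, `k` even, with Atkin-Lehner eigenvalue one.
Integral forms, matrices, the filtration etc. are those of the project LO.
-/

namespace Pool.Agent.Lib.MP_7c5fb9_nt

namespace LT

open LO Pool.Agent.Lib.MP_7c08ba_nt.RZ UpperHalfPlane
open scoped MatrixGroups Polynomial nonZeroDivisors

/-- Integral binary quadratic forms. -/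
abbrev Frm : Type := LO.Frm

/-- Cusp forms of level two and weight `w`. -/
abbrev Cusp2 (w : ℕ) : Type :=
  CuspForm ((CongruenceSubgroup.Gamma0 2 : Subgroup SL(2, ℤ)) : Subgroup (GL (Fin 2) ℝ)) (w : ℤ)

/-- The Fourier coefficients. -/
noncomputable def cf {w : ℕ} (f : Cusp2 w) (n : ℕ) : ℂ := (qExpansion 1 f).coeff n

/-- Normalised newforms of level two and weight `2 * k` with Atkin-Lehner eigenvalue one: the
Hecke relations at the odd primes, the Hecke operator at two, the Atkin-Lehner involution. -/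
structure IsNew (k : ℕ) (f : Cusp2 (2 * k)) : Prop where
  one : cf f 1 = 1
  hecke : ∀ p n : ℕ, p.Prime → p ≠ 2 → 0 < n → cf f p * cf f n =
    cf f (p * n) + if p ∣ n then (p : ℂ) ^ (2 * k - 1) * cf f (n / p) else 0
  two : ∀ n : ℕ, cf f (2 * n) = -(2 : ℂ) ^ (k - 1) * cf f n
  fricke : ∀ z : ℂ, 0 < z.im →
    f (ofComplex (-1 / (2 * z))) = (2 : ℂ) ^ k * z ^ (2 * k) * f (ofComplex z)

/-- The Atkin-Lehner matrix. -/
def mW : Mat := !![0, -1; 2, 0]

/-- The second generator of the group of level two. -/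
def mL : Mat := !![1, 0; 2, 1]

/-- Membership in the group of level two. -/
def InG (M : Mat) : Prop := M.det = 1 ∧ (2 : ℤ) ∣ M 1 0

/-- The analytic data of a newform: coefficients and function. -/
structure Ana (k : ℕ) (a : ℕ → ℂ) (F : ℂ → ℂ) : Prop where
  zero : a 0 = 0
  one : a 1 = 1
  bound : ∃ C : ℝ, ∀ n : ℕ, ‖a n‖ ≤ C * (n : ℝ) ^ k
  summ : ∀ z : ℂ, 0 < z.im → Summable (fun n : ℕ => ‖a n * ee (n * z)‖)
  sum : ∀ z : ℂ, 0 < z.im → F z = ∑' n : ℕ, a n * ee (n * z)
  hecke : ∀ p n : ℕ, p.Prime → p ≠ 2 → 0 < n → a p * a n =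
    a (p * n) + if p ∣ n then (p : ℂ) ^ (2 * k - 1) * a (n / p) else 0
  two : ∀ n : ℕ, a (2 * n) = -(2 : ℂ) ^ (k - 1) * a n
  gam : ∀ (M : Mat) (z : ℂ), InG M → 0 < z.im →
    F (mb M z) = ((M 1 0 : ℂ) * z + M 1 1) ^ (2 * k) * F z
  fricke : ∀ z : ℂ, 0 < z.im → F (-1 / (2 * z)) = (2 : ℂ) ^ k * z ^ (2 * k) * F z

section analysis

/-- The iterated primitives. -/
noncomputable def Fj (a : ℕ → ℂ) (j : ℕ) (z : ℂ) : ℂ :=
  ∑' n : ℕ, a n * ((2 * Real.pi * Complex.I * n) ^ j)⁻¹ * ee (n * z)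

/-- The primitive of `F P` vanishing at `i ∞`, for polynomials `P` of degree less than `2 * k`. -/
noncomputable def Gp (k : ℕ) (a : ℕ → ℂ) (P : ℂ[X]) (z : ℂ) : ℂ :=
  ∑ j ∈ Finset.range (2 * k), (-1) ^ j * Fj a (j + 1) z * (Polynomial.derivative^[j] P).eval z

/-- The cocycle on the group of level two. -/
noncomputable def Phi (k : ℕ) (a : ℕ → ℂ) (M : Mat) (Q : Frm) : ℂ :=
  Gp k a (pw k Q) (mb M Complex.I) - Gp k a (pw k (act Q M)) Complex.I

/-- The integral of `F(z) Q(z, 1)^(k-1)` from `i ∞` to `0`. -/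
noncomputable def V (k : ℕ) (a : ℕ → ℂ) (Q : Frm) : ℂ :=
  Gp k a (pw k Q) (-1 / (2 * Complex.I)) -
    ((2 : ℂ) ^ (k - 1))⁻¹ * Gp k a (pw k (act Q mW)) Complex.I

/-- The odd cocycle. -/
noncomputable def Psi (k : ℕ) (a : ℕ → ℂ) (M : Mat) (Q : Frm) : ℂ :=
  Phi k a M Q - Phi k a (mE * M * mE) (mir Q)

/-- The odd part of `V`. -/
noncomputable def Vo (k : ℕ) (a : ℕ → ℂ) (Q : Frm) : ℂ := V k a Q - V k a (mir Q)

/-- The periods, `∫ F(z) z^m dz` from `i ∞` to `0`. -/
noncomputable def rp (k : ℕ) (a : ℕ → ℂ) (m : ℕ) : ℂ :=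
  Gp k a (Polynomial.X ^ m) (-1 / (2 * Complex.I)) -
    ((2 : ℂ) ^ (k - 1))⁻¹ * Gp k a
      (Polynomial.C ((-1) ^ m * (2 : ℂ) ^ (2 * k - 2 - m)) * Polynomial.X ^ (2 * k - 2 - m)) Complex.I

/-- The integral of `F(z) Q(z, 1)^(k-1) dz` over the closed geodesic, `ε` the unit. -/
noncomputable def cyc (k : ℕ) (F : ℂ → ℂ) (Q : Frm) (ε : ℝ) : ℂ :=
  ∫ θ in (0 : ℝ)..(2 * Real.log ε), F (geo Q θ) * qv Q (geo Q θ) ^ (k - 1) * deriv (geo Q) θ

end analysis

section fields

variable {K : Type} [Field K] [NumberField K]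

/-- `Q` is a form with positive first coefficient attached to the ideal class `c` and to the ideal
`n` of norm two: the norm form of an ideal `I = ℤ x + ℤ y` of the class such that
`n I = ℤ x + ℤ (2 y)`, divided by the norm of `I`. -/
def FormOf2 (n : Ideal (NumberField.RingOfIntegers K))
    (c : ClassGroup (NumberField.RingOfIntegers K)) (Q : Frm) : Prop :=
  0 < Q 0 ∧ ∃ (I : (Ideal (NumberField.RingOfIntegers K))⁰) (x y : NumberField.RingOfIntegers K),
    ClassGroup.mk0 I = c ∧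
    (∀ z : NumberField.RingOfIntegers K, z ∈ (I : Ideal (NumberField.RingOfIntegers K)) ↔
      ∃ m n : ℤ, z = (m : NumberField.RingOfIntegers K) * x +
        (n : NumberField.RingOfIntegers K) * y) ∧
    (∀ z : NumberField.RingOfIntegers K, z ∈ n * (I : Ideal (NumberField.RingOfIntegers K)) ↔
      ∃ m n : ℤ, z = (m : NumberField.RingOfIntegers K) * x +
        (n : NumberField.RingOfIntegers K) * (2 * y)) ∧
    ∀ m n : ℤ, Algebra.norm ℤ ((m : NumberField.RingOfIntegers K) * x +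
      (n : NumberField.RingOfIntegers K) * y) =
        (Ideal.absNorm (I : Ideal (NumberField.RingOfIntegers K)) : ℤ) *
          (Q 0 * m ^ 2 + Q 1 * (m * n) + Q 2 * n ^ 2)

/-- The toric period of `f` over the real quadratic field `K` of discriminant `D`: the sum over the
ideal classes of the cycle integrals of the attached form and of its mirror image. -/
noncomputable def torPer (k : ℕ) (f : Cusp2 (2 * k)) (D : ℕ) (t u : ℤ)
    (q : ClassGroup (NumberField.RingOfIntegers K) → Frm) : ℂ :=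
  ∑ c, (cyc k (fun z => f (ofComplex z)) (q c) (eps D t u) +
    cyc k (fun z => f (ofComplex z)) (mir (q c)) (eps D t u))

end fields

/-- The toric periods of `f` over the real quadratic field `K` do not vanish (`D` is the
discriminant of `K`; `2` is not inert in `K`). -/
def NonVan (k : ℕ) (f : Cusp2 (2 * k)) (K : Type) [Field K] [NumberField K] : Prop :=
  ∃ D : ℕ, NumberField.discr K = D ∧ (∃ t u : ℤ, Fund D t u) ∧
    (∃ n : Ideal (NumberField.RingOfIntegers K), Ideal.absNorm n = 2) ∧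
    ∀ n : Ideal (NumberField.RingOfIntegers K), Ideal.absNorm n = 2 →
      (∃ q : ClassGroup (NumberField.RingOfIntegers K) → Frm, ∀ c, FormOf2 n c (q c)) ∧
      ∀ (t u : ℤ) (q : ClassGroup (NumberField.RingOfIntegers K) → Frm), Fund D t u →
        (∀ c, FormOf2 n c (q c)) → torPer k f D t u q ≠ 0

/-! ### Functions with values in the field with three elements -/

/-- The Hecke operator at five: matrices with sign plus. -/
def L5p : List Mat := [!![1, 0; 0, 5], !![5, 0; 0, 1], !![5, -1; 0, 1], !![5, 1; 0, 1],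
  !![1, 0; 4, 5], !![1, 0; -4, 5], !![5, -2; 0, 1], !![5, 2; 0, 1], !![1, 0; 2, 5],
  !![1, 0; -2, 5]]

/-- The Hecke operator at five: matrices with sign minus. -/
def L5m : List Mat := [!![1, -1; 4, 1], !![1, 1; -4, 1], !![1, -2; 2, 1], !![1, 2; -2, 1]]

/-- The Hecke operator at seven: matrices with sign plus. -/
def L7p : List Mat := [!![1, 0; 0, 7], !![7, 0; 0, 1], !![7, -1; 0, 1], !![7, 1; 0, 1],
  !![1, 0; 6, 7], !![1, 0; -6, 7], !![7, -2; 0, 1], !![7, 2; 0, 1], !![1, 0; -4, 7],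
  !![1, 0; 4, 7], !![7, -3; 0, 1], !![7, 3; 0, 1], !![1, 0; 2, 7], !![1, 0; -2, 7]]

/-- The Hecke operator at seven: matrices with sign minus. -/
def L7m : List Mat := [!![1, -1; 6, 1], !![1, 1; -6, 1], !![1, 2; -4, -1], !![1, -2; 4, -1],
  !![1, -3; 2, 1], !![1, 3; -2, 1]]

/-- Hecke operators with signs on functions of forms. -/
def TS {R : Type*} [AddCommGroup R] (L L' : List Mat) (u : Frm → R) (Q : Frm) : R :=
  TL L u Q - TL L' u Q

/-- Odd period functions modulo three of level two and of level `3 ^ m` on the forms of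
discriminant `2` modulo `3`. -/
structure PF2 (m : ℕ) (u : Frm → ZMod 3) : Prop where
  per : ∀ Q R : Frm, u (fun i => Q i + 3 ^ m * R i) = u Q
  supp : ∀ Q : Frm, disc Q % 3 ≠ 2 → u Q = 0
  scal : ∀ (c : ℤ) (Q : Frm), ¬ (3 : ℤ) ∣ c → u (fun i => c * Q i) = (c : ZMod 3) * u Q
  mir : ∀ Q : Frm, u (mir Q) = -u Q
  W : ∀ Q : Frm, u (act Q mW) = u Q
  N : ∀ Q : Frm, u Q - u (act Q mS) + u (act Q !![1, 0; 1, 1]) - u (act Q (mT * mS)) = 0

/-- The second function at level two. -/
def u4w (Q : Frm) : ZMod 3 := -(u4 Q + u4 (act Q mW))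

/-- The relations of periods of level two, on the left. -/
structure WR2 (v : Mat → ZMod 3) : Prop where
  W : ∀ M : Mat, v (mW * M) = -v M
  E : ∀ M : Mat, v (mE * M) = v M
  N : ∀ M : Mat, v M - v (mS * M) + v (!![1, 0; -1, 1] * M) - v (mS * mT' * M) = 0

/-- The operator `T_5` on functions of matrices. -/
def T5 (v : Mat → ZMod 3) (M : Mat) : ZMod 3 := TM L5p v M - TM L5m v M

/-- The operator `T_7` on functions of matrices. -/
def T7 (v : Mat → ZMod 3) (M : Mat) : ZMod 3 := TM L7p v M - TM L7m v M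

/-- The operator `T_7 - 2`. -/
def Lop2 (v : Mat → ZMod 3) (M : Mat) : ZMod 3 := T7 v M - 2 * v M

/-- Period functions of level two killed by `T_5`. -/
structure KK2 (m : ℕ) (v : Mat → ZMod 3) : Prop where
  mf : MF m v
  wr : WR2 v
  t5 : T5 v = 0
  t7 : WR2 (T7 v)

end LT

end Pool.Agent.Lib.MP_7c5fb9_nt
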