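import Pool.Agent.Lib.MP_7c5fb9_nt.LT.Stmts
import Pool.Agent.Lib.MP_7c5fb9_nt.LO.ExBase

set_option autoImplicit false

/-! (Ex2) the two functions. -/

namespace Pool.Agent.Lib.MP_7c5fb9_nt

namespace LT

namespace E2

open LO LO.ExAux

theorem det_L5p : ∀ M ∈ L5p, ¬ (3 : ℤ) ∣ M.det := by
  intro M hM
  simp only [L5p, List.mem_cons, List.not_mem_nil, or_false] at hM
  rcases hM with rfl | rfl | rfl | rfl | rfl | rfl | rfl | rfl | rfl | rfl <;>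
    simp [Matrix.det_fin_two]

theorem det_L5m : ∀ M ∈ L5m, ¬ (3 : ℤ) ∣ M.det := by
  intro M hM
  simp only [L5m, List.mem_cons, List.not_mem_nil, or_false] at hM
  rcases hM with rfl | rfl | rfl | rfl <;> simp [Matrix.det_fin_two]

theorem det_L7p : ∀ M ∈ L7p, ¬ (3 : ℤ) ∣ M.det := by
  intro M hM
  simp only [L7p, List.mem_cons, List.not_mem_nil, or_false] at hM
  rcases hM with rfl | rfl | rfl | rfl | rfl | rfl | rfl | rfl | rfl | rfl | rfl | rfl | rfl |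
    rfl <;> simp [Matrix.det_fin_two]

theorem det_L7m : ∀ M ∈ L7m, ¬ (3 : ℤ) ∣ M.det := by
  intro M hM
  simp only [L7m, List.mem_cons, List.not_mem_nil, or_false] at hM
  rcases hM with rfl | rfl | rfl | rfl | rfl | rfl <;> simp [Matrix.det_fin_two]

theorem nice_sub {F G : LO.Frm → ZMod 3} (hF : Nice F) (hG : Nice G) :
    Nice fun Q => F Q - G Q := by
  have h := hF.add (hG.smul (-1))
  have e : (fun Q => F Q + -1 * G Q) = fun Q => F Q - G Q := by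
    funext Q
    ring
  rwa [e] at h

theorem nice_TS {F : LO.Frm → ZMod 3} (hF : Nice F) (L L' : List Mat)
    (hL : ∀ M ∈ L, ¬ (3 : ℤ) ∣ M.det) (hL' : ∀ M ∈ L', ¬ (3 : ℤ) ∣ M.det) :
    Nice (TS L L' F) := nice_sub (hF.TL L hL) (hF.TL L' hL')

theorem det_W : ¬ (3 : ℤ) ∣ mW.det := by
  simp [mW, Matrix.det_fin_two]

theorem nice_u4w : Nice u4w := by
  have h := (nice_u4.add (nice_u4.act mW det_W)).smul (-1)
  have e : (fun Q => -1 * (u4 Q + u4 (act Q mW))) = u4w := by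
    funext Q
    rw [u4w]
    ring
  rwa [e] at h

theorem pf2_of_nice (m : ℕ) (u : LO.Frm → ZMod 3) (hu : Nice u)
    (hper : ∀ Q R : LO.Frm, u (fun i => Q i + 3 ^ m * R i) = u Q)
    (hm : ∀ b c : Fin 27, disc ![1, ((b : ℕ) : ℤ), ((c : ℕ) : ℤ)] % 3 = 2 →
      u (mir ![1, ((b : ℕ) : ℤ), ((c : ℕ) : ℤ)]) + u ![1, ((b : ℕ) : ℤ), ((c : ℕ) : ℤ)] = 0)
    (hW : ∀ b c : Fin 27, disc ![1, ((b : ℕ) : ℤ), ((c : ℕ) : ℤ)] % 3 = 2 →
      u (act ![1, ((b : ℕ) : ℤ), ((c : ℕ) : ℤ)] mW) - u ![1, ((b : ℕ) : ℤ), ((c : ℕ) : ℤ)] = 0)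
    (hN : ∀ b c : Fin 27, disc ![1, ((b : ℕ) : ℤ), ((c : ℕ) : ℤ)] % 3 = 2 →
      u ![1, ((b : ℕ) : ℤ), ((c : ℕ) : ℤ)] - u (act ![1, ((b : ℕ) : ℤ), ((c : ℕ) : ℤ)] mS) +
        u (act ![1, ((b : ℕ) : ℤ), ((c : ℕ) : ℤ)] !![1, 0; 1, 1]) -
        u (act ![1, ((b : ℕ) : ℤ), ((c : ℕ) : ℤ)] (mT * mS)) = 0) : PF2 m u where
  per := hper
  supp := hu.supp
  scal := hu.scal
  mir Q := by
    have := (hu.mir.add hu).ext0 hm
    exact eq_neg_of_add_eq_zero_left (congrFun this Q)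
  W Q := by
    have := (nice_sub (hu.act mW det_W) hu).ext0 hW
    exact sub_eq_zero.1 (congrFun this Q)
  N Q := by
    have h : ¬ (3 : ℤ) ∣ mS.det := by
      simp [mS, Matrix.det_fin_two]
    have h2 : ¬ (3 : ℤ) ∣ (!![1, 0; 1, 1] : Mat).det := by
      simp [Matrix.det_fin_two]
    have h3 : ¬ (3 : ℤ) ∣ (mT * mS).det := by
      rw [Matrix.det_mul]
      simp [mT, mS, Matrix.det_fin_two]
    have := (nice_sub ((nice_sub hu (hu.act mS h)).add (hu.act !![1, 0; 1, 1] h2))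
      (hu.act (mT * mS) h3)).ext0 hN
    exact congrFun this Q

end E2

end LT

end Pool.Agent.Lib.MP_7c5fb9_nt
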