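import Pool.Agent.Lib.MP_7c5fb9_nt.LO.Defs

set_option autoImplicit false

/-!
# Level two (MP_7c5fb9_nt, project LT): forms attached to ideal classes and to an ideal of norm two
-/

namespace Pool.Agent.Lib.MP_7c5fb9_nt

namespace LT

open scoped nonZeroDivisors

variable {K : Type} [Field K] [NumberField K]

/-- `Q` is a form with positive first coefficient attached to the ideal class `c` and the ideal `n`
of norm two: `I = ℤ x + ℤ y` is an ideal of the class, `n I = ℤ x + ℤ 2 y`, and
`Q (m, l)` is the norm of `m x + l y` divided by the norm of `I`. -/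
def FormOf (n : Ideal (NumberField.RingOfIntegers K))
    (c : ClassGroup (NumberField.RingOfIntegers K)) (Q : LO.Frm) : Prop :=
  0 < Q 0 ∧ ∃ (I : (Ideal (NumberField.RingOfIntegers K))⁰) (x y : NumberField.RingOfIntegers K),
    ClassGroup.mk0 I = c ∧
    (∀ z : NumberField.RingOfIntegers K, z ∈ (I : Ideal (NumberField.RingOfIntegers K)) ↔
      ∃ m l : ℤ, z = (m : NumberField.RingOfIntegers K) * x +
        (l : NumberField.RingOfIntegers K) * y) ∧
    (∀ z : NumberField.RingOfIntegers K, z ∈ n * (I : Ideal (NumberField.RingOfIntegers K)) ↔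
      ∃ m l : ℤ, z = (m : NumberField.RingOfIntegers K) * x +
        (l : NumberField.RingOfIntegers K) * (2 * y)) ∧
    ∀ m l : ℤ, Algebra.norm ℤ ((m : NumberField.RingOfIntegers K) * x +
      (l : NumberField.RingOfIntegers K) * y) =
        (Ideal.absNorm (I : Ideal (NumberField.RingOfIntegers K)) : ℤ) *
          (Q 0 * m ^ 2 + Q 1 * (m * l) + Q 2 * l ^ 2)

end LT

end Pool.Agent.Lib.MP_7c5fb9_nt
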