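import Pool.Agent.Lib.MP_7c5fb9_nt.LT.Basic2
import Pool.Agent.Lib.MP_7c5fb9_nt.LO.KR.W

set_option autoImplicit false

/-!
# Level two (MP_7c5fb9_nt, project LT): symbols are symmetric, and harmonic from degree three on
-/

namespace Pool.Agent.Lib.MP_7c5fb9_nt

namespace LT

open LO

/-- Permutations of the tail. -/
theorem perm_tail {m d : ℕ} {v : Mat → ZMod 3} (hm : MF m v) (hF : LO.Fil (d + 1) v)
    {l l' : List (Fin 3)} (hp : l.Perm l') (hl : l.length = d) :
    l.foldr Xd v = l'.foldr Xd v := by
  have hA := (KR.lev_iff m v).mp hm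
  have hF' := (KR.fil_iff m (d + 1) v hA).mp hF
  rw [KR.foldr_eq, KR.foldr_eq]
  exact KR.Wd_perm_apply hF' hp hl

/-- Symbols of functions satisfying the relations of periods are symmetric. -/
theorem sym_two (hVOne : StVOne2) (hFirst : StFirst2) {m d : ℕ} {v : Mat → ZMod 3}
    (hm : MF m v) (hw : WR2 v) (hF : LO.Fil (d + 1) v) :
    (∀ l l' : List (Fin 3), l.length = d + 1 → l.Perm l' → sym v l = sym v l') ∧
      ((∀ l : List (Fin 3), l.length = d + 1 → sym v l = 0) → LO.Fil d v) := by
  -- the first order lemma
  have first : ∀ l : List (Fin 3), l.length + 1 = d →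
      ∀ i j, ac i (Xd j (l.foldr Xd v)) = ac j (Xd i (l.foldr Xd v)) := by
    intro l hl
    exact hFirst m _ (hm.foldr l) (hw.foldr l)
      (Fil_foldr l (by rwa [show 2 + l.length = d + 1 by omega]))
  -- permutations of the tail
  have tail : ∀ (i : Fin 3) (l l' : List (Fin 3)), l.length = d → l.Perm l' →
      sym v (i :: l) = sym v (i :: l') := by
    intro i l l' hl hp
    rw [sym_cons, sym_cons, perm_tail hm hF hp hl]
  -- the head
  have head : ∀ (i j : Fin 3) (l : List (Fin 3)), l.length + 1 = d →
      sym v (i :: j :: l) = sym v (j :: i :: l) := by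
    intro i j l hl
    rw [sym_cons, sym_cons, List.foldr_cons, List.foldr_cons]
    exact first l hl i j
  refine ⟨?_, ?_⟩
  · intro l l' hl hp
    match l, l', hl, hp with
    | [], _, hl, _ => simp at hl
    | i :: t, [], _, hp => exact absurd hp.length_eq (by simp)
    | i :: t, i' :: t', hl, hp =>
      have ht : t.length = d := by simpa using hl
      by_cases hii : i = i'
      · subst hii
        exact tail i t t' ht hp.cons_inv
      · have hmem : i' ∈ t := by
          have : i' ∈ i :: t := hp.mem_iff.mpr (by simp)
          rcases List.mem_cons.mp this with h | h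
          · exact absurd h.symm hii
          · exact h
        have hs := List.perm_cons_erase hmem
        have hsl : (t.erase i').length + 1 = d := by
          have := hs.length_eq
          rw [List.length_cons] at this
          omega
        have h1 : (i :: t.erase i').Perm t' := by
          have h2 : (i' :: i :: t.erase i').Perm (i' :: t') :=
            (List.Perm.swap i i' _).trans ((hs.symm.cons i).trans hp)
          exact h2.cons_inv
        rw [tail i t _ ht hs, head i i' _ hsl]
        exact tail i' _ _ (by simpa using hsl) h1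
  · intro h0
    rw [Fil_iff]
    intro l hl
    have h1 : LO.Fil 1 (l.foldr Xd v) :=
      Fil_foldr l (by rwa [show 1 + l.length = d + 1 by omega])
    refine (hVOne m _ (hm.foldr l) (hw.foldr l) h1).2.2.2.1 ?_
    intro i
    rw [← sym_cons]
    exact h0 _ (by simp [hl])

/-- (Sym) -/
theorem stSym2 (hVOne : StVOne2) (hFirst : StFirst2) (hLap : StLap2) : StSym2 := by
  intro m d v hv hF
  obtain ⟨h1, h2⟩ := sym_two hVOne hFirst hv.mf hv.wr hF
  refine ⟨h1, ?_, h2⟩
  intro l hl0 hl
  match l, hl0, hl with
  | [], hl0, _ => exact absurd rfl hl0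
  | j :: t, _, hl =>
    have hl' : t.length + 2 = d := by simpa using hl
    have hy : LO.Fil 3 (t.foldr Xd v) :=
      Fil_foldr t (by rwa [show 3 + t.length = d + 1 by omega])
    have h3 := hLap m _ (hv.mf.foldr t) (hv.wr.foldr t) hy j
    rw [T5_foldr, hv.t5, foldr_zero, ac_zero] at h3
    have h4 : ∑ i, sym v (i :: i :: j :: t) = ∑ i, ac i (Xd i (Xd j (t.foldr Xd v))) := by
      refine Finset.sum_congr rfl fun i _ => ?_
      rw [sym_cons, List.foldr_cons, List.foldr_cons]
    rw [h4]
    exact (neg_eq_zero.1 h3.symm)

end LT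

end Pool.Agent.Lib.MP_7c5fb9_nt
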